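import Pool.Agent.helper738_F4.Suff

/-!
# Realizing the values with `B = 1`
-/

open Finset

namespace Pool.Agent.Helper738F4

lemma chk3 : Chk 2 3 3 2 [3, 3, 3] [3, 3, 3] [3, 3] [6, 5, 3] [7, 7] [7, 7] := by
  decide +kernel

/-- The theta data. -/
def D3 : EData := mk5 2 3 3 2 _ _ _ _ _ _ chk3

lemma chkP : Chk 4 5 5 4 [3, 3, 3, 12, 12] [3, 15, 15, 3, 3] [15, 15, 3, 3] [6, 29, 27, 5, 5]
    [31, 31, 5, 5] [7, 7, 24, 24] := by
  decide +kernel

/-- The theta data with two cycles which are not related. -/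
def DP : EData := mk5 4 5 5 4 _ _ _ _ _ _ chkP

lemma chkM : Chk 4 5 5 4 [3, 3, 3, 12, 12] [3, 15, 15, 15, 15] [15, 15, 15, 15]
    [6, 29, 27, 30, 30] [31, 31, 30, 30] [7, 7, 24, 24] := by
  decide +kernel

/-- The theta data with two related cycles. -/
def DM : EData := mk5 4 5 5 4 _ _ _ _ _ _ chkM

lemma theta_plain (r1 r2 r3 s1 s2 s3 : ℕ) {a b g : ℕ} (ha : a = 2 + r1 + r2 + r3)
    (hb : b = 2 + s1 + s2 + s3) (hg : g + (r1 * s1 + r2 * s2 + r3 * s3) = a * b) :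
    Real a b 1 g := by
  have h0 : EData.SubReal D3 D3.wx D3.wy 2 2 1 4 :=
    EData.SubReal.start D3 (Fintype.card_fin 2) (Fintype.card_fin 2) (Fintype.card_fin 3)
      (by decide +kernel)
  have h1 := (((((h0.splitE (0 : Fin 3) r1).splitE (1 : Fin 3) r2).splitE (2 : Fin 3) r3).splitH
    (0 : Fin 3) s1).splitH (1 : Fin 3) s2).splitH (2 : Fin 3) s3
  have h2 := h1.real
  have wx : ∀ h : Fin 3, D3.wx h = 2 := by decide +kernel
  have wy : ∀ h : Fin 3, D3.wy h = 2 := by decide +kernel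
  have r00 : (D3.r (0 : Fin 3) (0 : Fin 3)).toNat = 0 := by decide +kernel
  have r01 : (D3.r (0 : Fin 3) (1 : Fin 3)).toNat = 1 := by decide +kernel
  have r02 : (D3.r (0 : Fin 3) (2 : Fin 3)).toNat = 1 := by decide +kernel
  have r10 : (D3.r (1 : Fin 3) (0 : Fin 3)).toNat = 1 := by decide +kernel
  have r11 : (D3.r (1 : Fin 3) (1 : Fin 3)).toNat = 0 := by decide +kernel
  have r12 : (D3.r (1 : Fin 3) (2 : Fin 3)).toNat = 1 := by decide +kernel
  have r20 : (D3.r (2 : Fin 3) (0 : Fin 3)).toNat = 1 := by decide +kernel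
  have r21 : (D3.r (2 : Fin 3) (1 : Fin 3)).toNat = 1 := by decide +kernel
  have r22 : (D3.r (2 : Fin 3) (2 : Fin 3)).toNat = 0 := by decide +kernel
  simp only [r00, r01, r02, r10, r11, r12, r20, r21, r22, wx, wy] at h2
  subst ha hb
  convert h2 using 1
  have e : (4 + r1 * 2 + r2 * 2 + r3 * 2 + s1 * (2 + r1 * 0 + r2 * 1 + r3 * 1) +
      s2 * (2 + r1 * 1 + r2 * 0 + r3 * 1) + s3 * (2 + r1 * 1 + r2 * 1 + r3 * 0)) +
      (r1 * s1 + r2 * s2 + r3 * s3) = (2 + r1 + r2 + r3) * (2 + s1 + s2 + s3) := by ring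
  omega

lemma theta_plus (r1 r2 r3 l s1 s2 s3 k : ℕ) {a b g : ℕ} (ha : a = 4 + r1 + r2 + r3 + l)
    (hb : b = 4 + s1 + s2 + s3 + k)
    (hg : g + ((r1 + (l + 2)) * s1 + r2 * (s2 + (k + 2)) + r3 * s3 + (l + 2) * (k + 2)) = a * b) :
    Real a b 1 g := by
  have h0 : EData.SubReal DP DP.wx DP.wy 4 4 1 12 :=
    EData.SubReal.start DP (Fintype.card_fin 4) (Fintype.card_fin 4) (Fintype.card_fin 5)
      (by decide +kernel)
  have h1 := (((((((h0.splitE (0 : Fin 5) r1).splitE (1 : Fin 5) r2).splitE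
    (2 : Fin 5) r3).splitE (3 : Fin 5) l).splitH
    (0 : Fin 5) s1).splitH (1 : Fin 5) s2).splitH (2 : Fin 5) s3).splitH (3 : Fin 5) k
  have h2 := h1.real
  have x0 : DP.wx (0 : Fin 5) = 2 := by decide +kernel
  have x1 : DP.wx (1 : Fin 5) = 4 := by decide +kernel
  have x2 : DP.wx (2 : Fin 5) = 4 := by decide +kernel
  have x3 : DP.wx (3 : Fin 5) = 2 := by decide +kernel
  have y0 : DP.wy (0 : Fin 5) = 4 := by decide +kernel
  have y1 : DP.wy (1 : Fin 5) = 2 := by decide +kernel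
  have y2 : DP.wy (2 : Fin 5) = 4 := by decide +kernel
  have y3 : DP.wy (3 : Fin 5) = 2 := by decide +kernel
  have r00 : (DP.r (0 : Fin 5) (0 : Fin 5)).toNat = 0 := by decide +kernel
  have r01 : (DP.r (0 : Fin 5) (1 : Fin 5)).toNat = 1 := by decide +kernel
  have r02 : (DP.r (0 : Fin 5) (2 : Fin 5)).toNat = 1 := by decide +kernel
  have r03 : (DP.r (0 : Fin 5) (3 : Fin 5)).toNat = 1 := by decide +kernel
  have r10 : (DP.r (1 : Fin 5) (0 : Fin 5)).toNat = 1 := by decide +kernel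
  have r11 : (DP.r (1 : Fin 5) (1 : Fin 5)).toNat = 0 := by decide +kernel
  have r12 : (DP.r (1 : Fin 5) (2 : Fin 5)).toNat = 1 := by decide +kernel
  have r13 : (DP.r (1 : Fin 5) (3 : Fin 5)).toNat = 0 := by decide +kernel
  have r20 : (DP.r (2 : Fin 5) (0 : Fin 5)).toNat = 1 := by decide +kernel
  have r21 : (DP.r (2 : Fin 5) (1 : Fin 5)).toNat = 1 := by decide +kernel
  have r22 : (DP.r (2 : Fin 5) (2 : Fin 5)).toNat = 0 := by decide +kernel
  have r23 : (DP.r (2 : Fin 5) (3 : Fin 5)).toNat = 1 := by decide +kernel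
  have r30 : (DP.r (3 : Fin 5) (0 : Fin 5)).toNat = 0 := by decide +kernel
  have r31 : (DP.r (3 : Fin 5) (1 : Fin 5)).toNat = 1 := by decide +kernel
  have r32 : (DP.r (3 : Fin 5) (2 : Fin 5)).toNat = 1 := by decide +kernel
  have r33 : (DP.r (3 : Fin 5) (3 : Fin 5)).toNat = 0 := by decide +kernel
  simp only [r00, r01, r02, r03, r10, r11, r12, r13, r20, r21, r22, r23, r30, r31, r32, r33,
    x0, x1, x2, x3, y0, y1, y2, y3] at h2
  subst ha hb
  convert h2 using 1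
  have e : (12 + r1 * 4 + r2 * 2 + r3 * 4 + l * 2 +
      s1 * (2 + r1 * 0 + r2 * 1 + r3 * 1 + l * 0) +
      s2 * (4 + r1 * 1 + r2 * 0 + r3 * 1 + l * 1) +
      s3 * (4 + r1 * 1 + r2 * 1 + r3 * 0 + l * 1) +
      k * (2 + r1 * 1 + r2 * 0 + r3 * 1 + l * 0)) +
      ((r1 + (l + 2)) * s1 + r2 * (s2 + (k + 2)) + r3 * s3 + (l + 2) * (k + 2)) =
      (4 + r1 + r2 + r3 + l) * (4 + s1 + s2 + s3 + k) := by ring
  omega

lemma theta_minus (r1 r2 r3 l s1 s2 s3 k : ℕ) {a b g : ℕ} (ha : a = 4 + r1 + r2 + r3 + l)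
    (hb : b = 4 + s1 + s2 + s3 + k)
    (hg : g + ((r1 + (l + 2)) * (s1 + (k + 2)) + r2 * s2 + r3 * s3) =
      a * b + (l + 2) * (k + 2)) :
    Real a b 1 g := by
  have h0 : EData.SubReal DM DM.wx DM.wy 4 4 1 16 :=
    EData.SubReal.start DM (Fintype.card_fin 4) (Fintype.card_fin 4) (Fintype.card_fin 5)
      (by decide +kernel)
  have h1 := (((((((h0.splitE (0 : Fin 5) r1).splitE (1 : Fin 5) r2).splitE
    (2 : Fin 5) r3).splitE (3 : Fin 5) l).splitH
    (0 : Fin 5) s1).splitH (1 : Fin 5) s2).splitH (2 : Fin 5) s3).splitH (3 : Fin 5) k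
  have h2 := h1.real
  have x0 : DM.wx (0 : Fin 5) = 2 := by decide +kernel
  have x1 : DM.wx (1 : Fin 5) = 4 := by decide +kernel
  have x2 : DM.wx (2 : Fin 5) = 4 := by decide +kernel
  have x3 : DM.wx (3 : Fin 5) = 4 := by decide +kernel
  have y0 : DM.wy (0 : Fin 5) = 2 := by decide +kernel
  have y1 : DM.wy (1 : Fin 5) = 4 := by decide +kernel
  have y2 : DM.wy (2 : Fin 5) = 4 := by decide +kernel
  have y3 : DM.wy (3 : Fin 5) = 4 := by decide +kernel
  have r00 : (DM.r (0 : Fin 5) (0 : Fin 5)).toNat = 0 := by decide +kernel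
  have r01 : (DM.r (0 : Fin 5) (1 : Fin 5)).toNat = 1 := by decide +kernel
  have r02 : (DM.r (0 : Fin 5) (2 : Fin 5)).toNat = 1 := by decide +kernel
  have r03 : (DM.r (0 : Fin 5) (3 : Fin 5)).toNat = 0 := by decide +kernel
  have r10 : (DM.r (1 : Fin 5) (0 : Fin 5)).toNat = 1 := by decide +kernel
  have r11 : (DM.r (1 : Fin 5) (1 : Fin 5)).toNat = 0 := by decide +kernel
  have r12 : (DM.r (1 : Fin 5) (2 : Fin 5)).toNat = 1 := by decide +kernel
  have r13 : (DM.r (1 : Fin 5) (3 : Fin 5)).toNat = 1 := by decide +kernel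
  have r20 : (DM.r (2 : Fin 5) (0 : Fin 5)).toNat = 1 := by decide +kernel
  have r21 : (DM.r (2 : Fin 5) (1 : Fin 5)).toNat = 1 := by decide +kernel
  have r22 : (DM.r (2 : Fin 5) (2 : Fin 5)).toNat = 0 := by decide +kernel
  have r23 : (DM.r (2 : Fin 5) (3 : Fin 5)).toNat = 1 := by decide +kernel
  have r30 : (DM.r (3 : Fin 5) (0 : Fin 5)).toNat = 0 := by decide +kernel
  have r31 : (DM.r (3 : Fin 5) (1 : Fin 5)).toNat = 1 := by decide +kernel
  have r32 : (DM.r (3 : Fin 5) (2 : Fin 5)).toNat = 1 := by decide +kernel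
  have r33 : (DM.r (3 : Fin 5) (3 : Fin 5)).toNat = 1 := by decide +kernel
  simp only [r00, r01, r02, r03, r10, r11, r12, r13, r20, r21, r22, r23, r30, r31, r32, r33,
    x0, x1, x2, x3, y0, y1, y2, y3] at h2
  subst ha hb
  convert h2 using 1
  have e : (16 + r1 * 2 + r2 * 4 + r3 * 4 + l * 4 +
      s1 * (2 + r1 * 0 + r2 * 1 + r3 * 1 + l * 0) +
      s2 * (4 + r1 * 1 + r2 * 0 + r3 * 1 + l * 1) +
      s3 * (4 + r1 * 1 + r2 * 1 + r3 * 0 + l * 1) +
      k * (4 + r1 * 0 + r2 * 1 + r3 * 1 + l * 1)) +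
      ((r1 + (l + 2)) * (s1 + (k + 2)) + r2 * s2 + r3 * s3) =
      (4 + r1 + r2 + r3 + l) * (4 + s1 + s2 + s3 + k) + (l + 2) * (k + 2) := by ring
  omega

/-- The values `t = a b - g` with the plain theta data and one subdivision. -/
lemma plain_ok {A C t g : ℕ} (hA : 2 ≤ A) (h : t % (A - 1) + t / (A - 1) ≤ C)
    (hg : g + t = (A + 2) * (C + 2)) : Real (A + 2) (C + 2) 1 g := by
  obtain ⟨A', rfl⟩ := Nat.exists_eq_add_of_le hA
  have e1 : 2 + A' - 1 = A' + 1 := by omega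
  rw [e1] at h
  have h3 := Nat.div_add_mod t (A' + 1)
  generalize t / (A' + 1) = q at *
  generalize t % (A' + 1) = m at *
  refine theta_plain 1 (A' + 1) 0 m q (C - m - q) (by ring) (by omega) ?_
  rw [← hg, ← h3]
  ring

end Pool.Agent.Helper738F4
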