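import Pool.Agent.helper738_F4.Cov

/-!
# All values with `B = 1`
-/

open Finset

namespace Pool.Agent.Helper738F4

lemma real_three {b δ : ℕ} (h2 : 2 ≤ δ) (hb : δ ≤ b) : Real 3 b 1 (δ + 2 * b) := by
  obtain ⟨t, rfl⟩ := Nat.exists_eq_add_of_le hb
  obtain ⟨c, rfl⟩ := Nat.exists_eq_add_of_le h2
  exact theta_plain 1 0 0 t c 0 (by norm_num) (by ring) (by ring)

lemma real_four_even {b q : ℕ} (h1 : q ≤ b) (h2 : 2 ≤ q) : Real 4 b 1 (2 * q + 2 * b) := by
  obtain ⟨t, rfl⟩ := Nat.exists_eq_add_of_le h1
  obtain ⟨c, rfl⟩ := Nat.exists_eq_add_of_le h2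
  exact theta_plain 2 0 0 t c 0 (by norm_num) (by ring) (by ring)

lemma exc_shift {a b δ : ℕ} (ha : 4 ≤ a) (hb : 4 ≤ b) (h : ¬ Exc a b δ) :
    ¬ Exc (a - 2) (b - 2) δ := by
  unfold Exc at h ⊢
  push Not at h ⊢
  obtain ⟨x1, x2, x3, x4, x5⟩ := h
  have p1 : Odd (a - 2) ↔ Odd a := by
    rw [Nat.odd_sub (by omega)]; simp
  have p2 : Even (a - 2) ↔ Even a := by
    rw [Nat.even_sub (by omega)]; simp
  rw [p1, p2]
  refine ⟨x1, x2, x3, ?_, ?_⟩
  · intro h1 h2 h3
    exact x4 h1 h2 (by omega)
  · intro h1 h2
    have := x5 h1 h2
    omega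

lemma real_one : ∀ (n a b δ : ℕ), a = n → 2 ≤ a → a ≤ b → δ + 2 * b ≤ a * b →
    ¬ Exc a b δ → (a = 4 → Odd δ → b + 2 ≤ δ) → Real a b 1 (δ + 2 * b) := by
  intro n
  induction n using Nat.strong_induction_on with
  | _ n ih =>
    intro a b δ han ha hab hg hex h4
    rcases (show a = 2 ∨ a = 3 ∨ a = 4 ∨ 5 ≤ a by omega) with h | h | h | h
    · subst h
      have hδ : δ = 0 := by omega
      subst hδ
      have := (real_2b hab).real.up (by norm_num)
      rw [zero_add]
      exact this.real
    · subst h
      unfold Exc at hex
      push Not at hex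
      obtain ⟨x1, x2, x3, x4, x5⟩ := hex
      have := x2 (by decide)
      exact real_three (by omega) (by omega)
    · subst h
      unfold Exc at hex
      push Not at hex
      obtain ⟨x1, x2, x3, x4, x5⟩ := hex
      have h5 := x3 (by decide)
      rcases Nat.even_or_odd δ with h6 | h6
      · obtain ⟨q, hq⟩ := h6
        have hq' : δ = 2 * q := by omega
        subst hq'
        rcases Nat.eq_zero_or_pos q with h7 | h7
        · subst h7
          have h8 := ((real_2b (b := b - 2) (by omega)).real.shift 1).up (by norm_num)
          have e1 : b - 2 + 2 * 1 = b := by omega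
          have e2 : 2 * (b - 2) + 4 * 1 = 2 * 0 + 2 * b := by omega
          rw [e1, e2] at h8
          exact h8.real
        · exact real_four_even (by omega) (by omega)
      · have h7 := h4 rfl h6
        have := plain_ok (A := 2) (C := b - 2) (t := 2 * b - δ) (g := δ + 2 * b) le_rfl
          (by simp [Nat.mod_one]; omega) (by omega)
        have e1 : b - 2 + 2 = b := by omega
        rwa [e1] at this
    · obtain ⟨A, rfl⟩ : ∃ A, a = A + 2 := ⟨a - 2, by omega⟩
      obtain ⟨C, rfl⟩ : ∃ C, b = C + 2 := ⟨b - 2, by omega⟩
      obtain ⟨t, ht⟩ : ∃ t, δ + 2 * (C + 2) + t = (A + 2) * (C + 2) :=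
        ⟨(A + 2) * (C + 2) - (δ + 2 * (C + 2)), by omega⟩
      by_cases hsmall : t + 1 ≤ 2 * A + 2 * C
      · refine cov1 (t := t) (by omega) (by omega) hsmall ?_ ?_ ht
        · rintro ⟨rfl, rfl, h5⟩
          apply hex
          unfold Exc
          rcases h5 with rfl | rfl
          · have : δ = 5 := by omega
            subst this
            right; right; right; right
            exact ⟨by decide, rfl, by norm_num⟩
          · have : δ = 4 := by omega
            subst this
            right; right; right; left
            exact ⟨by decide, rfl, rfl⟩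
        · rintro ⟨rfl, rfl, rfl⟩
          apply hex
          unfold Exc
          have : δ = 5 := by omega
          subst this
          right; right; right; right
          exact ⟨by decide, rfl, by norm_num⟩
      · by_cases hsp : A = 4 ∧ Odd δ ∧ δ < C + 2
        · obtain ⟨rfl, hodd, hlt⟩ := hsp
          unfold Exc at hex
          push Not at hex
          obtain ⟨x1, x2, x3, x4, x5⟩ := hex
          have h5 := x3 (by decide)
          have h6 : 5 ≤ δ := by
            obtain ⟨c, hc⟩ := hodd
            omega
          obtain ⟨d, rfl⟩ := Nat.exists_eq_add_of_le h6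
          have h7 := (real_three (b := C) (δ := 3 + d) (by omega) (by omega)).add
            (real_2b (b := 3) (by norm_num)).real.dual
          have e1 : 3 + d + 2 * C + 2 * 3 = 5 + d + 2 * (C + 2) := by ring
          rw [e1] at h7
          exact h7
        · have h5 := exc_shift (by omega) (by omega) hex
          have e1 : A + 2 - 2 = A := by omega
          have e2 : C + 2 - 2 = C := by omega
          rw [e1, e2] at h5
          have h6 : δ + 2 * C ≤ A * C := by
            have : (A + 2) * (C + 2) = A * C + 2 * A + 2 * C + 4 := by ring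
            omega
          have h7 := ih A (by omega) A C δ rfl (by omega) (by omega) h6 h5 (by
            intro h8 h9
            by_contra h10
            exact hsp ⟨h8, h9, by omega⟩)
          have h8 := h7.shift 1
          have e3 : δ + 2 * C + 4 * 1 = δ + 2 * (C + 2) := by ring
          rw [e3] at h8
          exact h8

end Pool.Agent.Helper738F4
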