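import Mathlib

/-!
# Doubled matrices
-/

open Finset

namespace Pool.Agent.Helper738F4

/-- There is a 0/1 matrix with `a` rows, `b` columns and `g` ones, without zero rows and zero
columns, in which every row equals another row and every column equals another column. -/
def DoubleMatrix (a b g : ℕ) : Prop :=
  ∃ M : Fin a → Fin b → Bool, (∑ i, ∑ j, (M i j).toNat = g) ∧
    (∀ i, ∃ j, M i j = true) ∧ (∀ j, ∃ i, M i j = true) ∧
    (∀ i, ∃ i', i' ≠ i ∧ ∀ j, M i' j = M i j) ∧ (∀ j, ∃ j', j' ≠ j ∧ ∀ i, M i j' = M i j)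

end Pool.Agent.Helper738F4
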