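import Pool.Agent.helper738_F4.Nec
import Pool.Agent.helper738_F4.Double

/-!
# The case `B = 0`
-/

open Finset

namespace Pool.Agent.Helper738F4

/-- A permutation without fixed points preserving a map whose fibers have no single element. -/
lemma exists_perm {X C : Type} [Fintype X] (f : X → C)
    (h : ∀ x, ∃ x', x' ≠ x ∧ f x' = f x) :
    ∃ σ : Equiv.Perm X, ∀ x, σ x ≠ x ∧ f (σ x) = f x := by
  classical
  have key : ∀ c : C, ∃ σ : Equiv.Perm {x // f x = c}, ∀ x, σ x ≠ x := by
    intro c
    set n := Fintype.card {x // f x = c} with hn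
    obtain ⟨e⟩ := Fintype.truncEquivFin {x // f x = c}
    refine ⟨e.trans ((finRotate _).trans e.symm), ?_⟩
    intro x hx
    obtain ⟨x', hx', hf⟩ := h x.1
    have h2 : 2 ≤ n := by
      rw [hn, show 2 = 1 + 1 from rfl, Nat.succ_le_iff, Fintype.one_lt_card_iff]
      exact ⟨⟨x', hf.trans x.2⟩, x, fun h' => hx' (congrArg Subtype.val h')⟩
    have h3 : finRotate n (e x) = e x := by
      have := congrArg e hx
      simpa using this
    obtain ⟨m, hm⟩ : ∃ m, n = m + 2 := ⟨n - 2, by omega⟩
    have h4 : ∀ (k : ℕ) (hk : k = m + 2) (y : Fin k), finRotate k y ≠ y := by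
      intro k hk y
      subst hk
      rw [finRotate_apply]
      intro h5
      simp at h5
    exact h4 n hm _ h3
  choose σ hσ using key
  refine ⟨(Equiv.sigmaFiberEquiv f).symm.trans
    ((Equiv.sigmaCongrRight σ).trans (Equiv.sigmaFiberEquiv f)), ?_⟩
  intro x
  constructor
  · intro hx
    have h1 : σ (f x) ⟨x, rfl⟩ = ⟨x, rfl⟩ := Subtype.ext hx
    exact hσ _ _ h1
  · exact (σ (f x) ⟨x, rfl⟩).2

open Classical in
lemma sum_single' {α : Type} [Fintype α] (f : α → Bool) (a : α) :
    ∑ x, (decide (a = x) && f x).toNat = (f a).toNat := by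
  rw [Finset.sum_eq_single a]
  · simp
  · intro b _ hb; simp [Ne.symm hb]
  · simp

open Classical in
lemma or_toNat {p q : Prop} (h : ¬ (p ∧ q)) (f : Bool) :
    ((decide p || decide q) && f).toNat = (decide p && f).toNat + (decide q && f).toNat := by
  by_cases hp : p <;> by_cases hq : q
  · exact absurd ⟨hp, hq⟩ h
  all_goals simp [hp, hq]

open Classical in
/-- Data with `B = 0` from two permutations. -/
noncomputable def permData (X Y : Type) [Fintype X] [Fintype Y] (σ : Equiv.Perm X)
    (τ : Equiv.Perm Y) (w : X → Y → Bool) (hσ : ∀ x, σ x ≠ x ∧ ∀ y, w (σ x) y = w x y)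
    (hτ : ∀ y, τ y ≠ y ∧ ∀ x, w x (τ y) = w x y) (hx : ∀ x, ∃ y, w x y = true)
    (hy : ∀ y, ∃ x, w x y = true) : EData where
  X := X
  E := X
  H := Y
  Y := Y
  i x e := decide (x = e) || decide (x = σ e)
  r := w
  j h y := decide (y = h) || decide (y = τ h)
  u := w
  v := w
  w := w
  i2 e := by
    have h1 : ∀ x, (decide (x = e) || decide (x = σ e)).toNat =
        (decide (e = x) && true).toNat + (decide (σ e = x) && true).toNat := by
      intro x
      have := or_toNat (p := x = e) (q := x = σ e)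
        (by rintro ⟨h1, h2⟩; exact (hσ e).1 (h2.symm.trans h1)) true
      rw [Bool.and_true] at this
      rw [this, eq_comm (a := x) (b := e), eq_comm (a := x) (b := σ e)]
    rw [Finset.sum_congr rfl fun x _ => h1 x, Finset.sum_add_distrib, sum_single', sum_single']
    rfl
  j2 e := by
    have h1 : ∀ x, (decide (x = e) || decide (x = τ e)).toNat =
        (decide (e = x) && true).toNat + (decide (τ e = x) && true).toNat := by
      intro x
      have := or_toNat (p := x = e) (q := x = τ e)
        (by rintro ⟨h1, h2⟩; exact (hτ e).1 (h2.symm.trans h1)) true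
      rw [Bool.and_true] at this
      rw [this, eq_comm (a := x) (b := e), eq_comm (a := x) (b := τ e)]
    rw [Finset.sum_congr rfl fun x _ => h1 x, Finset.sum_add_distrib, sum_single', sum_single']
    rfl
  xh x h := by
    have h1 : ∀ e, ((decide (x = e) || decide (x = σ e)) && w e h).toNat =
        (decide (x = e) && w e h).toNat + (decide (σ.symm x = e) && w e h).toNat := by
      intro e
      rw [or_toNat (by rintro ⟨h1, h2⟩; exact (hσ e).1 (h2.symm.trans h1)),
        Equiv.symm_apply_eq]
    rw [Finset.sum_congr rfl fun x _ => h1 x, Finset.sum_add_distrib, sum_single', sum_single']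
    have h2 := (hσ (σ.symm x)).2 h
    rw [Equiv.apply_symm_apply] at h2
    rw [← h2]; ring
  ey e y := by
    have h1 : ∀ h, (w e h && (decide (y = h) || decide (y = τ h))).toNat =
        (decide (y = h) && w e h).toNat + (decide (τ.symm y = h) && w e h).toNat := by
      intro h
      rw [Bool.and_comm,
        or_toNat (by rintro ⟨h1, h2⟩; exact (hτ h).1 (h2.symm.trans h1)), Equiv.symm_apply_eq]
    rw [Finset.sum_congr rfl fun x _ => h1 x, Finset.sum_add_distrib, sum_single', sum_single']
    have h2 := (hτ (τ.symm y)).2 e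
    rw [Equiv.apply_symm_apply] at h2
    rw [← h2]; ring
  wu x y := by
    constructor
    · intro h
      exact ⟨y, h, by simp⟩
    · rintro ⟨h, h1, h2⟩
      simp only [Bool.or_eq_true, decide_eq_true_eq] at h2
      rcases h2 with h2 | h2
      · rw [h2]; exact h1
      · rw [h2, (hτ h).2]; exact h1
  xc x := by
    have h1 : ∀ e, (decide (x = e) || decide (x = σ e)).toNat =
        (decide (x = e) && true).toNat + (decide (σ.symm x = e) && true).toNat := by
      intro e
      have := or_toNat (p := x = e) (q := x = σ e)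
        (by rintro ⟨h1, h2⟩; exact (hσ e).1 (h2.symm.trans h1)) true
      rw [Bool.and_true] at this
      rw [this, Equiv.symm_apply_eq]
    rw [Finset.sum_congr rfl fun x _ => h1 x, Finset.sum_add_distrib, sum_single', sum_single']
    simp only [Bool.toNat_true]
    ring
  yc y := by
    have h1 : ∀ e, (decide (y = e) || decide (y = τ e)).toNat =
        (decide (y = e) && true).toNat + (decide (τ.symm y = e) && true).toNat := by
      intro e
      have := or_toNat (p := y = e) (q := y = τ e)
        (by rintro ⟨h1, h2⟩; exact (hτ e).1 (h2.symm.trans h1)) true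
      rw [Bool.and_true] at this
      rw [this, Equiv.symm_apply_eq]
    rw [Finset.sum_congr rfl fun x _ => h1 x, Finset.sum_add_distrib, sum_single', sum_single']
    simp only [Bool.toNat_true]
  eh := hx
  he := hy

lemma real_of_matrix {a b g : ℕ} (h : DoubleMatrix a b g) : Real a b 0 g := by
  obtain ⟨M, h1, h2, h3, h4, h5⟩ := h
  obtain ⟨σ, hσ⟩ := exists_perm (fun i => M i) (fun i => by
    obtain ⟨i', hi, hj⟩ := h4 i
    exact ⟨i', hi, funext hj⟩)
  obtain ⟨τ, hτ⟩ := exists_perm (fun j => fun i => M i j) (fun j => by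
    obtain ⟨i', hi, hj⟩ := h5 j
    exact ⟨i', hi, funext hj⟩)
  exact ⟨permData (Fin a) (Fin b) σ τ M (fun x => ⟨(hσ x).1, fun y => congrFun (hσ x).2 y⟩)
    (fun y => ⟨(hτ y).1, fun x => congrFun (hτ y).2 x⟩) h2 h3, Fintype.card_fin a,
    Fintype.card_fin b, Fintype.card_fin a, h1⟩

namespace EData

variable {D : EData}

lemma deg_x_ge (x : D.X) : 2 ≤ ∑ e, (D.i x e).toNat := D.dual.two_le_deg x

/-- If `B = 0` then every atom lies below exactly two elements of rank two. -/
lemma deg_x_eq (hB : Fintype.card D.E = Fintype.card D.X) (x : D.X) :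
    ∑ e, (D.i x e).toNat = 2 := by
  have h1 := D.f12
  have h2 : ∑ _x : D.X, 2 = ∑ x, ∑ e, (D.i x e).toNat := by
    rw [h1, hB]; simp [mul_comm]
  exact ((Finset.sum_eq_sum_iff_of_le fun x _ => D.deg_x_ge x).1 h2 x (Finset.mem_univ x)).symm

lemma row_eq (hB : Fintype.card D.E = Fintype.card D.X) (x : D.X) :
    ∃ x', x' ≠ x ∧ ∀ y, D.w x' y = D.w x y := by
  classical
  obtain ⟨e, he⟩ : ∃ e, D.i x e = true := exists_of_sum_pos (by
    have := D.deg_x_ge x; omega)
  have hc := card_AE e
  have hx : x ∈ D.AE e := mem_AE.2 he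
  obtain ⟨x', hx', hne⟩ : ∃ x' ∈ D.AE e, x' ≠ x := by
    apply Finset.exists_mem_ne
    omega
  rw [mem_AE] at hx'
  -- for an atom `z` of `e`: `z < y` iff `e < y`
  have key : ∀ z, D.i z e = true → ∀ y, D.w z y = D.v e y := by
    intro z hz y
    cases hv : D.v e y
    · by_contra hw
      have hw' : D.w z y = true := by
        cases h : D.w z y
        · exact absurd h hw
        · rfl
      -- two elements of rank two between `z` and `y`
      obtain ⟨h, h1, h2⟩ := (D.wu z y).1 hw'
      have h3 := D.xh z h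
      rw [h1, Bool.toNat_true, mul_one] at h3
      have h4 := D.deg_x_eq hB z
      have h5 : ∑ e, (D.i z e && D.r e h).toNat = ∑ e, (D.i z e).toNat := by rw [h3, h4]
      have h6 := (Finset.sum_eq_sum_iff_of_le (fun e _ => by
        cases D.i z e <;> cases D.r e h <;> decide)).1 h5 e (Finset.mem_univ e)
      rw [hz] at h6
      have h7 : D.r e h = true := by
        cases hr : D.r e h
        · rw [hr] at h6; simp at h6
        · rfl
      have h8 := (D.ey_iff e y).2 ⟨h, h7, h2⟩
      rw [hv] at h8
      exact absurd h8 (by decide)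
    · exact (D.wv z y).2 ⟨e, hv, hz⟩
  exact ⟨x', hne, fun y => by rw [key x' hx' y, key x he y]⟩

lemma exists_y (x : D.X) : ∃ y, D.w x y = true := by
  obtain ⟨h, hh⟩ := D.dual.exists_h x
  obtain ⟨y, hy⟩ := D.eh h
  obtain ⟨z, hz⟩ : ∃ z, D.j y z = true := exists_of_sum_pos (by rw [D.j2]; decide)
  exact ⟨z, (D.wv x z).2 ⟨h, (D.ey_iff h z).2 ⟨y, hy, hz⟩, hh⟩⟩

end EData

lemma matrix_of_real {a b g : ℕ} (h : Real a b 0 g) : DoubleMatrix a b g := by
  obtain ⟨D, h1, h2, h3, h4⟩ := h
  rw [add_zero] at h3
  have hB : Fintype.card D.E = Fintype.card D.X := by rw [h3, h1]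
  have hB' : Fintype.card D.dual.E = Fintype.card D.dual.X := by
    have := D.gc
    change Fintype.card D.H = Fintype.card D.Y
    omega
  have eX := Fintype.equivFinOfCardEq h1
  have eY := Fintype.equivFinOfCardEq h2
  refine ⟨fun i j => D.w (eX.symm i) (eY.symm j), ?_, ?_, ?_, ?_, ?_⟩
  · rw [← h4, EData.g, ← eX.symm.sum_comp]
    refine Finset.sum_congr rfl fun i _ => ?_
    rw [← eY.symm.sum_comp]
  · intro i
    obtain ⟨y, hy⟩ := EData.exists_y (eX.symm i)
    exact ⟨eY y, by simpa using hy⟩
  · intro j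
    obtain ⟨x, hx⟩ : ∃ x : D.X, D.w x (eY.symm j) = true :=
      EData.exists_y (D := D.dual) (eY.symm j)
    refine ⟨eX x, ?_⟩
    change D.w (eX.symm (eX x)) (eY.symm j) = true
    rw [Equiv.symm_apply_apply]
    exact hx
  · intro i
    obtain ⟨x', hx', hy⟩ := EData.row_eq hB (eX.symm i)
    refine ⟨eX x', ?_, ?_⟩
    · intro h
      apply hx'
      rw [← h]; simp
    · intro j
      change D.w (eX.symm (eX x')) _ = D.w (eX.symm i) _
      rw [Equiv.symm_apply_apply]; exact hy _
  · intro i
    obtain ⟨x', hx', hy⟩ : ∃ x' : D.Y, x' ≠ eY.symm i ∧ ∀ y : D.X, D.w y x' = D.w y (eY.symm i) :=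
      EData.row_eq (D := D.dual) hB' (eY.symm i)
    refine ⟨eY x', ?_, ?_⟩
    · intro h
      apply hx'
      rw [← h]; simp
    · intro j
      change D.w _ (eY.symm (eY x')) = D.w _ (eY.symm i)
      rw [Equiv.symm_apply_apply]; exact hy _

end Pool.Agent.Helper738F4
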