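import Pool.Agent.helper738_F4.BOne

/-!
# Covering the values with `B = 1`
-/

open Finset

namespace Pool.Agent.Helper738F4

lemma cov_4_4 {t g : ℕ} (ht : t ≤ 15) (hg : g + t = 36) : Real 6 6 1 g := by
  by_cases h : t % (4 - 1) + t / (4 - 1) ≤ 4
  · exact plain_ok (A := 4) (C := 4) (by norm_num) h hg
  · have h' : t = 11 ∨ t = 13 ∨ t = 14 ∨ t = 15 := by
      norm_num at h
      omega
    rcases h' with rfl | rfl | rfl | rfl
    · exact theta_plus 0 1 1 0 1 0 0 1 (by norm_num) (by norm_num) (by omega)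
    · exact theta_plus 0 1 0 1 0 1 0 1 (by norm_num) (by norm_num) (by omega)
    · exact theta_plus 0 2 0 0 0 1 0 1 (by norm_num) (by norm_num) (by omega)
    · exact theta_plus 0 1 0 1 1 0 0 1 (by norm_num) (by norm_num) (by omega)

lemma cov_5_5 {t g : ℕ} (ht : t ≤ 19) (hg : g + t = 49) : Real 7 7 1 g := by
  by_cases h : t % (5 - 1) + t / (5 - 1) ≤ 5
  · exact plain_ok (A := 5) (C := 5) (by norm_num) h hg
  · have h' : t = 15 ∨ t = 18 ∨ t = 19 := by
      norm_num at h
      omega
    rcases h' with rfl | rfl | rfl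
    · exact theta_plain 0 0 5 0 2 3 (by norm_num) (by norm_num) (by omega)
    · exact theta_plus 0 2 1 0 0 1 0 2 (by norm_num) (by norm_num) (by omega)
    · exact theta_plus 0 3 0 0 0 3 0 0 (by norm_num) (by norm_num) (by omega)

lemma cov_6_6 {t g : ℕ} (ht : t ≤ 23) (hg : g + t = 64) : Real 8 8 1 g := by
  by_cases h : t % (6 - 1) + t / (6 - 1) ≤ 6
  · exact plain_ok (A := 6) (C := 6) (by norm_num) h hg
  · have h' : t = 19 ∨ t = 23 := by
      norm_num at h
      omega
    rcases h' with rfl | rfl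
    · exact theta_plus 0 3 1 0 1 0 2 1 (by norm_num) (by norm_num) (by omega)
    · exact theta_plus 0 3 1 0 1 0 1 2 (by norm_num) (by norm_num) (by omega)

lemma cov_4_5 {t g : ℕ} (ht : t ≤ 17) (hg : g + t = 42) : Real 6 7 1 g := by
  by_cases h : t % (4 - 1) + t / (4 - 1) ≤ 5
  · exact plain_ok (A := 4) (C := 5) (by norm_num) h hg
  · have h' : t = 14 ∨ t = 16 ∨ t = 17 := by
      norm_num at h
      omega
    rcases h' with rfl | rfl | rfl
    · exact theta_plus 0 1 1 0 1 0 0 2 (by norm_num) (by norm_num) (by omega)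
    · exact theta_plain 0 0 4 0 1 4 (by norm_num) (by norm_num) (by omega)
    · exact theta_plus 0 1 0 1 0 1 0 2 (by norm_num) (by norm_num) (by omega)

lemma cov_4_6 {t g : ℕ} (ht : t ≤ 19) (hg : g + t = 48) : Real 6 8 1 g := by
  by_cases h : t % (4 - 1) + t / (4 - 1) ≤ 6
  · exact plain_ok (A := 4) (C := 6) (by norm_num) h hg
  · have h' : t = 17 ∨ t = 19 := by
      norm_num at h
      omega
    rcases h' with rfl | rfl
    · exact theta_plus 0 1 1 0 1 0 0 3 (by norm_num) (by norm_num) (by omega)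
    · exact theta_plus 0 1 0 1 1 0 1 2 (by norm_num) (by norm_num) (by omega)

lemma cov_4_7 {t g : ℕ} (ht : t ≤ 21) (hg : g + t = 54) : Real 6 9 1 g := by
  by_cases h : t % (4 - 1) + t / (4 - 1) ≤ 7
  · exact plain_ok (A := 4) (C := 7) (by norm_num) h hg
  · have h' : t = 20 := by
      norm_num at h
      omega
    subst h'
    exact theta_plain 0 0 4 0 2 5 (by norm_num) (by norm_num) (by omega)

lemma cov_4_8 {t g : ℕ} (ht : t ≤ 23) (hg : g + t = 60) : Real 6 10 1 g := by
  by_cases h : t % (4 - 1) + t / (4 - 1) ≤ 8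
  · exact plain_ok (A := 4) (C := 8) (by norm_num) h hg
  · have h' : t = 23 := by
      norm_num at h
      omega
    subst h'
    exact theta_plus 0 1 1 0 1 0 0 5 (by norm_num) (by norm_num) (by omega)

lemma cov_5_6 {t g : ℕ} (ht : t ≤ 21) (hg : g + t = 56) : Real 7 8 1 g := by
  by_cases h : t % (5 - 1) + t / (5 - 1) ≤ 6
  · exact plain_ok (A := 5) (C := 6) (by norm_num) h hg
  · have h' : t = 19 := by
      norm_num at h
      omega
    subst h'
    exact theta_plus 0 2 1 0 0 1 1 2 (by norm_num) (by norm_num) (by omega)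

lemma cov_5_7 {t g : ℕ} (ht : t ≤ 23) (hg : g + t = 63) : Real 7 9 1 g := by
  by_cases h : t % (5 - 1) + t / (5 - 1) ≤ 7
  · exact plain_ok (A := 5) (C := 7) (by norm_num) h hg
  · have h' : t = 23 := by
      norm_num at h
      omega
    subst h'
    exact theta_plus 0 2 1 0 0 1 1 3 (by norm_num) (by norm_num) (by omega)

lemma cov_6_7 {t g : ℕ} (ht : t ≤ 25) (hg : g + t = 72) : Real 8 9 1 g := by
  by_cases h : t % (6 - 1) + t / (6 - 1) ≤ 7
  · exact plain_ok (A := 6) (C := 7) (by norm_num) h hg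
  · have h' : t = 24 := by
      norm_num at h
      omega
    subst h'
    exact theta_plain 0 0 6 0 3 4 (by norm_num) (by norm_num) (by omega)

lemma cov_7_8 {t g : ℕ} (ht : t ≤ 29) (hg : g + t = 90) : Real 9 10 1 g := by
  by_cases h : t % (7 - 1) + t / (7 - 1) ≤ 8
  · exact plain_ok (A := 7) (C := 8) (by norm_num) h hg
  · have h' : t = 29 := by
      norm_num at h
      omega
    subst h'
    exact theta_plain 0 2 5 1 2 5 (by norm_num) (by norm_num) (by omega)


lemma cov_three {C t g : ℕ} (hC : 3 ≤ C) (ht : t ≤ 2 * C + 5)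
    (h1 : ¬ (C = 3 ∧ (t = 10 ∨ t = 11))) (h2 : ¬ (C = 4 ∧ t = 13))
    (hg : g + t = 5 * (C + 2)) : Real 5 (C + 2) 1 g := by
  by_cases h : t % (3 - 1) + t / (3 - 1) ≤ C
  · exact plain_ok (A := 3) (C := C) (by norm_num) h hg
  · have h' : 2 * C + 1 ≤ t := by
      norm_num at h
      omega
    rcases (show t % 3 = 0 ∨ t % 3 = 1 ∨ t % 3 = 2 by omega) with h3 | h3 | h3
    · -- plain
      obtain ⟨q, rfl⟩ : ∃ q, t = 3 * q := ⟨t / 3, by omega⟩
      exact theta_plain 3 0 0 q (C - q) 0 (by norm_num) (by omega) (by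
        rw [← hg]; ring)
    · obtain ⟨q, rfl⟩ : ∃ q, t = 3 * q + 4 := ⟨(t - 4) / 3, by omega⟩
      exact theta_plus 1 0 0 0 q (C - 2 - q) 0 0 (by norm_num) (by omega) (by
        rw [← hg]; ring)
    · by_cases h4 : t = 3 * C - 1
      · obtain ⟨c, rfl⟩ := Nat.exists_eq_add_of_le hC
        subst h4
        exact theta_plus 0 1 0 0 1 0 0 c (by norm_num) (by omega) (by
          rw [← hg]
          have : 3 * (3 + c) - 1 = 8 + 3 * c := by omega
          rw [this]; ring)
      · obtain ⟨q, rfl⟩ : ∃ q, t = 3 * q + 2 := ⟨(t - 2) / 3, by omega⟩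
        exact theta_minus 1 0 0 0 q (C - 2 - q) 0 0 (by norm_num) (by omega) (by
          have : g + (3 * q + 2) = 5 * (C + 2) := hg
          have e : C + 2 = 4 + q + (C - 2 - q) + 0 + 0 := by omega
          omega)

lemma cov_diag {A t g : ℕ} (hA : 7 ≤ A) (ht : t ≤ 4 * A - 1)
    (hg : g + t = (A + 2) * (A + 2)) : Real (A + 2) (A + 2) 1 g := by
  by_cases h : t % (A - 1) + t / (A - 1) ≤ A
  · exact plain_ok (A := A) (C := A) (by omega) h hg
  · obtain ⟨c, rfl⟩ := Nat.exists_eq_add_of_le hA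
    have e1 : 7 + c - 1 = 6 + c := by omega
    rw [e1] at h
    have h3 := Nat.div_add_mod t (6 + c)
    have h4 := Nat.mod_lt t (show 0 < 6 + c by omega)
    generalize t / (6 + c) = q at *
    generalize t % (6 + c) = m at *
    have hq : q ≤ 4 := by
      by_contra hlt
      have : (6 + c) * 5 ≤ (6 + c) * q := Nat.mul_le_mul_left _ (by omega)
      omega
    have ht' : t = 4 * (7 + c) - 5 := by
      interval_cases q <;> omega
    refine theta_plus (4 + c) 0 1 0 3 1 (1 + c) 0 (by ring) (by ring) ?_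
    rw [← hg, ht']
    have : 4 * (7 + c) - 5 = 23 + 4 * c := by omega
    rw [this]; ring

lemma cov_far {A d t g : ℕ} (hA : 4 ≤ A) (hd : 5 ≤ d * (A - 3))
    (ht : t ≤ 2 * A + 2 * (A + d) - 1) (hg : g + t = (A + 2) * (A + d + 2)) :
    Real (A + 2) (A + d + 2) 1 g := by
  refine plain_ok (A := A) (C := A + d) (by omega) ?_ hg
  by_contra h
  obtain ⟨c, rfl⟩ := Nat.exists_eq_add_of_le hA
  have e1 : 4 + c - 1 = 3 + c := by omega
  have e2 : 4 + c - 3 = 1 + c := by omega
  rw [e1] at h
  rw [e2] at hd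
  have h3 := Nat.div_add_mod t (3 + c)
  have h4 := Nat.mod_lt t (show 0 < 3 + c by omega)
  generalize t / (3 + c) = q at *
  generalize t % (3 + c) = m at *
  have hq : d + 3 ≤ q := by omega
  obtain ⟨x, rfl⟩ := Nat.exists_eq_add_of_le hq
  have h5 : (3 + c) * (d + 3 + x) + m ≤ 2 * (4 + c) + 2 * (4 + c + d) - 1 := by omega
  have h6 : (3 + c) * (d + 3 + x) + m ≤ 4 * (4 + c) + 2 * d - 1 := by omega
  have h7 : 2 + c ≤ m + x := by omega
  have h8 : (3 + c) * (d + 3 + x) + m + 1 ≤ 4 * (4 + c) + 2 * d := by omega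
  nlinarith [Nat.zero_le (c * x), Nat.zero_le x]

lemma cov1 {A C t g : ℕ} (hA : 3 ≤ A) (hAC : A ≤ C) (ht : t + 1 ≤ 2 * A + 2 * C)
    (h1 : ¬ (A = 3 ∧ C = 3 ∧ (t = 10 ∨ t = 11))) (h2 : ¬ (A = 3 ∧ C = 4 ∧ t = 13))
    (hg : g + t = (A + 2) * (C + 2)) : Real (A + 2) (C + 2) 1 g := by
  rcases Nat.eq_or_lt_of_le hA with h3 | h3
  · subst h3
    exact cov_three hAC (by omega) (by tauto) (by tauto) hg
  · obtain ⟨d, rfl⟩ := Nat.exists_eq_add_of_le hAC
    by_cases hd : 5 ≤ d * (A - 3)
    · exact cov_far h3 hd (by omega) hg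
    · push Not at hd
      rcases Nat.eq_zero_or_pos d with h0 | h0
      · subst h0
        rcases (show A = 4 ∨ A = 5 ∨ A = 6 ∨ 7 ≤ A by omega) with h5 | h5 | h5 | h5
        · subst h5; exact cov_4_4 (by omega) hg
        · subst h5; exact cov_5_5 (by omega) hg
        · subst h5; exact cov_6_6 (by omega) hg
        · exact cov_diag h5 (by omega) hg
      · have hA8 : A ≤ 7 := by
          by_contra hlt
          have : 1 * 5 ≤ d * (A - 3) := Nat.mul_le_mul h0 (by omega)
          omega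
        have hd4 : d ≤ 4 := by
          by_contra hlt
          have : 5 * 1 ≤ d * (A - 3) := Nat.mul_le_mul (by omega) (by omega)
          omega
        interval_cases A <;> interval_cases d <;> first
          | (exfalso; omega)
          | exact cov_4_5 (by omega) hg
          | exact cov_4_6 (by omega) hg
          | exact cov_4_7 (by omega) hg
          | exact cov_4_8 (by omega) hg
          | exact cov_5_6 (by omega) hg
          | exact cov_5_7 (by omega) hg
          | exact cov_6_7 (by omega) hg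
          | exact cov_7_8 (by omega) hg

end Pool.Agent.Helper738F4
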