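import Mathlib

/-!
# Rank five Eulerian posets as incidence data

`EData` records the four middle levels `X`, `E`, `H`, `Y` of an Eulerian poset of rank five, with
the six order relations between them.
-/

open Finset

namespace Pool.Agent.Helper738F4

/-- The middle levels of an Eulerian poset of rank five. -/
structure EData where
  X : Type
  E : Type
  H : Type
  Y : Type
  [fX : Fintype X]
  [fE : Fintype E]
  [fH : Fintype H]
  [fY : Fintype Y]
  i : X → E → Bool
  r : E → H → Bool
  j : H → Y → Bool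
  u : X → H → Bool
  v : E → Y → Bool
  w : X → Y → Bool
  i2 : ∀ e, ∑ x, (i x e).toNat = 2
  j2 : ∀ h, ∑ y, (j h y).toNat = 2
  xh : ∀ x h, ∑ e, (i x e && r e h).toNat = 2 * (u x h).toNat
  ey : ∀ e y, ∑ h, (r e h && j h y).toNat = 2 * (v e y).toNat
  wu : ∀ x y, w x y = true ↔ ∃ h, u x h = true ∧ j h y = true
  xc : ∀ x, ∑ e, (i x e).toNat + ∑ y, (w x y).toNat = ∑ h, (u x h).toNat + 2
  yc : ∀ y, ∑ x, (w x y).toNat + ∑ h, (j h y).toNat = ∑ e, (v e y).toNat + 2
  eh : ∀ e, ∃ h, r e h = true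
  he : ∀ h, ∃ e, r e h = true

attribute [instance] EData.fX EData.fE EData.fH EData.fY

namespace EData

lemma toNat_and (a b : Bool) : (a && b).toNat = a.toNat * b.toNat := by
  cases a <;> cases b <;> rfl

lemma exists_of_sum_pos {α : Type} [Fintype α] {f : α → Bool} (h : 0 < ∑ x, (f x).toNat) :
    ∃ x, f x = true := by
  by_contra hne
  push Not at hne
  have : ∑ x, (f x).toNat = 0 := by
    apply Finset.sum_eq_zero
    intro x _
    have := hne x
    cases hf : f x
    · rfl
    · exact absurd hf this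
  omega

lemma sum_pos_of_exists {α : Type} [Fintype α] {f : α → Bool} {x : α} (h : f x = true) :
    0 < ∑ x, (f x).toNat := by
  apply Finset.sum_pos'
  · intro i _; exact Nat.zero_le _
  · exact ⟨x, Finset.mem_univ _, by rw [h]; decide⟩

variable (D : EData)

lemma xh_iff (x : D.X) (h : D.H) : D.u x h = true ↔ ∃ e, D.i x e = true ∧ D.r e h = true := by
  constructor
  · intro hu
    have h1 := D.xh x h
    rw [hu] at h1
    obtain ⟨e, he⟩ := exists_of_sum_pos (f := fun e => D.i x e && D.r e h)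
      (by rw [h1]; decide)
    exact ⟨e, by simpa using he⟩
  · rintro ⟨e, h1, h2⟩
    have h3 := D.xh x h
    have h4 := sum_pos_of_exists (f := fun e => D.i x e && D.r e h) (x := e) (by simp [h1, h2])
    cases hu : D.u x h
    · rw [hu] at h3; simp only [Bool.toNat_false] at h3; omega
    · rfl

lemma ey_iff (e : D.E) (y : D.Y) : D.v e y = true ↔ ∃ h, D.r e h = true ∧ D.j h y = true := by
  constructor
  · intro hu
    have h1 := D.ey e y
    rw [hu] at h1
    obtain ⟨h, hh⟩ := exists_of_sum_pos (f := fun h => D.r e h && D.j h y)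
      (by rw [h1]; decide)
    exact ⟨h, by simpa using hh⟩
  · rintro ⟨h, h1, h2⟩
    have h3 := D.ey e y
    have h4 := sum_pos_of_exists (f := fun h => D.r e h && D.j h y) (x := h) (by simp [h1, h2])
    cases hu : D.v e y
    · rw [hu] at h3; simp only [Bool.toNat_false] at h3; omega
    · rfl

lemma wv (x : D.X) (y : D.Y) : D.w x y = true ↔ ∃ e, D.v e y = true ∧ D.i x e = true := by
  rw [D.wu]
  constructor
  · rintro ⟨h, h1, h2⟩
    obtain ⟨e, h3, h4⟩ := (D.xh_iff x h).1 h1
    exact ⟨e, (D.ey_iff e y).2 ⟨h, h4, h2⟩, h3⟩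
  · rintro ⟨e, h1, h2⟩
    obtain ⟨h, h3, h4⟩ := (D.ey_iff e y).1 h1
    exact ⟨h, (D.xh_iff x h).2 ⟨e, h2, h3⟩, h4⟩

/-- Each `h` has as many atoms as edges below it. -/
lemma sum_u (h : D.H) : ∑ x, (D.u x h).toNat = ∑ e, (D.r e h).toNat := by
  have h1 : ∑ x, ∑ e, (D.i x e && D.r e h).toNat = ∑ x, 2 * (D.u x h).toNat :=
    Finset.sum_congr rfl fun x _ => D.xh x h
  rw [Finset.sum_comm, ← Finset.mul_sum] at h1
  have h2 : ∀ e, ∑ x, (D.i x e && D.r e h).toNat = 2 * (D.r e h).toNat := by
    intro e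
    simp only [toNat_and]
    rw [← Finset.sum_mul, D.i2 e]
  rw [Finset.sum_congr rfl fun e _ => h2 e, ← Finset.mul_sum] at h1
  omega

lemma sum_v (e : D.E) : ∑ y, (D.v e y).toNat = ∑ h, (D.r e h).toNat := by
  have h1 : ∑ y, ∑ h, (D.r e h && D.j h y).toNat = ∑ y, 2 * (D.v e y).toNat :=
    Finset.sum_congr rfl fun y _ => D.ey e y
  rw [Finset.sum_comm, ← Finset.mul_sum] at h1
  have h2 : ∀ h, ∑ y, (D.r e h && D.j h y).toNat = 2 * (D.r e h).toNat := by
    intro h
    simp only [toNat_and]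
    rw [← Finset.mul_sum, D.j2 h, mul_comm]
  rw [Finset.sum_congr rfl fun e _ => h2 e, ← Finset.mul_sum] at h1
  omega

/-- The number of pairs (atom, coatom). -/
def g : ℕ := ∑ x, ∑ y, (D.w x y).toNat

lemma f12 : ∑ x, ∑ e, (D.i x e).toNat = 2 * Fintype.card D.E := by
  rw [Finset.sum_comm, Finset.sum_congr rfl fun e _ => D.i2 e]
  simp [mul_comm]

lemma f34 : ∑ y, ∑ h, (D.j h y).toNat = 2 * Fintype.card D.H := by
  rw [Finset.sum_comm, Finset.sum_congr rfl fun e _ => D.j2 e]
  simp [mul_comm]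

lemma f13 : ∑ x, ∑ h, (D.u x h).toNat = ∑ e, ∑ h, (D.r e h).toNat := by
  rw [Finset.sum_comm, Finset.sum_congr rfl fun h _ => D.sum_u h, Finset.sum_comm]

lemma f24 : ∑ y, ∑ e, (D.v e y).toNat = ∑ e, ∑ h, (D.r e h).toNat := by
  rw [Finset.sum_comm, Finset.sum_congr rfl fun h _ => D.sum_v h]

lemma rel_x : 2 * Fintype.card D.E + D.g =
    ∑ e, ∑ h, (D.r e h).toNat + 2 * Fintype.card D.X := by
  have h1 : ∑ x, (∑ e, (D.i x e).toNat + ∑ y, (D.w x y).toNat) =
      ∑ x, (∑ h, (D.u x h).toNat + 2) := Finset.sum_congr rfl fun x _ => D.xc x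
  rw [Finset.sum_add_distrib, Finset.sum_add_distrib, D.f12, D.f13] at h1
  simp only [Finset.sum_const, Finset.card_univ, smul_eq_mul] at h1
  unfold g
  omega

lemma rel_y : 2 * Fintype.card D.H + D.g =
    ∑ e, ∑ h, (D.r e h).toNat + 2 * Fintype.card D.Y := by
  have h2 : ∑ y, (∑ x, (D.w x y).toNat + ∑ h, (D.j h y).toNat) =
      ∑ y, (∑ e, (D.v e y).toNat + 2) := Finset.sum_congr rfl fun y _ => D.yc y
  rw [Finset.sum_add_distrib, Finset.sum_add_distrib, D.f34, D.f24] at h2
  simp only [Finset.sum_const, Finset.card_univ, smul_eq_mul] at h2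
  have h3 : ∑ y, ∑ x, (D.w x y).toNat = D.g := Finset.sum_comm
  omega

/-- Euler's relation for the numbers of elements. -/
lemma gc : Fintype.card D.X + Fintype.card D.H = Fintype.card D.E + Fintype.card D.Y := by
  have h1 := D.rel_x
  have h2 := D.rel_y
  omega

/-- The dual data. -/
def dual : EData where
  X := D.Y
  E := D.H
  H := D.E
  Y := D.X
  i y h := D.j h y
  r h e := D.r e h
  j e x := D.i x e
  u y e := D.v e y
  v h x := D.u x h
  w y x := D.w x y
  i2 := D.j2
  j2 := D.i2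
  xh y e := by
    rw [← D.ey e y]
    exact Finset.sum_congr rfl fun h _ => by rw [Bool.and_comm]
  ey h x := by
    rw [← D.xh x h]
    exact Finset.sum_congr rfl fun h _ => by rw [Bool.and_comm]
  wu y x := D.wv x y
  xc y := by have := D.yc y; omega
  yc x := by have := D.xc x; omega
  eh := D.he
  he := D.eh

lemma dual_g : D.dual.g = D.g := by
  unfold g
  rw [Finset.sum_comm]
  rfl

end EData

/-- There is an Eulerian poset of rank five with `a` atoms, `b` coatoms, `a + B` elements of rank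
two, `b + B` elements of rank three and `g` pairs of an atom below a coatom. -/
def Real (a b B g : ℕ) : Prop :=
  ∃ D : EData, Fintype.card D.X = a ∧ Fintype.card D.Y = b ∧ Fintype.card D.E = a + B ∧
    D.g = g

lemma Real.dual {a b B g : ℕ} (h : Real a b B g) : Real b a B g := by
  obtain ⟨D, h1, h2, h3, h4⟩ := h
  refine ⟨D.dual, h2, h1, ?_, by rw [D.dual_g, h4]⟩
  have := D.gc
  change Fintype.card D.H = _
  omega

end Pool.Agent.Helper738F4
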