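import Mathlib

/-!
# The parameters of the flag f-vectors of Eulerian posets of rank five
-/

open Finset

namespace Pool.Agent.Helper738F4

/-- The flag f-vector of an Eulerian poset of rank five with `a` atoms, `b` coatoms, `a + B`
elements of rank two (hence `b + B` of rank three) and `g` pairs of an atom below a coatom. -/
def IsFlag (v : Finset (Fin 4) → ℤ) (a b B g : ℤ) : Prop :=
  v ∅ = 1 ∧ v {0} = a ∧ v {1} = a + B ∧ v {2} = b + B ∧ v {3} = b ∧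
    v {0, 1} = 2 * (a + B) ∧ v {0, 2} = g + 2 * B ∧ v {0, 3} = g ∧ v {1, 2} = g + 2 * B ∧
    v {1, 3} = g + 2 * B ∧ v {2, 3} = 2 * (b + B) ∧ v {0, 1, 2} = 2 * (g + 2 * B) ∧
    v {0, 1, 3} = 2 * (g + 2 * B) ∧ v {0, 2, 3} = 2 * (g + 2 * B) ∧
    v {1, 2, 3} = 2 * (g + 2 * B) ∧ v {0, 1, 2, 3} = 4 * (g + 2 * B)

/-- The additional conditions in the case `B = 0`, for `a ≤ b`. -/
structure ZeroOK (a b g : ℕ) : Prop where
  top : g + 1 ≠ a * b ∧ g + 2 ≠ a * b ∧ g + 3 ≠ a * b ∧ g + 5 ≠ a * b ∧ g + 7 ≠ a * b ∧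
    g + 11 ≠ a * b
  three : a = 3 → g = 3 * b
  four : a = 4 → Even g
  five : a = 5 → g = 2 * b + 7 → 9 ≤ b
  six_odd : a = 6 → Odd g → 3 ∣ g ∧ 3 * b ≤ g ∧ g ≠ 3 * b + 3 ∧ g + 3 ≠ 6 * b
  six : a = 6 → b = 6 → g ≠ 22 ∧ g ≠ 26
  eq : Even a → a = b → g ≠ 2 * b + 7
  eight : a = 8 → b = 8 → g ≠ 29 ∧ g ≠ 35 ∧ g ≠ 41 ∧ g ≠ 47

/-- The conditions on the parameters when there are at most as many atoms as coatoms. -/
structure Good (a b B g : ℕ) : Prop where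
  two_le : 2 ≤ a
  le : a ≤ b
  lower : 2 * b ≤ g
  upper : g ≤ a * b
  ne : g ≠ 2 * b + 1
  zero : B = 0 → ZeroOK a b g
  one : B = 1 → a = 4 → Odd g → 3 * b + 2 ≤ g
  e1 : Odd a → g = 2 * b → 6 ≤ B ∧ a + 6 ≤ b ∧ a + 15 ≤ B + b
  e2 : Even a → g = 2 * b + 2 → 6 ≤ B ∧ a + 3 ≤ b ∧ a + 12 ≤ B + b
  e3 : Even a → g = 2 * b + 3 → 6 ≤ B ∧ a + 2 ≤ b ∧ a + 9 ≤ B + b
  e4 : Odd a → a = b → g = 2 * b + 4 → 7 ≤ B
  e5 : Odd a → b ≤ a + 1 → g = 2 * b + 5 → 6 ≤ B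

/-- The parameters of the Eulerian posets of rank five. -/
def Admissible (a b B g : ℕ) : Prop := Good a b B g ∨ Good b a B g

end Pool.Agent.Helper738F4
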