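import Pool.Agent.helper738_F4.OfPoset
import Pool.Agent.helper738_F4.Params

/-!
# The sixteen flag numbers of an Eulerian poset of rank five
-/

open Finset

namespace Pool.Agent.Helper738F4

open Pool.Agent.Helper738Eul

variable {P : Type} [PartialOrder P] [BoundedOrder P] {n : ℕ} {ρ : P → ℕ}

open Classical in
lemma ch1 [Fintype P] (h : IsGraded 4 ρ) (z : P) (r : ℕ) (hr : r ≤ 4) :
    #(chn ρ z {r}) = ∑ c : {c : P // ρ c = r}, (decide (z < c.1)).toNat := by
  have h1 := chn_insert h z (r := r) (S := ∅) (by simp) hr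
  rw [show insert r (∅ : Finset ℕ) = {r} from rfl] at h1
  rw [h1]
  refine Finset.sum_congr rfl fun c _ => ?_
  rw [chn_empty, mul_one]

open Classical in
lemma ch2 [Fintype P] (h : IsGraded 4 ρ) (z : P) (r s : ℕ) (hr : r < s) (hs : s ≤ 4) :
    #(chn ρ z {r, s}) = ∑ c : {c : P // ρ c = r}, (decide (z < c.1)).toNat *
      ∑ d : {c : P // ρ c = s}, (decide (c.1 < d.1)).toNat := by
  rw [chn_insert h z (r := r) (S := {s}) (by simpa using hr) (by omega)]
  refine Finset.sum_congr rfl fun c _ => ?_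
  rw [ch1 h _ _ hs]

open Classical in
lemma ch3 [Fintype P] (h : IsGraded 4 ρ) (z : P) (r s t : ℕ) (hr : r < s) (hs : s < t)
    (ht : t ≤ 4) :
    #(chn ρ z {r, s, t}) = ∑ c : {c : P // ρ c = r}, (decide (z < c.1)).toNat *
      ∑ d : {c : P // ρ c = s}, (decide (c.1 < d.1)).toNat *
        ∑ e : {c : P // ρ c = t}, (decide (d.1 < e.1)).toNat := by
  rw [chn_insert h z (r := r) (S := {s, t}) (by simp; omega) (by omega)]
  refine Finset.sum_congr rfl fun c _ => ?_
  rw [ch2 h _ _ _ hs ht]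

open Classical in
lemma bot_dec (h : IsGraded 4 ρ) {r : ℕ} (hr : 0 < r) (c : {c : P // ρ c = r}) :
    decide (⊥ < c.1) = true := by
  rw [decide_eq_true_eq]
  exact bot_lt_iff_ne_bot.2 fun h' => by
    have := c.2; rw [h', h.bot] at this; omega

section

variable [Fintype P] (h : IsGraded 4 ρ) (he : IsEulerian ρ)

include h he

omit h he in
lemma flag_0 : flagNumber ρ ∅ = 1 := by
  rw [flagNumber_eq, chn_empty]

omit he in
lemma flag_r {r : ℕ} (hr : 0 < r) (hr' : r ≤ 4) :
    flagNumber ρ {r} = Fintype.card {c : P // ρ c = r} := by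
  rw [flagNumber_eq, ch1 h _ _ hr', Finset.sum_congr rfl fun c _ => by rw [bot_dec h hr c]]
  simp

open Classical in
omit he in
lemma flag_rs {r s : ℕ} (hr : 0 < r) (hrs : r < s) (hs : s ≤ 4) :
    flagNumber ρ {r, s} = ∑ c : {c : P // ρ c = r}, ∑ d : {c : P // ρ c = s},
      (decide (c.1 < d.1)).toNat := by
  rw [flagNumber_eq, ch2 h _ _ _ hrs hs]
  refine Finset.sum_congr rfl fun c _ => ?_
  rw [bot_dec h hr c, Bool.toNat_true, one_mul]

open Classical in
omit he in
lemma flag_rst {r s t : ℕ} (hr : 0 < r) (hrs : r < s) (hst : s < t) (ht : t ≤ 4) :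
    flagNumber ρ {r, s, t} = ∑ c : {c : P // ρ c = r}, ∑ d : {c : P // ρ c = s},
      (decide (c.1 < d.1)).toNat * ∑ e : {c : P // ρ c = t}, (decide (d.1 < e.1)).toNat := by
  rw [flagNumber_eq, ch3 h _ _ _ _ hrs hst ht]
  refine Finset.sum_congr rfl fun c _ => ?_
  rw [bot_dec h hr c, Bool.toNat_true, one_mul]

lemma flag_12 : flagNumber ρ {1, 2} = 2 * Fintype.card {c : P // ρ c = 2} := by
  rw [flag_rs h (by norm_num) (by norm_num) (by norm_num)]
  exact (ofPoset h he).f12

lemma flag_34 : flagNumber ρ {3, 4} = 2 * Fintype.card {c : P // ρ c = 3} := by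
  rw [flag_rs h (by norm_num) (by norm_num) (by norm_num), Finset.sum_comm]
  exact (ofPoset h he).f34

lemma flag_14 : flagNumber ρ {1, 4} = (ofPoset h he).g := by
  rw [flag_rs h (by norm_num) (by norm_num) (by norm_num)]
  rfl

lemma flag_23 : flagNumber ρ {2, 3} = ∑ e, ∑ x, ((ofPoset h he).r e x).toNat := by
  rw [flag_rs h (by norm_num) (by norm_num) (by norm_num)]
  rfl

lemma flag_13 : flagNumber ρ {1, 3} = ∑ e, ∑ x, ((ofPoset h he).r e x).toNat := by
  rw [flag_rs h (by norm_num) (by norm_num) (by norm_num)]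
  exact (ofPoset h he).f13

lemma flag_24 : flagNumber ρ {2, 4} = ∑ e, ∑ x, ((ofPoset h he).r e x).toNat := by
  rw [flag_rs h (by norm_num) (by norm_num) (by norm_num), Finset.sum_comm]
  exact (ofPoset h he).f24

lemma flag_123 : flagNumber ρ {1, 2, 3} = 2 * ∑ e, ∑ x, ((ofPoset h he).r e x).toNat := by
  rw [flag_rst h (by norm_num) (by norm_num) (by norm_num) (by norm_num), Finset.sum_comm,
    Finset.mul_sum]
  refine Finset.sum_congr rfl fun e _ => ?_
  rw [← Finset.sum_mul]
  congr 1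
  exact (ofPoset h he).i2 e

lemma flag_124 : flagNumber ρ {1, 2, 4} = 2 * ∑ e, ∑ x, ((ofPoset h he).r e x).toNat := by
  rw [flag_rst h (by norm_num) (by norm_num) (by norm_num) (by norm_num), Finset.sum_comm,
    ← (ofPoset h he).f24, Finset.sum_comm (f := fun y e => ((ofPoset h he).v e y).toNat),
    Finset.mul_sum]
  refine Finset.sum_congr rfl fun e _ => ?_
  rw [← Finset.sum_mul]
  congr 1
  exact (ofPoset h he).i2 e

lemma flag_134 : flagNumber ρ {1, 3, 4} = 2 * ∑ e, ∑ x, ((ofPoset h he).r e x).toNat := by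
  rw [flag_rst h (by norm_num) (by norm_num) (by norm_num) (by norm_num),
    ← (ofPoset h he).f13, Finset.mul_sum]
  refine Finset.sum_congr rfl fun x _ => ?_
  rw [Finset.mul_sum]
  refine Finset.sum_congr rfl fun e _ => ?_
  rw [mul_comm]
  congr 1
  exact (ofPoset h he).j2 e

lemma flag_234 : flagNumber ρ {2, 3, 4} = 2 * ∑ e, ∑ x, ((ofPoset h he).r e x).toNat := by
  rw [flag_rst h (by norm_num) (by norm_num) (by norm_num) (by norm_num), Finset.mul_sum]
  refine Finset.sum_congr rfl fun x _ => ?_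
  rw [Finset.mul_sum]
  refine Finset.sum_congr rfl fun e _ => ?_
  rw [mul_comm]
  congr 1
  exact (ofPoset h he).j2 e

lemma flag_1234 : flagNumber ρ {1, 2, 3, 4} =
    4 * ∑ e, ∑ x, ((ofPoset h he).r e x).toNat := by
  classical
  rw [flagNumber_eq, chn_insert h _ (r := 1) (S := {2, 3, 4}) (by simp) (by norm_num)]
  have h1 : ∀ c : {c : P // ρ c = 1}, (decide (⊥ < c.1)).toNat * #(chn ρ c.1 {2, 3, 4}) =
      ∑ d : {c : P // ρ c = 2}, (decide (c.1 < d.1)).toNat *
        (2 * ∑ x : {c : P // ρ c = 3}, (decide (d.1 < x.1)).toNat) := by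
    intro c
    rw [bot_dec h (by norm_num) c, Bool.toNat_true, one_mul,
      ch3 h _ _ _ _ (by norm_num) (by norm_num) (by norm_num)]
    refine Finset.sum_congr rfl fun d _ => ?_
    congr 1
    rw [Finset.mul_sum]
    refine Finset.sum_congr rfl fun e _ => ?_
    rw [mul_comm]
    congr 1
    exact (ofPoset h he).j2 e
  rw [Finset.sum_congr rfl fun c _ => h1 c, Finset.sum_comm, Finset.mul_sum]
  refine Finset.sum_congr rfl fun e _ => ?_
  rw [← Finset.sum_mul]
  have h2 : ∑ x : {c : P // ρ c = 1}, (decide (x.1 < e.1)).toNat = 2 := (ofPoset h he).i2 e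
  rw [h2, ← mul_assoc]
  rfl

end

lemma isFlag_of_poset [Fintype P] (h : IsGraded 4 ρ) (he : IsEulerian ρ)
    {v : Finset (Fin 4) → ℤ}
    (hv : ∀ S : Finset (Fin 4), v S = flagNumber ρ (S.image (fun i : Fin 4 => (i : ℕ) + 1))) :
    IsFlag v (Fintype.card (ofPoset h he).X) (Fintype.card (ofPoset h he).Y)
      ((Fintype.card (ofPoset h he).E : ℤ) - Fintype.card (ofPoset h he).X)
      (ofPoset h he).g := by
  have h1 := (ofPoset h he).rel_x
  have h2 := (ofPoset h he).rel_y
  have e1 : Fintype.card {c : P // ρ c = 1} = Fintype.card (ofPoset h he).X := rfl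
  have e2 : Fintype.card {c : P // ρ c = 2} = Fintype.card (ofPoset h he).E := rfl
  have e3 : Fintype.card {c : P // ρ c = 3} = Fintype.card (ofPoset h he).H := rfl
  have e4 : Fintype.card {c : P // ρ c = 4} = Fintype.card (ofPoset h he).Y := rfl
  have hv' : ∀ (S : Finset (Fin 4)) (T : Finset ℕ), S.image (fun i : Fin 4 => (i : ℕ) + 1) = T →
      v S = flagNumber ρ T := fun S T hS => by rw [hv S, hS]
  refine ⟨?_, ?_, ?_, ?_, ?_, ?_, ?_, ?_, ?_, ?_, ?_, ?_, ?_, ?_, ?_, ?_⟩
  · rw [hv' _ ∅ (by decide), flag_0]; rfl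
  · rw [hv' _ {1} (by decide), flag_r h (by norm_num) (by norm_num), e1]
  · rw [hv' _ {2} (by decide), flag_r h (by norm_num) (by norm_num), e2]; ring
  · rw [hv' _ {3} (by decide), flag_r h (by norm_num) (by norm_num), e3]; omega
  · rw [hv' _ {4} (by decide), flag_r h (by norm_num) (by norm_num), e4]
  · rw [hv' _ {1, 2} (by decide), flag_12 h he, e2]; omega
  · rw [hv' _ {1, 3} (by decide), flag_13 h he]; omega
  · rw [hv' _ {1, 4} (by decide), flag_14 h he]
  · rw [hv' _ {2, 3} (by decide), flag_23 h he]; omega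
  · rw [hv' _ {2, 4} (by decide), flag_24 h he]; omega
  · rw [hv' _ {3, 4} (by decide), flag_34 h he, e3]; omega
  · rw [hv' _ {1, 2, 3} (by decide), flag_123 h he]; omega
  · rw [hv' _ {1, 2, 4} (by decide), flag_124 h he]; omega
  · rw [hv' _ {1, 3, 4} (by decide), flag_134 h he]; omega
  · rw [hv' _ {2, 3, 4} (by decide), flag_234 h he]; omega
  · rw [hv' _ {1, 2, 3, 4} (by decide), flag_1234 h he]; omega

end Pool.Agent.Helper738F4
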