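import Pool.Agent.helper738_F4.Ops
import Pool.Agent.helper738_Eul.Valid

/-!
# Flag numbers of an Eulerian poset of rank five
-/

open Finset

namespace Pool.Agent.Helper738F4

open Pool.Agent.Helper738Eul

section cab

variable {P : Type} [PartialOrder P] [BoundedOrder P] {n : ℕ} {ρ : P → ℕ}

open Classical in
/-- The chains strictly between `z` and `⊤` with set of ranks `S`. -/
noncomputable def chn [Fintype P] (ρ : P → ℕ) (z : P) (S : Finset ℕ) : Finset (Finset P) :=
  {C : Finset P | IsChain (· < ·) (C : Set P) ∧ (∀ c ∈ C, z < c ∧ c ≠ ⊤) ∧ C.image ρ = S}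

lemma mem_chn [Fintype P] {z : P} {S : Finset ℕ} {C : Finset P} :
    C ∈ chn ρ z S ↔ IsChain (· < ·) (C : Set P) ∧ (∀ c ∈ C, z < c ∧ c ≠ ⊤) ∧ C.image ρ = S := by
  simp [chn]

lemma flagNumber_eq [Fintype P] (S : Finset ℕ) : flagNumber ρ S = #(chn ρ ⊥ S) := by
  classical
  unfold flagNumber
  rw [Nat.card_eq_fintype_card, Fintype.card_subtype]
  congr 1
  ext C
  simp only [mem_filter, mem_univ, true_and, mem_chn]
  constructor
  · rintro ⟨h1, h2, h3, h4⟩
    refine ⟨h1, fun c hc => ⟨bot_lt_iff_ne_bot.2 ?_, ?_⟩, h4⟩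
    · rintro rfl; exact h2 hc
    · rintro rfl; exact h3 hc
  · rintro ⟨h1, h2, h3⟩
    refine ⟨h1, fun hc => ?_, fun hc => ?_, h3⟩
    · exact (lt_irrefl _ (h2 _ hc).1)
    · exact (h2 _ hc).2 rfl

lemma chn_empty [Fintype P] (z : P) : #(chn ρ z ∅) = 1 := by
  classical
  rw [Finset.card_eq_one]
  refine ⟨∅, ?_⟩
  ext C
  simp only [mem_chn, Finset.image_eq_empty, mem_singleton]
  constructor
  · rintro ⟨_, _, h⟩; exact h
  · rintro rfl
    exact ⟨by simp, by simp, rfl⟩

open Classical in
lemma chn_insert [Fintype P] (h : IsGraded n ρ) (z : P) {r : ℕ} {S : Finset ℕ}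
    (hS : ∀ s ∈ S, r < s) (hr : r ≤ n) :
    #(chn ρ z (insert r S)) =
      ∑ c : {c : P // ρ c = r}, (decide (z < c.1)).toNat * #(chn ρ c.1 S) := by
  have hsm := h.strictMono
  have key : chn ρ z (insert r S) =
      (univ.filter fun c : P => z < c ∧ ρ c = r).biUnion
        (fun c => (chn ρ c S).image (insert c)) := by
    ext C
    simp only [mem_biUnion, mem_filter, mem_univ, true_and, mem_image]
    rw [mem_chn]
    constructor
    · rintro ⟨h1, h2, h3⟩
      have hr' : r ∈ C.image ρ := by rw [h3]; exact mem_insert_self _ _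
      obtain ⟨c, hc, hcr⟩ := mem_image.1 hr'
      have hlt : ∀ d ∈ C, d ≠ c → c < d := by
        intro d hd hdc
        rcases h1 hd hc hdc with h' | h'
        · have h4 := hsm h'
          have h5 : ρ d ∈ insert r S := by rw [← h3]; exact mem_image_of_mem _ hd
          rcases mem_insert.1 h5 with h6 | h6
          · omega
          · have := hS _ h6; omega
        · exact h'
      refine ⟨c, ⟨(h2 c hc).1, hcr⟩, C.erase c, ?_, insert_erase hc⟩
      rw [mem_chn]
      refine ⟨h1.mono (by simp), ?_, ?_⟩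
      · intro d hd
        rw [mem_erase] at hd
        exact ⟨hlt d hd.2 hd.1, (h2 d hd.2).2⟩
      · ext s
        simp only [mem_image, mem_erase]
        constructor
        · rintro ⟨d, ⟨hd1, hd2⟩, rfl⟩
          have h5 : ρ d ∈ insert r S := by rw [← h3]; exact mem_image_of_mem _ hd2
          rcases mem_insert.1 h5 with h6 | h6
          · have := hsm (hlt d hd2 hd1); omega
          · exact h6
        · intro hs
          have h5 : s ∈ C.image ρ := by rw [h3]; exact mem_insert_of_mem hs
          obtain ⟨d, hd, rfl⟩ := mem_image.1 h5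
          refine ⟨d, ⟨?_, hd⟩, rfl⟩
          rintro rfl
          have := hS _ hs
          omega
    · rintro ⟨c, ⟨hzc, hcr⟩, C', hC', rfl⟩
      rw [mem_chn] at hC'
      obtain ⟨h1, h2, h3⟩ := hC'
      refine ⟨?_, ?_, ?_⟩
      · rw [Finset.coe_insert]
        exact h1.insert fun d hd _ => Or.inl (h2 d hd).1
      · intro d hd
        rcases mem_insert.1 hd with rfl | hd
        · refine ⟨hzc, ?_⟩
          rintro rfl
          rw [h.top] at hcr
          omega
        · exact ⟨hzc.trans (h2 d hd).1, (h2 d hd).2⟩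
      · rw [Finset.image_insert, h3, hcr]
  rw [key, Finset.card_biUnion]
  · have h1 : ∀ c ∈ univ.filter (fun c : P => z < c ∧ ρ c = r),
        #((chn ρ c S).image (insert c)) = #(chn ρ c S) := by
      intro c _
      apply Finset.card_image_of_injOn
      intro C1 hC1 C2 hC2 h12
      have n1 : c ∉ C1 := fun hc => lt_irrefl _ ((mem_chn.1 hC1).2.1 c hc).1
      have n2 : c ∉ C2 := fun hc => lt_irrefl _ ((mem_chn.1 hC2).2.1 c hc).1
      have h12' : insert c C1 = insert c C2 := h12
      rw [← Finset.erase_insert n1, ← Finset.erase_insert n2, h12']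
    rw [Finset.sum_congr rfl h1,
      ← Finset.sum_subtype (univ.filter fun c : P => ρ c = r) (p := fun c => ρ c = r) (by simp)
        (fun c : P => (decide (z < c)).toNat * #(chn ρ c S)), Finset.sum_filter,
        Finset.sum_filter]
    refine Finset.sum_congr rfl fun c _ => ?_
    by_cases h2 : ρ c = r
    · by_cases h3 : z < c
      · simp [h2, h3]
      · simp [h2, h3]
    · simp [h2]
  · intro c hc c' hc' hne
    simp only [Finset.coe_filter, mem_univ, true_and, Set.mem_ofPred_eq] at hc hc'
    rw [Function.onFun, Finset.disjoint_left]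
    intro C hC hC'
    obtain ⟨C1, hC1, rfl⟩ := mem_image.1 hC
    obtain ⟨C2, hC2, h12⟩ := mem_image.1 hC'
    have h1 : c' ∈ insert c C1 := by rw [← h12]; exact mem_insert_self _ _
    rcases mem_insert.1 h1 with h2 | h2
    · exact hne h2.symm
    · have h3 := hsm ((mem_chn.1 hC1).2.1 c' h2).1
      omega

end cab

end Pool.Agent.Helper738F4
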