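import Mathlib

/-!
# A parity lemma on weighted complete graphs
-/

open Finset

namespace Pool.Agent.Helper738F4

variable {X : Type} [Fintype X] [DecidableEq X]

/-- The two-element subsets. -/
def prs (X : Type) [Fintype X] [DecidableEq X] : Finset (Finset X) := powersetCard 2 univ

lemma mem_prs {p : Finset X} : p ∈ prs X ↔ #p = 2 := by
  simp [prs, mem_powersetCard]

/-- Double counting of pairs. -/
lemma sum_prs (f : Finset X → ℤ) :
    ∑ x, ∑ p ∈ prs X with x ∈ p, f p = 2 * ∑ p ∈ prs X, f p := by
  have h1 : ∑ x, ∑ p ∈ prs X with x ∈ p, f p = ∑ x, ∑ p ∈ prs X, if x ∈ p then f p else 0 := by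
    refine Finset.sum_congr rfl fun x _ => ?_
    rw [Finset.sum_filter]
  rw [h1, Finset.sum_comm, Finset.mul_sum]
  refine Finset.sum_congr rfl fun p hp => ?_
  rw [mem_prs] at hp
  rw [← Finset.sum_filter]
  simp [hp]

lemma sum_odd_parity {α : Type} (s : Finset α) (f : α → ℤ) (g : α → Prop) [DecidablePred g]
    (h : ∀ p ∈ s, Even (f p - if g p then 1 else 0)) :
    Even (∑ p ∈ s, f p - #{p ∈ s | g p}) := by
  rw [Finset.card_filter]
  push_cast
  rw [← Finset.sum_sub_distrib]
  exact Finset.sum_induction _ Even (fun _ _ => Even.add) (by simp) h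

/-- Two different elements of a sum of nonnegative terms. -/
lemma two_terms {α : Type} [DecidableEq α] {s : Finset α} {f : α → ℤ} (h0 : ∀ p ∈ s, 0 ≤ f p)
    {p q : α} (hp : p ∈ s) (hq : q ∈ s) (hpq : p ≠ q) : f p + f q ≤ ∑ p ∈ s, f p := by
  have h1 : ({p, q} : Finset α) ⊆ s := by
    intro x hx
    simp only [mem_insert, mem_singleton] at hx
    rcases hx with rfl | rfl <;> assumption
  have h2 := Finset.sum_le_sum_of_subset_of_nonneg h1 (f := f) (fun i hi _ => h0 i hi)
  rwa [Finset.sum_pair hpq] at h2

lemma three_terms {α : Type} [DecidableEq α] {s : Finset α} {f : α → ℤ} (h0 : ∀ p ∈ s, 0 ≤ f p)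
    {p q r : α} (hp : p ∈ s) (hq : q ∈ s) (hr : r ∈ s) (hpq : p ≠ q) (hpr : p ≠ r)
    (hqr : q ≠ r) : f p + f q + f r ≤ ∑ p ∈ s, f p := by
  have h1 : ({p, q, r} : Finset α) ⊆ s := by
    intro x hx
    simp only [mem_insert, mem_singleton] at hx
    rcases hx with rfl | rfl | rfl <;> assumption
  have h2 := Finset.sum_le_sum_of_subset_of_nonneg h1 (f := f) (fun i hi _ => h0 i hi)
  rw [Finset.sum_insert (by simp [hpq, hpr]), Finset.sum_pair hqr] at h2
  linarith

/-- If the sum over the pairs at `x` is at most `c` and one term is larger, there is another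
small term. -/
lemma exists_small {χ : Finset X → ℤ} {x : X} {p : Finset X} (hp : p ∈ prs X) (hxp : x ∈ p)
    (hx : ∑ q ∈ prs X with x ∈ q, χ q = 2) (h3 : 3 ≤ χ p) :
    ∃ q ∈ prs X, x ∈ q ∧ q ≠ p ∧ χ q ≤ -1 := by
  by_contra hne
  push Not at hne
  have hmem : p ∈ (prs X).filter (fun q => x ∈ q) := by simp [hp, hxp]
  rw [← Finset.add_sum_erase _ _ hmem] at hx
  have : 0 ≤ ∑ q ∈ ((prs X).filter (fun q => x ∈ q)).erase p, χ q := by
    apply Finset.sum_nonneg
    intro q hq
    simp only [mem_erase, mem_filter] at hq
    have := hne q hq.2.1 hq.2.2 hq.1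
    omega
  omega

lemma exists_small' {χ : Finset X → ℤ} {T : Finset X} (hT : #T = 3) {x : X} {p : Finset X}
    (hp : p ∈ prs X) (hxp : x ∈ p) (hpT : p ⊆ T)
    (hx : ∑ q ∈ prs X with x ∈ q, χ q = 2) (h3 : 2 ≤ χ p) :
    ∃ q ∈ prs X, x ∈ q ∧ q ≠ p ∧ (χ q ≤ -1 ∨ (q ⊆ T ∧ χ q ≤ 0)) := by
  by_contra hne
  push Not at hne
  have hp2 := mem_prs.1 hp
  -- the other marked pair at `x`
  have hc : #(T \ p) = 1 := by rw [card_sdiff_of_subset hpT]; omega
  obtain ⟨z, hz⟩ := card_eq_one.1 hc
  have hz' : z ∈ T ∧ z ∉ p := by
    have : z ∈ T \ p := by rw [hz]; simp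
    simpa using this
  have hxz : x ≠ z := by rintro rfl; exact hz'.2 hxp
  set r : Finset X := {x, z} with hr
  have hrp : r ∈ prs X := by rw [mem_prs, hr, card_pair hxz]
  have hrT : r ⊆ T := by
    intro y hy
    simp only [hr, mem_insert, mem_singleton] at hy
    rcases hy with rfl | rfl
    · exact hpT hxp
    · exact hz'.1
  have hrne : r ≠ p := by
    rintro h
    apply hz'.2
    rw [← h, hr]; simp
  have hxr : x ∈ r := by simp [hr]
  have h1 := hne r hrp hxr hrne
  have hr1 : 1 ≤ χ r := by
    have := h1.2 hrT
    omega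
  have hmem : p ∈ (prs X).filter (fun q => x ∈ q) := by simp [hp, hxp]
  have hmem' : r ∈ ((prs X).filter (fun q => x ∈ q)).erase p := by simp [hrp, hxr, hrne]
  rw [← Finset.add_sum_erase _ _ hmem, ← Finset.add_sum_erase _ _ hmem'] at hx
  have : 0 ≤ ∑ q ∈ (((prs X).filter (fun q => x ∈ q)).erase p).erase r, χ q := by
    apply Finset.sum_nonneg
    intro q hq
    simp only [mem_erase, mem_filter] at hq
    have := hne q hq.2.2.1 hq.2.2.2 hq.2.1
    omega
  omega

/-- The parity lemma. -/
lemma lemG (χ f : Finset X → ℤ) (T : Finset X) (hT : T = ∅ ∨ #T = 3)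
    (hx : ∀ x, ∑ p ∈ prs X with x ∈ p, χ p = 2)
    (hpar : Odd ((Fintype.card X : ℤ) + #T))
    (h0 : ∀ p ∈ prs X, 0 ≤ f p) {l n s m t : ℤ}
    (hl : ∀ p ∈ prs X, ¬ p ⊆ T → Odd (χ p) → χ p ≤ 1 → l ≤ f p)
    (hl' : ∀ p ∈ prs X, p ⊆ T → Even (χ p) → χ p ≤ 0 → l ≤ f p)
    (hn : ∀ p ∈ prs X, χ p ≤ -1 → n ≤ f p)
    (hs : ∀ p ∈ prs X, p ⊆ T → χ p ≤ 0 → s ≤ f p)
    (hsn : s ≤ n)
    (hm : ∀ p ∈ prs X, p ⊆ T → χ p = 2 → m ≤ f p)
    (t1 : t ≤ 3 * l) (t2 : t ≤ 2 * n) (t3 : t ≤ 2 * s + m) :
    t ≤ ∑ p ∈ prs X, f p := by
  -- the bad pairs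
  set bad : Finset X → Prop := fun p => if p ⊆ T then Even (χ p) else Odd (χ p) with hbad
  have hdec : DecidablePred bad := fun p => by rw [hbad]; infer_instance
  -- a high bad pair
  by_cases hhigh : ∃ p ∈ prs X, bad p ∧ 2 ≤ χ p
  · obtain ⟨p, hp, hb, h2⟩ := hhigh
    have hp2 := mem_prs.1 hp
    obtain ⟨x, y, hxy, hpe⟩ := card_eq_two.1 hp2
    have hxp : x ∈ p := by rw [hpe]; simp
    have hyp : y ∈ p := by rw [hpe]; simp
    have huniq : ∀ q ∈ prs X, x ∈ q → y ∈ q → q = p := by
      intro q hq h1 h2
      symm
      apply Finset.eq_of_subset_of_card_le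
      · rw [hpe]; intro z hz
        simp only [mem_insert, mem_singleton] at hz
        rcases hz with rfl | rfl <;> assumption
      · rw [mem_prs.1 hq, hp2]
    by_cases h3 : 3 ≤ χ p
    · obtain ⟨q, hq, h4, h5, h6⟩ := exists_small hp hxp (hx x) h3
      obtain ⟨q', hq', h4', h5', h6'⟩ := exists_small hp hyp (hx y) h3
      have hne : q ≠ q' := by
        rintro rfl
        exact h5 (huniq q hq h4 h4')
      have h7 := two_terms h0 hq hq' hne
      have h8 := hn q hq h6
      have h9 := hn q' hq' h6'
      omega
    · have hχ : χ p = 2 := by omega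
      have hpT : p ⊆ T := by
        by_contra hpT
        simp only [hbad, if_neg hpT, hχ] at hb
        exact absurd hb (by decide)
      have hT3 : #T = 3 := by
        rcases hT with h | h
        · rw [h, Finset.subset_empty] at hpT
          rw [hpT] at hp2
          simp at hp2
        · exact h
      obtain ⟨q, hq, h4, h5, h6⟩ := exists_small' hT3 hp hxp hpT (hx x) h2
      obtain ⟨q', hq', h4', h5', h6'⟩ := exists_small' hT3 hp hyp hpT (hx y) h2
      have hne : q ≠ q' := by
        rintro rfl
        exact h5 (huniq q hq h4 h4')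
      have h7 := three_terms h0 hp hq hq' h5.symm h5'.symm hne
      have h8 : s ≤ f q := by
        rcases h6 with h | h
        · exact hsn.trans (hn q hq h)
        · exact hs q hq h.1 h.2
      have h9 : s ≤ f q' := by
        rcases h6' with h | h
        · exact hsn.trans (hn q' hq' h)
        · exact hs q' hq' h.1 h.2
      have h10 := hm p hp hpT hχ
      omega
  · push Not at hhigh
    -- all bad pairs are low
    have hlow : ∀ p ∈ prs X, bad p → l ≤ f p := by
      intro p hp hb
      have h1 := hhigh p hp hb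
      by_cases hpT : p ⊆ T
      · have hb' : Even (χ p) := by simpa [hbad, hpT] using hb
        refine hl' p hp hpT hb' ?_
        obtain ⟨c, hc⟩ := hb'
        omega
      · have hb' : Odd (χ p) := by simpa [hbad, hpT] using hb
        refine hl p hp hpT hb' ?_
        omega
    have hbpar : ∀ p ∈ prs X, Even ((χ p + if p ⊆ T then 1 else 0) - if bad p then 1 else 0) := by
      intro p _
      by_cases hpT : p ⊆ T
      · rcases Int.even_or_odd (χ p) with h1 | h1
        · have hb : bad p := by simp [hbad, hpT, h1]
          simp only [hpT, hb, if_true]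
          simpa using h1
        · have hb : ¬ bad p := by
            simp only [hbad, hpT, if_true]
            exact Int.not_even_iff_odd.2 h1
          simp only [hpT, hb, if_true, if_false, sub_zero]
          exact h1.add_odd odd_one
      · rcases Int.even_or_odd (χ p) with h1 | h1
        · have hb : ¬ bad p := by
            simp only [hbad, hpT, if_false]
            exact Int.not_odd_iff_even.2 h1
          simp only [hpT, hb, if_false, sub_zero, add_zero]
          exact h1
        · have hb : bad p := by simp [hbad, hpT, h1]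
          simp only [hpT, hb, if_true, if_false, add_zero]
          exact h1.sub_odd odd_one
    -- number of bad pairs is odd
    have hcount : Odd (#{p ∈ prs X | bad p} : ℤ) := by
      have h1 := sum_odd_parity (prs X) (fun p => χ p + if p ⊆ T then 1 else 0) bad hbpar
      rw [Finset.sum_add_distrib] at h1
      have h2 := sum_prs χ
      rw [Finset.sum_congr rfl fun x _ => hx x] at h2
      simp only [Finset.sum_const, Finset.card_univ, nsmul_eq_mul] at h2
      have h3 : (∑ p ∈ prs X, (if p ⊆ T then (1 : ℤ) else 0)) = #T := by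
        have : (prs X).filter (fun p => p ⊆ T) = powersetCard 2 T := by
          ext p
          simp [prs, mem_powersetCard, and_comm]
        rw [← Finset.sum_filter, this]
        simp only [Finset.sum_const, card_powersetCard, nsmul_eq_mul, mul_one]
        rcases hT with h | h
        · simp [h]
        · rw [h]; rfl
      rw [h3] at h1
      have h4 : ∑ p ∈ prs X, χ p = Fintype.card X := by linarith
      rw [h4] at h1
      have := hpar.sub_even h1
      simpa using this
    -- even degrees
    have hdeg : ∀ x, Even (#{p ∈ (prs X).filter (fun q => x ∈ q) | bad p} : ℤ) := by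
      intro x
      have h1 := sum_odd_parity ((prs X).filter (fun q => x ∈ q))
        (fun p => χ p + if p ⊆ T then 1 else 0) bad (fun p hp => hbpar p (mem_filter.1 hp).1)
      rw [Finset.sum_add_distrib, hx x] at h1
      have h3 : Even (∑ p ∈ (prs X).filter (fun q => x ∈ q), (if p ⊆ T then (1 : ℤ) else 0)) := by
        rw [← Finset.sum_filter]
        simp only [Finset.sum_const, nsmul_eq_mul, mul_one, Finset.filter_filter]
        by_cases hxT : x ∈ T
        · have hT3 : #T = 3 := by
            rcases hT with h | h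
            · rw [h] at hxT; simp at hxT
            · exact h
          have : (prs X).filter (fun p => x ∈ p ∧ p ⊆ T) = (T.erase x).image (fun y => {x, y}) := by
            ext p
            simp only [mem_filter, mem_prs, mem_image, mem_erase]
            constructor
            · rintro ⟨h4, h5, h6⟩
              obtain ⟨c, hc⟩ := card_eq_one.1
                (show #(p.erase x) = 1 by rw [card_erase_of_mem h5]; omega)
              have hc' : c ∈ p.erase x := by rw [hc]; simp
              rw [mem_erase] at hc'
              refine ⟨c, ⟨hc'.1, h6 hc'.2⟩, ?_⟩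
              rw [← insert_erase h5, hc]
            · rintro ⟨y, ⟨h4, h5⟩, rfl⟩
              refine ⟨card_pair (Ne.symm h4), by simp, ?_⟩
              intro z hz
              simp only [mem_insert, mem_singleton] at hz
              rcases hz with rfl | rfl <;> assumption
          rw [this, card_image_of_injOn, card_erase_of_mem hxT, hT3]
          · decide
          · intro y hy y' hy' hyy
            simp only [coe_erase, Set.mem_sdiff, mem_coe, Set.mem_singleton_iff] at hy hy'
            have h7 : y ∈ ({x, y'} : Finset X) := by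
              have h8 : ({x, y} : Finset X) = {x, y'} := hyy
              rw [← h8]; simp
            simp only [mem_insert, mem_singleton] at h7
            rcases h7 with h7 | h7
            · exact absurd h7 hy.2
            · exact h7
        · have : (prs X).filter (fun p => x ∈ p ∧ p ⊆ T) = ∅ := by
            ext p
            simp only [mem_filter, notMem_empty, iff_false]
            rintro ⟨_, h5, h6⟩
            exact hxT (h6 h5)
          rw [this]; simp
      have h4 := (even_two (α := ℤ)).add h3
      have := h4.sub h1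
      simpa using this
    -- at least three bad pairs
    have h3 : 3 ≤ #{p ∈ prs X | bad p} := by
      by_contra hlt
      have h1 : #{p ∈ prs X | bad p} = 1 := by
        obtain ⟨c, hc⟩ := hcount
        omega
      obtain ⟨p, hp⟩ := card_eq_one.1 h1
      have hpm : p ∈ {p ∈ prs X | bad p} := by rw [hp]; simp
      rw [mem_filter] at hpm
      obtain ⟨x, y, hxy, hpe⟩ := card_eq_two.1 (mem_prs.1 hpm.1)
      have h2 := hdeg x
      have h3 : {q ∈ (prs X).filter (fun q => x ∈ q) | bad q} = {p} := by
        ext q
        simp only [mem_filter, mem_singleton]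
        constructor
        · rintro ⟨⟨h4, _⟩, h5⟩
          have : q ∈ {p ∈ prs X | bad p} := mem_filter.2 ⟨h4, h5⟩
          rw [hp] at this
          simpa using this
        · rintro rfl
          exact ⟨⟨hpm.1, by rw [hpe]; simp⟩, hpm.2⟩
      rw [h3] at h2
      simp at h2
    obtain ⟨s3, hs3, hc3⟩ := Finset.exists_subset_card_eq h3
    obtain ⟨p, q, r, hpq, hpr, hqr, hs⟩ := card_eq_three.1 hc3
    have hp : p ∈ {p ∈ prs X | bad p} := hs3 (by rw [hs]; simp)
    have hq : q ∈ {p ∈ prs X | bad p} := hs3 (by rw [hs]; simp)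
    have hr : r ∈ {p ∈ prs X | bad p} := hs3 (by rw [hs]; simp)
    rw [mem_filter] at hp hq hr
    have h7 := three_terms h0 hp.1 hq.1 hr.1 hpq hpr hqr
    have h8 := hlow p hp.1 hp.2
    have h9 := hlow q hq.1 hq.2
    have h10 := hlow r hr.1 hr.2
    omega

end Pool.Agent.Helper738F4
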