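import Pool.Agent.helper738_F4.NecSt

/-!
# Four atoms and `B = 1`
-/

open Finset

namespace Pool.Agent.Helper738F4

namespace EData

variable {D : EData}

/-- The degree of an atom is at most `B + 2`. -/
lemma deg_x_le (x : D.X) : ∑ e, (D.i x e).toNat + Fintype.card D.Y ≤ Fintype.card D.H + 2 := by
  have h1 : 2 * #{y | D.w x y = false} ≤ 2 * #{h | D.u x h = false} := by
    calc 2 * #{y | D.w x y = false} = ∑ _y : D.Y with D.w x _y = false, 2 := by simp [mul_comm]
      _ ≤ ∑ y with D.w x y = false, ∑ h, (D.j h y).toNat :=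
        Finset.sum_le_sum fun y _ => two_le_deg y
      _ ≤ ∑ h, ∑ y, (if D.u x h = false then (D.j h y).toNat else 0) := by
        rw [Finset.sum_comm]
        refine Finset.sum_le_sum fun h _ => ?_
        rw [Finset.sum_filter]
        refine Finset.sum_le_sum fun y _ => ?_
        split_ifs with h3 h4 h4
        · exact le_refl _
        · cases hj : D.j h y
          · simp
          · exfalso
            have h5 : D.u x h = true := by simpa using h4
            have h6 := (D.wu x y).2 ⟨h, h5, hj⟩
            rw [h3] at h6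
            exact absurd h6 (by decide)
        · exact Nat.zero_le _
        · exact le_refl _
      _ = 2 * #{h | D.u x h = false} := by
        have : ∀ h, ∑ y, (if D.u x h = false then (D.j h y).toNat else 0) =
            if D.u x h = false then 2 else 0 := by
          intro h
          split_ifs with h4
          · exact D.j2 h
          · simp
        rw [Finset.sum_congr rfl fun h _ => this h, ← Finset.sum_filter]
        simp [mul_comm]
  have h2 : #{y | D.w x y = true} + #{y | D.w x y = false} = Fintype.card D.Y := by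
    rw [← Finset.card_univ, ← Finset.card_filter_add_card_filter_not
      (s := (univ : Finset D.Y)) (fun y => D.w x y = true)]
    simp
  have h3 : #{y | D.u x y = true} + #{y | D.u x y = false} = Fintype.card D.H := by
    rw [← Finset.card_univ, ← Finset.card_filter_add_card_filter_not
      (s := (univ : Finset D.H)) (fun y => D.u x y = true)]
    simp
  rw [card_filter_eq] at h2 h3
  have h4 := D.xc x
  omega

lemma deg2_r {x : D.X} (hd : ∑ e, (D.i x e).toNat = 2) {e : D.E} (he : D.i x e = true)
    (h : D.H) : D.u x h = D.r e h := by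
  cases hu : D.u x h
  · symm
    by_contra hr
    have hr' : D.r e h = true := by simpa using hr
    have := (D.xh_iff x h).2 ⟨e, he, hr'⟩
    rw [hu] at this
    exact absurd this (by decide)
  · have h3 := D.xh x h
    rw [hu, Bool.toNat_true, mul_one] at h3
    have h5 : ∑ e, (D.i x e && D.r e h).toNat = ∑ e, (D.i x e).toNat := by rw [h3, hd]
    have h6 := (Finset.sum_eq_sum_iff_of_le (fun e _ => by
      cases D.i x e <;> cases D.r e h <;> decide)).1 h5 e (Finset.mem_univ e)
    rw [he] at h6
    cases hr : D.r e h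
    · rw [hr] at h6; simp at h6
    · rfl

lemma deg2_v {x : D.X} (hd : ∑ e, (D.i x e).toNat = 2) {e : D.E} (he : D.i x e = true)
    (y : D.Y) : D.w x y = D.v e y := by
  rw [Bool.eq_iff_iff, D.wu, D.ey_iff]
  refine exists_congr fun h => ?_
  rw [deg2_r hd he h]

lemma deg2_count {x : D.X} (hd : ∑ e, (D.i x e).toNat = 2) :
    ∑ h, (D.u x h).toNat = ∑ y, (D.w x y).toNat := by
  have := D.xc x
  omega

/-- The other atom of an edge. -/
lemma other {x : D.X} {e : D.E} (he : D.i x e = true) :
    ∃ x', x' ≠ x ∧ D.i x' e = true := by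
  have hc := card_AE e
  obtain ⟨x', hx', hne⟩ : ∃ x' ∈ D.AE e, x' ≠ x := by
    apply Finset.exists_mem_ne
    omega
  exact ⟨x', hne, mem_AE.1 hx'⟩

/-- Three atoms on an edge are impossible. -/
lemma no_three {x y z : D.X} {e : D.E} (hxy : x ≠ y) (hxz : x ≠ z) (hyz : y ≠ z)
    (hx : D.i x e = true) (hy : D.i y e = true) (hz : D.i z e = true) : False := by
  have hc := card_AE e
  have h1 : ({x, y, z} : Finset D.X) ⊆ D.AE e := by
    intro a ha
    simp only [mem_insert, mem_singleton] at ha
    rcases ha with rfl | rfl | rfl <;> rw [mem_AE] <;> assumption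
  have h2 := card_le_card h1
  rw [card_eq_three.2 ⟨x, y, z, hxy, hxz, hyz, rfl⟩] at h2
  omega

lemma sum_four {f : D.X → ℕ} {p q u v : D.X} (hX : ∀ x, x = p ∨ x = q ∨ x = u ∨ x = v)
    (hpq : p ≠ q) (hpu : p ≠ u) (hpv : p ≠ v) (hqu : q ≠ u) (hqv : q ≠ v) (huv : u ≠ v) :
    ∑ x, f x = f p + f q + f u + f v := by
  have : (univ : Finset D.X) = {p, q, u, v} := by
    ext x
    simp only [mem_univ, mem_insert, mem_singleton, true_iff]
    exact hX x
  rw [this, Finset.sum_insert (by simp [hpq, hpu, hpv]), Finset.sum_insert (by simp [hqu, hqv]),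
    Finset.sum_pair huv]
  ring

/-- The case of adjacent atoms of degree two. -/
lemma four_adj {p q u v : D.X} (hX : ∀ x, x = p ∨ x = q ∨ x = u ∨ x = v)
    (hpq : p ≠ q) (hpu : p ≠ u) (hpv : p ≠ v) (hqu : q ≠ u) (hqv : q ≠ v) (huv : u ≠ v)
    (hE : Fintype.card D.E = 5)
    (dp : ∑ e, (D.i p e).toNat = 3) (dq : ∑ e, (D.i q e).toNat = 3)
    (du : ∑ e, (D.i u e).toNat = 2) (dv : ∑ e, (D.i v e).toNat = 2)
    {e0 : D.E} (h1 : D.i u e0 = true) (h2 : D.i v e0 = true) : Even D.g := by
  have huvh : ∀ h, D.u u h = D.u v h := fun h => by rw [deg2_r du h1, deg2_r dv h2]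
  have huvy : ∀ h, D.w u h = D.w v h := fun h => by rw [deg2_v du h1, deg2_v dv h2]
  -- an element above `p` is above `q`
  have key : ∀ p q : D.X, p ≠ q → p ≠ u → p ≠ v → (∀ x, x = p ∨ x = q ∨ x = u ∨ x = v) →
      (∑ e, (D.i q e).toNat = 3) → ∀ h, D.u p h = true → D.u q h = true := by
    intro p q hpq hpu hpv hX dq h hp
    by_contra hq
    have hq' : D.u q h = false := by simpa using hq
    obtain ⟨e1, a1, a2⟩ := (D.xh_iff p h).1 hp
    obtain ⟨x, hx, a3⟩ := other a1
    have hxh : D.u x h = true := (D.xh_iff x h).2 ⟨e1, a3, a2⟩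
    have hux : D.u u h = true := by
      rcases hX x with rfl | rfl | rfl | rfl
      · exact absurd rfl hx
      · rw [hxh] at hq'; exact absurd hq' (by decide)
      · exact hxh
      · rw [huvh]; exact hxh
    have hvx : D.u v h = true := by rw [← huvh]; exact hux
    have h3 : 3 ≤ #(D.AX h) := by
      have : ({p, u, v} : Finset D.X) ⊆ D.AX h := by
        intro a ha
        simp only [mem_insert, mem_singleton] at ha
        rcases ha with rfl | rfl | rfl <;> rw [mem_AX] <;> assumption
      have h2 := card_le_card this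
      rwa [card_eq_three.2 ⟨p, u, v, hpu, hpv, huv, rfl⟩] at h2
    rw [card_AX, D.sum_u] at h3
    have h4 : ∑ e, (D.r e h).toNat + ∑ e, (D.i q e).toNat ≤ ∑ _e : D.E, 1 := by
      rw [← Finset.sum_add_distrib]
      refine Finset.sum_le_sum fun e _ => ?_
      cases hr : D.r e h
      · cases D.i q e <;> simp
      · cases hi : D.i q e
        · simp
        · have := (D.xh_iff q h).2 ⟨e, hi, hr⟩
          rw [hq'] at this
          exact absurd this (by decide)
    simp only [Finset.sum_const, Finset.card_univ, smul_eq_mul, mul_one] at h4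
    omega
  have hpqh : ∀ h, D.u p h = D.u q h := fun h => by
    rw [Bool.eq_iff_iff]
    refine ⟨key p q hpq hpu hpv hX dq h, key q p hpq.symm hqu hqv ?_ dp h⟩
    intro x
    rcases hX x with h | h | h | h
    · exact Or.inr (Or.inl h)
    · exact Or.inl h
    · exact Or.inr (Or.inr (Or.inl h))
    · exact Or.inr (Or.inr (Or.inr h))
  have hpqy : ∀ y, D.w p y = D.w q y := fun y => by
    rw [Bool.eq_iff_iff, D.wu, D.wu]
    refine exists_congr fun h => ?_
    rw [hpqh h]
  unfold g
  rw [sum_four hX hpq hpu hpv hqu hqv huv]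
  simp only [hpqy, huvy]
  refine ⟨∑ y, (D.w q y).toNat + ∑ y, (D.w v y).toNat, by ring⟩

/-- The case of nonadjacent atoms of degree two. -/
lemma four_nonadj {p q u v : D.X} (hX : ∀ x, x = p ∨ x = q ∨ x = u ∨ x = v)
    (hpq : p ≠ q) (hpu : p ≠ u) (hpv : p ≠ v) (hqu : q ≠ u) (hqv : q ≠ v) (huv : u ≠ v)
    (hB : Fintype.card D.H = Fintype.card D.Y + 1)
    (dp : ∑ e, (D.i p e).toNat = 3) (dq : ∑ e, (D.i q e).toNat = 3)
    (du : ∑ e, (D.i u e).toNat = 2) (dv : ∑ e, (D.i v e).toNat = 2)
    (hna : ∀ e, D.i u e = true → D.i v e = true → False) :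
    3 * Fintype.card D.Y + 2 ≤ D.g := by
  -- an atom of degree two is adjacent to `p`
  have adj : ∀ p q u v : D.X, p ≠ q → p ≠ u → q ≠ u →
      (∀ x, x = p ∨ x = q ∨ x = u ∨ x = v) → (∑ e, (D.i q e).toNat = 3) →
      (∑ e, (D.i u e).toNat = 2) → (∀ e, D.i u e = true → D.i v e = true → False) →
      ∃ e, D.i u e = true ∧ D.i p e = true := by
    intro p q u v hpq hpu hqu hX dq du hna
    by_contra hne
    push Not at hne
    -- all edges at `u` go to `q`
    have hq : ∀ e, D.i u e = true → D.i q e = true := by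
      intro e he
      obtain ⟨x, hx, hxe⟩ := other he
      rcases hX x with rfl | rfl | rfl | rfl
      · exact absurd hxe (hne e he)
      · exact hxe
      · exact absurd rfl hx
      · exact (hna e he hxe).elim
    -- an edge at `q` not at `u`
    obtain ⟨e3, h3, h3'⟩ : ∃ e, D.i q e = true ∧ D.i u e = false := by
      by_contra hno
      push Not at hno
      have : ∑ e, (D.i q e).toNat ≤ ∑ e, (D.i u e).toNat :=
        le_sum_of_sub fun e he => by simpa using hno e he
      omega
    obtain ⟨h0, hh0⟩ := D.eh e3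
    have hqh : D.u q h0 = true := (D.xh_iff q h0).2 ⟨e3, h3, hh0⟩
    have hs := D.xh q h0
    rw [hqh, Bool.toNat_true, mul_one] at hs
    -- sum over the edges at `q`
    by_cases hu : D.u u h0 = true
    · have hs' := D.xh u h0
      rw [hu, Bool.toNat_true, mul_one] at hs'
      have : ∑ e, (D.i u e && D.r e h0).toNat < ∑ e, (D.i q e && D.r e h0).toNat := by
        refine Finset.sum_lt_sum (fun e _ => ?_) ⟨e3, Finset.mem_univ _, ?_⟩
        · cases hi : D.i u e
          · simp
          · rw [hq e hi]
        · rw [h3, h3', hh0]; decide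
      omega
    · have hu' : D.u u h0 = false := by simpa using hu
      have hr : ∀ e, D.i u e = true → D.r e h0 = false := fun e he => by
        rw [← deg2_r du he, hu']
      have h4 : ∑ e, (D.i q e && D.r e h0).toNat + ∑ e, (D.i u e).toNat ≤
          ∑ e, (D.i q e).toNat := by
        rw [← Finset.sum_add_distrib]
        refine Finset.sum_le_sum fun e _ => ?_
        cases hi : D.i u e
        · cases D.i q e <;> cases D.r e h0 <;> decide
        · rw [hq e hi, hr e hi]; decide
      omega
  have hX' : ∀ x, x = q ∨ x = p ∨ x = u ∨ x = v := fun x => by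
    rcases hX x with h | h | h | h
    · exact Or.inr (Or.inl h)
    · exact Or.inl h
    · exact Or.inr (Or.inr (Or.inl h))
    · exact Or.inr (Or.inr (Or.inr h))
  obtain ⟨eup, u1, u2⟩ := adj p q u v hpq hpu hqu hX dq du hna
  obtain ⟨euq, u3, u4⟩ := adj q p u v hpq.symm hqu hpu hX' dp du hna
  have hXs : ∀ x, x = p ∨ x = q ∨ x = v ∨ x = u := fun x => by
    rcases hX x with h | h | h | h
    · exact Or.inl h
    · exact Or.inr (Or.inl h)
    · exact Or.inr (Or.inr (Or.inr h))
    · exact Or.inr (Or.inr (Or.inl h))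
  have hXs' : ∀ x, x = q ∨ x = p ∨ x = v ∨ x = u := fun x => by
    rcases hX x with h | h | h | h
    · exact Or.inr (Or.inl h)
    · exact Or.inl h
    · exact Or.inr (Or.inr (Or.inr h))
    · exact Or.inr (Or.inr (Or.inl h))
  obtain ⟨evp, v1, v2⟩ := adj p q v u hpq hpv hqv hXs dq dv (fun e h1 h2 => hna e h2 h1)
  obtain ⟨evq, v3, v4⟩ := adj q p v u hpq.symm hqv hpv hXs' dp dv (fun e h1 h2 => hna e h2 h1)
  have hne : eup ≠ evp := by
    rintro rfl
    exact hna _ u1 v1
  -- the third edge at `p`
  have hEP : #{e | D.i p e = true} = 3 := by rw [card_filter_eq, dp]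
  obtain ⟨ep, hep, hEPe⟩ : ∃ ep, (ep ≠ eup ∧ ep ≠ evp) ∧
      (univ.filter fun e => D.i p e = true) = {eup, evp, ep} := by
    have hm1 : eup ∈ univ.filter (fun e => D.i p e = true) := by simp [u2]
    have hm2 : evp ∈ (univ.filter (fun e => D.i p e = true)).erase eup := by
      simp [v2, hne.symm]
    have hc : #(((univ.filter (fun e => D.i p e = true)).erase eup).erase evp) = 1 := by
      rw [card_erase_of_mem hm2, card_erase_of_mem hm1, hEP]
    obtain ⟨ep, hep⟩ := card_eq_one.1 hc
    have hmem : ep ∈ ((univ.filter (fun e => D.i p e = true)).erase eup).erase evp := by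
      rw [hep]; simp
    simp only [mem_erase, mem_filter, mem_univ, true_and] at hmem
    refine ⟨ep, ⟨hmem.2.1, hmem.1⟩, ?_⟩
    rw [← insert_erase hm1, ← insert_erase hm2, hep]
  -- every `h` contains `p`
  have hcont : ∀ p q u v : D.X, p ≠ q → (∀ x, x = p ∨ x = q ∨ x = u ∨ x = v) →
      (∑ e, (D.i u e).toNat = 2) → (∑ e, (D.i v e).toNat = 2) →
      (∃ e, D.i u e = true ∧ D.i p e = true) → (∃ e, D.i v e = true ∧ D.i p e = true) →
      ∀ h, D.u p h = true := by
    rintro p q u v hpq hX du dv ⟨e1, a1, a2⟩ ⟨e2, b1, b2⟩ h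
    by_contra hp
    have hu : D.u u h ≠ true := by
      intro h1
      rw [deg2_r du a1] at h1
      exact hp ((D.xh_iff p h).2 ⟨e1, a2, h1⟩)
    have hv : D.u v h ≠ true := by
      intro h1
      rw [deg2_r dv b1] at h1
      exact hp ((D.xh_iff p h).2 ⟨e2, b2, h1⟩)
    have h2 := two_le_AX h
    have h3 : D.AX h ⊆ {q} := by
      intro x hx
      rw [mem_AX] at hx
      rcases hX x with rfl | rfl | rfl | rfl
      · exact absurd hx hp
      · simp
      · exact absurd hx hu
      · exact absurd hx hv
    have h4 := card_le_card h3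
    simp at h4
    omega
  have hp : ∀ h, D.u p h = true := hcont p q u v hpq hX du dv ⟨eup, u1, u2⟩ ⟨evp, v1, v2⟩
  have hq : ∀ h, D.u q h = true :=
    hcont q p u v hpq.symm hX' du dv ⟨euq, u3, u4⟩ ⟨evq, v3, v4⟩
  -- the three edges at `p`
  have hthree : ∀ h, (D.r eup h).toNat + (D.r evp h).toNat + (D.r ep h).toNat = 2 := by
    intro h
    have h1 := D.xh p h
    rw [hp h, Bool.toNat_true, mul_one] at h1
    have h2 : ∑ e, (D.i p e && D.r e h).toNat =
        ∑ e ∈ univ.filter (fun e => D.i p e = true), (D.r e h).toNat := by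
      rw [Finset.sum_filter]
      refine Finset.sum_congr rfl fun e _ => ?_
      cases D.i p e <;> simp
    rw [h2, hEPe, Finset.sum_insert (by simp [hne, hep.1.symm]),
      Finset.sum_pair hep.2.symm] at h1
    omega
  have hor : ∀ h, D.u u h = true ∨ D.u v h = true := by
    intro h
    have := hthree h
    rw [deg2_r du u1, deg2_r dv v1]
    cases h1 : D.r eup h
    · cases h2 : D.r evp h
      · rw [h1, h2] at this
        have h3 := le_one (D.r ep h)
        simp only [Bool.toNat_false] at this
        omega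
      · exact Or.inr rfl
    · exact Or.inl rfl
  have hory : ∀ y, D.w u y = true ∨ D.w v y = true := by
    intro y
    obtain ⟨h, hh⟩ := exists_h y
    rcases hor h with h1 | h1
    · exact Or.inl ((D.wu u y).2 ⟨h, h1, hh⟩)
    · exact Or.inr ((D.wu v y).2 ⟨h, h1, hh⟩)
  have hpy : ∀ y, D.w p y = true := fun y => by
    obtain ⟨h, hh⟩ := exists_h y
    exact (D.wu p y).2 ⟨h, hp h, hh⟩
  have hqy : ∀ y, D.w q y = true := fun y => by
    obtain ⟨h, hh⟩ := exists_h y
    exact (D.wu q y).2 ⟨h, hq h, hh⟩
  -- counting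
  have cH : ∑ h, (D.u u h).toNat + ∑ h, (D.u v h).toNat =
      Fintype.card D.H + ∑ h, (D.u u h && D.u v h).toNat := by
    rw [← Finset.card_univ, Finset.card_eq_sum_ones, ← Finset.sum_add_distrib,
      ← Finset.sum_add_distrib]
    refine Finset.sum_congr rfl fun h _ => ?_
    rcases hor h with h1 | h1 <;> rw [h1]
    · cases D.u v h <;> simp
    · cases D.u u h <;> simp
  have cY : ∑ h, (D.w u h).toNat + ∑ h, (D.w v h).toNat =
      Fintype.card D.Y + ∑ h, (D.w u h && D.w v h).toNat := by
    rw [← Finset.card_univ, Finset.card_eq_sum_ones, ← Finset.sum_add_distrib,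
      ← Finset.sum_add_distrib]
    refine Finset.sum_congr rfl fun h _ => ?_
    rcases hory h with h1 | h1 <;> rw [h1]
    · cases D.w v h <;> simp
    · cases D.w u h <;> simp
  have e1 := deg2_count du
  have e2 := deg2_count dv
  have hg : D.g = 2 * Fintype.card D.Y + (∑ h, (D.w u h).toNat + ∑ h, (D.w v h).toNat) := by
    unfold g
    rw [sum_four hX hpq hpu hpv hqu hqv huv]
    simp only [hpy, hqy]
    simp only [Bool.toNat_true, Finset.sum_const, Finset.card_univ, smul_eq_mul, mul_one]
    ring
  -- at least two coatoms above both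
  have hn4 : 2 ≤ ∑ h, (D.w u h && D.w v h).toNat := by
    by_contra hlt
    have hm : ∑ h, (D.u u h && D.u v h).toNat = 0 := by omega
    have hn : 0 < ∑ h, (D.w u h && D.w v h).toNat := by omega
    have hm' : ∀ h, D.r eup h = true → D.r evp h = true → False := by
      intro h a1 a2
      have : 0 < ∑ h, (D.u u h && D.u v h).toNat :=
        sum_pos_of_exists (f := fun h => D.u u h && D.u v h) (x := h)
          (by simp only [deg2_r du u1, deg2_r dv v1, a1, a2, Bool.and_true])
      omega
    obtain ⟨y0, hy0⟩ := exists_of_sum_pos hn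
    simp only [Bool.and_eq_true] at hy0
    have f1 := D.ey eup y0
    have f2 := D.ey evp y0
    have f3 := D.ey ep y0
    rw [← deg2_v du u1, hy0.1] at f1
    rw [← deg2_v dv v1, hy0.2] at f2
    have f4 : ∑ h, (D.r eup h && D.j h y0).toNat + ∑ h, (D.r evp h && D.j h y0).toNat =
        ∑ h, (D.r ep h && D.j h y0).toNat := by
      rw [← Finset.sum_add_distrib]
      refine Finset.sum_congr rfl fun h _ => ?_
      have h3 := hthree h
      cases a1 : D.r eup h <;> cases a2 : D.r evp h <;> cases a3 : D.r ep h <;>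
        rw [a1, a2, a3] at h3 <;> simp at h3
      · simp
      · simp
      · exact (hm' h a1 a2).elim
    have f5 := le_one (D.v ep y0)
    simp only [Bool.toNat_true] at f1 f2
    omega
  omega

/-- Four atoms, `B = 1` and odd `g`. -/
lemma four_odd (hX : Fintype.card D.X = 4) (hE : Fintype.card D.E = 5) (hg : Odd D.g) :
    3 * Fintype.card D.Y + 2 ≤ D.g := by
  have hgc := D.gc
  have hB : Fintype.card D.H = Fintype.card D.Y + 1 := by omega
  have hdeg : ∀ x : D.X, ∑ e, (D.i x e).toNat = 2 ∨ ∑ e, (D.i x e).toNat = 3 := by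
    intro x
    have h1 := deg_x_le x
    have h2 : 2 ≤ ∑ e, (D.i x e).toNat := D.dual.two_le_deg x
    omega
  have hsum := D.f12
  rw [hE] at hsum
  have h3 : #{x | ∑ e, (D.i x e).toNat = 3} = 2 := by
    have h4 : ∑ x, ∑ e, (D.i x e).toNat =
        ∑ x : D.X, (2 + if ∑ e, (D.i x e).toNat = 3 then 1 else 0) := by
      refine Finset.sum_congr rfl fun x _ => ?_
      rcases hdeg x with h | h <;> rw [h] <;> simp
    rw [h4, Finset.sum_add_distrib, ← Finset.card_filter] at hsum
    simp only [Finset.sum_const, Finset.card_univ, smul_eq_mul, hX] at hsum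
    omega
  have h4 : #{x | ¬ ∑ e, (D.i x e).toNat = 3} = 2 := by
    have := Finset.card_filter_add_card_filter_not (s := (univ : Finset D.X))
      (fun x => ∑ e, (D.i x e).toNat = 3)
    rw [Finset.card_univ, hX, h3] at this
    omega
  obtain ⟨p, q, hpq, hpqe⟩ := card_eq_two.1 h3
  obtain ⟨u, v, huv, huve⟩ := card_eq_two.1 h4
  have dp : ∑ e, (D.i p e).toNat = 3 := by
    have : p ∈ ({p, q} : Finset D.X) := by simp
    rw [← hpqe] at this
    simpa using this
  have dq : ∑ e, (D.i q e).toNat = 3 := by
    have : q ∈ ({p, q} : Finset D.X) := by simp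
    rw [← hpqe] at this
    simpa using this
  have du : ∑ e, (D.i u e).toNat = 2 := by
    have : u ∈ ({u, v} : Finset D.X) := by simp
    rw [← huve] at this
    simp only [mem_filter, mem_univ, true_and] at this
    exact (hdeg u).resolve_right this
  have dv : ∑ e, (D.i v e).toNat = 2 := by
    have : v ∈ ({u, v} : Finset D.X) := by simp
    rw [← huve] at this
    simp only [mem_filter, mem_univ, true_and] at this
    exact (hdeg v).resolve_right this
  have hXX : ∀ x, x = p ∨ x = q ∨ x = u ∨ x = v := by
    intro x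
    by_cases h : ∑ e, (D.i x e).toNat = 3
    · have : x ∈ ({p, q} : Finset D.X) := by rw [← hpqe]; simpa using h
      simp only [mem_insert, mem_singleton] at this
      tauto
    · have : x ∈ ({u, v} : Finset D.X) := by rw [← huve]; simpa using h
      simp only [mem_insert, mem_singleton] at this
      tauto
  have hpu : p ≠ u := by rintro rfl; omega
  have hpv : p ≠ v := by rintro rfl; omega
  have hqu : q ≠ u := by rintro rfl; omega
  have hqv : q ≠ v := by rintro rfl; omega
  by_cases hadj : ∃ e, D.i u e = true ∧ D.i v e = true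
  · obtain ⟨e0, h5, h6⟩ := hadj
    have := four_adj hXX hpq hpu hpv hqu hqv huv hE dp dq du dv h5 h6
    exact absurd hg (Nat.not_odd_iff_even.2 this)
  · push Not at hadj
    exact four_nonadj hXX hpq hpu hpv hqu hqv huv hB dp dq du dv
      (fun e h5 h6 => hadj e h5 h6)

end EData

end Pool.Agent.Helper738F4
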