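import Pool.Agent.helper738_F4.Mk

/-!
# Concrete data
-/

namespace Pool.Agent.Helper738F4

lemma seed_3_9_9_18 : RealT 3 9 9 18 :=
  realT_mk5 (p := 12) (q := 18)
    [3, 3, 3, 3, 5, 5, 5, 5, 6, 6, 6, 6]
    [3, 3, 3, 3, 3, 3, 5, 5, 5, 5, 6, 6, 6, 6, 6, 6, 5, 5]
    [3, 3, 3, 5, 6, 6, 6, 5, 5]
    [10, 5, 3, 12, 12, 3, 192, 48, 80, 160, 2304, 1536, 768, 3072, 3072, 768, 96, 144]
    [15, 15, 15, 240, 3840, 3840, 3840, 240, 240]
    [15, 51, 60, 960, 15360, 52224, 61440, 196800, 197376]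
    (by decide +kernel) (by decide +kernel) (by decide +kernel) (by decide +kernel)

lemma seed_3_10_8_20 : RealT 3 10 8 20 :=
  realT_mk5 (p := 11) (q := 18)
    [3, 3, 3, 3, 5, 5, 5, 5, 6, 6, 6]
    [5, 5, 5, 5, 5, 5, 3, 3, 3, 3, 3, 3, 6, 6, 6, 6, 6, 6]
    [5, 5, 3, 3, 3, 5, 6, 6, 6, 6]
    [144, 96, 144, 96, 48, 192, 9, 6, 10, 5, 12, 3, 1280, 768, 1536, 1536, 768, 1280]
    [240, 240, 15, 15, 15, 240, 1792, 1792, 1792, 1792]
    [15, 51, 960, 3264, 3840, 60, 28672, 229376, 45056, 212992]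
    (by decide +kernel) (by decide +kernel) (by decide +kernel) (by decide +kernel)

lemma seed_3_11_7_22 : RealT 3 11 7 22 :=
  realT_mk5 (p := 10) (q := 18)
    [3, 3, 3, 3, 5, 5, 5, 6, 6, 6]
    [3, 3, 3, 3, 3, 3, 5, 5, 5, 6, 6, 6, 6, 6, 6, 5, 5, 5]
    [3, 3, 3, 5, 6, 6, 6, 6, 5, 5, 5]
    [3, 12, 12, 3, 3, 12, 96, 48, 80, 384, 768, 640, 768, 640, 384, 96, 48, 80]
    [15, 15, 15, 112, 896, 896, 896, 896, 112, 112, 112]
    [15, 51, 60, 448, 3584, 28672, 12800, 19456, 229376, 229376, 448]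
    (by decide +kernel) (by decide +kernel) (by decide +kernel) (by decide +kernel)

lemma seed_3_12_6_24 : RealT 3 12 6 24 :=
  realT_mk5 (p := 9) (q := 18)
    [3, 3, 3, 5, 5, 5, 6, 6, 6]
    [5, 5, 5, 3, 3, 3, 5, 5, 5, 3, 3, 3, 6, 6, 6, 6, 6, 6]
    [5, 3, 5, 3, 3, 5, 5, 6, 3, 6, 6, 6]
    [40, 24, 48, 6, 3, 5, 24, 48, 40, 5, 3, 6, 192, 320, 384, 384, 320, 192]
    [56, 7, 56, 7, 7, 56, 56, 448, 7, 448, 448, 448]
    [7, 56, 448, 1544, 2096, 7, 448, 28672, 3584, 229376, 102400, 155648]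
    (by decide +kernel) (by decide +kernel) (by decide +kernel) (by decide +kernel)

lemma seed_4_7_9_16 : RealT 4 7 9 16 :=
  realT_mk5 (p := 13) (q := 16)
    [3, 3, 3, 3, 5, 5, 5, 5, 9, 9, 6, 6, 6]
    [7, 3, 7, 5, 3, 3, 5, 5, 6, 6, 3, 3, 5, 5, 9, 9]
    [7, 7, 3, 5, 6, 9, 9]
    [2113, 6, 2184, 48, 9, 6, 48, 192, 5120, 5120, 12, 3, 160, 80, 768, 768]
    [7423, 2303, 15, 240, 5120, 768, 768]
    [1023, 15375, 3120, 12480, 768, 49152, 49152]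
    (by decide +kernel) (by decide +kernel) (by decide +kernel) (by decide +kernel)

lemma seed_4_8_8_18 : RealT 4 8 8 18 :=
  realT_mk5 (p := 12) (q := 16)
    [3, 3, 3, 3, 5, 5, 5, 5, 9, 9, 6, 6]
    [5, 7, 3, 7, 3, 3, 5, 5, 3, 3, 5, 5, 9, 9, 6, 6]
    [7, 7, 3, 5, 9, 6, 9, 6]
    [48, 1092, 9, 1154, 5, 10, 192, 48, 12, 3, 144, 96, 768, 768, 3072, 3072]
    [1279, 1279, 15, 240, 768, 3072, 768, 3072]
    [255, 3855, 816, 3264, 12288, 49152, 12288, 49152]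
    (by decide +kernel) (by decide +kernel) (by decide +kernel) (by decide +kernel)

lemma seed_4_9_7_20 : RealT 4 9 7 20 :=
  realT_mk5 (p := 11) (q := 16)
    [3, 3, 3, 3, 5, 5, 5, 9, 9, 6, 6]
    [7, 7, 3, 5, 5, 3, 3, 3, 3, 5, 5, 5, 9, 9, 6, 6]
    [7, 7, 3, 5, 5, 9, 6, 9, 6]
    [1064, 1041, 6, 80, 96, 9, 6, 10, 5, 96, 48, 80, 384, 384, 1536, 1536]
    [1151, 1151, 15, 112, 112, 384, 1536, 384, 1536]
    [127, 415, 480, 3584, 3584, 12288, 49152, 12288, 49152]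
    (by decide +kernel) (by decide +kernel) (by decide +kernel) (by decide +kernel)

lemma seed_4_10_6_22 : RealT 4 10 6 22 :=
  realT_mk5 (p := 10) (q := 16)
    [12, 12, 3, 3, 5, 5, 5, 6, 6, 6]
    [7, 5, 5, 6, 7, 6, 12, 12, 5, 5, 3, 3, 6, 5, 6, 6]
    [12, 12, 3, 3, 5, 5, 6, 6, 7, 7]
    [296, 48, 48, 640, 200, 384, 3, 3, 80, 80, 12, 12, 640, 96, 768, 768]
    [3, 3, 12, 12, 112, 112, 896, 896, 1016, 1016]
    [192, 192, 3072, 3072, 8706, 8450, 32808, 16424, 20757, 37397]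
    (by decide +kernel) (by decide +kernel) (by decide +kernel) (by decide +kernel)

lemma seed_4_6_7_15 : RealT 4 6 7 15 :=
  realT_mk5 (p := 11) (q := 13)
    [3, 3, 3, 5, 5, 5, 9, 9, 6, 6, 6]
    [7, 5, 3, 7, 5, 3, 6, 6, 7, 3, 5, 9, 9]
    [7, 7, 7, 6, 9, 9]
    [546, 24, 5, 545, 24, 6, 1280, 1280, 548, 3, 24, 192, 192]
    [1855, 575, 575, 1280, 192, 192]
    [255, 1799, 1848, 192, 6144, 6144]
    (by decide +kernel) (by decide +kernel) (by decide +kernel) (by decide +kernel)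

lemma seed_4_7_6_17 : RealT 4 7 6 17 :=
  realT_mk5 (p := 10) (q := 13)
    [3, 3, 3, 5, 5, 5, 9, 9, 6, 6]
    [3, 5, 7, 3, 5, 7, 7, 3, 5, 6, 6, 9, 9]
    [7, 7, 7, 6, 6, 9, 9]
    [6, 48, 265, 5, 40, 274, 289, 6, 24, 768, 768, 192, 192]
    [319, 319, 319, 768, 768, 192, 192]
    [63, 455, 504, 1536, 1536, 6144, 6144]
    (by decide +kernel) (by decide +kernel) (by decide +kernel) (by decide +kernel)

lemma seed_5_5_7_14 : RealT 5 5 7 14 :=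
  realT_mk5 (p := 12) (q := 12)
    [3, 3, 3, 3, 5, 5, 17, 17, 6, 6, 10, 10]
    [7, 7, 7, 7, 3, 3, 17, 17, 3, 3, 10, 10]
    [23, 15, 3, 10, 17]
    [276, 552, 545, 274, 6, 9, 192, 192, 12, 3, 3072, 3072]
    [1023, 3903, 15, 3072, 192]
    [255, 3855, 816, 3072, 192]
    (by decide +kernel) (by decide +kernel) (by decide +kernel) (by decide +kernel)

lemma seed_5_5_6_15 : RealT 5 5 6 15 :=
  realT_mk5 (p := 11) (q := 11)
    [3, 3, 3, 5, 5, 9, 9, 6, 6, 18, 18]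
    [7, 7, 7, 7, 3, 9, 9, 7, 3, 18, 18]
    [15, 23, 7, 18, 9]
    [265, 138, 148, 274, 5, 96, 96, 273, 6, 1536, 1536]
    [511, 1951, 279, 1536, 96]
    [127, 1927, 408, 1536, 96]
    (by decide +kernel) (by decide +kernel) (by decide +kernel) (by decide +kernel)

end Pool.Agent.Helper738F4
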