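import Pool.Agent.helper738_F4.Mk

/-!
# Realizing the generic values
-/

open Finset

namespace Pool.Agent.Helper738F4

/-- Two atoms, two coatoms, `B = 0`. -/
lemma real_2204 : RealT 2 2 0 4 :=
  realT_mk5 (p := 2) (q := 2) [3, 3] [3, 3] [3, 3] [3, 3] [3, 3] [3, 3]
    (by decide +kernel) (by decide +kernel) (by decide +kernel) (by decide +kernel)

lemma real_2b {b : ℕ} (hb : 2 ≤ b) : RealT 2 b 0 (2 * b) := by
  have := real_2204.splits (b - 2)
  have e1 : 2 + (b - 2) = b := by omega
  have e2 : 4 + 2 * (b - 2) = 2 * b := by omega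
  rwa [e1, e2] at this

lemma Real.shift {a b B g : ℕ} (h : Real a b B g) (j : ℕ) :
    Real (a + 2 * j) (b + 2 * j) B (g + 4 * j) := by
  induction j with
  | zero => exact h
  | succ j ih =>
    have := ih.add real_2204.real
    have e1 : a + 2 * j + 2 = a + 2 * (j + 1) := by ring
    have e2 : b + 2 * j + 2 = b + 2 * (j + 1) := by ring
    have e3 : g + 4 * j + 4 = g + 4 * (j + 1) := by ring
    rwa [e1, e2, e3] at this

lemma Real.up' {a b B g B' : ℕ} (h : Real a b B g) (ha : 0 < a) (hB : B ≤ B') :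
    Real a b B' g := by
  have := h.ups ha (B' - B)
  have e1 : B + (B' - B) = B' := by omega
  rwa [e1] at this

/-! ### the cyclic data with four elements of rank two -/

lemma chk4 : Chk 2 4 4 2 [3, 3, 3, 3] [3, 3, 3, 3] [3, 3] [3, 6, 12, 9] [15, 15] [15, 15] := by
  decide +kernel

/-- The cyclic data. -/
def D4 : EData := mk5 2 4 4 2 _ _ _ _ _ _ chk4

lemma D4_wx (h : Fin 4) : D4.wx h = 2 := by
  revert h
  decide +kernel

lemma D4_wy (h : Fin 4) : D4.wy h = 2 := by
  revert h
  decide +kernel

lemma real_cyc (A ρ q t s : ℕ) (hρ : ρ ≤ A) :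
    Real (2 + A) (2 + q + t + s) 2 (4 + 2 * A + q * (2 + A) + t * (2 + ρ) + 2 * s) := by
  have h0 : EData.SubReal D4 D4.wx D4.wy 2 2 2 4 :=
    EData.SubReal.start D4 (Fintype.card_fin 2) (Fintype.card_fin 2) (Fintype.card_fin 4)
      (by decide +kernel)
  have h1 := ((((h0.splitE (0 : Fin 4) ρ).splitE (1 : Fin 4) (A - ρ)).splitH
    (0 : Fin 4) q).splitH (3 : Fin 4) t).splitH (2 : Fin 4) s
  have h2 := h1.real
  have r00 : (D4.r (0 : Fin 4) (0 : Fin 4)).toNat = 1 := by decide +kernel
  have r10 : (D4.r (1 : Fin 4) (0 : Fin 4)).toNat = 1 := by decide +kernel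
  have r03 : (D4.r (0 : Fin 4) (3 : Fin 4)).toNat = 1 := by decide +kernel
  have r13 : (D4.r (1 : Fin 4) (3 : Fin 4)).toNat = 0 := by decide +kernel
  have r02 : (D4.r (0 : Fin 4) (2 : Fin 4)).toNat = 0 := by decide +kernel
  have r12 : (D4.r (1 : Fin 4) (2 : Fin 4)).toNat = 0 := by decide +kernel
  simp only [r00, r10, r03, r13, r02, r12, D4_wx, D4_wy] at h2
  have e1 : 2 + ρ + (A - ρ) = 2 + A := by omega
  have e2 : 4 + ρ * 2 + (A - ρ) * 2 + q * (2 + ρ * 1 + (A - ρ) * 1) +
      t * (2 + ρ * 1 + (A - ρ) * 0) + s * (2 + ρ * 0 + (A - ρ) * 0) =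
      4 + 2 * A + q * (2 + A) + t * (2 + ρ) + 2 * s := by
    have e3 : 2 + ρ * 1 + (A - ρ) * 1 = 2 + A := by omega
    rw [e3]
    have e4 : ρ * 2 + (A - ρ) * 2 = 2 * A := by omega
    calc _ = 4 + (ρ * 2 + (A - ρ) * 2) + q * (2 + A) + t * (2 + ρ) + 2 * s := by ring
      _ = _ := by rw [e4]
  rwa [e1, e2] at h2

/-- The values with `g ≥ 2a + 2b - 4`. -/
lemma real_ge {a b g : ℕ} (ha : 2 ≤ a) (hb : 2 ≤ b) (h1 : 2 * a + 2 * b ≤ g + 4)
    (h2 : g ≤ a * b) : Real a b 2 g := by
  obtain ⟨A, rfl⟩ := Nat.exists_eq_add_of_le ha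
  obtain ⟨C, rfl⟩ := Nat.exists_eq_add_of_le hb
  obtain ⟨E, hE⟩ : ∃ E, g = 4 + 2 * A + 2 * C + E := ⟨g - (4 + 2 * A + 2 * C), by omega⟩
  subst hE
  have hE : E ≤ A * C := by nlinarith
  rcases Nat.eq_zero_or_pos A with hA | hA
  · subst hA
    have h3 : E = 0 := by simpa using hE
    subst h3
    have := real_cyc 0 0 0 0 C le_rfl
    convert this using 1
    ring
  · have h3 := Nat.div_add_mod E A
    have h4 := Nat.mod_lt E hA
    rcases Nat.eq_zero_or_pos (E % A) with h5 | h5
    · have h6 : E / A ≤ C := by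
        rw [h5, add_zero] at h3
        have : A * (E / A) ≤ A * C := by omega
        exact Nat.le_of_mul_le_mul_left this hA
      have := real_cyc A 0 (E / A) 0 (C - E / A) (Nat.zero_le _)
      convert this using 1
      · omega
      · rw [h5, add_zero] at h3
        have e1 : E = (E / A) * A := by rw [mul_comm]; exact h3.symm
        obtain ⟨c, hc⟩ := Nat.exists_eq_add_of_le h6
        have e2 : C - E / A = c := by omega
        rw [e2]
        generalize E / A = d at *
        subst e1
        subst hc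
        ring
    · have h6 : E / A < C := by
        by_contra hge
        push Not at hge
        have : A * C ≤ A * (E / A) := Nat.mul_le_mul_left _ hge
        omega
      have := real_cyc A (E % A) (E / A) 1 (C - E / A - 1) h4.le
      convert this using 1
      · omega
      · obtain ⟨c, hc⟩ := Nat.exists_eq_add_of_lt h6
        have e2 : C - E / A - 1 = c := by omega
        rw [e2]
        generalize hd : E / A = d at *
        generalize hm : E % A = m at *
        subst hc
        have e1 : E = d * A + m := by rw [← h3]; ring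
        subst e1
        ring

/-- The exceptional values in the case `B ≤ 5`, where `δ = g - 2b` and `a ≤ b`. -/
def Exc (a b δ : ℕ) : Prop :=
  δ = 1 ∨ (Odd a ∧ δ = 0) ∨ (Even a ∧ (δ = 2 ∨ δ = 3)) ∨ (Odd a ∧ δ = 4 ∧ a = b) ∨
    (Odd a ∧ δ = 5 ∧ b ≤ a + 1)

lemma real_cover : ∀ (n a b δ : ℕ), a = n → 2 ≤ a → a ≤ b → δ + 2 * b ≤ a * b →
    ¬ Exc a b δ → Real a b 2 (δ + 2 * b) := by
  intro n
  induction n using Nat.strong_induction_on with
  | _ n ih =>
    intro a b δ han ha hab hg hex
    by_cases hD : 2 * a + 2 * b ≤ δ + 2 * b + 4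
    · exact real_ge ha (ha.trans hab) hD hg
    · have hD' : δ + 4 < 2 * a := by omega
      unfold Exc at hex
      push Not at hex
      obtain ⟨x1, x2, x3, x4, x5⟩ := hex
      -- `a ≥ 4`
      have ha4 : 4 ≤ a := by
        by_contra hlt
        interval_cases a
        · omega
        · have := x2 (by decide)
          omega
      have hle : δ + 2 * (b - 2) ≤ (a - 2) * (b - 2) := by
        rcases (show a = 4 ∨ a = 5 ∨ 6 ≤ a by omega) with rfl | rfl | h6
        · have := x3 (by decide)
          omega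
        · have h7 := x2 (by decide)
          have h8 := x4 (by decide)
          have h9 := x5 (by decide)
          omega
        · obtain ⟨c, rfl⟩ := Nat.exists_eq_add_of_le h6
          obtain ⟨d, rfl⟩ := Nat.exists_eq_add_of_le hab
          have e1 : 6 + c - 2 = 4 + c := by omega
          have e2 : 6 + c + d - 2 = 4 + c + d := by omega
          rw [e1, e2]
          nlinarith
      have hex' : ¬ Exc (a - 2) (b - 2) δ := by
        unfold Exc
        push Not
        have p1 : Odd (a - 2) ↔ Odd a := by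
          rw [Nat.odd_sub (by omega)]; simp
        have p2 : Even (a - 2) ↔ Even a := by
          rw [Nat.even_sub (by omega)]; simp
        rw [p1, p2]
        refine ⟨x1, x2, x3, ?_, ?_⟩
        · intro h1 h2 h3
          exact x4 h1 h2 (by omega)
        · intro h1 h2
          have := x5 h1 h2
          omega
      have := ih (a - 2) (by omega) (a - 2) (b - 2) δ rfl (by omega) (by omega) hle hex'
      have h3 := this.shift 1
      have e1 : a - 2 + 2 * 1 = a := by omega
      have e2 : b - 2 + 2 * 1 = b := by omega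
      have e3 : δ + 2 * (b - 2) + 4 * 1 = δ + 2 * b := by omega
      rwa [e1, e2, e3] at h3

end Pool.Agent.Helper738F4
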