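import Pool.Agent.helper738_F4.FlagEval

/-!
# The Eulerian poset of rank five with given incidence data
-/

open Finset

namespace Pool.Agent.Helper738F4

open Pool.Agent.Helper738Eul

/-- The elements of the poset with given incidence data. -/
inductive El (D : EData) : Type
  | bot : El D
  | lx (x : D.X) : El D
  | le (e : D.E) : El D
  | lh (h : D.H) : El D
  | ly (y : D.Y) : El D
  | top : El D

namespace El

variable {D : EData}

/-- The strict order. -/
def ltb : El D → El D → Bool
  | bot, bot => false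
  | bot, _ => true
  | _, bot => false
  | top, _ => false
  | _, top => true
  | lx x, le e => D.i x e
  | lx x, lh e => D.u x e
  | lx x, ly e => D.w x e
  | le x, lh e => D.r x e
  | le x, ly e => D.v x e
  | lh x, ly e => D.j x e
  | _, _ => false

lemma ltb_irrefl (a : El D) : ¬ ltb a a = true := by
  cases a <;> simp [ltb]

lemma ltb_trans {a b c : El D} (h1 : ltb a b = true) (h2 : ltb b c = true) : ltb a c = true := by
  cases a <;> cases b <;> cases c <;> simp_all [ltb]
  · exact (D.xh_iff _ _).2 ⟨_, h1, h2⟩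
  · exact (D.wv _ _).2 ⟨_, h2, h1⟩
  · exact (D.wu _ _).2 ⟨_, h1, h2⟩
  · exact (D.ey_iff _ _).2 ⟨_, h1, h2⟩

instance : PartialOrder (El D) where
  le a b := a = b ∨ ltb a b = true
  le_refl a := Or.inl rfl
  le_trans a b c h1 h2 := by
    rcases h1 with rfl | h1
    · exact h2
    · rcases h2 with rfl | h2
      · exact Or.inr h1
      · exact Or.inr (ltb_trans h1 h2)
  le_antisymm a b h1 h2 := by
    rcases h1 with rfl | h1
    · rfl
    · rcases h2 with rfl | h2
      · rfl
      · exact absurd (ltb_trans h1 h2) (ltb_irrefl _)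

lemma lt_iff (a b : El D) : a < b ↔ ltb a b = true := by
  rw [lt_iff_le_not_ge]
  constructor
  · rintro ⟨rfl | h1, h2⟩
    · exact absurd (Or.inl rfl) h2
    · exact h1
  · intro h
    refine ⟨Or.inr h, ?_⟩
    rintro (rfl | h2)
    · exact ltb_irrefl _ h
    · exact ltb_irrefl _ (ltb_trans h h2)

instance : BoundedOrder (El D) where
  top := top
  bot := bot
  le_top a := by
    cases a
    · exact Or.inr rfl
    · exact Or.inr rfl
    · exact Or.inr rfl
    · exact Or.inr rfl
    · exact Or.inr rfl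
    · exact Or.inl rfl
  bot_le a := by
    cases a
    · exact Or.inl rfl
    · exact Or.inr rfl
    · exact Or.inr rfl
    · exact Or.inr rfl
    · exact Or.inr rfl
    · exact Or.inr rfl

/-- The type as a sum. -/
def equiv : El D ≃ (Unit ⊕ D.X ⊕ D.E ⊕ D.H ⊕ D.Y ⊕ Unit) where
  toFun
    | bot => Sum.inl ()
    | lx i => Sum.inr (Sum.inl i)
    | le i => Sum.inr (Sum.inr (Sum.inl i))
    | lh i => Sum.inr (Sum.inr (Sum.inr (Sum.inl i)))
    | ly i => Sum.inr (Sum.inr (Sum.inr (Sum.inr (Sum.inl i))))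
    | top => Sum.inr (Sum.inr (Sum.inr (Sum.inr (Sum.inr ()))))
  invFun
    | Sum.inl () => bot
    | Sum.inr (Sum.inl i) => lx i
    | Sum.inr (Sum.inr (Sum.inl i)) => le i
    | Sum.inr (Sum.inr (Sum.inr (Sum.inl i))) => lh i
    | Sum.inr (Sum.inr (Sum.inr (Sum.inr (Sum.inl i)))) => ly i
    | Sum.inr (Sum.inr (Sum.inr (Sum.inr (Sum.inr ())))) => top
  left_inv a := by cases a <;> rfl
  right_inv a := by rcases a with _ | _ | _ | _ | _ | _ <;> rfl

instance : Fintype (El D) := Fintype.ofEquiv _ equiv.symm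

lemma sum_eq (g : El D → ℤ) : ∑ z, g z =
    g bot + ∑ i, g (lx i) + ∑ i, g (le i) + ∑ i, g (lh i) + ∑ i, g (ly i) + g top := by
  rw [← equiv.symm.sum_comp g]
  simp only [Fintype.sum_sum_type, Fintype.sum_unique, add_assoc]
  rfl

/-- The rank function. -/
def rk : El D → ℕ
  | bot => 0
  | lx _ => 1
  | le _ => 2
  | lh _ => 3
  | ly _ => 4
  | top => 5

lemma isum {α : Type} [Fintype α] (f : α → Bool) (c : ℤ) :
    ∑ x, (if f x = true then c else 0) = c * ((∑ x, (f x).toNat : ℕ) : ℤ) := by
  push_cast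
  rw [Finset.mul_sum]
  refine Finset.sum_congr rfl fun x _ => ?_
  cases f x <;> simp

lemma mid_xy (x : D.X) (y : D.Y) :
    ∑ e, (D.i x e && D.v e y).toNat = ∑ h, (D.u x h && D.j h y).toNat := by
  have h1 : ∑ e, 2 * (D.i x e && D.v e y).toNat = ∑ h, 2 * (D.u x h && D.j h y).toNat := by
    have a1 : ∀ e, 2 * (D.i x e && D.v e y).toNat =
        ∑ h, (D.i x e).toNat * (D.r e h && D.j h y).toNat := by
      intro e
      rw [← Finset.mul_sum, D.ey, EData.toNat_and]; ring
    have a2 : ∀ h, 2 * (D.u x h && D.j h y).toNat =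
        ∑ e, (D.i x e).toNat * (D.r e h && D.j h y).toNat := by
      intro h
      have : ∀ e, (D.i x e).toNat * (D.r e h && D.j h y).toNat =
          (D.i x e && D.r e h).toNat * (D.j h y).toNat := by
        intro e
        rw [EData.toNat_and, EData.toNat_and]; ring
      rw [Finset.sum_congr rfl fun e _ => this e, ← Finset.sum_mul, D.xh, EData.toNat_and]; ring
    rw [Finset.sum_congr rfl fun e _ => a1 e, Finset.sum_congr rfl fun e _ => a2 e,
      Finset.sum_comm]
  rw [← Finset.mul_sum, ← Finset.mul_sum] at h1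
  omega

lemma two_of_lt {a : ℕ} {b : Bool} (h : a = 2 * b.toNat) (hb : b = true) : a = 2 := by
  subst hb; simpa using h

open Classical in
lemma eulerian : IsEulerian (P := El D) rk := by
  rw [isEulerian_iff]
  intro a b hab
  rw [sum_Icc_eq hab, Finset.sum_filter]
  have e1 : ∀ z : El D, (if a < z ∧ z < b then (-1 : ℤ) ^ (rk z) else 0) =
      if (ltb a z && ltb z b) = true then (-1 : ℤ) ^ (rk z) else 0 := by
    intro z
    simp only [lt_iff, Bool.and_eq_true]
  rw [Finset.sum_congr rfl fun z _ => e1 z, sum_eq]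
  rw [lt_iff] at hab
  have hgc := D.gc
  cases a <;> cases b <;> simp only [ltb, Bool.false_eq_true] at hab <;>
    simp only [ltb, rk, isum, Bool.and_false, Bool.false_and, Bool.and_true, Bool.true_and,
      Finset.sum_const_zero, Bool.false_eq_true, if_false]
  case bot.lx x => norm_num
  case bot.le e => have := D.i2 e; omega
  case bot.lh h => have := D.sum_u h; omega
  case bot.ly y => have := D.yc y; omega
  case bot.top =>
    simp only [if_true, Finset.sum_const, Finset.card_univ, nsmul_eq_mul]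
    omega
  case lx.le x e => norm_num
  case lx.lh x h => have := two_of_lt (D.xh x h) hab; omega
  case lx.ly x y => have := mid_xy x y; omega
  case lx.top x => have := D.xc x; omega
  case le.lh e h => norm_num
  case le.ly e y => have := two_of_lt (D.ey e y) hab; omega
  case le.top e => have := D.sum_v e; omega
  case lh.ly h y => norm_num
  case lh.top h => have := D.j2 h; omega
  case ly.top y => norm_num

lemma exists_i (D : EData) (e : D.E) : ∃ x, D.i x e = true :=
  EData.exists_of_sum_pos (by rw [D.i2 e]; decide)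

lemma graded (hX : Nonempty D.X) : IsGraded (P := El D) 4 rk := by
  refine ⟨rfl, rfl, ?_⟩
  intro a b hab
  have hlt := (lt_iff _ _).1 hab.lt
  have hno : ∀ c : El D, ltb a c = true → ltb c b = true → False := fun c h1 h2 =>
    hab.2 ((lt_iff _ _).2 h1) ((lt_iff _ _).2 h2)
  obtain ⟨x0⟩ := hX
  cases a <;> cases b <;> simp only [ltb, Bool.false_eq_true] at hlt <;> try rfl
  case bot.le e =>
    obtain ⟨x, hx⟩ := exists_i D e
    exact (hno (lx x) rfl hx).elim
  case bot.lh h =>
    obtain ⟨x, hx⟩ := D.he h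
    exact (hno (le x) rfl hx).elim
  case bot.ly y =>
    by_contra _
    have h1 := D.yc y
    by_cases h2 : 0 < ∑ e, (D.v e y).toNat
    · obtain ⟨e, he⟩ := EData.exists_of_sum_pos h2
      exact hno (le e) rfl he
    · by_cases h3 : 0 < ∑ h, (D.j h y).toNat
      · obtain ⟨h, hh⟩ := EData.exists_of_sum_pos h3
        exact hno (lh h) rfl hh
      · have h4 : 0 < ∑ x, (D.w x y).toNat := by omega
        obtain ⟨x, hx⟩ := EData.exists_of_sum_pos h4
        exact hno (lx x) rfl hx
  case bot.top => exact (hno (lx x0) rfl rfl).elim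
  case lx.lh x h =>
    obtain ⟨e, h1, h2⟩ := (D.xh_iff x h).1 hlt
    exact (hno (le e) h1 h2).elim
  case lx.ly x y =>
    obtain ⟨h, h1, h2⟩ := (D.wu x y).1 hlt
    exact (hno (lh h) h1 h2).elim
  case lx.top x =>
    by_contra _
    have h1 := D.xc x
    by_cases h2 : 0 < ∑ e, (D.i x e).toNat
    · obtain ⟨e, he⟩ := EData.exists_of_sum_pos h2
      exact hno (le e) he rfl
    · by_cases h3 : 0 < ∑ h, (D.u x h).toNat
      · obtain ⟨h, hh⟩ := EData.exists_of_sum_pos h3
        exact hno (lh h) hh rfl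
      · have h4 : 0 < ∑ y, (D.w x y).toNat := by omega
        obtain ⟨y, hy⟩ := EData.exists_of_sum_pos h4
        exact hno (ly y) hy rfl
  case le.ly e y =>
    obtain ⟨h, h1, h2⟩ := (D.ey_iff e y).1 hlt
    exact (hno (lh h) h1 h2).elim
  case le.top e =>
    obtain ⟨h, h1⟩ := D.eh e
    exact (hno (lh h) h1 rfl).elim
  case lh.top h =>
    obtain ⟨y, h1⟩ := D.exists_j h
    exact (hno (ly y) h1 rfl).elim

/-- The atoms. -/
def eX : D.X ≃ {z : El D // rk z = 1} where
  toFun x := ⟨lx x, rfl⟩
  invFun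
    | ⟨lx x, _⟩ => x
  left_inv _ := rfl
  right_inv := by
    rintro ⟨z, hz⟩
    cases z <;> first | rfl | (exfalso; revert hz; simp [rk])

/-- The elements of rank two. -/
def eE : D.E ≃ {z : El D // rk z = 2} where
  toFun x := ⟨le x, rfl⟩
  invFun
    | ⟨le x, _⟩ => x
  left_inv _ := rfl
  right_inv := by
    rintro ⟨z, hz⟩
    cases z <;> first | rfl | (exfalso; revert hz; simp [rk])

/-- The coatoms. -/
def eY : D.Y ≃ {z : El D // rk z = 4} where
  toFun x := ⟨ly x, rfl⟩
  invFun
    | ⟨ly x, _⟩ => x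
  left_inv _ := rfl
  right_inv := by
    rintro ⟨z, hz⟩
    cases z <;> first | rfl | (exfalso; revert hz; simp [rk])

lemma mem_flagVectors (D : EData) (hX : Nonempty D.X) {v : Finset (Fin 4) → ℤ}
    (hv : IsFlag v (Fintype.card D.X) (Fintype.card D.Y)
      ((Fintype.card D.E : ℤ) - Fintype.card D.X) D.g) : v ∈ FlagVectors 4 := by
  have hg := graded (D := D) hX
  have he := eulerian (D := D)
  refine ⟨El D, inferInstance, inferInstance, inferInstance, rk, hg, he, ?_⟩
  set v' : Finset (Fin 4) → ℤ := fun S =>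
    (flagNumber (rk (D := D)) (S.image (fun i : Fin 4 => (i : ℕ) + 1)) : ℤ) with hv'
  have h1 := isFlag_of_poset hg he (v := v') (fun S => rfl)
  have c1 : Fintype.card (ofPoset hg he).X = Fintype.card D.X := (Fintype.card_congr eX).symm
  have c2 : Fintype.card (ofPoset hg he).E = Fintype.card D.E := (Fintype.card_congr eE).symm
  have c4 : Fintype.card (ofPoset hg he).Y = Fintype.card D.Y := (Fintype.card_congr eY).symm
  have c5 : (ofPoset hg he).g = D.g := by
    unfold EData.g
    symm
    refine Fintype.sum_equiv eX _ _ fun x => ?_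
    refine Fintype.sum_equiv eY _ _ fun y => ?_
    congr 1
    rw [Bool.eq_iff_iff]
    change _ ↔ @decide (lx x < ly y) (Classical.propDecidable _) = true
    rw [@decide_eq_true_eq _ (Classical.propDecidable _), lt_iff]
    rfl
  rw [c1, c2, c4, c5] at h1
  have key : v = v' := by
    obtain ⟨a0, a1, a2, a3, a4, a5, a6, a7, a8, a9, a10, a11, a12, a13, a14, a15⟩ := hv
    obtain ⟨b0, b1, b2, b3, b4, b5, b6, b7, b8, b9, b10, b11, b12, b13, b14, b15⟩ := h1
    have hall : ∀ S : Finset (Fin 4), S = ∅ ∨ S = {0} ∨ S = {1} ∨ S = {2} ∨ S = {3} ∨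
        S = {0, 1} ∨ S = {0, 2} ∨ S = {0, 3} ∨ S = {1, 2} ∨ S = {1, 3} ∨ S = {2, 3} ∨
        S = {0, 1, 2} ∨ S = {0, 1, 3} ∨ S = {0, 2, 3} ∨ S = {1, 2, 3} ∨ S = {0, 1, 2, 3} := by
      decide
    funext S
    rcases hall S with h | h | h | h | h | h | h | h | h | h | h | h | h | h | h | h <;>
      rw [h] <;> linarith
  intro S
  rw [key]

end El

end Pool.Agent.Helper738F4
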