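import Pool.Agent.helper738_F4.ZSuf

/-!
# Doubled matrices with at least seven rows
-/

open Finset

namespace Pool.Agent.Helper738F4

instance (g p : ℕ) : Decidable (TopOK g p) := by unfold TopOK; infer_instance

set_option synthInstance.maxSize 100000 in
set_option synthInstance.maxHeartbeats 4000000 in
instance (a b g p : ℕ) : Decidable (ZC a b g p) := by unfold ZC; infer_instance

set_option synthInstance.maxSize 100000 in
set_option synthInstance.maxHeartbeats 4000000 in
set_option maxRecDepth 100000 in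
lemma seven_small : ∀ b < 11, ∀ g < 71, ZC 7 b g (7 * b) →
    ZC 5 b (g - 2 * b) (5 * b) ∨ ZC 5 (b - 2) (g - 4) (5 * (b - 2)) ∨
      ZC 7 (b - 2) (g - 14) (7 * (b - 2)) ∨ ZC 4 (b - 3) (g - 9) (4 * (b - 3)) ∨
      (b, g) ∈ [(7, 22), (7, 24), (7, 26), (7, 27), (7, 28), (7, 35), (8, 27), (8, 31), (8, 32),
        (8, 33), (8, 39), (9, 28), (9, 32)] := by
  decide +kernel

set_option synthInstance.maxSize 100000 in
set_option synthInstance.maxHeartbeats 4000000 in
set_option maxRecDepth 100000 in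
lemma eight_small : ∀ b < 12, ∀ g < 89, ZC 8 b g (8 * b) →
    ZC 6 b (g - 2 * b) (6 * b) ∨ ZC 6 (b - 2) (g - 4) (6 * (b - 2)) ∨
      ZC 8 (b - 2) (g - 16) (8 * (b - 2)) ∨ ZC 5 (b - 3) (g - 9) (5 * (b - 3)) ∨
      ZC 5 b (g - 3 * b) (5 * b) ∨
      (b, g) ∈ [(8, 26), (8, 27), (8, 33), (8, 37), (8, 39), (9, 41), (9, 43), (10, 33),
        (10, 39), (10, 45), (10, 51)] := by
  decide +kernel

lemma zc_R2 {A b g P : ℕ} (h : ZC (A + 2) b (g + 2 * b) (P + 2 * b)) (hA : 7 ≤ A)
    (hd : 2 * b + 4 ≤ g) : ZC A b g P := by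
  obtain ⟨-, hab, -, hu, -, -, -, -, -, -, ht, -⟩ := h
  refine ⟨by omega, by omega, by omega, by omega, by omega, fun _ => by omega,
    fun _ => ⟨by omega, by omega⟩, fun _ _ => by omega, fun _ _ => by omega,
    fun _ _ => by omega, ht.shift, fun _ => by omega, fun _ => by omega, fun _ => by omega,
    fun _ => by omega, fun _ => by omega, fun _ _ => by omega⟩

lemma zc_D22 {A B G P : ℕ} (h : ZC (A + 2) (B + 2) (G + 4) P) (hA : 7 ≤ A) {P' : ℕ}
    (hfar : G + 12 ≤ P') (h88 : A = 8 → B = 8 → G ≠ 29 ∧ G ≠ 35 ∧ G ≠ 41 ∧ G ≠ 47) :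
    ZC A B G P' := by
  obtain ⟨-, hab, hl, -, n1, n0, n2, n4, n5, n7, -⟩ := h
  refine ⟨by omega, by omega, by omega, by omega, ?_, ?_, ?_, ?_, ?_, ?_, TopOK.far hfar,
    fun _ => by omega, fun _ => by omega, fun _ => by omega, fun _ => by omega,
    fun _ => by omega, h88⟩
  · intro h; exact n1 (by rw [h]; ring)
  · intro h1 h; exact n0 (by omega) (by rw [h]; ring)
  · intro h1
    obtain ⟨h2, h3⟩ := n2 (by omega)
    exact ⟨fun h => h2 (by rw [h]; ring), fun h => h3 (by rw [h]; ring)⟩
  · intro h1 h2 h; exact n4 (by omega) (by omega) (by rw [h]; ring)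
  · intro h1 h2 h; exact n5 (by omega) (by omega) (by rw [h]; ring)
  · intro h1 h2 h; exact n7 (by omega) (by omega) (by rw [h]; ring)

lemma zc_F2_seven {b g : ℕ} (h : ZC 7 (b + 2) (g + 14) (7 * (b + 2))) (hb : 9 ≤ b)
    (hd : 2 * b + 2 ≤ g) : ZC 7 b g (7 * b) := by
  obtain ⟨-, -, -, hu, -, -, -, -, -, -, ht, -⟩ := h
  refine ⟨by omega, by omega, by omega, by omega, by omega, fun _ => by omega,
    fun _ => by omega, fun _ _ => by omega, fun _ _ => by omega,
    fun _ _ => by omega, TopOK.shift (c := 14)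
      (by rw [show 7 * b + 14 = 7 * (b + 2) by ring]; exact ht), fun _ => by omega,
    fun _ => by omega, fun _ => by omega,
    fun _ => by omega, fun _ => by omega, fun _ _ => by omega⟩

lemma zc_D22_seven {b g : ℕ} (h : ZC 7 (b + 2) (g + 4) (7 * (b + 2))) (hb : 9 ≤ b)
    (hfar : g + 12 ≤ 5 * b) : ZC 5 b g (5 * b) := by
  obtain ⟨-, -, hl, -, n1, n0, -⟩ := h
  refine ⟨by omega, by omega, by omega, by omega, ?_, ?_,
    fun _ => by omega, fun _ _ => by omega, fun _ _ => by omega,
    fun _ _ => by omega, TopOK.far hfar, fun _ => by omega,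
    fun _ => by omega, fun _ _ => hb,
    fun _ => by omega, fun _ => by omega, fun _ _ => by omega⟩
  · intro h; exact n1 (by rw [h]; ring)
  · intro h1 h; exact n0 (by omega) (by rw [h]; ring)

lemma zc_F2_eight {b g : ℕ} (h : ZC 8 (b + 2) (g + 16) (8 * (b + 2))) (hb : 10 ≤ b)
    (hd : 2 * b + 4 ≤ g) : ZC 8 b g (8 * b) := by
  obtain ⟨-, -, -, hu, -, -, -, -, -, -, ht, -⟩ := h
  refine ⟨by omega, by omega, by omega, by omega, by omega, fun _ => by omega,
    fun _ => by omega, fun _ _ => by omega, fun _ _ => by omega,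
    fun _ _ => by omega, TopOK.shift (c := 16)
      (by rw [show 8 * b + 16 = 8 * (b + 2) by ring]; exact ht), fun _ => by omega,
    fun _ => by omega, fun _ => by omega,
    fun _ => by omega, fun _ => by omega, fun _ _ => by omega⟩

lemma zc_D22_eight {b g : ℕ} (hb : 10 ≤ b) (hg : g = 2 * b ∨ g = 2 * b + 4) :
    ZC 6 b g (6 * b) := by
  refine ⟨by omega, by omega, by omega, by omega, by omega, fun _ => by omega,
    fun _ => by omega, fun _ _ => by omega, fun _ _ => by omega,
    fun _ _ => by omega, TopOK.far (by omega), fun _ => by omega,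
    fun _ => by omega, fun _ => by omega,
    fun _ => by omega, fun _ => by omega, fun _ _ => by omega⟩

lemma zc_D33_eight {b g : ℕ} (hb : 9 ≤ b) (hl : 2 * b + 2 ≤ g)
    (hfar : g + 12 ≤ 5 * b) : ZC 5 b g (5 * b) := by
  refine ⟨by omega, by omega, by omega, by omega, by omega, fun _ => by omega,
    fun _ => by omega, fun _ _ => by omega, fun _ _ => by omega,
    fun _ _ => by omega, TopOK.far hfar, fun _ => by omega,
    fun _ => by omega, fun _ _ => hb,
    fun _ => by omega, fun _ => by omega, fun _ _ => by omega⟩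

theorem dm_of_zc : ∀ (n a b g : ℕ), a + b = n → ZC a b g (a * b) → DoubleMatrix a b g := by
  intro n
  induction n using Nat.strong_induction_on with
  | _ n ih =>
    intro a b g hn h
    have h2 : 2 ≤ a := h.1
    have hab : a ≤ b := h.2.1
    have hl : 2 * b ≤ g := h.2.2.1
    have hu : g ≤ a * b := h.2.2.2.1
    -- using a smaller matrix
    have R : ∀ p q a' g' : ℕ, a = a' + p → 2 ≤ p → g = g' + p * b → 0 < a' → q = a' * b →
        ZC a' b g' q → DoubleMatrix a b g := by
      intro p q a' g' h1 hp h3 h4 hq h5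
      subst hq
      have := (ih (a' + b) (by omega) a' b g' rfl h5).rows hp h4
      rwa [← h1, ← h3] at this
    have F : ∀ q b' g' : ℕ, b = b' + q → 2 ≤ q → g = g' + q * a → 0 < b' →
        ZC a b' g' (a * b') → DoubleMatrix a b g := by
      intro q b' g' h1 hp h3 h4 h5
      have := (ih (a + b') (by omega) a b' g' rfl h5).cols hp h4
      rwa [← h1, ← h3] at this
    have G22 : ∀ a' b' g' : ℕ, a = a' + 2 → b = b' + 2 → g = g' + 4 →
        ZC a' b' g' (a' * b') → DoubleMatrix a b g := by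
      intro a' b' g' h1 h3 h4 h5
      have := (ih (a' + b') (by omega) a' b' g' rfl h5).diag (dm_two le_rfl)
      rw [← h1, ← h3] at this
      rwa [h4]
    have G33 : ∀ a' b' g' : ℕ, a = a' + 3 → b = b' + 3 → g = g' + 9 →
        ZC a' b' g' (a' * b') → DoubleMatrix a b g := by
      intro a' b' g' h1 h3 h4 h5
      have := (ih (a' + b') (by omega) a' b' g' rfl h5).diag (dm_three (b := 3) (by norm_num))
      rw [← h1, ← h3] at this
      rwa [h4]
    rcases (show a = 2 ∨ a = 3 ∨ a = 4 ∨ a = 5 ∨ a = 6 ∨ a = 7 ∨ a = 8 ∨ 9 ≤ a by omega) with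
      e | e | e | e | e | e | e | e
    · subst e
      have : g = 2 * b := by omega
      rw [this]; exact dm_two hab
    · subst e
      have : g = 3 * b := h.2.2.2.2.2.2.2.2.2.2.2.1 rfl
      rw [this]; exact dm_three (by omega)
    · subst e; exact zc_four h
    · subst e; exact zc_five h
    · subst e; exact zc_six h
    · subst e
      rcases Nat.lt_or_ge b 11 with hb | hb
      · have hg : g < 71 := by omega
        rcases seven_small b hb g hg h with h1 | h1 | h1 | h1 | h1
        · have := h1.2.2.1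
          exact R 2 _ 5 (g - 2 * b) rfl le_rfl (by omega) (by norm_num) rfl h1
        · have := h1.2.1
          have := h1.2.2.1
          exact G22 5 (b - 2) (g - 4) rfl (by omega) (by omega) h1
        · have := h1.2.1
          have := h1.2.2.1
          exact F 2 (b - 2) (g - 14) (by omega) le_rfl (by omega) (by omega) h1
        · have := h1.2.1
          have := h1.2.2.1
          exact G33 4 (b - 3) (g - 9) rfl (by omega) (by omega) h1
        · simp only [List.mem_cons, Prod.mk.injEq, List.not_mem_nil, or_false] at h1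
          rcases h1 with ⟨rfl, rfl⟩ | ⟨rfl, rfl⟩ | ⟨rfl, rfl⟩ | ⟨rfl, rfl⟩ | ⟨rfl, rfl⟩ |
            ⟨rfl, rfl⟩ | ⟨rfl, rfl⟩ | ⟨rfl, rfl⟩ | ⟨rfl, rfl⟩ | ⟨rfl, rfl⟩ | ⟨rfl, rfl⟩ |
            ⟨rfl, rfl⟩ | ⟨rfl, rfl⟩
          · exact dm_7_7_22
          · exact dm_7_7_24
          · exact dm_7_7_26
          · exact dm_7_7_27
          · exact dm_7_7_28
          · exact dm_7_7_35
          · exact dm_7_8_27
          · exact dm_7_8_31
          · exact dm_7_8_32
          · exact dm_7_8_33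
          · exact dm_7_8_39
          · exact dm_7_9_28
          · exact dm_7_9_32
      · obtain ⟨c, rfl⟩ : ∃ c, b = c + 2 := ⟨b - 2, by omega⟩
        rcases Nat.lt_or_ge g (2 * (c + 2) + 12) with hg | hg
        · obtain ⟨f, rfl⟩ : ∃ f, g = f + 4 := ⟨g - 4, by omega⟩
          exact G22 5 c f rfl rfl rfl (zc_D22_seven h (by omega) (by omega))
        · obtain ⟨f, rfl⟩ : ∃ f, g = f + 14 := ⟨g - 14, by omega⟩
          exact F 2 c f rfl le_rfl (by omega) (by omega) (zc_F2_seven h (by omega) (by omega))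
    · subst e
      rcases Nat.lt_or_ge b 12 with hb | hb
      · have hg : g < 89 := by omega
        rcases eight_small b hb g hg h with h1 | h1 | h1 | h1 | h1 | h1
        · have := h1.2.2.1
          exact R 2 _ 6 (g - 2 * b) rfl le_rfl (by omega) (by norm_num) rfl h1
        · have := h1.2.1
          have := h1.2.2.1
          exact G22 6 (b - 2) (g - 4) rfl (by omega) (by omega) h1
        · have := h1.2.1
          have := h1.2.2.1
          exact F 2 (b - 2) (g - 16) (by omega) le_rfl (by omega) (by omega) h1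
        · have := h1.2.1
          have := h1.2.2.1
          exact G33 5 (b - 3) (g - 9) rfl (by omega) (by omega) h1
        · have := h1.2.1
          have := h1.2.2.1
          exact R 3 _ 5 (g - 3 * b) rfl (by norm_num) (by omega) (by norm_num) rfl h1
        · simp only [List.mem_cons, Prod.mk.injEq, List.not_mem_nil, or_false] at h1
          rcases h1 with ⟨rfl, rfl⟩ | ⟨rfl, rfl⟩ | ⟨rfl, rfl⟩ | ⟨rfl, rfl⟩ | ⟨rfl, rfl⟩ |
            ⟨rfl, rfl⟩ | ⟨rfl, rfl⟩ | ⟨rfl, rfl⟩ | ⟨rfl, rfl⟩ | ⟨rfl, rfl⟩ | ⟨rfl, rfl⟩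
          · exact dm_8_8_26
          · exact dm_8_8_27
          · exact dm_8_8_33
          · exact dm_8_8_37
          · exact dm_8_8_39
          · exact dm_8_9_41
          · exact dm_8_9_43
          · exact dm_8_10_33
          · exact dm_8_10_39
          · exact dm_8_10_45
          · exact dm_8_10_51
      · have n1 : g ≠ 2 * b + 1 := h.2.2.2.2.1
        have n2 : g ≠ 2 * b + 2 ∧ g ≠ 2 * b + 3 := h.2.2.2.2.2.2.1 rfl
        rcases (show (g = 2 * b ∨ g = 2 * b + 4) ∨ (2 * b + 5 ≤ g ∧ g ≤ 2 * b + 15) ∨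
            2 * b + 16 ≤ g by omega) with hg | hg | hg
        · obtain ⟨c, rfl⟩ : ∃ c, b = c + 2 := ⟨b - 2, by omega⟩
          obtain ⟨f, rfl⟩ : ∃ f, g = f + 4 := ⟨g - 4, by omega⟩
          exact G22 6 c f rfl rfl rfl (zc_D22_eight (by omega) (by omega))
        · obtain ⟨c, rfl⟩ : ∃ c, b = c + 3 := ⟨b - 3, by omega⟩
          obtain ⟨f, rfl⟩ : ∃ f, g = f + 9 := ⟨g - 9, by omega⟩
          exact G33 5 c f rfl rfl rfl (zc_D33_eight (by omega) (by omega) (by omega))
        · obtain ⟨c, rfl⟩ : ∃ c, b = c + 2 := ⟨b - 2, by omega⟩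
          obtain ⟨f, rfl⟩ : ∃ f, g = f + 16 := ⟨g - 16, by omega⟩
          exact F 2 c f rfl le_rfl (by omega) (by omega) (zc_F2_eight h (by omega) (by omega))
    · obtain ⟨A, rfl⟩ : ∃ A, a = A + 2 := ⟨a - 2, by omega⟩
      rcases Nat.lt_or_ge g (4 * b + 4) with hg | hg
      · obtain ⟨B, rfl⟩ : ∃ B, b = B + 2 := ⟨b - 2, by omega⟩
        by_cases hs : A = 8 ∧ B = 8 ∧ (g = 33 ∨ g = 39)
        · obtain ⟨rfl, rfl, rfl | rfl⟩ := hs
          · exact G33 7 7 24 rfl rfl rfl (by decide)
          · exact G33 7 7 30 rfl rfl rfl (by decide)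
        · obtain ⟨f, rfl⟩ : ∃ f, g = f + 4 := ⟨g - 4, by omega⟩
          have hAB : 7 * B ≤ A * B := Nat.mul_le_mul_right _ (by omega)
          exact G22 A B f rfl rfl rfl (zc_D22 h (by omega) (by omega) (by
            rintro rfl rfl
            refine ⟨fun h => hs ⟨rfl, rfl, by omega⟩, fun h => hs ⟨rfl, rfl, by omega⟩,
              by omega, by omega⟩))
      · obtain ⟨f, rfl⟩ : ∃ f, g = f + 2 * b := ⟨g - 2 * b, by omega⟩
        refine R 2 (A * b) A f rfl le_rfl rfl (by omega) rfl (zc_R2 (P := A * b) ?_ (by omega)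
          (by omega))
        rw [show A * b + 2 * b = (A + 2) * b by ring]
        exact h

end Pool.Agent.Helper738F4
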