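import Pool.Agent.helper738_F4.NecG
import Pool.Agent.helper738_F4.NecFour
import Pool.Agent.helper738_F4.BOneCover
import Pool.Agent.helper738_F4.BZero
import Pool.Agent.helper738_F4.ZBig
import Pool.Agent.helper738_F4.Seeds
import Pool.Agent.helper738_F4.Suff
import Pool.Agent.helper738_F4.FlagEval
import Pool.Agent.helper738_F4.ToPoset

/-!
# The flag f-vectors of the Eulerian posets of rank five
-/

open Finset

namespace Pool.Agent.Helper738F4

theorem good_of_data (D : EData) {a b B g : ℕ} (h1 : Fintype.card D.X = a)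
    (h2 : Fintype.card D.Y = b) (h3 : Fintype.card D.E = a + B) (h4 : D.g = g)
    (hX : Nonempty D.X) (hab : a ≤ b) : Good a b B g := by
  obtain ⟨x⟩ := hX
  obtain ⟨y, hy⟩ := D.exists_y x
  refine ⟨?_, hab, ?_, ?_, ?_, ?_, ?_, ?_, ?_, ?_, ?_, ?_⟩
  · rw [← h1]
    exact (D.two_le_AY y).trans (card_le_univ _)
  · rw [← h2, ← h4]; exact D.g_ge
  · rw [← h1, ← h2, ← h4]; exact D.g_le
  · rw [← h2, ← h4]; exact D.g_ne
  · rintro rfl
    exact zeroOK_of_matrix (matrix_of_real ⟨D, h1, h2, h3, h4⟩)
  · rintro rfl rfl hodd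
    rw [← h4] at hodd
    have := D.four_odd h1 (by rw [h3]) hodd
    rwa [h2, h4] at this
  · intro ha hg
    have hs := D.exists_St_zero (by rw [h4, h2, hg])
    have := hs.zero_le rfl (by rw [h1]; exact ha)
    rw [h1, h2, h3] at this
    push_cast at this
    omega
  · intro ha hg
    obtain ⟨T, hT, hs⟩ := D.exists_St (k := 2) (Or.inl rfl) (by rw [h4, h2, hg])
    have := hs.marked (Or.inl rfl) hT (by rw [h1]; exact ha)
    rw [h1, h2, h3] at this
    norm_num at this
    omega
  · intro ha hg
    obtain ⟨T, hT, hs⟩ := D.exists_St (k := 3) (Or.inr rfl) (by rw [h4, h2, hg])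
    have := hs.marked (Or.inr rfl) hT (by rw [h1]; exact ha)
    rw [h1, h2, h3] at this
    norm_num at this
    omega
  · intro ha hab' hg
    have := D.odd_four (by rw [h1]; exact ha) (by rw [h1, h2, hab']) (by rw [h4, h2, hg])
    omega
  · intro ha hab' hg
    have := D.odd_five (by rw [h1]; exact ha) (by rw [h1, h2]; exact hab)
      (by rw [h1, h2]; exact hab') (by rw [h4, h2, hg])
    omega

/-- Using a concrete example. -/
lemma real_of_seed {a0 b0 B0 g0 : ℕ} (h : RealT a0 b0 B0 g0) (ha0 : 0 < a0) {a b B g : ℕ}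
    {k : ℕ} (h1 : a = a0 + 2 * k) (h2 : b0 + 2 * k ≤ b) (h3 : B0 ≤ B)
    (h4 : g + 2 * b0 = g0 + 2 * b) : Real a b B g := by
  have s1 := ((h.splits (b - (b0 + 2 * k))).ups ha0 (B - B0)).real.shift k
  have e1 : b0 + (b - (b0 + 2 * k)) + 2 * k = b := by omega
  have e2 : B0 + (B - B0) = B := by omega
  have e3 : g0 + 2 * (b - (b0 + 2 * k)) + 4 * k = g := by omega
  rw [e1, e2, e3, ← h1] at s1
  exact s1

theorem real_of_good {a b B g : ℕ} (h : Good a b B g) : Real a b B g := by
  obtain ⟨two_le, le, lower, upper, ne, zero, one, e1, e2, e3, e4, e5⟩ := h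
  rcases Nat.eq_zero_or_pos B with hB | hB
  · subst hB
    obtain ⟨z1, z3, z4, z5, z6, z6', z7, z8⟩ := zero rfl
    refine real_of_matrix (dm_of_zc _ a b g rfl ⟨two_le, le, lower, upper, ne, ?_, ?_, ?_, ?_, ?_,
      z1, z3, ?_, z5, ?_, z6', z8⟩)
    · intro h1 h2
      have := (e1 (Nat.odd_iff.2 h1) h2).1
      omega
    · intro h1
      constructor
      · intro h2
        have := (e2 (Nat.even_iff.2 h1) h2).1
        omega
      · intro h2
        have := (e3 (Nat.even_iff.2 h1) h2).1
        omega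
    · intro h1 h2 h3
      have := e4 (Nat.odd_iff.2 h1) h2 h3
      omega
    · intro h1 h2 h3
      have := e5 (Nat.odd_iff.2 h1) h2 h3
      omega
    · intro h1 h2
      exact z7 (Nat.even_iff.2 h1) h2
    · intro h1
      exact Nat.even_iff.1 (z4 h1)
    · intro h1 h2
      obtain ⟨h3, h4⟩ := z6 h1 (Nat.odd_iff.2 h2)
      exact ⟨Nat.mod_eq_zero_of_dvd h3, h4⟩
  obtain ⟨δ, rfl⟩ : ∃ δ, g = δ + 2 * b := ⟨g - 2 * b, by omega⟩
  by_cases hex : Exc a b δ
  · unfold Exc at hex
    rcases hex with h | ⟨h, h'⟩ | ⟨h, h' | h'⟩ | ⟨h, h', h''⟩ | ⟨h, h', h''⟩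
    · omega
    · have hb := e1 h (by omega)
      obtain ⟨c, hc⟩ := h
      obtain ⟨k, hk⟩ : ∃ k, a = 3 + 2 * k := ⟨c - 1, by omega⟩
      rcases (show B = 6 ∨ B = 7 ∨ B = 8 ∨ 9 ≤ B by omega) with h6 | h6 | h6 | h6
      · exact real_of_seed seed_3_12_6_24 (by norm_num) hk (by omega) (by omega) (by omega)
      · exact real_of_seed seed_3_11_7_22 (by norm_num) hk (by omega) (by omega) (by omega)
      · exact real_of_seed seed_3_10_8_20 (by norm_num) hk (by omega) (by omega) (by omega)
      · exact real_of_seed seed_3_9_9_18 (by norm_num) hk (by omega) (by omega) (by omega)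
    · have hb := e2 h (by omega)
      obtain ⟨c, hc⟩ := h
      have ha : a ≠ 2 := by rintro rfl; omega
      obtain ⟨k, hk⟩ : ∃ k, a = 4 + 2 * k := ⟨c - 2, by omega⟩
      rcases (show B = 6 ∨ B = 7 ∨ B = 8 ∨ 9 ≤ B by omega) with h6 | h6 | h6 | h6
      · exact real_of_seed seed_4_10_6_22 (by norm_num) hk (by omega) (by omega) (by omega)
      · exact real_of_seed seed_4_9_7_20 (by norm_num) hk (by omega) (by omega) (by omega)
      · exact real_of_seed seed_4_8_8_18 (by norm_num) hk (by omega) (by omega) (by omega)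
      · exact real_of_seed seed_4_7_9_16 (by norm_num) hk (by omega) (by omega) (by omega)
    · have hb := e3 h (by omega)
      obtain ⟨c, hc⟩ := h
      have ha : a ≠ 2 := by rintro rfl; omega
      obtain ⟨k, hk⟩ : ∃ k, a = 4 + 2 * k := ⟨c - 2, by omega⟩
      rcases (show B = 6 ∨ 7 ≤ B by omega) with h6 | h6
      · exact real_of_seed seed_4_7_6_17 (by norm_num) hk (by omega) (by omega) (by omega)
      · exact real_of_seed seed_4_6_7_15 (by norm_num) hk (by omega) (by omega) (by omega)
    · have hb := e4 h h'' (by omega)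
      obtain ⟨c, hc⟩ := h
      have ha : a ≠ 3 := by rintro rfl; omega
      have ha' : a ≠ 1 := by omega
      obtain ⟨k, hk⟩ : ∃ k, a = 5 + 2 * k := ⟨c - 2, by omega⟩
      exact real_of_seed seed_5_5_7_14 (by norm_num) hk (by omega) (by omega) (by omega)
    · have hb := e5 h h'' (by omega)
      obtain ⟨c, hc⟩ := h
      have ha : a ≠ 3 := by rintro rfl; omega
      have ha' : a ≠ 1 := by omega
      obtain ⟨k, hk⟩ : ∃ k, a = 5 + 2 * k := ⟨c - 2, by omega⟩
      exact real_of_seed seed_5_5_6_15 (by norm_num) hk (by omega) (by omega) (by omega)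
  · rcases Nat.lt_or_ge B 2 with h1 | h1
    · have hB1 : B = 1 := by omega
      subst hB1
      refine real_one a a b δ rfl two_le le upper hex ?_
      intro ha hodd
      have := one rfl ha (by rcases hodd with ⟨c, hc⟩; exact ⟨c + b, by omega⟩)
      omega
    · exact (real_cover a a b δ rfl two_le le upper hex).up' (by omega) h1

theorem real_of_admissible {a b B g : ℕ} (h : Admissible a b B g) : Real a b B g := by
  rcases h with h | h
  · exact real_of_good h
  · exact (real_of_good h).dual

theorem admissible_of_data (D : EData) {a b B g : ℕ} (h1 : Fintype.card D.X = a)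
    (h2 : Fintype.card D.Y = b) (h3 : Fintype.card D.E = a + B) (h4 : D.g = g)
    (hX : Nonempty D.X) : Admissible a b B g := by
  rcases Nat.le_total a b with hab | hab
  · exact Or.inl (good_of_data D h1 h2 h3 h4 hX hab)
  · right
    obtain ⟨x⟩ := hX
    obtain ⟨y, hy⟩ := D.exists_y x
    have := D.gc
    refine good_of_data D.dual h2 h1 ?_ (by rw [D.dual_g, h4]) ⟨y⟩ hab
    change Fintype.card D.H = _
    omega

open Pool.Agent.Helper738Eul

theorem mem_flagVectors_four (v : Finset (Fin 4) → ℤ) :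
    v ∈ FlagVectors 4 ↔ ∃ a b B g : ℕ, IsFlag v a b B g ∧ Admissible a b B g := by
  constructor
  · rintro ⟨P, _, _, _, ρ, hg, he, hv⟩
    classical
    have : Fintype P := Fintype.ofFinite P
    have hf := isFlag_of_poset hg he hv
    have hX : Nonempty (ofPoset hg he).X := by
      obtain ⟨z, _, _, hz⟩ := hg.exists_between hg.bot_lt_top (r := 1)
        (by rw [hg.bot]; norm_num) (by rw [hg.top]; norm_num)
      exact ⟨⟨z, hz⟩⟩
    obtain ⟨B, hB⟩ := Nat.exists_eq_add_of_le (ofPoset hg he).card_X_le_E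
    refine ⟨_, _, B, _, ?_, admissible_of_data (ofPoset hg he) rfl rfl hB rfl hX⟩
    rw [hB] at hf
    push_cast at hf
    rw [show ((Fintype.card (ofPoset hg he).X : ℤ) + B - Fintype.card (ofPoset hg he).X) = B
      by ring] at hf
    exact hf
  · rintro ⟨a, b, B, g, hf, had⟩
    obtain ⟨D, h1, h2, h3, h4⟩ := real_of_admissible had
    have ha : 0 < a := by
      rcases had with h | h
      · have := h.two_le; omega
      · have := h.two_le; have := h.le; omega
    have hX : Nonempty D.X := Fintype.card_pos_iff.1 (by omega)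
    apply El.mem_flagVectors D hX
    rw [h1, h2, h3, h4]
    push_cast
    rw [show ((a : ℤ) + B - a) = B by ring]
    exact hf

end Pool.Agent.Helper738F4
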