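import Pool.Agent.helper738_F4.Ops

/-!
# Concrete rank five data given by bit masks
-/

open Finset

namespace Pool.Agent.Helper738F4

/-- The `m`-th bit of the `k`-th entry. -/
def bt (l : List ℕ) (k m : ℕ) : Bool := (l.getD k 0).testBit m

/-- The conditions for six lists of bit masks to describe rank five data with `a` atoms, `p`
elements of rank two, `q` of rank three and `b` coatoms. -/
def Chk (a p q b : ℕ) (I U W R V J : List ℕ) : Prop :=
  (∀ e : Fin p, ∑ x : Fin a, (bt I e x).toNat = 2) ∧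
  (∀ h : Fin q, ∑ y : Fin b, (bt J y h).toNat = 2) ∧
  (∀ (x : Fin a) (h : Fin q), ∑ e : Fin p, (bt I e x && bt R h e).toNat =
    2 * (bt U h x).toNat) ∧
  (∀ (e : Fin p) (y : Fin b), ∑ h : Fin q, (bt R h e && bt J y h).toNat =
    2 * (bt V y e).toNat) ∧
  (∀ (x : Fin a) (y : Fin b), bt W y x = true ↔
    ∃ h : Fin q, bt U h x = true ∧ bt J y h = true) ∧
  (∀ x : Fin a, ∑ e : Fin p, (bt I e x).toNat + ∑ y : Fin b, (bt W y x).toNat =
    ∑ h : Fin q, (bt U h x).toNat + 2) ∧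
  (∀ y : Fin b, ∑ x : Fin a, (bt W y x).toNat + ∑ h : Fin q, (bt J y h).toNat =
    ∑ e : Fin p, (bt V y e).toNat + 2) ∧
  (∀ e : Fin p, ∃ h : Fin q, bt R h e = true) ∧
  (∀ h : Fin q, ∃ e : Fin p, bt R h e = true)

instance (a p q b : ℕ) (I U W R V J : List ℕ) : Decidable (Chk a p q b I U W R V J) := by
  unfold Chk; infer_instance

/-- The data given by bit masks. -/
def mk5 (a p q b : ℕ) (I U W R V J : List ℕ) (h : Chk a p q b I U W R V J) : EData where
  X := Fin a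
  E := Fin p
  H := Fin q
  Y := Fin b
  i x e := bt I e x
  r e h := bt R h e
  j h y := bt J y h
  u x h := bt U h x
  v e y := bt V y e
  w x y := bt W y x
  i2 := h.1
  j2 := h.2.1
  xh := h.2.2.1
  ey := h.2.2.2.1
  wu := h.2.2.2.2.1
  xc := h.2.2.2.2.2.1
  yc := h.2.2.2.2.2.2.1
  eh := h.2.2.2.2.2.2.2.1
  he := h.2.2.2.2.2.2.2.2

lemma real_mk5 {a p q b : ℕ} (I U W R V J : List ℕ) (h : Chk a p q b I U W R V J) {B g : ℕ}
    (hp : p = a + B) (hg : ∑ x : Fin a, ∑ y : Fin b, (bt W y x).toNat = g) : Real a b B g :=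
  ⟨mk5 a p q b I U W R V J h, Fintype.card_fin a, Fintype.card_fin b, (Fintype.card_fin p).trans hp, hg⟩

lemma realT_mk5 {a p q b : ℕ} (I U W R V J : List ℕ) (h : Chk a p q b I U W R V J) {B g : ℕ}
    (hp : p = a + B) (hg : ∑ x : Fin a, ∑ y : Fin b, (bt W y x).toNat = g)
    (h2 : ∃ h : Fin q, ∑ x : Fin a, (bt U h x).toNat = 2) : RealT a b B g :=
  ⟨mk5 a p q b I U W R V J h, Fintype.card_fin a, Fintype.card_fin b, (Fintype.card_fin p).trans hp, hg, h2⟩

end Pool.Agent.Helper738F4
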