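import Pool.Agent.helper738_F4.EData
import Pool.Agent.helper738_F4.LemG

/-!
# Necessary conditions: basic facts
-/

open Finset

namespace Pool.Agent.Helper738F4

namespace EData

variable (D : EData)

lemma card_filter_eq {α : Type} [Fintype α] (f : α → Bool) :
    #{x | f x = true} = ∑ x, (f x).toNat := by
  rw [Finset.card_filter]
  refine Finset.sum_congr rfl fun x _ => ?_
  cases f x <;> rfl

lemma le_one (b : Bool) : b.toNat ≤ 1 := by cases b <;> decide

/-- The two atoms of an element of rank two. -/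
def AE (e : D.E) : Finset D.X := {x | D.i x e = true}

/-- The atoms below an element of rank three. -/
def AX (h : D.H) : Finset D.X := {x | D.u x h = true}

/-- The atoms below a coatom. -/
def AY (y : D.Y) : Finset D.X := {x | D.w x y = true}

variable {D}

lemma mem_AE {e : D.E} {x : D.X} : x ∈ D.AE e ↔ D.i x e = true := by simp [AE]
lemma mem_AX {h : D.H} {x : D.X} : x ∈ D.AX h ↔ D.u x h = true := by simp [AX]
lemma mem_AY {y : D.Y} {x : D.X} : x ∈ D.AY y ↔ D.w x y = true := by simp [AY]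

lemma card_AE (e : D.E) : #(D.AE e) = 2 := by
  rw [AE, card_filter_eq, D.i2]

lemma card_AX (h : D.H) : #(D.AX h) = ∑ x, (D.u x h).toNat := by
  rw [AX, card_filter_eq]

lemma card_AY (y : D.Y) : #(D.AY y) = ∑ x, (D.w x y).toNat := by
  rw [AY, card_filter_eq]

lemma AE_sub_AX {e : D.E} {h : D.H} (he : D.r e h = true) : D.AE e ⊆ D.AX h := fun x hx =>
  mem_AX.2 ((D.xh_iff x h).2 ⟨e, mem_AE.1 hx, he⟩)

lemma AX_sub_AY {h : D.H} {y : D.Y} (he : D.j h y = true) : D.AX h ⊆ D.AY y := fun x hx =>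
  mem_AY.2 ((D.wu x y).2 ⟨h, mem_AX.1 hx, he⟩)

lemma AE_sub_AY {e : D.E} {y : D.Y} (he : D.v e y = true) : D.AE e ⊆ D.AY y := by
  obtain ⟨h, h1, h2⟩ := (D.ey_iff e y).1 he
  exact (AE_sub_AX h1).trans (AX_sub_AY h2)

lemma two_le_AX (h : D.H) : 2 ≤ #(D.AX h) := by
  obtain ⟨e, he⟩ := D.he h
  rw [← card_AE e]
  exact card_le_card (AE_sub_AX he)

lemma exists_h (y : D.Y) : ∃ h, D.j h y = true := by
  have h1 := D.yc y
  by_cases h2 : 0 < ∑ e, (D.v e y).toNat
  · obtain ⟨e, he⟩ := exists_of_sum_pos h2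
    obtain ⟨h, _, h3⟩ := (D.ey_iff e y).1 he
    exact ⟨h, h3⟩
  · by_cases h3 : 0 < ∑ h, (D.j h y).toNat
    · exact exists_of_sum_pos h3
    · have h4 : 0 < ∑ x, (D.w x y).toNat := by omega
      obtain ⟨x, hx⟩ := exists_of_sum_pos h4
      obtain ⟨h, _, h3⟩ := (D.wu x y).1 hx
      exact ⟨h, h3⟩

lemma two_le_AY (y : D.Y) : 2 ≤ #(D.AY y) := by
  obtain ⟨h, hh⟩ := D.exists_h y
  exact (two_le_AX h).trans (card_le_card (AX_sub_AY hh))

lemma le_sum_of_sub {α : Type} [Fintype α] {f g : α → Bool} (h : ∀ x, f x = true → g x = true) :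
    ∑ x, (f x).toNat ≤ ∑ x, (g x).toNat := by
  refine Finset.sum_le_sum fun x _ => ?_
  cases hf : f x
  · simp
  · rw [h x hf]

/-- Each coatom has at least two elements of rank three below it. -/
lemma two_le_deg (y : D.Y) : 2 ≤ ∑ h, (D.j h y).toNat := by
  obtain ⟨h, hh⟩ := D.exists_h y
  obtain ⟨e, he⟩ := D.he h
  have h1 := D.ey e y
  rw [(D.ey_iff e y).2 ⟨h, he, hh⟩, Bool.toNat_true, mul_one] at h1
  rw [← h1]
  exact le_sum_of_sub fun h' hh' => by simp at hh'; exact hh'.2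

/-- Each element of rank two has at least two elements of rank three above it. -/
lemma two_le_deg_e (e : D.E) : 2 ≤ ∑ h, (D.r e h).toNat := by
  obtain ⟨h, hh⟩ := D.eh e
  obtain ⟨y, hy⟩ : ∃ y, D.j h y = true := exists_of_sum_pos (by rw [D.j2]; decide)
  have h1 := D.ey e y
  rw [(D.ey_iff e y).2 ⟨h, hh, hy⟩, Bool.toNat_true, mul_one] at h1
  rw [← h1]
  exact le_sum_of_sub fun h' hh' => by simp at hh'; exact hh'.1

lemma card_Y_le_H : Fintype.card D.Y ≤ Fintype.card D.H := by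
  have h1 := D.f34
  have h2 : ∑ _y : D.Y, 2 ≤ ∑ y, ∑ h, (D.j h y).toNat :=
    Finset.sum_le_sum fun y _ => two_le_deg y
  simp only [Finset.sum_const, Finset.card_univ, smul_eq_mul] at h2
  omega

lemma card_X_le_E : Fintype.card D.X ≤ Fintype.card D.E := by
  have h1 := D.dual.card_Y_le_H
  exact h1

/-- The excess of a coatom. -/
lemma exc (y : D.Y) : ∑ h, ((D.j h y).toNat : ℤ) * ((#(D.AX h) : ℤ) - 2) =
    2 * ((#(D.AY y) : ℤ) - 2) := by
  have h1 : ∑ h, (D.j h y).toNat * #(D.AX h) = 2 * ∑ e, (D.v e y).toNat := by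
    have a1 : ∀ h, (D.j h y).toNat * #(D.AX h) = ∑ e, (D.r e h && D.j h y).toNat := by
      intro h
      rw [card_AX, D.sum_u, Finset.mul_sum]
      refine Finset.sum_congr rfl fun e _ => ?_
      rw [toNat_and, mul_comm]
    rw [Finset.sum_congr rfl fun h _ => a1 h, Finset.sum_comm,
      Finset.sum_congr rfl fun e _ => D.ey e y, Finset.mul_sum]
  have h2 := D.yc y
  rw [← card_AY] at h2
  have h3 : ∑ h, ((D.j h y).toNat : ℤ) * ((#(D.AX h) : ℤ) - 2) =
      ((∑ h, (D.j h y).toNat * #(D.AX h) : ℕ) : ℤ) - 2 * ((∑ h, (D.j h y).toNat : ℕ) : ℤ) := by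
    push_cast
    rw [Finset.mul_sum, ← Finset.sum_sub_distrib]
    refine Finset.sum_congr rfl fun h _ => ?_
    ring
  rw [h3, h1]
  generalize ∑ h, (D.j h y).toNat = A at h2 ⊢
  generalize ∑ e, (D.v e y).toNat = B at h2 ⊢
  push_cast
  omega

lemma g_eq : D.g = ∑ y, #(D.AY y) := by
  rw [g, Finset.sum_comm]
  exact Finset.sum_congr rfl fun y _ => (card_AY y).symm

lemma sum_exc_y : ∑ y, ((#(D.AY y) : ℤ) - 2) = D.g - 2 * Fintype.card D.Y := by
  rw [Finset.sum_sub_distrib, g_eq]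
  push_cast
  simp [mul_comm]

lemma sum_exc_h : ∑ h, ((#(D.AX h) : ℤ) - 2) = D.g - 2 * Fintype.card D.Y := by
  have h1 : ∑ y, ∑ h, ((D.j h y).toNat : ℤ) * ((#(D.AX h) : ℤ) - 2) =
      ∑ y, 2 * ((#(D.AY y) : ℤ) - 2) := Finset.sum_congr rfl fun y _ => exc y
  rw [Finset.sum_comm, ← Finset.mul_sum, sum_exc_y] at h1
  have h2 : ∀ h, ∑ y, ((D.j h y).toNat : ℤ) * ((#(D.AX h) : ℤ) - 2) =
      2 * ((#(D.AX h) : ℤ) - 2) := by
    intro h
    rw [← Finset.sum_mul]
    have := D.j2 h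
    congr 1
    exact_mod_cast this
  rw [Finset.sum_congr rfl fun h _ => h2 h, ← Finset.mul_sum] at h1
  linarith

lemma g_le : D.g ≤ Fintype.card D.X * Fintype.card D.Y := by
  rw [g_eq]
  calc ∑ y, #(D.AY y) ≤ ∑ _y : D.Y, Fintype.card D.X :=
        Finset.sum_le_sum fun y _ => card_le_univ _
    _ = _ := by simp [mul_comm]

lemma g_ge : 2 * Fintype.card D.Y ≤ D.g := by
  rw [g_eq]
  calc 2 * Fintype.card D.Y = ∑ _y : D.Y, 2 := by simp [mul_comm]
    _ ≤ _ := Finset.sum_le_sum fun y _ => two_le_AY y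

/-- The excess of a coatom is at most half of the total excess. -/
lemma exc_le (y : D.Y) : 2 * ((#(D.AY y) : ℤ) - 2) ≤ D.g - 2 * Fintype.card D.Y := by
  rw [← exc, ← sum_exc_h]
  refine Finset.sum_le_sum fun h _ => ?_
  have h1 := two_le_AX h
  have h2 : (2 : ℤ) ≤ #(D.AX h) := by exact_mod_cast h1
  cases D.j h y
  · simpa using h2
  · simp

lemma g_ne : D.g ≠ 2 * Fintype.card D.Y + 1 := by
  intro hg
  have h1 : ∀ y : D.Y, (#(D.AY y) : ℤ) - 2 = 0 := by
    intro y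
    have h1 := exc_le y
    have h2 := two_le_AY y
    rw [hg] at h1
    push_cast at h1
    omega
  have h2 := D.sum_exc_y
  rw [Finset.sum_congr rfl fun y _ => h1 y, hg] at h2
  simp at h2

end EData

end Pool.Agent.Helper738F4
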