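import Pool.Agent.helper738_F4.NecSt

/-!
# Necessary conditions for small `g`
-/

open Finset

namespace Pool.Agent.Helper738F4

/-! ### pointwise inequalities -/

lemma um_neg {e h v : ℤ} (he : 0 ≤ e) (hv : 0 ≤ v) (h3 : 2 * h ≤ e * v)
    (hx : e - h + v ≤ -1) : 4 ≤ h - v ∧ 4 ≤ h - e ∧ 9 ≤ 2 * h - e - v := by
  have he3 : 3 ≤ e := by
    by_contra hlt
    interval_cases e <;> omega
  have hv3 : 3 ≤ v := by
    by_contra hlt
    interval_cases v <;> omega
  have h7 : 7 ≤ e + v := by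
    by_contra hlt
    have e1 : e = 3 := by omega
    have e2 : v = 3 := by omega
    subst e1 e2
    omega
  omega

lemma um_odd {e h v : ℤ} (he : 0 ≤ e) (hv : 0 ≤ v) (h1 : e ≤ h) (h2 : v ≤ h)
    (h3 : 2 * h ≤ e * v) (ho : Odd (e - h + v)) (hx : e - h + v ≤ 1) :
    2 ≤ h - v ∧ 2 ≤ h - e ∧ 5 ≤ 2 * h - e - v := by
  rcases (show e - h + v ≤ -1 ∨ e - h + v = 1 by
    obtain ⟨c, hc⟩ := ho
    omega) with h4 | h4
  · have := um_neg he hv h3 h4
    omega
  · have he3 : 3 ≤ e := by
      by_contra hlt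
      interval_cases e <;> omega
    have hv3 : 3 ≤ v := by
      by_contra hlt
      interval_cases v <;> omega
    have h7 : 7 ≤ e + v := by
      by_contra hlt
      have e1 : e = 3 := by omega
      have e2 : v = 3 := by omega
      subst e1 e2
      omega
    omega

lemma m2_nonpos {e h v : ℤ} (he : 0 ≤ e) (hv : 0 ≤ v)
    (h3 : 2 * h + 2 ≤ e * (v + 2)) (hx : e - h + v ≤ 0) :
    3 ≤ h - v ∧ 1 ≤ h - e ∧ 5 ≤ 2 * h - e - v := by
  have he3 : 3 ≤ e := by
    by_contra hlt
    interval_cases e <;> omega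
  have hv3 : 1 ≤ v := by
    by_contra hlt
    have : v = 0 := by omega
    subst this
    omega
  have h5 : 5 ≤ e + v := by
    by_contra hlt
    have e1 : e = 3 := by omega
    have e2 : v = 1 := by omega
    subst e1 e2
    omega
  omega

lemma m3_nonpos {e h v : ℤ} (he : 0 ≤ e) (hv : 0 ≤ v)
    (h3 : 2 * h + 3 ≤ e * (v + 3)) (hx : e - h + v ≤ 0) :
    3 ≤ h - v ∧ 0 ≤ h - e ∧ 3 ≤ 2 * h - e - v := by
  have he3 : 3 ≤ e := by
    by_contra hlt
    interval_cases e <;> omega
  omega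

namespace EData

variable {D : EData}

/-- The pointwise facts for data with one kind of large coatoms. -/
lemma St.facts {T : Finset D.X} {k : ℕ} (hs : D.St T k) (p : Finset D.X) (hp : p ∈ prs D.X) :
    (0 : ℤ) ≤ D.ne p ∧ (0 : ℤ) ≤ D.nv p ∧ (D.nv p : ℤ) ≤ D.nh p ∧
    (1 ≤ (D.nv p : ℤ) → 2 ≤ (D.nh p : ℤ)) ∧
    (¬ p ⊆ T → (D.ne p : ℤ) ≤ D.nh p ∧ 2 * (D.nh p : ℤ) ≤ D.ne p * D.nv p) ∧
    (p ⊆ T → 2 * (D.ne p : ℤ) ≤ 2 * D.nh p + k ∧
      2 * (D.nh p : ℤ) + k ≤ D.ne p * (D.nv p + k)) := by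
  rw [mem_prs] at hp
  have h1 := hs.two_ne_le p hp
  have h2 := hs.inc_le p hp
  have h3 := St.nv_le p hp
  refine ⟨by positivity, by positivity, by exact_mod_cast h3, ?_, ?_, ?_⟩
  · intro h
    have := St.nh_ge p hp (by exact_mod_cast h)
    exact_mod_cast this
  · intro hT
    rw [if_neg hT] at h1 h2
    simp only [add_zero] at h1 h2
    refine ⟨by omega, by exact_mod_cast h2⟩
  · intro hT
    rw [if_pos hT] at h1 h2
    exact ⟨by exact_mod_cast h1, by exact_mod_cast h2⟩

lemma sum_mark (T : Finset D.X) (hT : #T = 3) :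
    ∑ p ∈ prs D.X, (if p ⊆ T then (1 : ℤ) else 0) = 3 := by
  have : (prs D.X).filter (fun p => p ⊆ T) = powersetCard 2 T := by
    ext p
    simp [prs, mem_powersetCard, and_comm]
  rw [← Finset.sum_filter, this]
  simp only [Finset.sum_const, card_powersetCard, nsmul_eq_mul, mul_one, hT]
  rfl

lemma St.sums {T : Finset D.X} {k : ℕ} (hs : D.St T k) :
    ∑ p ∈ prs D.X, ((D.nh p : ℤ) - D.nv p) = (Fintype.card D.E : ℤ) - Fintype.card D.X ∧
    ∑ p ∈ prs D.X, ((D.nh p : ℤ) - D.ne p) =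
      (Fintype.card D.Y : ℤ) - Fintype.card D.X - k := by
  have h1 := hs.sum_nh
  have h2 := hs.sum_nv
  have h3 := D.sum_ne
  have h4 := D.gc
  rw [Finset.sum_sub_distrib, Finset.sum_sub_distrib]
  have h1' : ∑ p ∈ prs D.X, (D.nh p : ℤ) + k = Fintype.card D.H := by exact_mod_cast h1
  have h2' : ∑ p ∈ prs D.X, (D.nv p : ℤ) + k = Fintype.card D.Y := by exact_mod_cast h2
  have h3' : ∑ p ∈ prs D.X, (D.ne p : ℤ) = Fintype.card D.E := by exact_mod_cast h3
  constructor <;> linarith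

lemma St.zero_le {T : Finset D.X} (hs : D.St T 0) (hT : T = ∅) (ha : Odd (Fintype.card D.X)) :
    (Fintype.card D.X : ℤ) + 6 ≤ Fintype.card D.E ∧
    (Fintype.card D.X : ℤ) + 6 ≤ Fintype.card D.Y ∧
    (2 * Fintype.card D.X : ℤ) + 15 ≤ Fintype.card D.E + Fintype.card D.Y := by
  subst hT
  have hnot : ∀ p ∈ prs D.X, ¬ p ⊆ (∅ : Finset D.X) := by
    intro p hp h
    rw [Finset.subset_empty] at h
    rw [mem_prs, h] at hp
    simp at hp
  have hpar : Odd ((Fintype.card D.X : ℤ) + #(∅ : Finset D.X)) := by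
    simpa using (Int.odd_coe_nat _).2 ha
  obtain ⟨s1, s2⟩ := hs.sums
  have A1 := lemG D.chi (fun p => (D.nh p : ℤ) - D.nv p) ∅ (Or.inl rfl)
    (fun x => hs.sum_chi_x x) hpar
    (fun p hp => by have := hs.facts p hp; omega)
    (l := 2) (n := 4) (s := 0) (m := 6) (t := 6)
    (fun p hp h1 h2 h3 => by
      obtain ⟨f1, f2, f3, f4, f5, f6⟩ := hs.facts p hp
      exact (um_odd f1 f2 (f5 h1).1 f3 (f5 h1).2 h2 h3).1)
    (fun p hp h1 => absurd h1 (hnot p hp))
    (fun p hp h1 => by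
      obtain ⟨f1, f2, f3, f4, f5, f6⟩ := hs.facts p hp
      exact (um_neg f1 f2 (f5 (hnot p hp)).2 h1).1)
    (fun p hp h1 => absurd h1 (hnot p hp)) (by norm_num)
    (fun p hp h1 => absurd h1 (hnot p hp)) (by norm_num) (by norm_num) (by norm_num)
  have A2 := lemG D.chi (fun p => (D.nh p : ℤ) - D.ne p) ∅ (Or.inl rfl)
    (fun x => hs.sum_chi_x x) hpar
    (fun p hp => by have := (hs.facts p hp).2.2.2.2.1 (hnot p hp); omega)
    (l := 2) (n := 4) (s := 0) (m := 6) (t := 6)
    (fun p hp h1 h2 h3 => by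
      obtain ⟨f1, f2, f3, f4, f5, f6⟩ := hs.facts p hp
      exact (um_odd f1 f2 (f5 h1).1 f3 (f5 h1).2 h2 h3).2.1)
    (fun p hp h1 => absurd h1 (hnot p hp))
    (fun p hp h1 => by
      obtain ⟨f1, f2, f3, f4, f5, f6⟩ := hs.facts p hp
      exact (um_neg f1 f2 (f5 (hnot p hp)).2 h1).2.1)
    (fun p hp h1 => absurd h1 (hnot p hp)) (by norm_num)
    (fun p hp h1 => absurd h1 (hnot p hp)) (by norm_num) (by norm_num) (by norm_num)
  have A3 := lemG D.chi (fun p => ((D.nh p : ℤ) - D.nv p) + ((D.nh p : ℤ) - D.ne p)) ∅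
    (Or.inl rfl) (fun x => hs.sum_chi_x x) hpar
    (fun p hp => by
      have h1 := (hs.facts p hp).2.2.2.2.1 (hnot p hp)
      have h2 := (hs.facts p hp).2.2.1
      omega)
    (l := 5) (n := 9) (s := 0) (m := 15) (t := 15)
    (fun p hp h1 h2 h3 => by
      obtain ⟨f1, f2, f3, f4, f5, f6⟩ := hs.facts p hp
      have := (um_odd f1 f2 (f5 h1).1 f3 (f5 h1).2 h2 h3).2.2
      omega)
    (fun p hp h1 => absurd h1 (hnot p hp))
    (fun p hp h1 => by
      obtain ⟨f1, f2, f3, f4, f5, f6⟩ := hs.facts p hp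
      have := (um_neg f1 f2 (f5 (hnot p hp)).2 h1).2.2
      omega)
    (fun p hp h1 => absurd h1 (hnot p hp)) (by norm_num)
    (fun p hp h1 => absurd h1 (hnot p hp)) (by norm_num) (by norm_num) (by norm_num)
  rw [Finset.sum_add_distrib, s1, s2] at A3
  rw [s1] at A1
  rw [s2] at A2
  push_cast at *
  refine ⟨by linarith, by linarith, by linarith⟩

/-- The two cases with three atoms below the large coatoms. -/
lemma St.marked {T : Finset D.X} {k : ℕ} (hk : k = 2 ∨ k = 3) (hs : D.St T k) (hT : #T = 3)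
    (ha : Even (Fintype.card D.X)) :
    (Fintype.card D.X : ℤ) + 6 ≤ Fintype.card D.E ∧
    (Fintype.card D.X : ℤ) + (if k = 2 then 3 else 2) ≤ Fintype.card D.Y ∧
    (2 * Fintype.card D.X : ℤ) + (if k = 2 then 12 else 9) ≤
      Fintype.card D.E + Fintype.card D.Y := by
  have hpar : Odd ((Fintype.card D.X : ℤ) + #T) := by
    rw [hT]
    exact ((Int.even_coe_nat _).2 ha).add_odd (by decide)
  obtain ⟨s1, s2⟩ := hs.sums
  have s3 := sum_mark (D := D) T hT
  -- pointwise
  have P0 : ∀ p ∈ prs D.X, 0 ≤ (D.nh p : ℤ) - D.nv p ∧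
      0 ≤ (D.nh p : ℤ) - D.ne p + (if p ⊆ T then 1 else 0) := by
    intro p hp
    obtain ⟨f1, f2, f3, f4, f5, f6⟩ := hs.facts p hp
    refine ⟨by omega, ?_⟩
    split_ifs with h
    · have := (f6 h).1
      rcases hk with rfl | rfl <;> push_cast at this <;> omega
    · have := (f5 h).1
      omega
  have P1 : ∀ p ∈ prs D.X, ¬ p ⊆ T → Odd (D.chi p) → D.chi p ≤ 1 →
      2 ≤ (D.nh p : ℤ) - D.nv p ∧ 2 ≤ (D.nh p : ℤ) - D.ne p ∧
        5 ≤ 2 * (D.nh p : ℤ) - D.ne p - D.nv p := by
    intro p hp h1 h2 h3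
    obtain ⟨f1, f2, f3, f4, f5, f6⟩ := hs.facts p hp
    exact um_odd f1 f2 (f5 h1).1 f3 (f5 h1).2 h2 h3
  have P2 : ∀ p ∈ prs D.X, ¬ p ⊆ T → D.chi p ≤ -1 →
      4 ≤ (D.nh p : ℤ) - D.nv p ∧ 4 ≤ (D.nh p : ℤ) - D.ne p ∧
        9 ≤ 2 * (D.nh p : ℤ) - D.ne p - D.nv p := by
    intro p hp h1 h3
    obtain ⟨f1, f2, f3, f4, f5, f6⟩ := hs.facts p hp
    exact um_neg f1 f2 (f5 h1).2 h3
  have P4 : ∀ p ∈ prs D.X, p ⊆ T → D.chi p = 2 →
      0 ≤ 2 * (D.nh p : ℤ) - D.ne p - D.nv p := by
    intro p hp h1 h3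
    obtain ⟨f1, f2, f3, f4, f5, f6⟩ := hs.facts p hp
    have h4 : (D.ne p : ℤ) - D.nh p + D.nv p = 2 := h3
    have h5 := (f6 h1).1
    rcases hk with rfl | rfl <;> push_cast at h5 <;> omega
  rcases hk with rfl | rfl
  · -- k = 2
    have P3 : ∀ p ∈ prs D.X, p ⊆ T → D.chi p ≤ 0 →
        3 ≤ (D.nh p : ℤ) - D.nv p ∧ 1 ≤ (D.nh p : ℤ) - D.ne p ∧
          5 ≤ 2 * (D.nh p : ℤ) - D.ne p - D.nv p := by
      intro p hp h1 h3
      obtain ⟨f1, f2, f3, f4, f5, f6⟩ := hs.facts p hp
      exact m2_nonpos f1 f2 (by exact_mod_cast (f6 h1).2) h3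
    have P3' : ∀ p ∈ prs D.X, p ⊆ T → D.chi p ≤ -1 →
        4 ≤ (D.nh p : ℤ) - D.nv p ∧ 2 ≤ (D.nh p : ℤ) - D.ne p ∧
          7 ≤ 2 * (D.nh p : ℤ) - D.ne p - D.nv p := by
      intro p hp h1 h3
      have h6 := P3 p hp h1 (by omega)
      obtain ⟨f1, f2, f3, f4, f5, f6⟩ := hs.facts p hp
      have h4 : (D.ne p : ℤ) - D.nh p + D.nv p ≤ -1 := h3
      have h7 := (f6 h1).2
      push_cast at h7
      set e := (D.ne p : ℤ)
      set h := (D.nh p : ℤ)
      set v := (D.nv p : ℤ)
      have he3 : 3 ≤ e := by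
        by_contra hlt
        interval_cases e <;> omega
      have hv1 : 1 ≤ v := by
        by_contra hlt
        have : v = 0 := by omega
        rw [this] at h7 h4
        omega
      have h5 : 5 ≤ e + v := by
        by_contra hlt
        have e1 : e = 3 := by omega
        have e2 : v = 1 := by omega
        rw [e1, e2] at h7 h4
        omega
      omega
    have A1 := lemG D.chi (fun p => (D.nh p : ℤ) - D.nv p) T (Or.inr hT)
      (fun x => hs.sum_chi_x x) hpar (fun p hp => (P0 p hp).1)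
      (l := 2) (n := 4) (s := 3) (m := 0) (t := 6)
      (fun p hp h1 h2 h3 => (P1 p hp h1 h2 h3).1)
      (fun p hp h1 h2 h3 => by have := (P3 p hp h1 h3).1; omega)
      (fun p hp h1 => by
        by_cases h2 : p ⊆ T
        · exact (P3' p hp h2 h1).1
        · exact (P2 p hp h2 h1).1)
      (fun p hp h1 h2 => (P3 p hp h1 h2).1) (by norm_num)
      (fun p hp h1 h2 => (P0 p hp).1) (by norm_num) (by norm_num) (by norm_num)
    have A2 := lemG D.chi (fun p => (D.nh p : ℤ) - D.ne p + (if p ⊆ T then 1 else 0)) T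
      (Or.inr hT) (fun x => hs.sum_chi_x x) hpar (fun p hp => (P0 p hp).2)
      (l := 2) (n := 3) (s := 2) (m := 0) (t := 4)
      (fun p hp h1 h2 h3 => by rw [if_neg h1]; have := (P1 p hp h1 h2 h3).2.1; omega)
      (fun p hp h1 h2 h3 => by rw [if_pos h1]; have := (P3 p hp h1 h3).2.1; omega)
      (fun p hp h1 => by
        by_cases h2 : p ⊆ T
        · rw [if_pos h2]; have := (P3' p hp h2 h1).2.1; omega
        · rw [if_neg h2]; have := (P2 p hp h2 h1).2.1; omega)
      (fun p hp h1 h2 => by rw [if_pos h1]; have := (P3 p hp h1 h2).2.1; omega) (by norm_num)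
      (fun p hp h1 h2 => (P0 p hp).2) (by norm_num) (by norm_num) (by norm_num)
    have A3 := lemG D.chi (fun p => ((D.nh p : ℤ) - D.nv p) +
      ((D.nh p : ℤ) - D.ne p + (if p ⊆ T then 1 else 0))) T
      (Or.inr hT) (fun x => hs.sum_chi_x x) hpar
      (fun p hp => add_nonneg (P0 p hp).1 (P0 p hp).2)
      (l := 5) (n := 8) (s := 6) (m := 1) (t := 13)
      (fun p hp h1 h2 h3 => by rw [if_neg h1]; have := (P1 p hp h1 h2 h3).2.2; omega)
      (fun p hp h1 h2 h3 => by rw [if_pos h1]; have := (P3 p hp h1 h3).2.2; omega)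
      (fun p hp h1 => by
        by_cases h2 : p ⊆ T
        · rw [if_pos h2]; have := (P3' p hp h2 h1).2.2; omega
        · rw [if_neg h2]; have := (P2 p hp h2 h1).2.2; omega)
      (fun p hp h1 h2 => by rw [if_pos h1]; have := (P3 p hp h1 h2).2.2; omega) (by norm_num)
      (fun p hp h1 h2 => by rw [if_pos h1]; have := P4 p hp h1 h2; omega)
      (by norm_num) (by norm_num) (by norm_num)
    rw [Finset.sum_add_distrib, Finset.sum_add_distrib, s1, s2, s3] at A3
    rw [s1] at A1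
    rw [Finset.sum_add_distrib, s2, s3] at A2
    simp only [if_true]
    push_cast at *
    refine ⟨by linarith, by linarith, by linarith⟩
  · -- k = 3
    have P3 : ∀ p ∈ prs D.X, p ⊆ T → D.chi p ≤ 0 →
        3 ≤ (D.nh p : ℤ) - D.nv p ∧ 0 ≤ (D.nh p : ℤ) - D.ne p ∧
          3 ≤ 2 * (D.nh p : ℤ) - D.ne p - D.nv p := by
      intro p hp h1 h3
      obtain ⟨f1, f2, f3, f4, f5, f6⟩ := hs.facts p hp
      exact m3_nonpos f1 f2 (by exact_mod_cast (f6 h1).2) h3
    have P3' : ∀ p ∈ prs D.X, p ⊆ T → D.chi p ≤ -1 →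
        4 ≤ (D.nh p : ℤ) - D.nv p ∧ 1 ≤ (D.nh p : ℤ) - D.ne p ∧
          5 ≤ 2 * (D.nh p : ℤ) - D.ne p - D.nv p := by
      intro p hp h1 h3
      obtain ⟨f1, f2, f3, f4, f5, f6⟩ := hs.facts p hp
      have h4 : (D.ne p : ℤ) - D.nh p + D.nv p ≤ -1 := h3
      have h7 := (f6 h1).2
      push_cast at h7
      set e := (D.ne p : ℤ)
      set h := (D.nh p : ℤ)
      set v := (D.nv p : ℤ)
      have he3 : 3 ≤ e := by
        by_contra hlt
        interval_cases e <;> omega
      omega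
    have A1 := lemG D.chi (fun p => (D.nh p : ℤ) - D.nv p) T (Or.inr hT)
      (fun x => hs.sum_chi_x x) hpar (fun p hp => (P0 p hp).1)
      (l := 2) (n := 4) (s := 3) (m := 0) (t := 6)
      (fun p hp h1 h2 h3 => (P1 p hp h1 h2 h3).1)
      (fun p hp h1 h2 h3 => by have := (P3 p hp h1 h3).1; omega)
      (fun p hp h1 => by
        by_cases h2 : p ⊆ T
        · exact (P3' p hp h2 h1).1
        · exact (P2 p hp h2 h1).1)
      (fun p hp h1 h2 => (P3 p hp h1 h2).1) (by norm_num)
      (fun p hp h1 h2 => (P0 p hp).1) (by norm_num) (by norm_num) (by norm_num)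
    have A2 := lemG D.chi (fun p => (D.nh p : ℤ) - D.ne p + (if p ⊆ T then 1 else 0)) T
      (Or.inr hT) (fun x => hs.sum_chi_x x) hpar (fun p hp => (P0 p hp).2)
      (l := 1) (n := 2) (s := 1) (m := 0) (t := 2)
      (fun p hp h1 h2 h3 => by rw [if_neg h1]; have := (P1 p hp h1 h2 h3).2.1; omega)
      (fun p hp h1 h2 h3 => by rw [if_pos h1]; have := (P3 p hp h1 h3).2.1; omega)
      (fun p hp h1 => by
        by_cases h2 : p ⊆ T
        · rw [if_pos h2]; have := (P3' p hp h2 h1).2.1; omega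
        · rw [if_neg h2]; have := (P2 p hp h2 h1).2.1; omega)
      (fun p hp h1 h2 => by rw [if_pos h1]; have := (P3 p hp h1 h2).2.1; omega) (by norm_num)
      (fun p hp h1 h2 => (P0 p hp).2) (by norm_num) (by norm_num) (by norm_num)
    have A3 := lemG D.chi (fun p => ((D.nh p : ℤ) - D.nv p) +
      ((D.nh p : ℤ) - D.ne p + (if p ⊆ T then 1 else 0))) T
      (Or.inr hT) (fun x => hs.sum_chi_x x) hpar
      (fun p hp => add_nonneg (P0 p hp).1 (P0 p hp).2)
      (l := 4) (n := 6) (s := 4) (m := 1) (t := 9)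
      (fun p hp h1 h2 h3 => by rw [if_neg h1]; have := (P1 p hp h1 h2 h3).2.2; omega)
      (fun p hp h1 h2 h3 => by rw [if_pos h1]; have := (P3 p hp h1 h3).2.2; omega)
      (fun p hp h1 => by
        by_cases h2 : p ⊆ T
        · rw [if_pos h2]; have := (P3' p hp h2 h1).2.2; omega
        · rw [if_neg h2]; have := (P2 p hp h2 h1).2.2; omega)
      (fun p hp h1 h2 => by rw [if_pos h1]; have := (P3 p hp h1 h2).2.2; omega) (by norm_num)
      (fun p hp h1 h2 => by rw [if_pos h1]; have := P4 p hp h1 h2; omega)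
      (by norm_num) (by norm_num) (by norm_num)
    rw [Finset.sum_add_distrib, Finset.sum_add_distrib, s1, s2, s3] at A3
    rw [s1] at A1
    rw [Finset.sum_add_distrib, s2, s3] at A2
    simp only [show ¬ (3 : ℕ) = 2 by norm_num, if_false]
    push_cast at *
    refine ⟨by linarith, by linarith, by linarith⟩

/-! ### the structure of the large coatoms -/

lemma AX_le_AY (h : D.H) : ∃ y, D.j h y = true ∧ D.AX h ⊆ D.AY y := by
  obtain ⟨y, hy⟩ : ∃ y, D.j h y = true := exists_of_sum_pos (by rw [D.j2]; decide)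
  exact ⟨y, hy, AX_sub_AY hy⟩

lemma exists_St_zero (hg : D.g = 2 * Fintype.card D.Y) : D.St ∅ 0 := by
  have hY : ∀ y : D.Y, #(D.AY y) = 2 := by
    intro y
    have h1 := exc_le y
    have h2 := two_le_AY y
    rw [hg] at h1
    push_cast at h1
    omega
  have hH : ∀ h : D.H, #(D.AX h) = 2 := by
    intro h
    obtain ⟨y, _, hy⟩ := AX_le_AY h
    have h1 := card_le_card hy
    have h2 := two_le_AX h
    rw [hY y] at h1
    omega
  refine ⟨Or.inl ⟨rfl, rfl⟩, fun y => Or.inl (hY y), fun h => Or.inl (hH h), ?_, ?_⟩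
  · rw [Finset.card_eq_zero]
    ext y
    simp only [mem_filter, mem_univ, true_and, notMem_empty, iff_false]
    intro h
    have := hY y
    rw [h] at this; simp at this
  · rw [Finset.card_eq_zero]
    ext y
    simp only [mem_filter, mem_univ, true_and, notMem_empty, iff_false]
    intro h
    have := hH y
    rw [h] at this; simp at this

lemma exists_St {k : ℕ} (hk : k = 2 ∨ k = 3) (hg : D.g = 2 * Fintype.card D.Y + k) :
    ∃ T, #T = 3 ∧ D.St T k := by
  have hY : ∀ y : D.Y, #(D.AY y) = 2 ∨ #(D.AY y) = 3 := by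
    intro y
    have h1 := exc_le y
    have h2 := two_le_AY y
    rw [hg] at h1
    push_cast at h1
    omega
  have hH : ∀ h : D.H, #(D.AX h) = 2 ∨ #(D.AX h) = 3 := by
    intro h
    obtain ⟨y, _, hy⟩ := AX_le_AY h
    have h1 := card_le_card hy
    have h2 := two_le_AX h
    have h3 := hY y
    omega
  have cY : #{y | #(D.AY y) = 3} = k := by
    have h1 := D.sum_exc_y
    have h2 : ∀ y, (#(D.AY y) : ℤ) - 2 = if #(D.AY y) = 3 then 1 else 0 := by
      intro y
      rcases hY y with h | h <;> rw [h] <;> simp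
    rw [Finset.sum_congr rfl fun y _ => h2 y, hg] at h1
    rw [Finset.card_filter]
    have h3 : ((∑ y, if #(D.AY y) = 3 then 1 else 0 : ℕ) : ℤ) = k := by
      push_cast at h1 ⊢
      linarith
    exact_mod_cast h3
  have cH : #{h | #(D.AX h) = 3} = k := by
    have h1 := D.sum_exc_h
    have h2 : ∀ y, (#(D.AX y) : ℤ) - 2 = if #(D.AX y) = 3 then 1 else 0 := by
      intro y
      rcases hH y with h | h <;> rw [h] <;> simp
    rw [Finset.sum_congr rfl fun y _ => h2 y, hg] at h1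
    rw [Finset.card_filter]
    have h3 : ((∑ y, if #(D.AX y) = 3 then 1 else 0 : ℕ) : ℤ) = k := by
      push_cast at h1 ⊢
      linarith
    exact_mod_cast h3
  -- a large coatom has two large elements below it
  have two : ∀ y, #(D.AY y) = 3 → 2 ≤ #{h | D.AX h = D.AY y} := by
    intro y hy
    have h1 := exc y
    rw [hy] at h1
    have h2 : ∀ h, ((D.j h y).toNat : ℤ) * ((#(D.AX h) : ℤ) - 2) ≤
        if D.AX h = D.AY y then 1 else 0 := by
      intro h
      cases hj : D.j h y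
      · simp only [Bool.toNat_false]
        split_ifs <;> simp
      · have h3 := AX_sub_AY hj
        rcases hH h with h4 | h4
        · rw [h4]
          split_ifs <;> simp
        · rw [if_pos (Finset.eq_of_subset_of_card_le h3 (by rw [hy, h4])), h4]
          simp
    have h5 := Finset.sum_le_sum fun h (_ : h ∈ univ) => h2 h
    rw [h1] at h5
    rw [Finset.card_filter]
    have h6 : (2 : ℤ) ≤ ((∑ h, if D.AX h = D.AY y then 1 else 0 : ℕ) : ℤ) := by
      push_cast at h5 ⊢
      linarith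
    exact_mod_cast h6
  obtain ⟨h0, hh0⟩ := card_pos.1 (show 0 < #{h | #(D.AX h) = 3} by rw [cH]; omega)
  simp only [mem_filter, mem_univ, true_and] at hh0
  -- every large element gives rise to at least two of its kind
  have two' : ∀ h, #(D.AX h) = 3 → 2 ≤ #{h' | D.AX h' = D.AX h} := by
    intro h hh
    obtain ⟨y, _, hy⟩ := AX_le_AY h
    have h1 := card_le_card hy
    have h3 : #(D.AY y) = 3 := by have := hY y; omega
    have h4 : D.AX h = D.AY y := Finset.eq_of_subset_of_card_le hy (by rw [h3, hh])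
    rw [h4]
    exact two y h3
  have allH : ∀ h, #(D.AX h) = 3 → D.AX h = D.AX h0 := by
    intro h hh
    by_contra hne
    have h1 := two' h hh
    have h2 := two' h0 hh0
    have h3 : Disjoint (univ.filter fun h' => D.AX h' = D.AX h)
        (univ.filter fun h' => D.AX h' = D.AX h0) := by
      rw [Finset.disjoint_left]
      intro a ha ha'
      simp only [mem_filter, mem_univ, true_and] at ha ha'
      exact hne (ha.symm.trans ha')
    have h4 := card_union_of_disjoint h3
    have h5 : (univ.filter fun h' => D.AX h' = D.AX h) ∪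
        (univ.filter fun h' => D.AX h' = D.AX h0) ⊆ univ.filter fun h' => #(D.AX h') = 3 := by
      intro a ha
      simp only [mem_union, mem_filter, mem_univ, true_and] at ha ⊢
      rcases ha with ha | ha <;> rw [ha] <;> assumption
    have h6 := card_le_card h5
    rw [cH] at h6
    omega
  have allY : ∀ y, #(D.AY y) = 3 → D.AY y = D.AX h0 := by
    intro y hy
    obtain ⟨h, hh⟩ := card_pos.1 (show 0 < #{h | D.AX h = D.AY y} by
      have := two y hy; omega)
    simp only [mem_filter, mem_univ, true_and] at hh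
    rw [← hh]
    exact allH h (by rw [hh, hy])
  refine ⟨D.AX h0, hh0, Or.inr hh0, ?_, ?_, ?_, ?_⟩
  · intro y
    rcases hY y with h | h
    · exact Or.inl h
    · exact Or.inr (allY y h)
  · intro y
    rcases hH y with h | h
    · exact Or.inl h
    · exact Or.inr (allH y h)
  · rw [← cY]
    congr 1
    ext y
    simp only [mem_filter, mem_univ, true_and]
    constructor
    · intro h; rw [h, hh0]
    · exact allY y
  · rw [← cH]
    congr 1
    ext y
    simp only [mem_filter, mem_univ, true_and]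
    constructor
    · intro h; rw [h, hh0]
    · exact allH y

end EData

end Pool.Agent.Helper738F4
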