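import Pool.Agent.helper738_F4.NecR4

/-!
# The case of total excess five
-/

open Finset

namespace Pool.Agent.Helper738F4

namespace EData

variable {D : EData}

/-- The number of flags over a pair of the triple. -/
lemma inc_T {T p : Finset D.X} (hT : #T = 3) (hH : ∀ h, #(D.AX h) = 2 ∨ D.AX h = T)
    (hp : #p = 2) (hsub : p ⊆ T) :
    ∑ e with D.AE e = p, #(D.TE e) = 2 * D.nh p + #{h | D.AX h = T} := by
  simp only [card_TE]
  rw [Finset.sum_comm]
  have hpT : p ≠ T := by rintro rfl; omega
  have key : ∀ h : D.H, ∑ e with D.AE e = p, (D.r e h).toNat =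
      (if D.AX h = p then 2 else 0) + (if D.AX h = T then 1 else 0) := by
    intro h
    rcases hH h with h2 | h2
    · have hne : D.AX h ≠ T := by intro h3; rw [h3] at h2; omega
      rw [if_neg hne, add_zero]
      have h3 : ∀ e, D.r e h = true → D.AE e = D.AX h := fun e he =>
        Finset.eq_of_subset_of_card_le (AE_sub_AX he) (by rw [h2, card_AE])
      split_ifs with h4
      · rw [Finset.sum_filter]
        have : ∑ e, (D.r e h).toNat = 2 := by rw [← D.sum_u h, ← card_AX, h2]
        rw [← this]
        refine Finset.sum_congr rfl fun e _ => ?_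
        cases hr : D.r e h
        · simp
        · rw [if_pos ((h3 e hr).trans h4)]
      · apply Finset.sum_eq_zero
        intro e he
        simp only [mem_filter, mem_univ, true_and] at he
        cases hr : D.r e h
        · rfl
        · exact absurd ((h3 e hr).symm.trans he) h4
    · rw [if_neg (by rw [h2]; exact hpT.symm), zero_add, if_pos h2]
      exact one_edge (by rw [h2, hT]) hp (by rw [h2]; exact hsub)
  rw [Finset.sum_congr rfl fun h _ => key h, Finset.sum_add_distrib, ← Finset.sum_filter,
    ← Finset.sum_filter]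
  simp [nh, mul_comm]

lemma sum_xe_pair (p : Finset D.X) : ∑ e with D.AE e = p, D.xe e =
    ((∑ e with D.AE e = p, #(D.TE e) : ℕ) : ℤ) - 2 * D.ne p := by
  unfold xe ne
  rw [Finset.sum_sub_distrib]
  push_cast
  simp [mul_comm]

lemma not_all_two {T : Finset D.X} {x x' : D.X} {y0 y1 y2 yx yx' : D.Y} {l l' : D.X}
    (h0 : D.AY y0 = insert x T) (h1 : D.AY y1 = insert x' T) (h2 : D.AY y2 = T)
    (hx : x ∉ T) (hx' : x' ∉ T) (hxx : x ≠ x') (hT : #T = 3)
    (hH : ∀ h, 3 ≤ #(D.AX h) → D.AX h = T)
    (hY : ∀ y, 3 ≤ #(D.AY y) → y = y0 ∨ y = y1 ∨ y = y2) (hB : ∀ z, #(D.BY z) ≤ 5)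
    (hg : D.g ≤ 2 * Fintype.card D.X + 7) (hc : #{h | D.AX h = T} = 5)
    (hl : l ∈ T) (hyx : D.AY yx = {x, l}) (hl' : l' ∈ T) (hyx' : D.AY yx' = {x', l'})
    (hall : ∀ p, #p = 2 → p ⊆ T → D.ne p = 2) : False := by
  have c0 : #(D.AY y0) = 4 := by rw [h0, card_insert_of_notMem hx, hT]
  have c1 : #(D.AY y1) = 4 := by rw [h1, card_insert_of_notMem hx', hT]
  have c2 : #(D.AY y2) = 3 := by rw [h2, hT]
  have hxl : x ≠ l := by rintro rfl; exact hx hl
  have hxl' : x' ≠ l' := by rintro rfl; exact hx' hl'
  have cx : #(D.AY yx) = 2 := by rw [hyx, card_pair hxl]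
  have cx' : #(D.AY yx') = 2 := by rw [hyx', card_pair hxl']
  have hH' : ∀ h, #(D.AX h) = 2 ∨ D.AX h = T := fun h => by
    rcases Nat.lt_or_ge (#(D.AX h)) 3 with h3 | h3
    · left; have := two_le_AX h; omega
    · exact Or.inr (hH h h3)
  have hthin : ∀ y, y ≠ y0 → y ≠ y1 → y ≠ y2 → #(D.AY y) = 2 := by
    intro y a1 a2 a3
    have := two_le_AY y
    by_contra hne
    rcases hY y (by omega) with h | h | h <;> tauto
  have hxy1 : x ∉ D.AY y1 := by
    rw [h1, mem_insert]; rintro (h | h)
    · exact hxx h
    · exact hx h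
  have n01 : y0 ≠ y1 := by
    rintro rfl
    apply hxy1
    rw [h0]; simp
  have n02 : y0 ≠ y2 := by rintro rfl; omega
  have n12 : y1 ≠ y2 := by rintro rfl; omega
  have nx0 : yx ≠ y0 := by rintro rfl; omega
  have nx1 : yx ≠ y1 := by rintro rfl; omega
  have nx2 : yx ≠ y2 := by rintro rfl; omega
  have nx0' : yx' ≠ y0 := by rintro rfl; omega
  have nx1' : yx' ≠ y1 := by rintro rfl; omega
  have nx2' : yx' ≠ y2 := by rintro rfl; omega
  have m0 : ∀ t ∈ T, y0 ∈ D.BY t := fun t ht => by
    rw [mem_BY_iff, h0]; exact mem_insert_of_mem ht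
  have m1 : ∀ t ∈ T, y1 ∈ D.BY t := fun t ht => by
    rw [mem_BY_iff, h1]; exact mem_insert_of_mem ht
  have m2 : ∀ t ∈ T, y2 ∈ D.BY t := fun t ht => by
    rw [mem_BY_iff, h2]; exact ht
  have mx : yx ∈ D.BY l := by rw [mem_BY_iff, hyx]; simp
  have mx' : yx' ∈ D.BY l' := by rw [mem_BY_iff, hyx']; simp
  set F : Finset D.Y := {y0, y1, y2} with hF
  have cF : #F = 3 := card_eq_three.2 ⟨y0, y1, y2, n01, n02, n12, rfl⟩
  have subF : ∀ t ∈ T, F ⊆ D.BY t := fun t ht a ha => by
    simp only [hF, mem_insert, mem_singleton] at ha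
    rcases ha with rfl | rfl | rfl
    · exact m0 t ht
    · exact m1 t ht
    · exact m2 t ht
  have notF : ∀ y, y ∉ F → #(D.AY y) = 2 := by
    intro y hy
    simp only [hF, mem_insert, mem_singleton, not_or] at hy
    exact hthin y hy.1 hy.2.1 hy.2.2
  have yxF : yx ∉ F := by simp [hF, nx0, nx1, nx2]
  have yxF' : yx' ∉ F := by simp [hF, nx0', nx1', nx2']
  have hcl : 4 ≤ #(D.BY l) := by
    have : insert yx F ⊆ D.BY l := Finset.insert_subset mx (subF l hl)
    have := card_le_card this
    rw [card_insert_of_notMem yxF, cF] at this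
    omega
  have hcl' : 4 ≤ #(D.BY l') := by
    have : insert yx' F ⊆ D.BY l' := Finset.insert_subset mx' (subF l' hl')
    have := card_le_card this
    rw [card_insert_of_notMem yxF', cF] at this
    omega
  have htot := D.sum_xe
  have hsplit := fun t : D.X => Finset.sum_filter_add_sum_filter_not (univ : Finset D.E)
      (fun e => D.i t e = true) D.xe
  -- excess over pairs
  have hn : ∀ p, #p = 2 → p ⊆ T → ∑ e with D.AE e = p, D.xe e = 2 * D.nh p + 1 := by
    intro p hp hsub
    rw [sum_xe_pair, inc_T hT hH' hp hsub, hc, hall p hp hsub]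
    push_cast
    ring
  have hn2 : ∀ p, #p = 2 → p ⊆ T → ∑ e with D.AE e = p, D.xe e ≤ 2 * (1 + D.nv p) := by
    intro p hp hsub
    have h3 : ∀ e ∈ univ.filter (fun e => D.AE e = p), D.xe e ≤ 1 + D.nv p := by
      intro e he
      simp only [mem_filter, mem_univ, true_and] at he
      have h4 : D.TE e ⊆ F ∪ univ.filter (fun y => D.AY y = p) := by
        intro y hy
        rw [mem_union]
        by_cases hyF : y ∈ F
        · exact Or.inl hyF
        · right
          simp only [mem_filter, mem_univ, true_and]
          have h5 := TE_AE hy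
          rw [he] at h5
          symm
          exact Finset.eq_of_subset_of_card_le h5 (by rw [notF y hyF, hp])
      have h5 := (card_le_card h4).trans (card_union_le _ _)
      rw [cF] at h5
      unfold xe nv
      push_cast
      have h6 : (#(D.TE e) : ℤ) ≤ 3 + #{y | D.AY y = p} := by exact_mod_cast h5
      linarith
    have h4 := Finset.sum_le_sum h3
    simp only [Finset.sum_const, nsmul_eq_mul] at h4
    have h5 : #{e | D.AE e = p} = 2 := hall p hp hsub
    rw [h5] at h4
    push_cast at h4
    exact h4
  by_cases hB' : ∃ p, #p = 2 ∧ p ⊆ T ∧ 1 ≤ D.nv p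
  · -- case B
    obtain ⟨p, hp, hsub, hv⟩ := hB'
    have hh := St.nh_ge p hp hv
    have e1 := hn p hp hsub
    have e2 := hn2 p hp hsub
    have hv2 : 2 ≤ D.nv p := by
      have : (2 : ℤ) * D.nh p + 1 ≤ 2 * (1 + D.nv p) := by rw [← e1]; exact e2
      omega
    -- the atoms of `p`
    have hBi : ∀ i ∈ p, ∀ y ∈ D.BY i, y ∈ F ∨ D.AY y = p := by
      intro i hi y hy
      have h3 : F ∪ univ.filter (fun y => D.AY y = p) ⊆ D.BY i := by
        apply union_subset (subF i (hsub hi))
        intro a ha
        simp only [mem_filter, mem_univ, true_and] at ha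
        rw [mem_BY_iff, ha]; exact hi
      have hdis : Disjoint F (univ.filter (fun y => D.AY y = p)) := by
        rw [Finset.disjoint_left]
        intro a ha ha'
        simp only [mem_filter, mem_univ, true_and] at ha'
        simp only [hF, mem_insert, mem_singleton] at ha
        have : #(D.AY a) = 2 := by rw [ha', hp]
        rcases ha with rfl | rfl | rfl <;> omega
      have h4 : F ∪ univ.filter (fun y => D.AY y = p) = D.BY i := by
        apply Finset.eq_of_subset_of_card_le h3
        rw [card_union_of_disjoint hdis, cF]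
        have := hB i
        have h5 : 2 ≤ #{y | D.AY y = p} := hv2
        omega
      rw [← h4, mem_union] at hy
      rcases hy with hy | hy
      · exact Or.inl hy
      · right; simpa using hy
    have hlp : l ∉ p := by
      intro h
      rcases hBi l h yx mx with h3 | h3
      · exact yxF h3
      · have : x ∈ p := by rw [← h3, hyx]; simp
        exact hx (hsub this)
    have hlp' : l' ∉ p := by
      intro h
      rcases hBi l' h yx' mx' with h3 | h3
      · exact yxF' h3
      · have : x' ∈ p := by rw [← h3, hyx']; simp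
        exact hx' (hsub this)
    have hll : l' = l := by
      have hcd : #(T \ p) = 1 := by rw [card_sdiff_of_subset hsub]; omega
      obtain ⟨t, ht⟩ := card_eq_one.1 hcd
      have a1 : l ∈ T \ p := by simp [hl, hlp]
      have a2 : l' ∈ T \ p := by simp [hl', hlp']
      rw [ht, mem_singleton] at a1 a2
      rw [a1, a2]
    subst hll
    have nxx : yx ≠ yx' := by
      intro h
      rw [h, hyx'] at hyx
      have : x ∈ ({x', l'} : Finset D.X) := by rw [hyx]; simp
      simp only [mem_insert, mem_singleton] at this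
      tauto
    have hc5 : 5 ≤ #(D.BY l') := by
      have : insert yx (insert yx' F) ⊆ D.BY l' :=
        Finset.insert_subset mx (Finset.insert_subset mx' (subF l' hl'))
      have := card_le_card this
      rw [card_insert_of_notMem (by simp [nxx, yxF]), card_insert_of_notMem yxF', cF] at this
      omega
    have e3 := exc_x' l'
    have e4 : ∑ e with D.AE e = p, D.xe e ≤ ∑ e with ¬ D.i l' e = true, D.xe e := by
      apply Finset.sum_le_sum_of_subset_of_nonneg
      · intro e he
        simp only [mem_filter, mem_univ, true_and] at he ⊢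
        intro h
        rw [← mem_AE, he] at h
        exact hlp h
      · intro e _ _; exact xe_nonneg e
    have e5 := hsplit l'
    omega
  · -- case A
    push Not at hB'
    have hn1 : ∀ p, #p = 2 → p ⊆ T → ∑ e with D.AE e = p, D.xe e = 1 := by
      intro p hp hsub
      have e1 := hn p hp hsub
      have e2 := hn2 p hp hsub
      have e3 := hB' p hp hsub
      have e4 : D.nv p = 0 := by omega
      rw [e4] at e2
      omega
    -- a large element from `l` to the outside
    have hout : ∃ e, D.i l e = true ∧ 3 ≤ #(D.TE e) ∧ ¬ D.AE e ⊆ T := by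
      by_contra hne
      push Not at hne
      have hTl : #(T.erase l) = 2 := by rw [card_erase_of_mem hl]; omega
      obtain ⟨b, c, hbc, hbce⟩ := card_eq_two.1 hTl
      have hb : b ∈ T.erase l := by rw [hbce]; simp
      have hc' : c ∈ T.erase l := by rw [hbce]; simp
      rw [mem_erase] at hb hc'
      have e1 := exc_x' l
      have sub1 : ∀ a b : D.X, a ∈ T → b ∈ T → ({a, b} : Finset D.X) ⊆ T := by
        intro a b ha hb z hz
        simp only [mem_insert, mem_singleton] at hz
        rcases hz with rfl | rfl <;> assumption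
      have e2 := hn1 {l, b} (card_pair hb.1.symm) (sub1 l b hl hb.2)
      have e3 := hn1 {l, c} (card_pair hc'.1.symm) (sub1 l c hl hc'.2)
      have e4 : ∑ e with D.i l e = true, D.xe e ≤
          ∑ e with D.AE e = {l, b}, D.xe e + ∑ e with D.AE e = {l, c}, D.xe e := by
        rw [Finset.sum_filter, Finset.sum_filter, Finset.sum_filter, ← Finset.sum_add_distrib]
        refine Finset.sum_le_sum fun e _ => ?_
        have a0 := xe_nonneg e
        by_cases he : D.i l e = true
        · rw [if_pos he]
          by_cases hf : 3 ≤ #(D.TE e)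
          · obtain ⟨m, hm, hme, hAE⟩ := other' he
            have hmT : m ∈ T := hne e he hf (by rw [hAE]; simp)
            have hm' : m ∈ T.erase l := by rw [mem_erase]; exact ⟨hm, hmT⟩
            rw [hbce] at hm'
            simp only [mem_insert, mem_singleton] at hm'
            rcases hm' with rfl | rfl
            · rw [if_pos hAE]
              split_ifs <;> omega
            · rw [if_pos hAE]
              split_ifs <;> omega
          · have : D.xe e = 0 := by
              have := two_le_TE e
              unfold xe; omega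
            rw [this]
            split_ifs <;> omega
        · rw [if_neg he]
          split_ifs <;> omega
      omega
    obtain ⟨e, he, hf, hnT⟩ := hout
    obtain ⟨m, hm, hme, hAE⟩ := other' he
    have hmT : m ∉ T := by
      intro h
      apply hnT
      rw [hAE]
      intro z hz
      simp only [mem_insert, mem_singleton] at hz
      rcases hz with rfl | rfl <;> assumption
    have hy2 : y2 ∉ D.TE e := by
      intro h
      have := TE_AE h (show m ∈ D.AE e by rw [hAE]; simp)
      rw [h2] at this
      exact hmT this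
    have hy01 : ¬ (y0 ∈ D.TE e ∧ y1 ∈ D.TE e) := by
      rintro ⟨a, b⟩
      have a' := TE_AE a (show m ∈ D.AE e by rw [hAE]; simp)
      have b' := TE_AE b (show m ∈ D.AE e by rw [hAE]; simp)
      rw [h0, mem_insert] at a'
      rw [h1, mem_insert] at b'
      have a'' := a'.resolve_right hmT
      have b'' := b'.resolve_right hmT
      exact hxx (a''.symm.trans b'')
    have hint : #(D.TE e ∩ F) ≤ 1 := by
      by_contra hlt
      have h3 : D.TE e ∩ F ⊆ {y0, y1} := by
        intro a ha
        rw [mem_inter] at ha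
        have := ha.2
        simp only [hF, mem_insert, mem_singleton] at this ⊢
        rcases this with rfl | rfl | rfl
        · exact Or.inl rfl
        · exact Or.inr rfl
        · exact absurd ha.1 hy2
      have h4 : D.TE e ∩ F = {y0, y1} :=
        Finset.eq_of_subset_of_card_le h3 (by rw [card_pair n01]; omega)
      apply hy01
      constructor
      · have : y0 ∈ D.TE e ∩ F := by rw [h4]; simp
        exact (mem_inter.1 this).1
      · have : y1 ∈ D.TE e ∩ F := by rw [h4]; simp
        exact (mem_inter.1 this).1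
    have hsd : #(D.TE e \ F) + #(D.TE e ∩ F) = #(D.TE e) := card_sdiff_add_card_inter _ _
    have hsub : D.TE e \ F ⊆ D.BY l \ F := Finset.sdiff_subset_sdiff (TE_sub_BY he) le_rfl
    have hBF : #(D.BY l \ F) + 3 = #(D.BY l) := by
      rw [card_sdiff_of_subset (subF l hl), cF]
      have := card_le_card (subF l hl)
      rw [cF] at this
      omega
    have h5 := hB l
    have h6 := card_le_card hsub
    have hc5 : #(D.BY l) = 5 := by omega
    have hEq : D.TE e \ F = D.BY l \ F := Finset.eq_of_subset_of_card_le hsub (by omega)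
    have hAYl : ∀ y ∈ D.BY l, y ∉ F → D.AY y = D.AE e := by
      intro y hy hyF
      have : y ∈ D.TE e \ F := by rw [hEq, mem_sdiff]; exact ⟨hy, hyF⟩
      symm
      exact Finset.eq_of_subset_of_card_le (TE_AE (mem_sdiff.1 this).1)
        (by rw [notF y hyF, card_AE])
    have hllne : l' ≠ l := by
      rintro rfl
      have a1 := hAYl yx mx yxF
      have a2 := hAYl yx' mx' yxF'
      rw [hyx] at a1
      rw [hyx', ← a1] at a2
      have : x ∈ ({x', l'} : Finset D.X) := by rw [a2]; simp
      simp only [mem_insert, mem_singleton] at this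
      tauto
    have e1 := exc_x' l
    rw [hc5] at e1
    have e2 := exc_x' l'
    have e3 := hsplit l
    have e4 := hn1 {l, l'} (card_pair hllne.symm) (by
      intro z hz
      simp only [mem_insert, mem_singleton] at hz
      rcases hz with rfl | rfl <;> assumption)
    have e5 : ∑ e with D.i l' e = true, D.xe e ≤
        ∑ e with D.AE e = {l, l'}, D.xe e + ∑ e with ¬ D.i l e = true, D.xe e := by
      rw [Finset.sum_filter, Finset.sum_filter, Finset.sum_filter, ← Finset.sum_add_distrib]
      refine Finset.sum_le_sum fun e _ => ?_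
      have a0 := xe_nonneg e
      by_cases he : D.i l' e = true
      · rw [if_pos he]
        by_cases he' : D.i l e = true
        · rw [if_pos (AE_eq hllne.symm he' he)]
          split_ifs <;> omega
        · have h7 : (if ¬ D.i l e = true then D.xe e else 0) = D.xe e := if_pos he'
          rw [h7]
          split_ifs <;> omega
      · rw [if_neg he]
        split_ifs <;> omega
    omega

lemma lemR5 {T : Finset D.X} {x x' : D.X} {y0 y1 y2 : D.Y}
    (h0 : D.AY y0 = insert x T) (h1 : D.AY y1 = insert x' T) (h2 : D.AY y2 = T)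
    (hx : x ∉ T) (hx' : x' ∉ T) (hxx : x ≠ x') (hT : #T = 3)
    (hH : ∀ h, 3 ≤ #(D.AX h) → D.AX h = T)
    (hY : ∀ y, 3 ≤ #(D.AY y) → y = y0 ∨ y = y1 ∨ y = y2) (hB : ∀ z, #(D.BY z) ≤ 5)
    (hg : D.g ≤ 2 * Fintype.card D.X + 7) (hc : #{h | D.AX h = T} = 5)
    (hc0 : 4 ≤ #{h | D.j h y0 = true ∧ D.AX h = T}) :
    Fintype.card D.X + 6 ≤ Fintype.card D.E := by
  have hxy1 : x ∉ D.AY y1 := by
    rw [h1, mem_insert]; rintro (h | h)
    · exact hxx h
    · exact hx h
  have hxy0 : x' ∉ D.AY y0 := by
    rw [h0, mem_insert]; rintro (h | h)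
    · exact hxx h.symm
    · exact hx' h
  obtain ⟨l, hl, yx, hyx⟩ := exists_thin h0 hx hH (fun y h3 hxy => by
    rcases hY y h3 with h | h | h
    · exact h
    · rw [h] at hxy; exact absurd hxy hxy1
    · rw [h, h2] at hxy; exact absurd hxy hx)
  obtain ⟨l', hl', yx', hyx'⟩ := exists_thin h1 hx' hH (fun y h3 hxy => by
    rcases hY y h3 with h | h | h
    · rw [h] at hxy; exact absurd hxy hxy0
    · exact h
    · rw [h, h2] at hxy; exact absurd hxy hx')
  have hlx : l ≠ x := by rintro rfl; exact hx hl
  have hlx' : l ≠ x' := by rintro rfl; exact hx' hl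
  have hl'x' : l' ≠ x' := by rintro rfl; exact hx' hl'
  have hl'x : l' ≠ x := by rintro rfl; exact hx hl'
  have ge2 : ∀ p : Finset D.X, #p = 2 → p ⊆ T → 2 ≤ D.ne p := by
    intro p hp hsub
    have := ne_ge hT hp hsub y0
    omega
  have hbig : ∃ p : Finset D.X, #p = 2 ∧ p ⊆ T ∧ 3 ≤ D.ne p := by
    by_contra hne
    push Not at hne
    refine not_all_two h0 h1 h2 hx hx' hxx hT hH hY hB hg hc hl hyx hl' hyx' fun p hp hsub => ?_
    have a1 := ge2 p hp hsub
    have a2 := hne p hp hsub
    omega
  obtain ⟨p, hp, hpT, hp3⟩ := hbig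
  have g3 := thin_ne (p := {l, x}) (card_pair hlx) (by rw [hyx, pair_comm])
  have g4 := thin_ne (p := {l', x'}) (card_pair hl'x') (by rw [hyx', pair_comm])
  -- the triple
  have main : ∀ a b c : D.X, a ≠ b → a ≠ c → b ≠ c → T = {a, b, c} →
      7 ≤ D.ne {a, b} + D.ne {a, c} + D.ne {b, c} := by
    intro a b c hab hac hbc hTe
    have s1 : ({a, b} : Finset D.X) ⊆ T := by rw [hTe]; intro z; simp; tauto
    have s2 : ({a, c} : Finset D.X) ⊆ T := by rw [hTe]; intro z; simp; tauto
    have s3 : ({b, c} : Finset D.X) ⊆ T := by rw [hTe]; intro z; simp; tauto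
    have q1 := ge2 _ (card_pair hab) s1
    have q2 := ge2 _ (card_pair hac) s2
    have q3 := ge2 _ (card_pair hbc) s3
    obtain ⟨u, v, huv, hpe⟩ := card_eq_two.1 hp
    have hu : u ∈ T := hpT (by rw [hpe]; simp)
    have hv : v ∈ T := hpT (by rw [hpe]; simp)
    rw [hTe] at hu hv
    simp only [mem_insert, mem_singleton] at hu hv
    have hcases : p = {a, b} ∨ p = {a, c} ∨ p = {b, c} := by
      rw [hpe]
      rcases hu with rfl | rfl | rfl <;> rcases hv with rfl | rfl | rfl
      · exact absurd rfl huv
      · exact Or.inl rfl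
      · exact Or.inr (Or.inl rfl)
      · exact Or.inl (pair_comm _ _)
      · exact absurd rfl huv
      · exact Or.inr (Or.inr rfl)
      · exact Or.inr (Or.inl (pair_comm _ _))
      · exact Or.inr (Or.inr (pair_comm _ _))
      · exact absurd rfl huv
    rcases hcases with h | h | h <;> rw [h] at hp3 <;> omega
  by_cases hll : l' = l
  · subst hll
    have hTl : #(T.erase l') = 2 := by rw [card_erase_of_mem hl]; omega
    obtain ⟨b, c, hbc, hbce⟩ := card_eq_two.1 hTl
    have hb : b ∈ T.erase l' := by rw [hbce]; simp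
    have hc' : c ∈ T.erase l' := by rw [hbce]; simp
    rw [mem_erase] at hb hc'
    have hTe : T = {l', b, c} := by rw [← insert_erase hl, hbce]
    have hm := main l' b c hb.1.symm hc'.1.symm hbc hTe
    have hbx : b ≠ x := by rintro rfl; exact hx hb.2
    have hcx : c ≠ x := by rintro rfl; exact hx hc'.2
    have hbx' : b ≠ x' := by rintro rfl; exact hx' hb.2
    have hcx' : c ≠ x' := by rintro rfl; exact hx' hc'.2
    have d1 := sum_ne_le l' {b, c, x, x'} (by simp [hb.1.symm, hc'.1.symm, hlx, hlx'])
    rw [Finset.sum_insert (by simp [hbc, hbx, hbx']), Finset.sum_insert (by simp [hcx, hcx']),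
      Finset.sum_pair hxx] at d1
    have d2 := sum_ne_le b {l', c} (by simp [hb.1, hbc])
    rw [Finset.sum_pair hc'.1.symm] at d2
    have d3 := sum_ne_le c {l', b} (by simp [hc'.1, hbc.symm])
    rw [Finset.sum_pair hb.1.symm] at d3
    have p1 : D.ne {b, l'} = D.ne {l', b} := by rw [pair_comm]
    have p2 : D.ne {c, l'} = D.ne {l', c} := by rw [pair_comm]
    have p3 : D.ne {c, b} = D.ne {b, c} := by rw [pair_comm]
    have := D.deg_bound {l', b, c} (c := 12) (by
      rw [Finset.sum_insert (by simp [hb.1.symm, hc'.1.symm]), Finset.sum_pair hbc]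
      omega)
    omega
  · have hc2 : #((T.erase l).erase l') = 1 := by
      rw [card_erase_of_mem (by simp [hl', hll]), card_erase_of_mem hl, hT]
    obtain ⟨t, ht⟩ := card_eq_one.1 hc2
    have htm : t ∈ (T.erase l).erase l' := by rw [ht]; simp
    have hTe : T = {l, l', t} := by
      rw [← insert_erase hl, ← insert_erase (show l' ∈ T.erase l by simp [hl', hll]), ht]
    simp only [mem_erase] at htm
    have hm := main l l' t (Ne.symm hll) htm.2.1.symm htm.1.symm hTe
    have hxt : t ≠ x := by rintro rfl; exact hx htm.2.2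
    have hx't : t ≠ x' := by rintro rfl; exact hx' htm.2.2
    have d1 := sum_ne_le l {l', t, x} (by simp [Ne.symm hll, htm.2.1.symm, hlx])
    rw [Finset.sum_insert (by simp [htm.1.symm, hl'x]), Finset.sum_pair hxt] at d1
    have d2 := sum_ne_le l' {l, t, x'} (by simp [hll, htm.1.symm, hl'x'])
    rw [Finset.sum_insert (by simp [htm.2.1.symm, hlx']), Finset.sum_pair hx't] at d2
    have d3 := sum_ne_le t {l, l'} (by simp [htm.1, htm.2.1])
    rw [Finset.sum_pair (Ne.symm hll)] at d3
    have p1 : D.ne {l', l} = D.ne {l, l'} := by rw [pair_comm]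
    have p2 : D.ne {t, l} = D.ne {l, t} := by rw [pair_comm]
    have p3 : D.ne {t, l'} = D.ne {l', t} := by rw [pair_comm]
    have := D.deg_bound {l, l', t} (c := 12) (by
      rw [Finset.sum_insert (by simp [Ne.symm hll, htm.2.1.symm]), Finset.sum_pair htm.1.symm]
      omega)
    omega

end EData

end Pool.Agent.Helper738F4
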