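import Pool.Agent.helper738_F4.NecR4
import Pool.Agent.helper738_F4.NecR5

/-!
# Lower bounds for `B` when the total excess is four or five
-/

open Finset

namespace Pool.Agent.Helper738F4

namespace EData

variable {D : EData}

/-- The excess of an element of rank three. -/
def hx (D : EData) (h : D.H) : ℤ := (#(D.AX h) : ℤ) - 2

lemma hx_nonneg (h : D.H) : 0 ≤ D.hx h := by
  have := D.two_le_AX h
  unfold hx; omega

lemma exc_y' (y : D.Y) : ∑ h with D.j h y = true, D.hx h = 2 * ((#(D.AY y) : ℤ) - 2) := by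
  rw [← exc, Finset.sum_filter]
  refine Finset.sum_congr rfl fun h _ => ?_
  cases D.j h y <;> simp [hx]

lemma sum_hx : ∑ h, D.hx h = D.g - 2 * Fintype.card D.Y := sum_exc_h

/-- The coatoms above an element of rank three. -/
lemma card_above (h : D.H) : #{y | D.j h y = true} = 2 := by rw [card_filter_eq, D.j2]

lemma other_y {h : D.H} {y : D.Y} (_ : D.j h y = true) : ∃ y', y' ≠ y ∧ D.j h y' = true := by
  have hc := card_above h
  obtain ⟨y', hy', hne⟩ : ∃ y' ∈ univ.filter (fun y => D.j h y = true), y' ≠ y := by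
    apply Finset.exists_mem_ne
    omega
  simp only [mem_filter, mem_univ, true_and] at hy'
  exact ⟨y', hne, hy'⟩

lemma exists_fat_h {y : D.Y} (h3 : 3 ≤ #(D.AY y)) : ∃ h, D.j h y = true ∧ 3 ≤ #(D.AX h) := by
  by_contra hne
  push Not at hne
  have h1 := exc_y' y
  have h3 : ∑ h with D.j h y = true, D.hx h ≤ 0 := by
    apply Finset.sum_nonpos
    intro e he
    simp only [mem_filter, mem_univ, true_and] at he
    have := hne e he
    unfold hx
    omega
  omega

/-- A coatom with three atoms below a coatom with four atoms. -/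
lemma sub_four (hg : D.g ≤ 2 * Fintype.card D.Y + 5) {y0 y : D.Y} (h0 : #(D.AY y0) = 4)
    (hy : #(D.AY y) = 3) : D.AY y ⊆ D.AY y0 := by
  by_contra hns
  have hno : ∀ h, D.j h y = true → 3 ≤ #(D.AX h) → D.j h y0 = false := by
    intro h h1 h2
    by_contra h3
    apply hns
    have h4 : D.AX h = D.AY y :=
      Finset.eq_of_subset_of_card_le (AX_sub_AY h1) (by omega)
    rw [← h4]
    exact AX_sub_AY (by simpa using h3)
  have s1 := exc_y' y
  have s0 := exc_y' y0
  have s2 := D.sum_hx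
  have s3 := Finset.sum_filter_add_sum_filter_not (univ : Finset D.H)
    (fun h => D.j h y0 = true) D.hx
  have s4 : ∑ h with D.j h y = true, D.hx h ≤ ∑ h with ¬ D.j h y0 = true, D.hx h := by
    rw [Finset.sum_filter, Finset.sum_filter]
    refine Finset.sum_le_sum fun h _ => ?_
    have h4 := hx_nonneg h
    by_cases h1 : D.j h y = true
    · rw [if_pos h1]
      by_cases h2 : D.j h y0 = true
      · rw [if_neg (not_not.2 h2)]
        by_contra hlt
        have h5 := hno h h1 (by unfold hx at hlt; omega)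
        rw [h2] at h5
        exact absurd h5 (by decide)
      · rw [if_pos h2]
    · rw [if_neg h1]
      split_ifs
      · exact le_refl _
      · exact h4
  rw [hy] at s1
  rw [h0] at s0
  push_cast at s1 s0
  omega

/-- If all the excess is below `y0` then all large elements of rank three are below `y0`. -/
lemma all_below {y0 : D.Y} (h : 2 * ((#(D.AY y0) : ℤ) - 2) = D.g - 2 * Fintype.card D.Y) :
    ∀ h, 3 ≤ #(D.AX h) → D.j h y0 = true := by
  intro e he
  by_contra hl
  have h1 := exc_y' y0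
  have h2 := D.sum_hx
  have h3 := Finset.sum_filter_add_sum_filter_not (univ : Finset D.H)
      (fun e => D.j e y0 = true) D.hx
  have h4 : D.hx e ≤ ∑ e with ¬ D.j e y0 = true, D.hx e :=
    Finset.single_le_sum (f := D.hx) (fun e _ => hx_nonneg e) (by simpa using hl)
  unfold hx at h4 h3 h2 h1
  omega

lemma mem_KK {x : D.X} : x ∈ D.KK ↔ ∃ y, x ∈ D.AY y ∧ 3 ≤ #(D.AY y) := by
  simp only [KK, mem_filter, mem_univ, true_and, mem_AY]

lemma AY_sub_KK {y : D.Y} (h : 3 ≤ #(D.AY y)) : D.AY y ⊆ D.KK := fun _ hx => mem_KK.2 ⟨y, hx, h⟩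

lemma card_F {n : ℕ} (hg : D.g = 2 * Fintype.card D.Y + n) (h3 : ∀ y, #(D.AY y) ≤ 3) :
    #{y | 3 ≤ #(D.AY y)} = n := by
  have h1 := D.sum_exc_y
  have h2 : ∑ y, ((#(D.AY y) : ℤ) - 2) = ∑ y, if 3 ≤ #(D.AY y) then 1 else 0 := by
    refine Finset.sum_congr rfl fun y _ => ?_
    have a1 := D.two_le_AY y
    have a2 := h3 y
    split_ifs <;> omega
  rw [h2, hg, ← Finset.sum_filter] at h1
  simp only [Finset.sum_const, nsmul_eq_mul, mul_one] at h1
  push_cast at h1
  have : ((#{y | 3 ≤ #(D.AY y)} : ℕ) : ℤ) = n := by rw [h1]; ring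
  exact_mod_cast this

/-- The two classes of coatoms when all coatoms have at most three atoms. -/
lemma case_zero {n : ℕ} (hn : n ≤ 5) (hg : D.g = 2 * Fintype.card D.Y + n)
    (h3 : ∀ y, #(D.AY y) ≤ 3) (hK : 5 ≤ #D.KK) (hodd : Odd #D.KK) :
    ∃ T T' : Finset D.X, ∃ c, T ∩ T' = {c} ∧
      (∀ y, 3 ≤ #(D.AY y) → D.AY y = T ∨ D.AY y = T') ∧ (#T = 3 ∧ #T' = 3) ∧
      2 ≤ #{y | D.AY y = T} ∧ 2 ≤ #{y | D.AY y = T'} ∧
      #{y | D.AY y = T} + #{y | D.AY y = T'} = n ∧ #{y | 3 ≤ #(D.AY y)} = n := by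
  have cls : ∀ y, 3 ≤ #(D.AY y) → 2 ≤ #{y' | D.AY y' = D.AY y} := by
    intro y hy
    obtain ⟨h, h1, h2⟩ := exists_fat_h hy
    have h4 : D.AX h = D.AY y :=
      Finset.eq_of_subset_of_card_le (AX_sub_AY h1) (by have := h3 y; omega)
    obtain ⟨y', hne, hy'⟩ := other_y h1
    have h5 : D.AY y' = D.AY y := by
      rw [← h4]; symm
      exact Finset.eq_of_subset_of_card_le (AX_sub_AY hy') (by have := h3 y'; omega)
    have h6 : ({y, y'} : Finset D.Y) ⊆ univ.filter (fun y' => D.AY y' = D.AY y) := by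
      intro a ha
      simp only [mem_insert, mem_singleton] at ha
      rcases ha with rfl | rfl <;> simp [h5]
    have h7 := card_le_card h6
    rw [card_pair hne.symm] at h7
    exact h7
  have hF : #{y | 3 ≤ #(D.AY y)} = n := card_F hg h3
  obtain ⟨x1, hx1⟩ := card_pos.1 (show 0 < #D.KK by omega)
  obtain ⟨y1, -, hy1⟩ := mem_KK.1 hx1
  have c1 : #(D.AY y1) = 3 := le_antisymm (h3 y1) hy1
  obtain ⟨x2, hx2, hx2'⟩ : ∃ x ∈ D.KK, x ∉ D.AY y1 := by
    by_contra hne
    push Not at hne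
    have := card_le_card (show D.KK ⊆ D.AY y1 from hne)
    omega
  obtain ⟨y2, hy2, hy2'⟩ := mem_KK.1 hx2
  have c2 : #(D.AY y2) = 3 := le_antisymm (h3 y2) hy2'
  have hne : D.AY y1 ≠ D.AY y2 := by
    intro h; rw [h] at hx2'; exact hx2' hy2
  have hcov : ∀ y, 3 ≤ #(D.AY y) → D.AY y = D.AY y1 ∨ D.AY y = D.AY y2 := by
    intro y hy
    by_contra hcon
    push Not at hcon
    have d1 : Disjoint (univ.filter fun y' => D.AY y' = D.AY y1)
        (univ.filter fun y' => D.AY y' = D.AY y2) := by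
      rw [Finset.disjoint_left]
      intro a ha ha'
      simp only [mem_filter, mem_univ, true_and] at ha ha'
      exact hne (ha.symm.trans ha')
    have d2 : Disjoint ((univ.filter fun y' => D.AY y' = D.AY y1) ∪
        (univ.filter fun y' => D.AY y' = D.AY y2)) (univ.filter fun y' => D.AY y' = D.AY y) := by
      rw [Finset.disjoint_left]
      intro a ha ha'
      simp only [mem_union, mem_filter, mem_univ, true_and] at ha ha'
      rcases ha with ha | ha
      · exact hcon.1 (ha'.symm.trans ha)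
      · exact hcon.2 (ha'.symm.trans ha)
    have h4 := card_union_of_disjoint d2
    rw [card_union_of_disjoint d1] at h4
    have h5 := cls y1 hy1
    have h6 := cls y2 hy2'
    have h7 := cls y hy
    have h8 : ((univ.filter fun y' => D.AY y' = D.AY y1) ∪
        (univ.filter fun y' => D.AY y' = D.AY y2)) ∪ (univ.filter fun y' => D.AY y' = D.AY y) ⊆
        univ.filter fun y => 3 ≤ #(D.AY y) := by
      intro a ha
      simp only [mem_union, mem_filter, mem_univ, true_and] at ha ⊢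
      rcases ha with (ha | ha) | ha <;> rw [ha] <;> assumption
    have h9 := card_le_card h8
    omega
  have hKK : D.KK = D.AY y1 ∪ D.AY y2 := by
    apply Finset.Subset.antisymm
    · intro x hx
      obtain ⟨y, hy, hy'⟩ := mem_KK.1 hx
      rcases hcov y hy' with h | h
      · rw [h] at hy; exact mem_union_left _ hy
      · rw [h] at hy; exact mem_union_right _ hy
    · exact union_subset (AY_sub_KK hy1) (AY_sub_KK hy2')
  have hcap : #(D.AY y1 ∩ D.AY y2) = 1 := by
    have h4 := card_union_add_card_inter (D.AY y1) (D.AY y2)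
    rw [← hKK, c1, c2] at h4
    rcases Nat.eq_zero_or_pos (#(D.AY y1 ∩ D.AY y2)) with h5 | h5
    · exfalso
      have h6 : #D.KK = 6 := by omega
      rw [h6] at hodd
      exact absurd hodd (by decide)
    · omega
  obtain ⟨c, hc⟩ := card_eq_one.1 hcap
  refine ⟨D.AY y1, D.AY y2, c, hc, hcov, ⟨c1, c2⟩, cls y1 hy1, cls y2 hy2', ?_, hF⟩
  rw [← hF, ← card_union_of_disjoint]
  · congr 1
    ext y
    simp only [mem_union, mem_filter, mem_univ, true_and]
    constructor
    · rintro (h | h) <;> rw [h] <;> assumption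
    · exact hcov y
  · rw [Finset.disjoint_left]
    intro a ha ha'
    simp only [mem_filter, mem_univ, true_and] at ha ha'
    exact hne (ha.symm.trans ha')

/-- The large elements of rank two at the common atom. -/
lemma fat_class {T T' : Finset D.X} {c : D.X} (hTT : T ∩ T' = {c})
    (hcov : ∀ y, 3 ≤ #(D.AY y) → D.AY y = T ∨ D.AY y = T')
    (hBc : ∀ y ∈ D.BY c, 3 ≤ #(D.AY y)) {e : D.E} (he : D.i c e = true) :
    D.TE e ⊆ univ.filter (fun y => D.AY y = T) ∨ D.TE e ⊆ univ.filter (fun y => D.AY y = T') := by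
  by_contra hcon
  rw [not_or, Finset.not_subset, Finset.not_subset] at hcon
  obtain ⟨⟨y, hy, hyT⟩, ⟨y', hy', hyT'⟩⟩ := hcon
  simp only [mem_filter, mem_univ, true_and] at hyT hyT'
  have h1 := (hcov y (hBc y (TE_sub_BY he hy))).resolve_left hyT
  have h2 := (hcov y' (hBc y' (TE_sub_BY he hy'))).resolve_right hyT'
  have h3 : D.AE e ⊆ {c} := by
    rw [← hTT]
    exact subset_inter (by rw [← h2]; exact TE_AE hy') (by rw [← h1]; exact TE_AE hy)
  have h4 := card_le_card h3
  rw [card_AE, card_singleton] at h4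
  omega

lemma c_mem {T T' : Finset D.X} {c : D.X} (hTT : T ∩ T' = {c}) : c ∈ T ∧ c ∈ T' := by
  have : c ∈ T ∩ T' := by rw [hTT]; simp
  simpa using this

/-- If there is just one coatom with four atoms, it contains all large coatoms. -/
lemma case_one (hg : D.g ≤ 2 * Fintype.card D.Y + 5) (h4 : ∀ y, #(D.AY y) ≤ 4) {y0 : D.Y}
    (h0 : #(D.AY y0) = 4) (hu : ∀ y, #(D.AY y) = 4 → D.AY y = D.AY y0) : #D.KK = 4 := by
  have : D.KK = D.AY y0 := by
    apply Finset.Subset.antisymm
    · intro x hx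
      obtain ⟨y, hy, hy'⟩ := mem_KK.1 hx
      by_cases h : #(D.AY y) = 4
      · rw [hu y h] at hy; exact hy
      · exact sub_four hg h0 (by have := h4 y; omega) hy
    · exact AY_sub_KK (by omega)
  rw [this, h0]

/-- The excess four at a coatom below which all large elements have three atoms. -/
lemma count_T {y0 : D.Y} {T : Finset D.X} (hT : #T = 3) (hH : ∀ h, 3 ≤ #(D.AX h) → D.AX h = T) :
    2 * ((#(D.AY y0) : ℤ) - 2) = #{h | D.j h y0 = true ∧ D.AX h = T} := by
  rw [← exc_y']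
  have h2 : ∀ h ∈ univ.filter (fun h => D.j h y0 = true),
      D.hx h = if D.AX h = T then 1 else 0 := by
    intro h _
    have h3 := two_le_AX h
    split_ifs with h4
    · unfold hx; rw [h4, hT]; norm_num
    · unfold hx
      have : ¬ 3 ≤ #(D.AX h) := fun h5 => h4 (hH h h5)
      omega
  rw [Finset.sum_congr rfl h2, ← Finset.sum_filter, Finset.filter_filter]
  simp

lemma count_T' {T : Finset D.X} (hT : #T = 3) (hH : ∀ h, 3 ≤ #(D.AX h) → D.AX h = T) :
    (D.g : ℤ) - 2 * Fintype.card D.Y = #{h | D.AX h = T} := by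
  rw [← sum_hx]
  have h2 : ∀ h, D.hx h = if D.AX h = T then 1 else 0 := by
    intro h
    have h3 := two_le_AX h
    split_ifs with h4
    · unfold hx; rw [h4, hT]; norm_num
    · unfold hx
      have : ¬ 3 ≤ #(D.AX h) := fun h5 => h4 (hH h h5)
      omega
  rw [Finset.sum_congr rfl fun h _ => h2 h, ← Finset.sum_filter]
  simp

/-- Two different coatoms with four atoms. -/
lemma two_four {y0 y1 : D.Y} (h0 : #(D.AY y0) = 4) (h1 : #(D.AY y1) = 4)
    (hne : D.AY y0 ≠ D.AY y1) (h3 : 3 ≤ #(D.AY y0 ∩ D.AY y1)) :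
    ∃ x x' : D.X, D.AY y0 = insert x (D.AY y0 ∩ D.AY y1) ∧
      D.AY y1 = insert x' (D.AY y0 ∩ D.AY y1) ∧ x ∉ D.AY y0 ∩ D.AY y1 ∧
      x' ∉ D.AY y0 ∩ D.AY y1 ∧ x ≠ x' ∧ #(D.AY y0 ∩ D.AY y1) = 3 := by
  have hc : #(D.AY y0 ∩ D.AY y1) = 3 := by
    by_contra h
    have h2 : 4 ≤ #(D.AY y0 ∩ D.AY y1) := by omega
    apply hne
    have e1 : D.AY y0 ∩ D.AY y1 = D.AY y0 :=
      Finset.eq_of_subset_of_card_le inter_subset_left (by omega)
    have e2 : D.AY y0 ∩ D.AY y1 = D.AY y1 :=
      Finset.eq_of_subset_of_card_le inter_subset_right (by omega)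
    rw [← e1, e2]
  have k0 : #(D.AY y0 \ (D.AY y0 ∩ D.AY y1)) = 1 := by
    rw [card_sdiff_of_subset inter_subset_left]; omega
  have k1 : #(D.AY y1 \ (D.AY y0 ∩ D.AY y1)) = 1 := by
    rw [card_sdiff_of_subset inter_subset_right]; omega
  obtain ⟨x, hx⟩ := card_eq_one.1 k0
  obtain ⟨x', hx'⟩ := card_eq_one.1 k1
  have m0 : x ∈ D.AY y0 ∧ x ∉ D.AY y0 ∩ D.AY y1 := by
    have : x ∈ D.AY y0 \ (D.AY y0 ∩ D.AY y1) := by rw [hx]; simp
    rwa [mem_sdiff] at this
  have m1 : x' ∈ D.AY y1 ∧ x' ∉ D.AY y0 ∩ D.AY y1 := by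
    have : x' ∈ D.AY y1 \ (D.AY y0 ∩ D.AY y1) := by rw [hx']; simp
    rwa [mem_sdiff] at this
  refine ⟨x, x', ?_, ?_, m0.2, m1.2, ?_, hc⟩
  · symm
    apply Finset.eq_of_subset_of_card_le
    · exact insert_subset m0.1 inter_subset_left
    · rw [card_insert_of_notMem m0.2]; omega
  · symm
    apply Finset.eq_of_subset_of_card_le
    · exact insert_subset m1.1 inter_subset_right
    · rw [card_insert_of_notMem m1.2]; omega
  · rintro rfl
    exact m0.2 (mem_inter.2 ⟨m0.1, m1.1⟩)

end EData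

end Pool.Agent.Helper738F4
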