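import Pool.Agent.helper738_F4.NecF

/-!
# Lower bounds for `B` when the total excess is four or five: conclusion
-/

open Finset

namespace Pool.Agent.Helper738F4

namespace EData

variable {D : EData}

lemma odd_KK (ha : Odd (Fintype.card D.X)) (he : Even (#(univ \ D.KK))) : Odd #D.KK := by
  have h4 : #(univ \ D.KK) + #D.KK = Fintype.card D.X := by
    rw [card_sdiff_of_subset (Finset.subset_univ _), Finset.card_univ]
    have := Finset.card_le_univ D.KK
    omega
  rw [← h4] at ha
  rcases Nat.even_or_odd (#D.KK) with h | h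
  · exact absurd (he.add h) (Nat.not_even_iff_odd.2 ha)
  · exact h

lemma sum_two {y0 y1 : D.Y} (hne : y0 ≠ y1) (h0 : #(D.AY y0) = 4) (h1 : #(D.AY y1) = 4) :
    ∑ y ∈ univ \ {y0, y1}, ((#(D.AY y) : ℤ) - 2) = D.g - 2 * Fintype.card D.Y - 4 := by
  have h2 := D.sum_exc_y
  have h3 := Finset.sum_sdiff (f := fun y => (#(D.AY y) : ℤ) - 2)
    (Finset.subset_univ ({y0, y1} : Finset D.Y))
  rw [Finset.sum_pair hne, h0, h1, h2] at h3
  push_cast at h3
  linarith

lemma AY_sub_two_nonneg (y : D.Y) : (0 : ℤ) ≤ (#(D.AY y) : ℤ) - 2 := by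
  have := D.two_le_AY y
  omega

theorem odd_four (ha : Odd (Fintype.card D.X)) (hXY : Fintype.card D.X = Fintype.card D.Y)
    (hg : D.g = 2 * Fintype.card D.Y + 4) : Fintype.card D.X + 7 ≤ Fintype.card D.E := by
  have hg' : D.g = 2 * Fintype.card D.X + 4 := by omega
  have hB : ∀ z, #(D.BY z) ≤ 4 := by
    intro z
    have h1 := BY_le z
    have h2 := two_le_BY z
    rw [hg'] at h1
    push_cast at h1
    omega
  have hA : ∀ y, #(D.AY y) ≤ 4 := by
    intro z
    have h1 := exc_le z
    have h2 := two_le_AY z
    rw [hg] at h1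
    push_cast at h1
    omega
  have hodd : Odd #D.KK := by
    apply odd_KK ha
    apply even_compl
    · intro x; have := hB x; omega
    · intro j m _ h5 _; have := hB j; omega
    · intro z j h; have := h.2.2.2.2; have := hB j; omega
  have hcK := D.card_KK
  by_cases h4 : ∃ y0, #(D.AY y0) = 4
  · obtain ⟨y0, h0⟩ := h4
    by_cases hu : ∀ y, #(D.AY y) = 4 → D.AY y = D.AY y0
    · have := case_one (by omega) hA h0 hu
      rw [this] at hodd
      exact absurd hodd (by decide)
    · push Not at hu
      obtain ⟨y1, h1, hne⟩ := hu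
      have hyy : y0 ≠ y1 := by rintro rfl; exact hne rfl
      have b0 := all_below (D := D) (y0 := y0) (by rw [h0, hg]; push_cast; ring)
      have b1 := all_below (D := D) (y0 := y1) (by rw [h1, hg]; push_cast; ring)
      have hsub : ∀ h, 3 ≤ #(D.AX h) → D.AX h ⊆ D.AY y0 ∩ D.AY y1 := fun h hh =>
        subset_inter (AX_sub_AY (b0 h hh)) (AX_sub_AY (b1 h hh))
      obtain ⟨h, -, hh⟩ := exists_fat_h (D := D) (y := y0) (by omega)
      obtain ⟨x, x', e0, e1, hx, hx', hxx, hc⟩ := two_four h0 h1 (Ne.symm hne)
        (hh.trans (card_le_card (hsub h hh)))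
      have hH : ∀ h, 3 ≤ #(D.AX h) → D.AX h = D.AY y0 ∩ D.AY y1 := fun h hh =>
        Finset.eq_of_subset_of_card_le (hsub h hh) (by omega)
      apply lemR4 e0 e1 hx hx' hxx hc hH ?_ hB hg'
      · have := count_T (y0 := y0) hc hH
        rw [h0] at this
        push_cast at this
        omega
      · intro y hy
        by_contra hcon
        push Not at hcon
        have h2 := sum_two hyy h0 h1
        have h3 : ((#(D.AY y) : ℤ) - 2) ≤ ∑ y ∈ univ \ {y0, y1}, ((#(D.AY y) : ℤ) - 2) :=
          Finset.single_le_sum (f := fun y => (#(D.AY y) : ℤ) - 2)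
            (fun y _ => AY_sub_two_nonneg y) (by simp [hcon])
        rw [h2, hg] at h3
        push_cast at h3
        omega
  · push Not at h4
    have h3 : ∀ y, #(D.AY y) ≤ 3 := by
      intro y
      have := hA y
      have := h4 y
      omega
    have hF := card_F (n := 4) hg h3
    have hK : 5 ≤ #D.KK := by
      rcases Nat.lt_or_ge (#D.KK) 5 with h | h
      · have : #D.KK = 4 := by omega
        rw [this] at hodd
        exact absurd hodd (by decide)
      · exact h
    obtain ⟨T, T', c, hTT, hcov, ⟨cT, cT'⟩, n1, n2, n3, n4⟩ :=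
      case_zero (n := 4) (by norm_num) hg h3 hK hodd
    obtain ⟨m1, m2⟩ := c_mem hTT
    have hsub : univ.filter (fun y => 3 ≤ #(D.AY y)) ⊆ D.BY c := by
      intro y hy
      simp only [mem_filter, mem_univ, true_and] at hy
      rw [mem_BY_iff]
      rcases hcov y hy with h | h <;> rw [h] <;> assumption
    have heq : univ.filter (fun y => 3 ≤ #(D.AY y)) = D.BY c :=
      Finset.eq_of_subset_of_card_le hsub (by rw [n4]; exact hB c)
    obtain ⟨e, he, hfat⟩ := exists_fat (D := D) (j := c) (by rw [← heq, n4]; norm_num)
    have hBc : ∀ y ∈ D.BY c, 3 ≤ #(D.AY y) := by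
      intro y hy
      rw [← heq] at hy
      simpa using hy
    rcases fat_class hTT hcov hBc he with h | h
    · have := card_le_card h
      omega
    · have := card_le_card h
      omega

theorem odd_five (ha : Odd (Fintype.card D.X)) (hXY : Fintype.card D.X ≤ Fintype.card D.Y)
    (hXY' : Fintype.card D.Y ≤ Fintype.card D.X + 1)
    (hg : D.g = 2 * Fintype.card D.Y + 5) : Fintype.card D.X + 6 ≤ Fintype.card D.E := by
  have hB : ∀ z, #(D.BY z) ≤ 5 := by
    intro z
    have h1 := BY_le z
    have h2 := two_le_BY z
    rw [hg] at h1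
    push_cast at h1
    omega
  have hA : ∀ y, #(D.AY y) ≤ 4 := by
    intro z
    have h1 := exc_le z
    have h2 := two_le_AY z
    rw [hg] at h1
    push_cast at h1
    omega
  by_cases hleaf : ∃ z j, D.Leaf z j
  · obtain ⟨z, j, l1, l2, l3, l4, l5⟩ := hleaf
    have hsub : D.BY z ⊆ D.BY j := by
      intro y hy
      rw [mem_BY_iff, l3 y hy]
      simp
    have hS : #(D.BY j \ D.BY z) = 3 := by
      rw [card_sdiff_of_subset hsub]; omega
    apply lemQ hS l5
    intro e he hfat
    apply Finset.eq_of_subset_of_card_le
    · intro y hy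
      rw [mem_sdiff]
      refine ⟨TE_sub_BY he hy, fun hyz => ?_⟩
      have h1 := TE_AE hy
      rw [l3 y hyz] at h1
      have h2 : D.AE e = {z, j} :=
        Finset.eq_of_subset_of_card_le h1 (by rw [card_AE, card_pair (Ne.symm l2)])
      have h3 : z ∈ D.AE e := by rw [h2]; simp
      have h4 := card_le_card (TE_sub_BY (mem_AE.1 h3))
      omega
    · rw [hS]; exact hfat
  push Not at hleaf
  have hodd : Odd #D.KK := by
    apply odd_KK ha
    apply even_compl hB
    · intro j m hjm h5 hall
      by_cases hx : Fintype.card D.Y = Fintype.card D.X + 1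
      · exact lemU (by omega) hjm h5 hall
      · have h1 := BY_le j
        rw [hg, h5] at h1
        push_cast at h1
        omega
    · exact hleaf
  have hcK := D.card_KK
  by_cases h4 : ∃ y0, #(D.AY y0) = 4
  · obtain ⟨y0, h0⟩ := h4
    by_cases hu : ∀ y, #(D.AY y) = 4 → D.AY y = D.AY y0
    · have := case_one (by omega) hA h0 hu
      rw [this] at hodd
      exact absurd hodd (by decide)
    · push Not at hu
      obtain ⟨y1, h1, hne⟩ := hu
      have hyy : y0 ≠ y1 := by rintro rfl; exact hne rfl
      have h2 := sum_two hyy h0 h1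
      rw [hg] at h2
      push_cast at h2
      obtain ⟨y2, hy2, hy2'⟩ : ∃ y ∈ univ \ {y0, y1}, (0 : ℤ) < (#(D.AY y) : ℤ) - 2 := by
        by_contra hcon
        simp only [not_exists, not_and, not_lt] at hcon
        have := Finset.sum_nonpos hcon
        omega
      have h3 : ((#(D.AY y2) : ℤ) - 2) ≤ ∑ y ∈ univ \ {y0, y1}, ((#(D.AY y) : ℤ) - 2) :=
        Finset.single_le_sum (f := fun y => (#(D.AY y) : ℤ) - 2)
          (fun y _ => AY_sub_two_nonneg y) hy2
      have c2 : #(D.AY y2) = 3 := by omega
      simp only [mem_sdiff, mem_univ, mem_insert, mem_singleton, true_and, not_or] at hy2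
      have hY : ∀ y, 3 ≤ #(D.AY y) → y = y0 ∨ y = y1 ∨ y = y2 := by
        intro y hy
        by_contra hcon
        push Not at hcon
        have h5 : ({y, y2} : Finset D.Y) ⊆ univ \ {y0, y1} := by
          intro a ha
          simp only [mem_insert, mem_singleton] at ha
          rcases ha with rfl | rfl <;> simp [*]
        have h6 := Finset.sum_le_sum_of_subset_of_nonneg
          (f := fun y => (#(D.AY y) : ℤ) - 2) h5 (fun y _ _ => AY_sub_two_nonneg y)
        rw [Finset.sum_pair hcon.2.2, h2] at h6
        omega
      have s0 := sub_four (by omega) h0 c2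
      have s1 := sub_four (by omega) h1 c2
      have s2 : D.AY y2 ⊆ D.AY y0 ∩ D.AY y1 := subset_inter s0 s1
      obtain ⟨x, x', e0, e1, hx, hx', hxx, hc⟩ := two_four h0 h1 (Ne.symm hne)
        (by rw [← c2]; exact card_le_card s2)
      have e2 : D.AY y2 = D.AY y0 ∩ D.AY y1 :=
        Finset.eq_of_subset_of_card_le s2 (by omega)
      have hH : ∀ h, 3 ≤ #(D.AX h) → D.AX h = D.AY y0 ∩ D.AY y1 := by
        intro h hh
        obtain ⟨y, hy⟩ : ∃ y, D.j h y = true := exists_of_sum_pos (by rw [D.j2]; decide)
        obtain ⟨y', hne', hy'⟩ := other_y hy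
        have k1 := AX_sub_AY hy
        have k2 := AX_sub_AY hy'
        have k3 := hh.trans (card_le_card k1)
        have k4 := hh.trans (card_le_card k2)
        apply Finset.eq_of_subset_of_card_le _ (by omega)
        rcases hY y k3 with rfl | rfl | rfl
        · rcases hY y' k4 with rfl | rfl | rfl
          · exact absurd rfl hne'
          · exact subset_inter k1 k2
          · rw [← e2]; exact k2
        · rcases hY y' k4 with rfl | rfl | rfl
          · exact subset_inter k2 k1
          · exact absurd rfl hne'
          · rw [← e2]; exact k2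
        · rw [← e2]; exact k1
      apply lemR5 e0 e1 e2 hx hx' hxx hc hH hY hB (by omega)
      · have := count_T' hc hH
        rw [hg] at this
        push_cast at this
        omega
      · have := count_T (y0 := y0) hc hH
        rw [h0] at this
        push_cast at this
        omega
  · push Not at h4
    have h3 : ∀ y, #(D.AY y) ≤ 3 := by
      intro y
      have := hA y
      have := h4 y
      omega
    have hF := card_F (n := 5) hg h3
    have hK : 5 ≤ #D.KK := by
      rcases Nat.lt_or_ge (#D.KK) 5 with h | h
      · have : #D.KK = 4 := by omega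
        rw [this] at hodd
        exact absurd hodd (by decide)
      · exact h
    obtain ⟨T, T', c, hTT, hcov, ⟨cT, cT'⟩, n1, n2, n3, n4⟩ :=
      case_zero (n := 5) (by norm_num) hg h3 hK hodd
    obtain ⟨m1, m2⟩ := c_mem hTT
    have hsub : univ.filter (fun y => 3 ≤ #(D.AY y)) ⊆ D.BY c := by
      intro y hy
      simp only [mem_filter, mem_univ, true_and] at hy
      rw [mem_BY_iff]
      rcases hcov y hy with h | h <;> rw [h] <;> assumption
    have heq : univ.filter (fun y => 3 ≤ #(D.AY y)) = D.BY c :=
      Finset.eq_of_subset_of_card_le hsub (by rw [n4]; exact hB c)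
    have hBc : ∀ y ∈ D.BY c, 3 ≤ #(D.AY y) := by
      intro y hy
      rw [← heq] at hy
      simpa using hy
    have hc5 : #(D.BY c) = 5 := by rw [← heq, n4]
    rcases Nat.lt_or_ge (#{y | D.AY y = T}) 3 with k | k
    · have k' : #{y | D.AY y = T'} = 3 := by omega
      apply lemQ k' hc5
      intro e he hfat
      rcases fat_class hTT hcov hBc he with h | h
      · have := card_le_card h
        omega
      · exact Finset.eq_of_subset_of_card_le h (by omega)
    · have k' : #{y | D.AY y = T} = 3 := by omega
      apply lemQ k' hc5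
      intro e he hfat
      rcases fat_class hTT hcov hBc he with h | h
      · exact Finset.eq_of_subset_of_card_le h (by omega)
      · have := card_le_card h
        omega

end EData

end Pool.Agent.Helper738F4
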