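import Pool.Agent.helper738_F4.NecX

/-!
# Lower bounds for `B` from special configurations
-/

open Finset

namespace Pool.Agent.Helper738F4

namespace EData

variable {D : EData}

/-- Elements of rank two below `y` which do not contain `j`. -/
lemma not_j_ge (j : D.X) (y : D.Y) :
    (#(D.AY y) : ℤ) - 2 ≤ ((∑ e, (D.v e y && !D.i j e).toNat : ℕ) : ℤ) := by
  have h1 : 2 * ∑ e, (D.v e y && !D.i j e).toNat =
      ∑ h, (D.j h y).toNat * ∑ e, (D.r e h && !D.i j e).toNat := by
    have a1 : ∀ e, 2 * (D.v e y && !D.i j e).toNat =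
        ∑ h, (D.r e h && D.j h y).toNat * (!D.i j e).toNat := by
      intro e
      rw [← Finset.sum_mul, D.ey, toNat_and]
      ring
    rw [Finset.mul_sum, Finset.sum_congr rfl fun e _ => a1 e, Finset.sum_comm]
    refine Finset.sum_congr rfl fun h _ => ?_
    rw [Finset.mul_sum]
    refine Finset.sum_congr rfl fun e _ => ?_
    rw [toNat_and, toNat_and]
    ring
  have h2 := D.exc y
  have h3 : ∑ h, ((D.j h y).toNat : ℤ) * ((#(D.AX h) : ℤ) - 2) ≤
      ((∑ h, (D.j h y).toNat * ∑ e, (D.r e h && !D.i j e).toNat : ℕ) : ℤ) := by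
    push_cast
    refine Finset.sum_le_sum fun h _ => ?_
    have a2 : ∑ e, (D.r e h && !D.i j e).toNat + ∑ e, (D.i j e && D.r e h).toNat =
        #(D.AX h) := by
      rw [card_AX, D.sum_u, ← Finset.sum_add_distrib]
      refine Finset.sum_congr rfl fun e _ => ?_
      cases D.r e h <;> cases D.i j e <;> rfl
    rw [D.xh] at a2
    have a3 := le_one (D.u j h)
    have a4 : (#(D.AX h) : ℤ) - 2 ≤ ((∑ e, (D.r e h && !D.i j e).toNat : ℕ) : ℤ) := by omega
    have a5 : (0 : ℤ) ≤ (D.j h y).toNat := by positivity
    have := mul_le_mul_of_nonneg_left a4 a5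
    push_cast at this
    exact this
  rw [h2, ← h1] at h3
  push_cast at h3 ⊢
  linarith

/-- A configuration with six large elements of rank two at an atom. -/
lemma lemQ {j : D.X} {S : Finset D.Y} (hS : #S = 3) (hj : #(D.BY j) = 5)
    (hall : ∀ e, D.i j e = true → 3 ≤ #(D.TE e) → D.TE e = S) :
    Fintype.card D.X + 6 ≤ Fintype.card D.E := by
  have h1 := exc_x' j
  rw [hj] at h1
  have h2 : ∀ e ∈ univ.filter (fun e => D.i j e = true),
      D.xe e = if 3 ≤ #(D.TE e) then 1 else 0 := by
    intro e he
    simp only [mem_filter, mem_univ, true_and] at he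
    have h3 := two_le_TE e
    split_ifs with h4
    · have := hall e he h4
      unfold xe
      rw [this, hS]
      norm_num
    · unfold xe
      omega
  rw [Finset.sum_congr rfl h2, ← Finset.sum_filter, Finset.filter_filter] at h1
  simp only [Finset.sum_const, nsmul_eq_mul, mul_one] at h1
  have h6 : #{e | D.i j e = true ∧ 3 ≤ #(D.TE e)} = 6 := by
    have : ((#{e | D.i j e = true ∧ 3 ≤ #(D.TE e)} : ℕ) : ℤ) = 6 := by rw [h1]; norm_num
    exact_mod_cast this
  have key : ∀ y ∈ S, (4 : ℤ) ≤ ((∑ h, (D.j h y).toNat : ℕ) : ℤ) - 2 := by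
    intro y hy
    have a1 : 6 ≤ ∑ e, (D.v e y && D.i j e).toNat := by
      rw [← h6, ← card_filter_eq]
      apply card_le_card
      intro e he
      simp only [mem_filter, mem_univ, true_and] at he ⊢
      have h7 := hall e he.1 he.2
      have h8 : y ∈ D.TE e := by rw [h7]; exact hy
      rw [mem_TE] at h8
      simp [h8, he.1]
    have a2 := not_j_ge j y
    have a3 : ∑ e, (D.v e y).toNat =
        ∑ e, (D.v e y && D.i j e).toNat + ∑ e, (D.v e y && !D.i j e).toNat := by
      rw [← Finset.sum_add_distrib]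
      refine Finset.sum_congr rfl fun e _ => ?_
      cases D.v e y <;> cases D.i j e <;> rfl
    have a4 := D.yc y
    rw [← card_AY] at a4
    omega
  have h9 := D.deg_bound_y S (c := 12) (by
    calc (12 : ℤ) = ∑ _y ∈ S, 4 := by simp [hS]
      _ ≤ _ := Finset.sum_le_sum key)
  omega

/-- The edges between an atom and several others. -/
lemma sum_ne_le (x : D.X) (A : Finset D.X) (hx : x ∉ A) :
    ∑ a ∈ A, D.ne {x, a} ≤ ∑ e, (D.i x e).toNat := by
  unfold ne
  rw [← card_filter_eq, ← Finset.card_biUnion]
  · apply card_le_card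
    intro e he
    simp only [mem_biUnion, mem_filter, mem_univ, true_and] at he ⊢
    obtain ⟨a, _, ha⟩ := he
    rw [← mem_AE, ha]
    simp
  · intro a ha b hb hab
    rw [Function.onFun, Finset.disjoint_left]
    intro e he he'
    simp only [mem_filter, mem_univ, true_and] at he he'
    apply hab
    have h1 : a ∈ ({x, b} : Finset D.X) := by rw [← he', he]; simp
    simp only [mem_insert, mem_singleton] at h1
    rcases h1 with h1 | h1
    · rw [h1] at ha; exact absurd ha hx
    · exact h1

/-- A coatom with two atoms is above at least two elements of rank two with these atoms. -/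
lemma thin_ne {y : D.Y} {p : Finset D.X} (hp : #p = 2) (hy : D.AY y = p) : 2 ≤ D.ne p := by
  have h1 := D.yc y
  rw [← card_AY, hy, hp] at h1
  have h2 := two_le_deg y
  have h3 : 2 ≤ ∑ e, (D.v e y).toNat := by omega
  rw [← card_filter_eq] at h3
  refine h3.trans (card_le_card ?_)
  intro e he
  simp only [mem_filter, mem_univ, true_and] at he ⊢
  have h4 := AE_sub_AY he
  rw [hy] at h4
  exact Finset.eq_of_subset_of_card_le h4 (by rw [hp, card_AE])

/-- In an element of rank three with three atoms each pair occurs once. -/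
lemma one_edge {h : D.H} {p : Finset D.X} (h3 : #(D.AX h) = 3) (hp : #p = 2)
    (hsub : p ⊆ D.AX h) : ∑ e with D.AE e = p, (D.r e h).toNat = 1 := by
  have hc : #(D.AX h \ p) = 1 := by rw [card_sdiff_of_subset hsub]; omega
  obtain ⟨c, hc⟩ := card_eq_one.1 hc
  have hc' : c ∈ D.AX h ∧ c ∉ p := by
    have : c ∈ D.AX h \ p := by rw [hc]; simp
    simpa using this
  have e1 : ∑ e, (D.r e h).toNat = 3 := by rw [← D.sum_u h, ← card_AX, h3]
  have e2 : ∑ e, (D.i c e && D.r e h).toNat = 2 := by
    rw [D.xh, mem_AX.1 hc'.1]; rfl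
  have e3 : ∑ e, (D.r e h).toNat = ∑ e, (D.i c e && D.r e h).toNat +
      ∑ e with D.AE e = p, (D.r e h).toNat := by
    rw [Finset.sum_filter, ← Finset.sum_add_distrib]
    refine Finset.sum_congr rfl fun e _ => ?_
    cases hr : D.r e h
    · simp
    · have h5 := AE_sub_AX hr
      by_cases h6 : c ∈ D.AE e
      · rw [if_neg (by rintro h7; rw [h7] at h6; exact hc'.2 h6), mem_AE.1 h6]; rfl
      · have h7 : D.AE e = p := by
          apply Finset.eq_of_subset_of_card_le
          · intro x hx
            by_contra hxp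
            have : x ∈ D.AX h \ p := by simp [h5 hx, hxp]
            rw [hc, mem_singleton] at this
            subst this
            exact h6 hx
          · rw [hp, card_AE]
        have h8 : D.i c e = false := by
          rw [mem_AE] at h6
          simpa using h6
        rw [if_pos h7, h8]; rfl
  omega

/-- The elements of rank three below `y` with the atoms `T` bound the number of edges. -/
lemma ne_ge {p T : Finset D.X} (hT : #T = 3) (hp : #p = 2) (hsub : p ⊆ T) (y : D.Y) :
    #{h | D.j h y = true ∧ D.AX h = T} ≤ 2 * D.ne p := by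
  have h1 : ∑ e with D.AE e = p, ∑ h, (D.r e h && D.j h y).toNat ≤ 2 * D.ne p := by
    calc ∑ e with D.AE e = p, ∑ h, (D.r e h && D.j h y).toNat ≤
        ∑ _e : D.E with D.AE _e = p, 2 := by
          refine Finset.sum_le_sum fun e _ => ?_
          rw [D.ey]
          have := le_one (D.v e y)
          omega
      _ = 2 * D.ne p := by simp [ne, mul_comm]
  refine le_trans ?_ h1
  rw [Finset.sum_comm, Finset.card_filter]
  refine Finset.sum_le_sum fun h _ => ?_
  split_ifs with h2
  · have h3 : ∑ e with D.AE e = p, (D.r e h && D.j h y).toNat =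
        ∑ e with D.AE e = p, (D.r e h).toNat := by
      refine Finset.sum_congr rfl fun e _ => ?_
      rw [h2.1, Bool.and_true]
    rw [h3, one_edge (by rw [h2.2, hT]) hp (by rw [h2.2]; exact hsub)]
  · exact Nat.zero_le _

/-- The special coatom with four atoms forces a coatom with two atoms. -/
lemma exists_thin {y0 : D.Y} {T : Finset D.X} {x : D.X} (h0 : D.AY y0 = insert x T)
    (hx : x ∉ T) (hfat : ∀ h, 3 ≤ #(D.AX h) → D.AX h = T)
    (hy : ∀ y, 3 ≤ #(D.AY y) → x ∈ D.AY y → y = y0) : ∃ l ∈ T, ∃ y, D.AY y = {x, l} := by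
  have hx0 : x ∈ D.AY y0 := by rw [h0]; simp
  obtain ⟨h, h1, h2⟩ := (D.wu x y0).1 (mem_AY.1 hx0)
  have hxh : x ∈ D.AX h := mem_AX.2 h1
  have hh2 : #(D.AX h) = 2 := by
    have := two_le_AX h
    by_contra hne
    have := hfat h (by omega)
    rw [this] at hxh
    exact hx hxh
  obtain ⟨l, hl, hlx⟩ : ∃ l ∈ D.AX h, l ≠ x := by
    apply Finset.exists_mem_ne
    omega
  have hA : D.AX h = {x, l} := by
    symm
    apply Finset.eq_of_subset_of_card_le
    · intro a ha
      simp only [mem_insert, mem_singleton] at ha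
      rcases ha with rfl | rfl <;> assumption
    · rw [hh2, card_pair hlx.symm]
  have hlT : l ∈ T := by
    have h3 := AX_sub_AY h2 hl
    rw [h0, mem_insert] at h3
    exact h3.resolve_left hlx
  have hc : #{y | D.j h y = true} = 2 := by rw [card_filter_eq, D.j2]
  obtain ⟨y', hy', hne⟩ : ∃ y' ∈ univ.filter (fun y => D.j h y = true), y' ≠ y0 := by
    apply Finset.exists_mem_ne
    omega
  simp only [mem_filter, mem_univ, true_and] at hy'
  have hsub := AX_sub_AY hy'
  have h2' : #(D.AY y') = 2 := by
    have := two_le_AY y'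
    by_contra hne'
    exact hne (hy y' (by omega) (hsub hxh))
  refine ⟨l, hlT, y', ?_⟩
  rw [← hA]
  symm
  exact Finset.eq_of_subset_of_card_le hsub (by rw [h2', hh2])

end EData

end Pool.Agent.Helper738F4
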