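import Pool.Agent.helper738_F4.NecQ

/-!
# The case of total excess four
-/

open Finset

namespace Pool.Agent.Helper738F4

namespace EData

variable {D : EData}

lemma eq_pair {y : D.Y} {a b : D.X} (hab : a ≠ b) (h2 : #(D.AY y) = 2) (ha : a ∈ D.AY y)
    (hb : b ∈ D.AY y) : D.AY y = {a, b} := by
  symm
  apply Finset.eq_of_subset_of_card_le
  · intro c hc
    simp only [mem_insert, mem_singleton] at hc
    rcases hc with rfl | rfl <;> assumption
  · rw [h2, card_pair hab]

/-- If the excess at `l` is the whole excess then all large elements of rank two contain `l`. -/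
lemma all_contain {l : D.X} (h : 2 * ((#(D.BY l) : ℤ) - 2) = D.g - 2 * Fintype.card D.X) :
    ∀ e, 3 ≤ #(D.TE e) → D.i l e = true := by
  intro e he
  by_contra hl
  have h1 := exc_x' l
  have h2 := D.sum_xe
  have h3 := Finset.sum_filter_add_sum_filter_not (univ : Finset D.E)
      (fun e => D.i l e = true) D.xe
  have h4 : D.xe e ≤ ∑ e with ¬ D.i l e = true, D.xe e :=
    Finset.single_le_sum (f := D.xe) (fun e _ => xe_nonneg e) (by simpa using hl)
  unfold xe at h4 h3 h2 h1
  omega

lemma half {T : Finset D.X} {x x' l : D.X} {y0 y1 yx : D.Y}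
    (h0 : D.AY y0 = insert x T) (h1 : D.AY y1 = insert x' T) (hx : x ∉ T) (hx' : x' ∉ T)
    (hxx : x ≠ x') (hT : #T = 3)
    (hY : ∀ y, 3 ≤ #(D.AY y) → y = y0 ∨ y = y1) (hB : ∀ z, #(D.BY z) ≤ 4)
    (hg : D.g = 2 * Fintype.card D.X + 4) (hl : l ∈ T) (hyx : D.AY yx = {x, l}) :
    ∃ m ∈ T, m ≠ l ∧ (∀ e, D.i l e = true → 3 ≤ #(D.TE e) → D.AE e = {l, m}) ∧
      4 ≤ D.ne {l, m} ∧ #(D.BY l) = 4 ∧
      (∀ y ∈ D.BY l, y = y0 ∨ y = y1 ∨ y = yx ∨ D.AY y = {l, m}) := by
  have hlx : l ≠ x := by rintro rfl; exact hx hl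
  have hlx' : l ≠ x' := by rintro rfl; exact hx' hl
  have c0 : #(D.AY y0) = 4 := by rw [h0, card_insert_of_notMem hx, hT]
  have c1 : #(D.AY y1) = 4 := by rw [h1, card_insert_of_notMem hx', hT]
  have cx : #(D.AY yx) = 2 := by rw [hyx, card_pair hlx.symm]
  have hthin : ∀ y, y ≠ y0 → y ≠ y1 → #(D.AY y) = 2 := by
    intro y a1 a2
    have := two_le_AY y
    by_contra hne
    rcases hY y (by omega) with h | h
    · exact a1 h
    · exact a2 h
  have hxy1 : x ∉ D.AY y1 := by
    rw [h1, mem_insert]; rintro (h | h)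
    · exact hxx h
    · exact hx h
  have n01 : y0 ≠ y1 := by
    rintro rfl
    apply hxy1
    rw [h0]; simp
  have nx0 : yx ≠ y0 := by rintro rfl; omega
  have nx1 : yx ≠ y1 := by rintro rfl; omega
  have m0 : y0 ∈ D.BY l := by rw [mem_BY_iff, h0]; exact mem_insert_of_mem hl
  have m1 : y1 ∈ D.BY l := by rw [mem_BY_iff, h1]; exact mem_insert_of_mem hl
  have mx : yx ∈ D.BY l := by rw [mem_BY_iff, hyx]; simp
  have h3 : 3 ≤ #(D.BY l) := by
    have : ({y0, y1, yx} : Finset D.Y) ⊆ D.BY l := by
      intro a ha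
      simp only [mem_insert, mem_singleton] at ha
      rcases ha with rfl | rfl | rfl <;> assumption
    have h4 := card_le_card this
    rwa [card_eq_three.2 ⟨y0, y1, yx, n01, nx0.symm, nx1.symm, rfl⟩] at h4
  have hBl := hB l
  have exl := exc_x' l
  have htot := D.sum_xe
  rw [hg] at htot
  push_cast at htot
  -- no large element contains `l` and `x`
  have step1 : ∀ e, D.i l e = true → 3 ≤ #(D.TE e) → ¬ D.i x e = true := by
    intro e he hf hxe
    have hAE : D.AE e = {l, x} := AE_eq hlx he hxe
    have hsub := TE_sub_BY he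
    have hy1 : y1 ∉ D.TE e := by
      intro h
      have := TE_AE h (show x ∈ D.AE e by rw [hAE]; simp)
      exact hxy1 this
    have hTe : D.TE e = (D.BY l).erase y1 := by
      apply Finset.eq_of_subset_of_card_le
      · intro a ha
        rw [mem_erase]
        exact ⟨by rintro rfl; exact hy1 ha, hsub ha⟩
      · rw [card_erase_of_mem m1]; omega
    have c4 : #(D.BY l) = 4 := by
      rw [hTe, card_erase_of_mem m1] at hf
      omega
    have hother : ∀ y ∈ D.BY l, y ≠ y0 → y ≠ y1 → D.AY y = {l, x} := by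
      intro y hy a1 a2
      have hy' : y ∈ D.TE e := by rw [hTe, mem_erase]; exact ⟨a2, hy⟩
      have h5 := TE_AE hy'
      rw [hAE] at h5
      exact eq_pair hlx (hthin y a1 a2) (h5 (by simp)) (h5 (by simp))
    have hallx : ∀ e', D.i l e' = true → 3 ≤ #(D.TE e') → D.i x e' = true := by
      intro e' he' hf'
      by_contra hne
      obtain ⟨m', hm', hme', hAE'⟩ := other' he'
      have hmx : m' ≠ x := by rintro rfl; exact hne hme'
      have : D.TE e' ⊆ {y0, y1} := by
        intro y hy
        simp only [mem_insert, mem_singleton]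
        by_contra hno
        push Not at hno
        have h5 := hother y (TE_sub_BY he' hy) hno.1 hno.2
        have h6 := TE_AE hy (show m' ∈ D.AE e' by rw [hAE']; simp)
        rw [h5] at h6
        simp only [mem_insert, mem_singleton] at h6
        tauto
      have := card_le_card this
      rw [card_pair n01] at this
      omega
    have hcont := all_contain (l := l) (by rw [hg, c4]; push_cast; ring)
    have hallAE : ∀ e', 3 ≤ #(D.TE e') → D.AE e' = {l, x} := fun e' hf' =>
      AE_eq hlx (hcont e' hf') (hallx e' (hcont e' hf') hf')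
    -- the atom `x`
    have exx := exc_x' x
    have hge : ∑ e with D.i l e = true, D.xe e ≤ ∑ e with D.i x e = true, D.xe e := by
      rw [Finset.sum_filter, Finset.sum_filter]
      refine Finset.sum_le_sum fun e _ => ?_
      have h4 := xe_nonneg e
      by_cases a1 : D.i l e = true
      · rw [if_pos a1]
        by_cases a2 : D.i x e = true
        · rw [if_pos a2]
        · rw [if_neg a2]
          by_contra hlt
          exact a2 (hallx e a1 (by unfold xe at hlt; omega))
      · rw [if_neg a1]
        split_ifs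
        · exact h4
        · exact le_refl _
    have cx4 : #(D.BY x) = 4 := by
      have := hB x
      omega
    have hinter : D.BY x ∩ D.BY l = (D.BY l).erase y1 := by
      ext y
      rw [mem_inter, mem_erase]
      constructor
      · rintro ⟨a1, a2⟩
        refine ⟨?_, a2⟩
        rintro rfl
        exact hxy1 (mem_BY_iff.1 a1)
      · rintro ⟨a1, a2⟩
        refine ⟨?_, a2⟩
        rw [mem_BY_iff]
        by_cases a3 : y = y0
        · rw [a3, h0]; simp
        · rw [hother y a2 a3 a1]; simp
    have hsd : #(D.BY x \ D.BY l) = 1 := by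
      have := card_sdiff_add_card_inter (D.BY x) (D.BY l)
      rw [hinter, card_erase_of_mem m1] at this
      omega
    obtain ⟨s', hs'⟩ := card_eq_one.1 hsd
    have hs'm : s' ∈ D.BY x \ D.BY l := by rw [hs']; simp
    rw [mem_sdiff] at hs'm
    have a0 : s' ≠ y0 := by rintro rfl; exact hs'm.2 m0
    have a1 : s' ≠ y1 := by rintro rfl; exact hs'm.2 m1
    have hs2 := hthin s' a0 a1
    have hxs : x ∈ D.AY s' := mem_BY_iff.1 hs'm.1
    obtain ⟨m2, hm2, hne2⟩ : ∃ m2 ∈ D.AY s', m2 ≠ x := by
      apply Finset.exists_mem_ne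
      omega
    have hm2l : m2 ≠ l := by
      rintro rfl
      exact hs'm.2 (mem_BY_iff.2 hm2)
    obtain ⟨s'', hs'', hsub''⟩ := thin_pair hs2
    have hxs'' : s'' ∈ D.BY x := mem_BY_iff.2 (hsub'' hxs)
    by_cases hs''l : s'' ∈ D.BY l
    · have b1 : s'' ≠ y1 := by
        rintro rfl
        exact hxy1 (hsub'' hxs)
      by_cases b0 : s'' = y0
      · have hm2T : m2 ∈ T := by
          have := hsub'' hm2
          rw [b0, h0, mem_insert] at this
          exact this.resolve_left hne2
        have hcm : 3 ≤ #(D.BY m2) := by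
          have : ({y0, y1, s'} : Finset D.Y) ⊆ D.BY m2 := by
            intro a ha
            simp only [mem_insert, mem_singleton] at ha
            rcases ha with rfl | rfl | rfl
            · rw [mem_BY_iff, h0]; exact mem_insert_of_mem hm2T
            · rw [mem_BY_iff, h1]; exact mem_insert_of_mem hm2T
            · rw [mem_BY_iff]; exact hm2
          have h4 := card_le_card this
          rwa [card_eq_three.2 ⟨y0, y1, s', n01, a0.symm, a1.symm, rfl⟩] at h4
        obtain ⟨e2, he2, hf2⟩ := exists_fat hcm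
        have := hallAE e2 hf2
        have h5 : m2 ∈ D.AE e2 := mem_AE.2 he2
        rw [this] at h5
        simp only [mem_insert, mem_singleton] at h5
        tauto
      · have h5 := hsub'' hm2
        rw [hother s'' hs''l b0 b1] at h5
        simp only [mem_insert, mem_singleton] at h5
        tauto
    · have : s'' ∈ D.BY x \ D.BY l := by rw [mem_sdiff]; exact ⟨hxs'', hs''l⟩
      rw [hs', mem_singleton] at this
      exact hs'' this
  -- the shape of the large elements at `l`
  have step2 : ∀ e, D.i l e = true → 3 ≤ #(D.TE e) →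
      #(D.BY l) = 4 ∧ D.TE e = (D.BY l).erase yx := by
    intro e he hf
    have hnx := step1 e he hf
    have hyxT : yx ∉ D.TE e := by
      intro h
      obtain ⟨m', hm', hme', hAE'⟩ := other' he
      have h5 := TE_AE h (show m' ∈ D.AE e by rw [hAE']; simp)
      rw [hyx] at h5
      simp only [mem_insert, mem_singleton] at h5
      rcases h5 with h5 | h5
      · rw [h5] at hme'; exact hnx hme'
      · exact hm' h5
    have hsub := TE_sub_BY he
    have hTe : D.TE e = (D.BY l).erase yx := by
      apply Finset.eq_of_subset_of_card_le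
      · intro a ha
        rw [mem_erase]
        exact ⟨by rintro rfl; exact hyxT ha, hsub ha⟩
      · rw [card_erase_of_mem mx]; omega
    refine ⟨?_, hTe⟩
    rw [hTe, card_erase_of_mem mx] at hf
    omega
  obtain ⟨e, he, hf⟩ := exists_fat h3
  obtain ⟨c4, hTe⟩ := step2 e he hf
  obtain ⟨m, hm, hme, hAE⟩ := other' he
  have hmx : m ≠ x := by rintro rfl; exact step1 e he hf hme
  have hmT : m ∈ T := by
    have h5 : y0 ∈ D.TE e := by rw [hTe, mem_erase]; exact ⟨nx0.symm, m0⟩
    have h6 := TE_AE h5 (show m ∈ D.AE e by rw [hAE]; simp)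
    rw [h0, mem_insert] at h6
    exact h6.resolve_left hmx
  -- the fourth coatom
  have hcs : 0 < #(((D.BY l).erase yx).erase y0 |>.erase y1) := by
    rw [card_erase_of_mem (by simp [m1, n01.symm, nx1.symm]),
      card_erase_of_mem (by simp [m0, nx0.symm]), card_erase_of_mem mx]
    omega
  obtain ⟨s, hs⟩ := card_pos.1 hcs
  simp only [mem_erase] at hs
  have hs2 := hthin s hs.2.1 hs.1
  have hsA : ∀ e', D.i l e' = true → 3 ≤ #(D.TE e') → D.AE e' = D.AY s := by
    intro e' he' hf'
    have h5 : s ∈ D.TE e' := by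
      rw [(step2 e' he' hf').2, mem_erase]
      exact ⟨hs.2.2.1, hs.2.2.2⟩
    exact Finset.eq_of_subset_of_card_le (TE_AE h5) (by rw [hs2, card_AE])
  have hsm : D.AY s = {l, m} := by rw [← hsA e he hf, hAE]
  refine ⟨m, hmT, hm, fun e' he' hf' => by rw [hsA e' he' hf', hsm], ?_, c4, ?_⟩
  · -- four edges
    rw [c4] at exl
    have h5 : ∀ e' ∈ univ.filter (fun e => D.i l e = true),
        D.xe e' ≤ if D.AE e' = {l, m} then 1 else 0 := by
      intro e' he'
      simp only [mem_filter, mem_univ, true_and] at he'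
      have h6 := two_le_TE e'
      by_cases hf' : 3 ≤ #(D.TE e')
      · rw [if_pos (by rw [hsA e' he' hf', hsm])]
        unfold xe
        rw [(step2 e' he' hf').2, card_erase_of_mem mx, c4]
        norm_num
      · unfold xe
        have : #(D.TE e') = 2 := by omega
        rw [this]
        split_ifs <;> norm_num
    have h6 := Finset.sum_le_sum h5
    rw [exl, ← Finset.sum_filter, Finset.filter_filter] at h6
    simp only [Finset.sum_const, nsmul_eq_mul, mul_one] at h6
    have h7 : #{e | D.i l e = true ∧ D.AE e = {l, m}} ≤ D.ne {l, m} := by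
      unfold ne
      apply card_le_card
      intro e' he'
      simp only [mem_filter, mem_univ, true_and] at he' ⊢
      exact he'.2
    have h8 : (4 : ℤ) ≤ D.ne {l, m} := by
      have : ((#{e | D.i l e = true ∧ D.AE e = {l, m}} : ℕ) : ℤ) ≤ D.ne {l, m} := by
        exact_mod_cast h7
      push_cast at h6
      linarith
    exact_mod_cast h8
  · intro y hy
    by_cases b0 : y = y0
    · exact Or.inl b0
    · by_cases b1 : y = y1
      · exact Or.inr (Or.inl b1)
      · by_cases b2 : y = yx
        · exact Or.inr (Or.inr (Or.inl b2))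
        · right; right; right
          have h5 : y ∈ D.TE e := by rw [hTe, mem_erase]; exact ⟨b2, hy⟩
          have h6 := TE_AE h5
          rw [hAE] at h6
          exact eq_pair hm.symm (hthin y b0 b1) (h6 (by simp)) (h6 (by simp))

lemma lemR4 {T : Finset D.X} {x x' : D.X} {y0 y1 : D.Y}
    (h0 : D.AY y0 = insert x T) (h1 : D.AY y1 = insert x' T) (hx : x ∉ T) (hx' : x' ∉ T)
    (hxx : x ≠ x') (hT : #T = 3) (hH : ∀ h, 3 ≤ #(D.AX h) → D.AX h = T)
    (hY : ∀ y, 3 ≤ #(D.AY y) → y = y0 ∨ y = y1) (hB : ∀ z, #(D.BY z) ≤ 4)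
    (hg : D.g = 2 * Fintype.card D.X + 4)
    (hc : 4 ≤ #{h | D.j h y0 = true ∧ D.AX h = T}) :
    Fintype.card D.X + 7 ≤ Fintype.card D.E := by
  have hxy1 : x ∉ D.AY y1 := by
    rw [h1, mem_insert]; rintro (h | h)
    · exact hxx h
    · exact hx h
  have hxy0 : x' ∉ D.AY y0 := by
    rw [h0, mem_insert]; rintro (h | h)
    · exact hxx h.symm
    · exact hx' h
  obtain ⟨l, hl, yx, hyx⟩ := exists_thin h0 hx hH (fun y h3 hxy => by
    rcases hY y h3 with h | h
    · exact h
    · rw [h] at hxy; exact absurd hxy hxy1)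
  obtain ⟨l', hl', yx', hyx'⟩ := exists_thin h1 hx' hH (fun y h3 hxy => by
    rcases hY y h3 with h | h
    · rw [h] at hxy; exact absurd hxy hxy0
    · exact h)
  obtain ⟨m, hm, hml, hA, h4, c4, hBl⟩ :=
    half h0 h1 hx hx' hxx hT hY hB hg hl hyx
  obtain ⟨m', hm', hml', hA', h4', c4', hBl'⟩ :=
    half h1 h0 hx' hx hxx.symm hT (fun y h3 => (hY y h3).symm) hB hg hl' hyx'
  have hlx : l ≠ x := by rintro rfl; exact hx hl
  have hlx' : l ≠ x' := by rintro rfl; exact hx' hl
  have hl'x' : l' ≠ x' := by rintro rfl; exact hx' hl'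
  have hcx' : #(D.AY yx') = 2 := by rw [hyx', card_pair hl'x'.symm]
  have hcont := all_contain (l := l) (by rw [hg, c4]; push_cast; ring)
  -- `l' ≠ l`
  have hll : l' ≠ l := by
    rintro rfl
    have h5 : yx' ∈ D.BY l' := by rw [mem_BY_iff, hyx']; simp
    rcases hBl yx' h5 with h | h | h | h
    · rw [h, h0, card_insert_of_notMem hx, hT] at hcx'
      omega
    · rw [h, h1, card_insert_of_notMem hx', hT] at hcx'
      omega
    · rw [h, hyx] at hyx'
      have h6 : x ∈ ({x', l'} : Finset D.X) := by rw [← hyx']; simp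
      simp only [mem_insert, mem_singleton] at h6
      rcases h6 with h6 | h6
      · exact hxx h6
      · exact hlx h6.symm
    · rw [hyx'] at h
      have h6 : x' ∈ ({l', m} : Finset D.X) := by rw [← h]; simp
      simp only [mem_insert, mem_singleton] at h6
      rcases h6 with h6 | h6
      · exact hlx' h6.symm
      · rw [← h6] at hm; exact hx' hm
  -- a large element at `l'`
  obtain ⟨e, he, hf⟩ := exists_fat (show 3 ≤ #(D.BY l') by omega)
  have hAe := hA' e he hf
  have hle := hcont e hf
  have hAe2 := hA e hle hf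
  have h5 : l' ∈ ({l, m} : Finset D.X) := by rw [← hAe2, hAe]; simp
  simp only [mem_insert, mem_singleton] at h5
  have hml2 : m = l' := (h5.resolve_left hll).symm
  subst hml2
  -- the third element
  have hc2 : #((T.erase l).erase m) = 1 := by
    rw [card_erase_of_mem (by simp [hl', hll]), card_erase_of_mem hl, hT]
  obtain ⟨t, ht⟩ := card_eq_one.1 hc2
  have htm : t ∈ (T.erase l).erase m := by rw [ht]; simp
  simp only [mem_erase] at htm
  have hxm : x ≠ m := by rintro rfl; exact hx hl'
  have hxt : x ≠ t := by rintro rfl; exact hx htm.2.2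
  have hx't : x' ≠ t := by rintro rfl; exact hx' htm.2.2
  have ge2 : ∀ a b : D.X, a ≠ b → a ∈ T → b ∈ T → 2 ≤ D.ne {a, b} := by
    intro a b hab ha hb
    have := ne_ge (p := {a, b}) hT (card_pair hab) (by
      intro c hc
      simp only [mem_insert, mem_singleton] at hc
      rcases hc with rfl | rfl <;> assumption) y0
    omega
  have d1 := sum_ne_le l {m, t, x} (by simp [hll.symm, htm.2.1.symm, hlx])
  rw [Finset.sum_insert (by simp [htm.1.symm, hxm.symm]), Finset.sum_pair hxt.symm] at d1
  have d2 := sum_ne_le m {l, t, x'} (by simp [hll, htm.1.symm, hl'x'])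
  rw [Finset.sum_insert (by simp [htm.2.1.symm, hlx']), Finset.sum_pair hx't.symm] at d2
  have d3 := sum_ne_le t {l, m} (by simp [htm.1, htm.2.1])
  rw [Finset.sum_pair hll.symm] at d3
  have g1 := ge2 l t htm.2.1.symm hl htm.2.2
  have g2 := ge2 m t htm.1.symm hl' htm.2.2
  have g3 := thin_ne (p := {l, x}) (card_pair hlx) (by rw [hyx, pair_comm])
  have g4 := thin_ne (p := {m, x'}) (card_pair hl'x') (by rw [hyx', pair_comm])
  have p1 : D.ne {m, l} = D.ne {l, m} := by rw [pair_comm]
  have p2 : D.ne {t, l} = D.ne {l, t} := by rw [pair_comm]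
  have p3 : D.ne {t, m} = D.ne {m, t} := by rw [pair_comm]
  have := D.deg_bound {l, m, t} (c := 14) (by
    rw [Finset.sum_insert (by simp [hll.symm, htm.2.1.symm]), Finset.sum_pair htm.1.symm]
    omega)
  omega

end EData

end Pool.Agent.Helper738F4
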