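import Pool.Agent.helper738_F4.Nec

/-!
# Data with one kind of large coatoms
-/

open Finset

namespace Pool.Agent.Helper738F4

namespace EData

noncomputable instance instDX (D : EData) : DecidableEq D.X := Classical.decEq _
noncomputable instance instDE (D : EData) : DecidableEq D.E := Classical.decEq _
noncomputable instance instDH (D : EData) : DecidableEq D.H := Classical.decEq _
noncomputable instance instDY (D : EData) : DecidableEq D.Y := Classical.decEq _

/-- All coatoms (elements of rank three) have two atoms or the set `T` of atoms; there are `k`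
of the latter kind. -/
structure St (D : EData) (T : Finset D.X) (k : ℕ) : Prop where
  tk : (T = ∅ ∧ k = 0) ∨ #T = 3
  hY : ∀ y, #(D.AY y) = 2 ∨ D.AY y = T
  hH : ∀ h, #(D.AX h) = 2 ∨ D.AX h = T
  cY : #{y | D.AY y = T} = k
  cH : #{h | D.AX h = T} = k

lemma fibsum {X α : Type} [Fintype α] [DecidableEq X] (A : α → Finset X)
    (S : Finset (Finset X)) : ∑ p ∈ S, #{a | A a = p} = #{a | A a ∈ S} := by
  rw [Finset.card_eq_sum_card_fiberwise (f := A) (s := univ.filter fun a => A a ∈ S) (t := S)]
  · refine Finset.sum_congr rfl fun p hp => ?_
    congr 1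
    ext a
    simp only [mem_filter, mem_univ, true_and]
    constructor
    · rintro rfl; exact ⟨hp, rfl⟩
    · exact fun h => h.2
  · intro a ha
    simpa using ha

variable {D : EData}

/-- The number of elements of rank two with the pair `p` of atoms. -/
noncomputable def ne (D : EData) (p : Finset D.X) : ℕ := #{e | D.AE e = p}
/-- The number of elements of rank three with the set `p` of atoms. -/
noncomputable def nh (D : EData) (p : Finset D.X) : ℕ := #{h | D.AX h = p}
/-- The number of coatoms with the set `p` of atoms. -/
noncomputable def nv (D : EData) (p : Finset D.X) : ℕ := #{y | D.AY y = p}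

/-- The local Euler characteristic. -/
noncomputable def chi (D : EData) (p : Finset D.X) : ℤ := D.ne p - D.nh p + D.nv p

lemma sum_ne : ∑ p ∈ prs D.X, D.ne p = Fintype.card D.E := by
  unfold ne
  rw [fibsum, ← Finset.card_univ]
  congr 1
  ext e
  simp [mem_prs, card_AE]

lemma sum_ne_x (x : D.X) : ∑ p ∈ prs D.X with x ∈ p, D.ne p = ∑ e, (D.i x e).toNat := by
  unfold ne
  rw [fibsum, ← card_filter_eq]
  congr 1
  ext e
  simp [mem_prs, card_AE, mem_AE]

namespace St

variable {T : Finset D.X} {k : ℕ} (hs : D.St T k)

include hs

lemma not_two {p : Finset D.X} (h2 : #p = 2) : p ≠ T := by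
  rintro rfl
  rcases hs.tk with h | h
  · rw [h.1] at h2; simp at h2
  · omega

lemma sum_nh : ∑ p ∈ prs D.X, D.nh p + k = Fintype.card D.H := by
  unfold nh
  rw [fibsum, ← Finset.card_univ, ← hs.cH, ← Finset.card_filter_add_card_filter_not
    (s := (univ : Finset D.H)) (fun h => D.AX h ∈ prs D.X)]
  congr 2
  ext h
  simp only [mem_filter, mem_univ, true_and, mem_prs]
  constructor
  · rintro h1 h2
    exact hs.not_two h2 h1
  · intro h1
    exact (hs.hH h).resolve_left h1

lemma sum_nv : ∑ p ∈ prs D.X, D.nv p + k = Fintype.card D.Y := by
  unfold nv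
  rw [fibsum, ← Finset.card_univ, ← hs.cY, ← Finset.card_filter_add_card_filter_not
    (s := (univ : Finset D.Y)) (fun h => D.AY h ∈ prs D.X)]
  congr 2
  ext h
  simp only [mem_filter, mem_univ, true_and, mem_prs]
  constructor
  · rintro h1 h2
    exact hs.not_two h2 h1
  · intro h1
    exact (hs.hY h).resolve_left h1

lemma sum_nh_x (x : D.X) : ∑ p ∈ prs D.X with x ∈ p, D.nh p + (if x ∈ T then k else 0) =
    ∑ h, (D.u x h).toNat := by
  unfold nh
  rw [fibsum, ← card_filter_eq, ← Finset.card_filter_add_card_filter_not
    (s := univ.filter fun h : D.H => D.u x h = true) (fun h => D.AX h ∈ prs D.X)]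
  congr 1
  · congr 1
    ext h
    simp only [mem_filter, mem_univ, true_and, mem_prs, mem_AX]
    tauto
  · split_ifs with hx
    · rw [← hs.cH]
      congr 1
      ext h
      simp only [mem_filter, mem_univ, true_and, mem_prs]
      constructor
      · rintro h1
        refine ⟨?_, fun h2 => hs.not_two h2 h1⟩
        rw [← mem_AX, h1]; exact hx
      · intro h1
        exact (hs.hH h).resolve_left h1.2
    · symm
      rw [Finset.card_eq_zero]
      ext h
      simp only [mem_filter, mem_univ, true_and, mem_prs, notMem_empty, iff_false]
      rintro ⟨h1, h2⟩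
      apply hx
      rw [← (hs.hH h).resolve_left h2, mem_AX]
      exact h1

lemma sum_nv_x (x : D.X) : ∑ p ∈ prs D.X with x ∈ p, D.nv p + (if x ∈ T then k else 0) =
    ∑ h, (D.w x h).toNat := by
  unfold nv
  rw [fibsum, ← card_filter_eq, ← Finset.card_filter_add_card_filter_not
    (s := univ.filter fun h : D.Y => D.w x h = true) (fun h => D.AY h ∈ prs D.X)]
  congr 1
  · congr 1
    ext h
    simp only [mem_filter, mem_univ, true_and, mem_prs, mem_AY]
    tauto
  · split_ifs with hx
    · rw [← hs.cY]
      congr 1
      ext h
      simp only [mem_filter, mem_univ, true_and, mem_prs]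
      constructor
      · rintro h1
        refine ⟨?_, fun h2 => hs.not_two h2 h1⟩
        rw [← mem_AY, h1]; exact hx
      · intro h1
        exact (hs.hY h).resolve_left h1.2
    · symm
      rw [Finset.card_eq_zero]
      ext h
      simp only [mem_filter, mem_univ, true_and, mem_prs, notMem_empty, iff_false]
      rintro ⟨h1, h2⟩
      apply hx
      rw [← (hs.hY h).resolve_left h2, mem_AY]
      exact h1

lemma sum_chi_x (x : D.X) : ∑ p ∈ prs D.X with x ∈ p, D.chi p = 2 := by
  unfold chi
  rw [Finset.sum_add_distrib, Finset.sum_sub_distrib]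
  have h1 := D.xc x
  have h2 := D.sum_ne_x x
  have h3 := hs.sum_nh_x x
  have h4 := hs.sum_nv_x x
  rw [← h2, ← h3, ← h4] at h1
  have h5 : ((∑ p ∈ prs D.X with x ∈ p, D.ne p : ℕ) : ℤ) +
      (∑ p ∈ prs D.X with x ∈ p, D.nv p : ℕ) = (∑ p ∈ prs D.X with x ∈ p, D.nh p : ℕ) + 2 := by
    omega
  push_cast at h5
  linarith

/-- For `p` a pair, the number of flags `e < h` with `AE e = p`. -/
lemma inc (p : Finset D.X) (hp : #p = 2) :
    ∑ e with D.AE e = p, ∑ h, (D.r e h).toNat =
      2 * D.nh p + (if p ⊆ T then k else 0) := by
  rw [Finset.sum_comm]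
  have key : ∀ h : D.H, ∑ e with D.AE e = p, (D.r e h).toNat =
      (if D.AX h = p then 2 else 0) + (if D.AX h = T then (if p ⊆ T then 1 else 0) else 0) := by
    intro h
    rcases hs.hH h with h2 | h2
    · rw [if_neg (hs.not_two h2), add_zero]
      have h3 : ∀ e, D.r e h = true → D.AE e = D.AX h := fun e he =>
        Finset.eq_of_subset_of_card_le (AE_sub_AX he) (by rw [h2, card_AE])
      split_ifs with h4
      · rw [Finset.sum_filter]
        have : ∑ e, (D.r e h).toNat = 2 := by rw [← D.sum_u h, ← card_AX, h2]
        rw [← this]
        refine Finset.sum_congr rfl fun e _ => ?_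
        cases hr : D.r e h
        · simp
        · rw [if_pos ((h3 e hr).trans h4)]
      · apply Finset.sum_eq_zero
        intro e he
        simp only [mem_filter, mem_univ, true_and] at he
        cases hr : D.r e h
        · rfl
        · exact absurd ((h3 e hr).symm.trans he) h4
    · have hT2 : D.AX h ≠ p := by
        rw [h2]; exact (hs.not_two hp).symm
      rw [if_neg hT2, zero_add, if_pos h2]
      split_ifs with h4
      · have hT3 : #T = 3 := by
          rcases hs.tk with h5 | h5
          · rw [h5.1, Finset.subset_empty] at h4
            rw [h4] at hp; simp at hp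
          · exact h5
        have hc : #(T \ p) = 1 := by rw [card_sdiff_of_subset h4]; omega
        obtain ⟨c, hc⟩ := card_eq_one.1 hc
        have hc' : c ∈ T ∧ c ∉ p := by
          have : c ∈ T \ p := by rw [hc]; simp
          simpa using this
        have e1 : ∑ e, (D.r e h).toNat = 3 := by rw [← D.sum_u h, ← card_AX, h2, hT3]
        have e2 : ∑ e, (D.i c e && D.r e h).toNat = 2 := by
          rw [D.xh, mem_AX.1 (by rw [h2]; exact hc'.1)]; rfl
        have e3 : ∑ e, (D.r e h).toNat = ∑ e, (D.i c e && D.r e h).toNat +
            ∑ e with D.AE e = p, (D.r e h).toNat := by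
          rw [Finset.sum_filter, ← Finset.sum_add_distrib]
          refine Finset.sum_congr rfl fun e _ => ?_
          cases hr : D.r e h
          · simp
          · have h5 := AE_sub_AX hr
            rw [h2] at h5
            by_cases h6 : c ∈ D.AE e
            · rw [if_neg (by rintro h7; rw [h7] at h6; exact hc'.2 h6), mem_AE.1 h6]; rfl
            · have h7 : D.AE e = p := by
                apply Finset.eq_of_subset_of_card_le
                · intro x hx
                  by_contra hxp
                  have : x ∈ T \ p := by simp [h5 hx, hxp]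
                  rw [hc, mem_singleton] at this
                  subst this
                  exact h6 hx
                · rw [hp, card_AE]
              have h8 : D.i c e = false := by
                rw [mem_AE] at h6
                simpa using h6
              rw [if_pos h7, h8]; rfl
        omega
      · apply Finset.sum_eq_zero
        intro e he
        simp only [mem_filter, mem_univ, true_and] at he
        cases hr : D.r e h
        · rfl
        · have h5 := AE_sub_AX hr
          rw [h2, he] at h5
          exact absurd h5 h4
  rw [Finset.sum_congr rfl fun h _ => key h, Finset.sum_add_distrib, ← Finset.sum_filter,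
    ← Finset.sum_filter]
  congr 1
  · simp [nh, mul_comm]
  · simp only [Finset.sum_const, smul_eq_mul, hs.cH]
    split_ifs <;> simp

lemma two_ne_le (p : Finset D.X) (hp : #p = 2) :
    2 * D.ne p ≤ 2 * D.nh p + (if p ⊆ T then k else 0) := by
  rw [← hs.inc p hp]
  calc 2 * D.ne p = ∑ _e : D.E with D.AE _e = p, 2 := by simp [ne, mul_comm]
    _ ≤ _ := Finset.sum_le_sum fun e _ => two_le_deg_e e

lemma inc_le (p : Finset D.X) (hp : #p = 2) :
    2 * D.nh p + (if p ⊆ T then k else 0) ≤ D.ne p * (D.nv p + (if p ⊆ T then k else 0)) := by
  rw [← hs.inc p hp]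
  calc ∑ e with D.AE e = p, ∑ h, (D.r e h).toNat
      ≤ ∑ e with D.AE e = p, (D.nv p + (if p ⊆ T then k else 0)) := by
        refine Finset.sum_le_sum fun e he => ?_
        simp only [mem_filter, mem_univ, true_and] at he
        rw [← D.sum_v, ← card_filter_eq]
        have h1 : univ.filter (fun y => D.v e y = true) ⊆
            (univ.filter fun y => D.AY y = p) ∪
              (if p ⊆ T then (univ.filter fun y => D.AY y = T) else ∅) := by
          intro y hy
          simp only [mem_filter, mem_univ, true_and] at hy
          have h2 := AE_sub_AY hy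
          rw [he] at h2
          rw [mem_union]
          rcases hs.hY y with h3 | h3
          · left
            simp only [mem_filter, mem_univ, true_and]
            exact (Finset.eq_of_subset_of_card_le h2 (by rw [hp, h3])).symm
          · right
            rw [h3] at h2
            rw [if_pos h2]
            simp [h3]
        refine (card_le_card h1).trans ((card_union_le _ _).trans ?_)
        apply Nat.add_le_add
        · exact le_refl _
        · split_ifs
          · rw [hs.cY]
          · simp
    _ = _ := by simp [ne]

omit hs in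
lemma nv_le (p : Finset D.X) (hp : #p = 2) : D.nv p ≤ D.nh p := by
  have h1 : 2 * D.nv p ≤ ∑ y with D.AY y = p, ∑ h, (D.j h y).toNat :=
    calc 2 * D.nv p = ∑ _y : D.Y with D.AY _y = p, 2 := by simp [nv, mul_comm]
      _ ≤ _ := Finset.sum_le_sum fun y _ => two_le_deg y
  have h2 : ∑ y with D.AY y = p, ∑ h, (D.j h y).toNat ≤
      ∑ h, ∑ y, (if D.AX h = p then (D.j h y).toNat else 0) := by
    rw [Finset.sum_comm]
    refine Finset.sum_le_sum fun h _ => ?_
    rw [Finset.sum_filter]
    refine Finset.sum_le_sum fun y _ => ?_
    split_ifs with h3 h4 h4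
    · exact le_refl _
    · cases hj : D.j h y
      · simp
      · exfalso
        apply h4
        have h5 := AX_sub_AY hj
        rw [h3] at h5
        exact Finset.eq_of_subset_of_card_le h5 (by rw [hp]; exact two_le_AX h)
    · exact Nat.zero_le _
    · exact le_refl _
  have h3 : ∑ h, ∑ y, (if D.AX h = p then (D.j h y).toNat else 0) = 2 * D.nh p := by
    have : ∀ h, ∑ y, (if D.AX h = p then (D.j h y).toNat else 0) =
        if D.AX h = p then 2 else 0 := by
      intro h
      split_ifs with h4
      · exact D.j2 h
      · simp
    rw [Finset.sum_congr rfl fun h _ => this h, ← Finset.sum_filter]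
    simp [nh, mul_comm]
  omega

omit hs in
lemma nh_ge (p : Finset D.X) (hp : #p = 2) (hv : 1 ≤ D.nv p) : 2 ≤ D.nh p := by
  obtain ⟨y, hy⟩ := card_pos.1 (show 0 < #{y | D.AY y = p} from hv)
  simp only [mem_filter, mem_univ, true_and] at hy
  refine (two_le_deg y).trans ?_
  rw [← card_filter_eq]
  apply card_le_card
  intro h hh
  simp only [mem_filter, mem_univ, true_and] at hh ⊢
  have h5 := AX_sub_AY hh
  rw [hy] at h5
  exact Finset.eq_of_subset_of_card_le h5 (by rw [hp]; exact two_le_AX h)

end St

end EData

end Pool.Agent.Helper738F4
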