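import Pool.Agent.helper738_F4.NecE

/-!
# Structure of the data with few large elements
-/

open Finset

namespace Pool.Agent.Helper738F4

namespace EData

variable {D : EData}

/-- The coatoms above an atom. -/
def BY (D : EData) (x : D.X) : Finset D.Y := {y | D.w x y = true}

/-- The coatoms above an element of rank two. -/
def TE (D : EData) (e : D.E) : Finset D.Y := {y | D.v e y = true}

lemma mem_BY {x : D.X} {y : D.Y} : y ∈ D.BY x ↔ D.w x y = true := by simp [BY]
lemma mem_TE {e : D.E} {y : D.Y} : y ∈ D.TE e ↔ D.v e y = true := by simp [TE]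

lemma mem_BY_iff {x : D.X} {y : D.Y} : y ∈ D.BY x ↔ x ∈ D.AY y := by rw [mem_BY, mem_AY]

lemma card_TE (e : D.E) : #(D.TE e) = ∑ h, (D.r e h).toNat := by
  rw [TE, card_filter_eq, D.sum_v]

lemma two_le_TE (e : D.E) : 2 ≤ #(D.TE e) := D.dual.two_le_AX e

lemma two_le_BY (x : D.X) : 2 ≤ #(D.BY x) := D.dual.two_le_AY x

lemma TE_sub_BY {e : D.E} {x : D.X} (h : D.i x e = true) : D.TE e ⊆ D.BY x := fun y hy =>
  mem_BY.2 ((D.wv x y).2 ⟨e, mem_TE.1 hy, h⟩)

lemma TE_AE {e : D.E} {y : D.Y} (h : y ∈ D.TE e) : D.AE e ⊆ D.AY y := AE_sub_AY (mem_TE.1 h)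

lemma exc_x (x : D.X) : ∑ e, ((D.i x e).toNat : ℤ) * ((#(D.TE e) : ℤ) - 2) =
    2 * ((#(D.BY x) : ℤ) - 2) := D.dual.exc x

lemma sum_exc_x : ∑ x, ((#(D.BY x) : ℤ) - 2) = D.g - 2 * Fintype.card D.X := by
  have := D.dual.sum_exc_y
  rw [D.dual_g] at this
  exact this

lemma sum_exc_e : ∑ e, ((#(D.TE e) : ℤ) - 2) = D.g - 2 * Fintype.card D.X := by
  have := D.dual.sum_exc_h
  rw [D.dual_g] at this
  exact this

lemma BY_le (x : D.X) : 2 * ((#(D.BY x) : ℤ) - 2) ≤ D.g - 2 * Fintype.card D.X := by
  have := D.dual.exc_le x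
  rw [D.dual_g] at this
  exact this

/-- The excess of an element of rank two. -/
def xe (D : EData) (e : D.E) : ℤ := (#(D.TE e) : ℤ) - 2

lemma xe_nonneg (e : D.E) : 0 ≤ D.xe e := by
  have := D.two_le_TE e
  unfold xe; omega

lemma exc_x' (x : D.X) : ∑ e with D.i x e = true, D.xe e = 2 * ((#(D.BY x) : ℤ) - 2) := by
  rw [← exc_x, Finset.sum_filter]
  refine Finset.sum_congr rfl fun e _ => ?_
  cases D.i x e <;> simp [xe]

lemma sum_xe : ∑ e, D.xe e = D.g - 2 * Fintype.card D.X := sum_exc_e

/-- A coatom with two atoms has a neighbour containing these atoms. -/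
lemma thin_pair {y : D.Y} (h2 : #(D.AY y) = 2) : ∃ y', y' ≠ y ∧ D.AY y ⊆ D.AY y' := by
  obtain ⟨h, hh⟩ := D.exists_h y
  have h1 : D.AX h = D.AY y :=
    Finset.eq_of_subset_of_card_le (AX_sub_AY hh) (by rw [h2]; exact two_le_AX h)
  have hc : #{y | D.j h y = true} = 2 := by rw [card_filter_eq, D.j2]
  obtain ⟨y', hy', hne⟩ : ∃ y' ∈ univ.filter (fun y => D.j h y = true), y' ≠ y := by
    apply Finset.exists_mem_ne
    omega
  simp only [mem_filter, mem_univ, true_and] at hy'
  exact ⟨y', hne, by rw [← h1]; exact AX_sub_AY hy'⟩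

/-- The degrees of the coatoms. -/
lemma sum_deg_y : ∑ y, ((∑ h, (D.j h y).toNat : ℕ) : ℤ) =
    2 * (Fintype.card D.Y + ((Fintype.card D.E : ℤ) - Fintype.card D.X)) := by
  have h1 := D.f34
  have h2 := D.gc
  have h3 : ∑ y, ((∑ h, (D.j h y).toNat : ℕ) : ℤ) = ((∑ y, ∑ h, (D.j h y).toNat : ℕ) : ℤ) := by
    push_cast; rfl
  rw [h3, h1]
  push_cast
  omega

lemma sum_deg_x : ∑ x, ((∑ e, (D.i x e).toNat : ℕ) : ℤ) = 2 * Fintype.card D.E := by
  have h1 := D.f12
  have h3 : ∑ y, ((∑ h, (D.i y h).toNat : ℕ) : ℤ) = ((∑ y, ∑ h, (D.i y h).toNat : ℕ) : ℤ) := by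
    push_cast; rfl
  rw [h3, h1]
  push_cast
  ring

lemma deg_x_ge2 (D : EData) (x : D.X) : 2 ≤ ∑ e, (D.i x e).toNat := D.dual.two_le_deg x

/-- Lower bound for the number of elements of rank two from some atoms. -/
lemma deg_bound (S : Finset D.X) {c : ℤ}
    (h : c ≤ ∑ x ∈ S, (((∑ e, (D.i x e).toNat : ℕ) : ℤ) - 2)) :
    c ≤ 2 * ((Fintype.card D.E : ℤ) - Fintype.card D.X) := by
  have h1 := D.sum_deg_x
  have h2 : ∑ x ∈ S, (((∑ e, (D.i x e).toNat : ℕ) : ℤ) - 2) ≤
      ∑ x, (((∑ e, (D.i x e).toNat : ℕ) : ℤ) - 2) := by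
    apply Finset.sum_le_sum_of_subset_of_nonneg (Finset.subset_univ _)
    intro x _ _
    have := D.deg_x_ge2 x
    omega
  have h3 : ∑ x, (((∑ e, (D.i x e).toNat : ℕ) : ℤ) - 2) =
      2 * Fintype.card D.E - 2 * Fintype.card D.X := by
    rw [Finset.sum_sub_distrib, h1]
    simp only [Finset.sum_const, Finset.card_univ, nsmul_eq_mul]
    ring
  rw [h3] at h2
  linarith

/-- Lower bound from some coatoms. -/
lemma deg_bound_y (S : Finset D.Y) {c : ℤ}
    (h : c ≤ ∑ x ∈ S, (((∑ e, (D.j e x).toNat : ℕ) : ℤ) - 2)) :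
    c ≤ 2 * ((Fintype.card D.E : ℤ) - Fintype.card D.X) := by
  have h1 := D.sum_deg_y
  have h2 : ∑ x ∈ S, (((∑ e, (D.j e x).toNat : ℕ) : ℤ) - 2) ≤
      ∑ x, (((∑ e, (D.j e x).toNat : ℕ) : ℤ) - 2) := by
    apply Finset.sum_le_sum_of_subset_of_nonneg (Finset.subset_univ _)
    intro x _ _
    have := D.two_le_deg x
    omega
  have h3 : ∑ x, (((∑ e, (D.j e x).toNat : ℕ) : ℤ) - 2) =
      2 * (Fintype.card D.Y + ((Fintype.card D.E : ℤ) - Fintype.card D.X)) -
        2 * Fintype.card D.Y := by
    rw [Finset.sum_sub_distrib, h1]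
    simp only [Finset.sum_const, Finset.card_univ, nsmul_eq_mul]
    ring
  rw [h3] at h2
  linarith

/-- If there is more excess at `j` than at `z`, some large element contains `j` but not `z`. -/
lemma exists_fat_not {j z : D.X} (h : #(D.BY z) < #(D.BY j)) :
    ∃ e, D.i j e = true ∧ D.i z e = false ∧ 3 ≤ #(D.TE e) := by
  by_contra hne
  push Not at hne
  have h1 := exc_x' j
  have h2 := exc_x' z
  have h3 : ∑ e with D.i j e = true, D.xe e ≤ ∑ e with D.i z e = true, D.xe e := by
    rw [Finset.sum_filter, Finset.sum_filter]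
    refine Finset.sum_le_sum fun e _ => ?_
    have h4 := xe_nonneg e
    by_cases hj : D.i j e = true
    · rw [if_pos hj]
      by_cases hz : D.i z e = true
      · rw [if_pos hz]
      · have h5 := hne e hj (by simpa using hz)
        rw [if_neg hz]
        unfold xe
        omega
    · rw [if_neg hj]
      split_ifs
      · exact h4
      · exact le_refl _
  omega

lemma exists_fat {j : D.X} (h : 3 ≤ #(D.BY j)) : ∃ e, D.i j e = true ∧ 3 ≤ #(D.TE e) := by
  by_contra hne
  push Not at hne
  have h1 := exc_x' j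
  have h3 : ∑ e with D.i j e = true, D.xe e ≤ 0 := by
    apply Finset.sum_nonpos
    intro e he
    simp only [mem_filter, mem_univ, true_and] at he
    have := hne e he
    unfold xe
    omega
  omega

lemma AE_eq {x y : D.X} (hxy : x ≠ y) {e : D.E} (hx : D.i x e = true) (hy : D.i y e = true) :
    D.AE e = {x, y} := by
  symm
  apply Finset.eq_of_subset_of_card_le
  · intro a ha
    simp only [mem_insert, mem_singleton] at ha
    rcases ha with rfl | rfl <;> rw [mem_AE] <;> assumption
  · rw [card_AE, card_pair hxy]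

lemma other' {x : D.X} {e : D.E} (he : D.i x e = true) :
    ∃ x', x' ≠ x ∧ D.i x' e = true ∧ D.AE e = {x, x'} := by
  have hc := card_AE e
  obtain ⟨x', hx', hne⟩ : ∃ x' ∈ D.AE e, x' ≠ x := by
    apply Finset.exists_mem_ne
    omega
  rw [mem_AE] at hx'
  exact ⟨x', hne, hx', AE_eq hne.symm he hx'⟩

/-- If the total excess is seven, the excess six at an atom cannot go to one other atom. -/
lemma lemU (hg : D.g = 2 * Fintype.card D.X + 7) {j m : D.X} (hjm : j ≠ m)
    (hj : #(D.BY j) = 5) (hall : ∀ e, D.i j e = true → 3 ≤ #(D.TE e) → D.i m e = true) :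
    False := by
  have s1 := exc_x' j
  rw [hj] at s1
  have s2 := exc_x' m
  have s3 := D.sum_xe
  rw [hg] at s3
  have hm := BY_le m
  rw [hg] at hm
  push_cast at s1 s3 hm
  -- sum over the pair
  have s4 : ∑ e with D.i j e = true, D.xe e ≤ ∑ e with D.i m e = true, D.xe e := by
    rw [Finset.sum_filter, Finset.sum_filter]
    refine Finset.sum_le_sum fun e _ => ?_
    have h4 := xe_nonneg e
    by_cases h1 : D.i j e = true
    · rw [if_pos h1]
      by_cases h2 : D.i m e = true
      · rw [if_pos h2]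
      · rw [if_neg h2]
        by_contra hlt
        exact h2 (hall e h1 (by unfold xe at hlt; omega))
    · rw [if_neg h1]
      split_ifs
      · exact h4
      · exact le_refl _
  have s5 : ∑ e with D.i m e = true, D.xe e = 6 := by omega
  -- the remaining excess
  have s6 : ∑ e with ¬ D.i j e = true, D.xe e = 1 := by
    have := Finset.sum_filter_add_sum_filter_not (univ : Finset D.E)
      (fun e => D.i j e = true) D.xe
    omega
  obtain ⟨e', he', hx'⟩ : ∃ e ∈ univ.filter (fun e => ¬ D.i j e = true), 0 < D.xe e := by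
    by_contra hne
    simp only [not_exists, not_and, not_lt] at hne
    have := Finset.sum_nonpos hne
    omega
  simp only [mem_filter, mem_univ, true_and] at he'
  -- `e'` does not contain `m`
  have hme : ¬ D.i m e' = true := by
    intro h1
    have h2 : ∑ e with D.i j e = true, D.xe e + D.xe e' ≤ ∑ e with D.i m e = true, D.xe e := by
      rw [Finset.sum_filter, Finset.sum_filter]
      have h3 : D.xe e' = ∑ e, if e = e' then D.xe e else 0 := by simp
      rw [h3, ← Finset.sum_add_distrib]
      refine Finset.sum_le_sum fun e _ => ?_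
      have h4 := xe_nonneg e
      by_cases h5 : e = e'
      · subst h5
        rw [if_neg he', if_pos rfl, if_pos h1, zero_add]
      · rw [if_neg h5, add_zero]
        by_cases h6 : D.i j e = true
        · rw [if_pos h6]
          by_cases h7 : D.i m e = true
          · rw [if_pos h7]
          · rw [if_neg h7]
            by_contra hlt
            exact h7 (hall e h6 (by unfold xe at hlt; omega))
        · rw [if_neg h6]
          split_ifs
          · exact h4
          · exact le_refl _
    omega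
  obtain ⟨u, hu⟩ : ∃ u, D.i u e' = true := exists_of_sum_pos (by rw [D.i2]; decide)
  have huj : u ≠ j := by rintro rfl; exact he' hu
  have hum : u ≠ m := by rintro rfl; exact hme hu
  have s7 := exc_x' u
  have s8 : ∑ e with D.i u e = true, D.xe e ≤ ∑ e with ¬ D.i j e = true, D.xe e := by
    rw [Finset.sum_filter, Finset.sum_filter]
    refine Finset.sum_le_sum fun e _ => ?_
    have h4 := xe_nonneg e
    by_cases h1 : D.i j e = true
    · rw [if_neg (not_not.2 h1)]
      split_ifs with h2
      · by_contra hlt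
        have h3 := hall e h1 (by unfold xe at hlt; omega)
        have h5 : D.AE e = {j, m} := AE_eq hjm h1 h3
        have h6 : u ∈ D.AE e := mem_AE.2 h2
        rw [h5] at h6
        simp only [mem_insert, mem_singleton] at h6
        tauto
      · exact le_refl _
    · rw [if_pos h1]
      split_ifs
      · exact le_refl _
      · exact h4
  have s9 : D.xe e' ≤ ∑ e with D.i u e = true, D.xe e :=
    Finset.single_le_sum (f := D.xe) (fun e _ => xe_nonneg e) (by simp [hu])
  omega

/-- An atom all of whose coatoms have two atoms. -/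
lemma lemZ (h5 : ∀ x : D.X, #(D.BY x) ≤ 5)
    (hU : ∀ j m : D.X, j ≠ m → #(D.BY j) = 5 →
      (∀ e, D.i j e = true → 3 ≤ #(D.TE e) → D.i m e = true) → False)
    (z : D.X) (hz : ∀ y ∈ D.BY z, #(D.AY y) = 2) :
    ∃ j, j ≠ z ∧ (∀ y ∈ D.BY z, D.AY y = {z, j}) ∧
      (D.BY j = D.BY z ∨ (#(D.BY z) = 2 ∧ #(D.BY j) = 5)) := by
  have h2z := two_le_BY z
  -- the coatoms of `z`
  have key : ∃ j, j ≠ z ∧ (∀ y ∈ D.BY z, D.AY y = {z, j}) := by
    rcases Nat.lt_or_ge (#(D.BY z)) 3 with h3 | h3
    · obtain ⟨y1, hy1⟩ := card_pos.1 (show 0 < #(D.BY z) by omega)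
      have hz1 : z ∈ D.AY y1 := mem_BY_iff.1 hy1
      obtain ⟨j, hj, hne⟩ : ∃ j ∈ D.AY y1, j ≠ z := by
        apply Finset.exists_mem_ne
        rw [hz y1 hy1]; norm_num
      have hA : D.AY y1 = {z, j} := by
        symm
        apply Finset.eq_of_subset_of_card_le
        · intro a ha
          simp only [mem_insert, mem_singleton] at ha
          rcases ha with rfl | rfl <;> assumption
        · rw [hz y1 hy1, card_pair hne.symm]
      obtain ⟨y', hy', hsub⟩ := thin_pair (hz y1 hy1)
      have hy'z : y' ∈ D.BY z := mem_BY_iff.2 (hsub hz1)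
      refine ⟨j, hne, fun y hy => ?_⟩
      by_cases hyy : y = y1
      · rw [hyy, hA]
      · have hyy' : y = y' := by
          by_contra hne'
          have : ({y1, y', y} : Finset D.Y) ⊆ D.BY z := by
            intro a ha
            simp only [mem_insert, mem_singleton] at ha
            rcases ha with rfl | rfl | rfl <;> assumption
          have h4 := card_le_card this
          rw [card_eq_three.2 ⟨y1, y', y, hy'.symm, Ne.symm hyy, Ne.symm hne', rfl⟩] at h4
          omega
        rw [hyy', ← hA]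
        symm
        exact Finset.eq_of_subset_of_card_le hsub (by rw [hz y' hy'z, hz y1 hy1])
    · obtain ⟨e, he, hfat⟩ := exists_fat h3
      obtain ⟨j, hne, hje, hAE⟩ := other' he
      have hT := TE_sub_BY he
      have hTA : ∀ y ∈ D.TE e, D.AY y = {z, j} := by
        intro y hy
        have h4 := TE_AE hy
        rw [hAE] at h4
        symm
        exact Finset.eq_of_subset_of_card_le h4 (by rw [hz y (hT hy), card_pair hne.symm])
      -- a coatom of `z` outside `TE e`
      by_cases hall : ∀ y ∈ D.BY z, D.AY y = {z, j}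
      · exact ⟨j, hne, hall⟩
      · exfalso
        push Not at hall
        obtain ⟨y, hy, hyA⟩ := hall
        have hyT : y ∉ D.TE e := fun h => hyA (hTA y h)
        obtain ⟨y', hy', hsub⟩ := thin_pair (hz y hy)
        have hy'z : y' ∈ D.BY z := mem_BY_iff.2 (hsub (mem_BY_iff.1 hy))
        have hAy : D.AY y' = D.AY y :=
          (Finset.eq_of_subset_of_card_le hsub (by rw [hz y' hy'z, hz y hy])).symm
        have hy'T : y' ∉ D.TE e := fun h => hyA (by rw [← hAy]; exact hTA y' h)
        have h4 : #(D.TE e) + 2 ≤ #(D.BY z) := by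
          have h5 : ({y, y'} : Finset D.Y) ⊆ D.BY z \ D.TE e := by
            intro a ha
            simp only [mem_insert, mem_singleton] at ha
            rcases ha with rfl | rfl <;> simp [*]
          have h6 := card_le_card h5
          rw [card_pair hy'.symm, card_sdiff_of_subset hT] at h6
          have := card_le_card hT
          omega
        have h6 := h5 z
        -- all large elements at `z` contain `j`
        refine hU z j hne.symm (by omega) fun e' he' hf' => ?_
        by_contra hje'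
        obtain ⟨j', hne', hje'', hAE'⟩ := other' he'
        have hjj : j' ≠ j := by rintro rfl; exact hje' hje''
        have hdis : Disjoint (D.TE e) (D.TE e') := by
          rw [Finset.disjoint_left]
          intro a ha ha'
          have h7 := hTA a ha
          have h8 := TE_AE ha'
          rw [hAE', h7] at h8
          have h9 : j' ∈ ({z, j} : Finset D.X) := h8 (by simp)
          simp only [mem_insert, mem_singleton] at h9
          tauto
        have h7 := card_union_of_disjoint hdis
        have h8 := card_le_card (union_subset hT (TE_sub_BY he'))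
        omega
  obtain ⟨j, hne, hall⟩ := key
  refine ⟨j, hne, hall, ?_⟩
  have hsub : D.BY z ⊆ D.BY j := by
    intro y hy
    rw [mem_BY_iff, hall y hy]
    simp
  by_cases heq : D.BY j = D.BY z
  · exact Or.inl heq
  · right
    have hlt : #(D.BY z) < #(D.BY j) :=
      card_lt_card (Finset.ssubset_iff_subset_ne.2 ⟨hsub, Ne.symm heq⟩)
    obtain ⟨e, h1, h2, h3⟩ := exists_fat_not hlt
    have hdis : Disjoint (D.BY z) (D.TE e) := by
      rw [Finset.disjoint_left]
      intro a ha ha'
      have h4 := TE_AE ha'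
      rw [hall a ha] at h4
      obtain ⟨j', hne', hje'', hAE'⟩ := other' h1
      rw [hAE'] at h4
      have h9 : j' ∈ ({z, j} : Finset D.X) := h4 (by simp)
      simp only [mem_insert, mem_singleton] at h9
      rcases h9 with h9 | h9
      · rw [h9, h2] at hje''
        exact absurd hje'' (by decide)
      · exact hne' h9
    have h7 := card_union_of_disjoint hdis
    have h8 := card_le_card (union_subset hsub (TE_sub_BY h1))
    have h9 := h5 j
    omega

/-- The atoms below some large coatom. -/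
def KK (D : EData) : Finset D.X := {x | ∃ y, D.w x y = true ∧ 3 ≤ #(D.AY y)}

lemma not_mem_KK {z : D.X} (hz : z ∉ D.KK) : ∀ y ∈ D.BY z, #(D.AY y) = 2 := by
  intro y hy
  have h2 := two_le_AY y
  by_contra hne
  apply hz
  simp only [KK, mem_filter, mem_univ, true_and]
  exact ⟨y, mem_BY.1 hy, by omega⟩

/-- A leaf. -/
def Leaf (D : EData) (z j : D.X) : Prop :=
  z ∉ D.KK ∧ j ≠ z ∧ (∀ y ∈ D.BY z, D.AY y = {z, j}) ∧ #(D.BY z) = 2 ∧ #(D.BY j) = 5

lemma even_card_of_involution {α : Type} [DecidableEq α] (s : Finset α) (σ : α → α)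
    (h1 : ∀ a ∈ s, σ a ∈ s) (h2 : ∀ a ∈ s, σ (σ a) = a) (h3 : ∀ a ∈ s, σ a ≠ a) :
    Even (#s) := by
  have h : ∑ _a ∈ s, (1 : ZMod 2) = 0 := by
    refine Finset.sum_involution (fun a _ => σ a) ?_ ?_ ?_ ?_
    · intro a _; decide
    · intro a ha _; exact h3 a ha
    · exact h1
    · exact h2
  simp only [sum_const, nsmul_eq_mul, mul_one] at h
  rwa [ZMod.natCast_eq_zero_iff_even] at h

/-- Without leaves the number of atoms outside `KK` is even. -/
lemma even_compl (h5 : ∀ x : D.X, #(D.BY x) ≤ 5)
    (hU : ∀ j m : D.X, j ≠ m → #(D.BY j) = 5 →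
      (∀ e, D.i j e = true → 3 ≤ #(D.TE e) → D.i m e = true) → False)
    (hleaf : ∀ z j, ¬ D.Leaf z j) : Even (#(univ \ D.KK)) := by
  have key : ∀ z : D.X, ∃ j, z ∉ D.KK → (j ≠ z ∧ (∀ y ∈ D.BY z, D.AY y = {z, j}) ∧
      D.BY j = D.BY z) := by
    intro z
    by_cases hz : z ∈ D.KK
    · exact ⟨z, fun h => absurd hz h⟩
    · obtain ⟨j, h1, h2, h3⟩ := lemZ h5 hU z (not_mem_KK hz)
      rcases h3 with h3 | h3
      · exact ⟨j, fun _ => ⟨h1, h2, h3⟩⟩
      · exact absurd ⟨hz, h1, h2, h3.1, h3.2⟩ (hleaf z j)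
  choose σ hσ using key
  have hmem : ∀ z, z ∉ D.KK → σ z ∉ D.KK := by
    intro z hz hj
    obtain ⟨h1, h2, h3⟩ := hσ z hz
    simp only [KK, mem_filter, mem_univ, true_and] at hj
    obtain ⟨y, hy, hy3⟩ := hj
    have : y ∈ D.BY z := by rw [← h3, mem_BY]; exact hy
    rw [not_mem_KK hz y this] at hy3
    omega
  apply even_card_of_involution _ σ
  · intro z hz
    simp only [mem_sdiff, mem_univ, true_and] at hz ⊢
    exact hmem z hz
  · intro z hz
    simp only [mem_sdiff, mem_univ, true_and] at hz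
    obtain ⟨h1, h2, h3⟩ := hσ z hz
    obtain ⟨h4, h5', h6⟩ := hσ (σ z) (hmem z hz)
    obtain ⟨y, hy⟩ := card_pos.1 (show 0 < #(D.BY z) by have := two_le_BY z; omega)
    have h7 := h2 y hy
    have h8 := h5' y (by rw [h3]; exact hy)
    have h9 : z ∈ ({σ z, σ (σ z)} : Finset D.X) := by rw [← h8, h7]; simp
    simp only [mem_insert, mem_singleton] at h9
    rcases h9 with h9 | h9
    · exact absurd h9.symm h1
    · exact h9.symm
  · intro z hz
    simp only [mem_sdiff, mem_univ, true_and] at hz
    exact (hσ z hz).1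

/-- The number of large coatoms is bounded by the number of atoms below them. -/
lemma card_KK : Fintype.card D.X + #{y | 3 ≤ #(D.AY y)} ≤ Fintype.card D.Y + #D.KK := by
  have h1 : 2 * #(univ \ D.KK) ≤ ∑ x ∈ univ \ D.KK, #(D.BY x) := by
    calc 2 * #(univ \ D.KK) = ∑ _x ∈ univ \ D.KK, 2 := by simp [mul_comm]
      _ ≤ _ := Finset.sum_le_sum fun x _ => two_le_BY x
  have h2 : ∑ x ∈ univ \ D.KK, #(D.BY x) ≤ ∑ y with ¬ 3 ≤ #(D.AY y), 2 := by
    have e1 : ∀ x : D.X, #(D.BY x) = ∑ y, (if y ∈ D.BY x then 1 else 0) := by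
      intro x; simp
    rw [Finset.sum_congr rfl fun x _ => e1 x, Finset.sum_comm, Finset.sum_filter]
    refine Finset.sum_le_sum fun y _ => ?_
    by_cases h : 3 ≤ #(D.AY y)
    · rw [if_neg (not_not.2 h), Finset.sum_eq_zero]
      intro x hx
      simp only [mem_sdiff, mem_univ, true_and] at hx
      rw [if_neg]
      intro hy
      have := not_mem_KK hx y hy
      omega
    · rw [if_pos h]
      have h2 : #(D.AY y) = 2 := by have := two_le_AY y; omega
      calc ∑ x ∈ univ \ D.KK, (if y ∈ D.BY x then 1 else 0)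
          ≤ ∑ x, (if y ∈ D.BY x then 1 else 0) :=
            Finset.sum_le_sum_of_subset (Finset.subset_univ _)
        _ = #(D.AY y) := by
            simp only [mem_BY_iff]
            simp
        _ = 2 := h2
        _ ≤ 2 := le_refl _
  have h3 := Finset.card_filter_add_card_filter_not (s := (univ : Finset D.Y))
    (fun y => 3 ≤ #(D.AY y))
  have h4 : #(univ \ D.KK) + #D.KK = Fintype.card D.X := by
    rw [card_sdiff_of_subset (Finset.subset_univ _), Finset.card_univ]
    have := Finset.card_le_univ D.KK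
    omega
  rw [Finset.card_univ] at h3
  simp only [Finset.sum_const, smul_eq_mul] at h2
  omega

end EData

end Pool.Agent.Helper738F4
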