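import Pool.Agent.helper738_F4.Flags

/-!
# The incidence data of an Eulerian poset of rank five
-/

open Finset

namespace Pool.Agent.Helper738F4

open Pool.Agent.Helper738Eul

variable {P : Type} [PartialOrder P] [BoundedOrder P] {n : ℕ} {ρ : P → ℕ}

/-- A level of a finite poset is finite. -/
noncomputable instance levFintype [Fintype P] (r : ℕ) : Fintype {z : P // ρ z = r} := by
  classical exact inferInstance

omit [PartialOrder P] [BoundedOrder P] in
lemma sum_lev [Fintype P] (r : ℕ) (p : P → Prop) [DecidablePred p]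
    [DecidablePred fun z => ρ z = r ∧ p z] :
    ∑ z : {z : P // ρ z = r}, (decide (p z.1)).toNat = #{z | ρ z = r ∧ p z} := by
  classical
  rw [Finset.card_filter, ← Finset.sum_subtype (univ.filter fun c : P => ρ c = r)
    (p := fun c => ρ c = r) (by simp) (fun c : P => (decide (p c)).toNat), Finset.sum_filter]
  refine Finset.sum_congr rfl fun c _ => ?_
  by_cases h1 : ρ c = r
  · by_cases h2 : p c
    · simp [h1, h2]
    · simp [h1, h2]
  · simp [h1]

open Classical in
lemma mid2 [Fintype P] (h : IsGraded n ρ) (he : IsEulerian ρ) {r m k : ℕ} (hm : m = r + 1)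
    (hk : k = r + 2) {x y : P} (hx : ρ x = r) (hy : ρ y = k) :
    ∑ z : {z : P // ρ z = m}, (decide (x < z.1) && decide (z.1 < y)).toNat =
      2 * (decide (x < y)).toNat := by
  have e1 : ∀ z : {z : P // ρ z = m}, (decide (x < z.1) && decide (z.1 < y)).toNat =
      (decide (x < z.1 ∧ z.1 < y)).toNat := by
    intro z; rw [Bool.decide_and]
  rw [Finset.sum_congr rfl fun z _ => e1 z, sum_lev (ρ := ρ) m (fun z => x < z ∧ z < y)]
  by_cases hxy : x < y
  · have := he.two h hxy (by omega)
    have e2 : (univ.filter fun z : P => ρ z = m ∧ x < z ∧ z < y) =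
        univ.filter fun z : P => x < z ∧ z < y := by
      ext z
      simp only [mem_filter, mem_univ, true_and]
      constructor
      · exact fun h => h.2
      · intro h'
        have h3 := h.strictMono h'.1
        have h4 := h.strictMono h'.2
        exact ⟨by omega, h'⟩
    rw [e2, this]
    simp [hxy]
  · have e2 : (univ.filter fun z : P => ρ z = m ∧ x < z ∧ z < y) = ∅ := by
      ext z
      simp only [mem_filter, mem_univ, true_and, notMem_empty, iff_false]
      rintro ⟨_, h1, h2⟩
      exact hxy (h1.trans h2)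
    rw [e2]
    simp [hxy]

open Classical in
/-- In an interval of length four the numbers of elements of the three middle ranks. -/
lemma mid4 [Fintype P] (h : IsGraded n ρ) (he : IsEulerian ρ) {x y : P} (hxy : x < y)
    {r : ℕ} (hx : ρ x = r) (hy : ρ y = r + 4) :
    ∑ z : {z : P // ρ z = r + 1}, (decide (x < z.1 ∧ z.1 < y)).toNat +
      ∑ z : {z : P // ρ z = r + 3}, (decide (x < z.1 ∧ z.1 < y)).toNat =
        ∑ z : {z : P // ρ z = r + 2}, (decide (x < z.1 ∧ z.1 < y)).toNat + 2 := by
  have h1 := (isEulerian_iff.1 he) x y hxy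
  rw [sum_Icc_eq hxy] at h1
  rw [sum_lev (ρ := ρ) _ (fun z => x < z ∧ z < y), sum_lev (ρ := ρ) _ (fun z => x < z ∧ z < y),
    sum_lev (ρ := ρ) _ (fun z => x < z ∧ z < y)]
  have h2 : ∑ z with x < z ∧ z < y, (-1 : ℤ) ^ (ρ z) =
      (-1) ^ r * (-(#{z | ρ z = r + 1 ∧ x < z ∧ z < y} : ℤ) + #{z | ρ z = r + 2 ∧ x < z ∧ z < y} -
        #{z | ρ z = r + 3 ∧ x < z ∧ z < y}) := by
    rw [Finset.card_filter, Finset.card_filter, Finset.card_filter, Finset.sum_filter]
    push_cast
    rw [mul_sub, mul_add, mul_neg, Finset.mul_sum, Finset.mul_sum, Finset.mul_sum,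
      ← Finset.sum_neg_distrib, ← Finset.sum_add_distrib, ← Finset.sum_sub_distrib]
    refine Finset.sum_congr rfl fun z _ => ?_
    by_cases hz : x < z ∧ z < y
    · have h3 := h.strictMono hz.1
      have h4 := h.strictMono hz.2
      rcases (show ρ z = r + 1 ∨ ρ z = r + 2 ∨ ρ z = r + 3 by omega) with h5 | h5 | h5
      · simp [hz, h5, pow_succ]
      · simp [hz, h5, pow_succ]
      · simp [hz, h5, pow_succ]
    · simp [hz]
  rw [h2, hx, hy] at h1
  have h5 : ((-1 : ℤ) ^ r) * (2 + (-(#{z | ρ z = r + 1 ∧ x < z ∧ z < y} : ℤ) +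
      #{z | ρ z = r + 2 ∧ x < z ∧ z < y} - #{z | ρ z = r + 3 ∧ x < z ∧ z < y})) = 0 := by
    rw [← h1]; ring
  have h6 : ((-1 : ℤ) ^ r) ≠ 0 := by positivity
  have h7 := (mul_eq_zero.1 h5).resolve_left h6
  omega

open Classical in
/-- The incidence data of an Eulerian poset of rank five. -/
noncomputable def ofPoset [Fintype P] (h : IsGraded 4 ρ) (he : IsEulerian ρ) : EData where
  X := {z : P // ρ z = 1}
  E := {z : P // ρ z = 2}
  H := {z : P // ρ z = 3}
  Y := {z : P // ρ z = 4}
  i x e := decide (x.1 < e.1)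
  r x e := decide (x.1 < e.1)
  j x e := decide (x.1 < e.1)
  u x e := decide (x.1 < e.1)
  v x e := decide (x.1 < e.1)
  w x e := decide (x.1 < e.1)
  i2 e := by
    have h1 := mid2 h he (r := 0) (m := 1) (k := 2) rfl rfl h.bot e.2
    have h2 : ∀ z : {z : P // ρ z = 1}, (decide (⊥ < z.1) && decide (z.1 < e.1)) =
        decide (z.1 < e.1) := by
      intro z
      have : (⊥ : P) < z.1 := bot_lt_iff_ne_bot.2 fun h' => by
        have := z.2; rw [h', h.bot] at this; omega
      simp [this]
    have h3 : (⊥ : P) < e.1 := bot_lt_iff_ne_bot.2 fun h' => by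
      have := e.2; rw [h', h.bot] at this; omega
    simp only [h2, h3, decide_true, Bool.toNat_true] at h1
    exact h1
  j2 e := by
    have h1 := mid2 h he (r := 3) (m := 4) (k := 5) rfl rfl e.2 h.top
    have h2 : ∀ z : {z : P // ρ z = 4}, (decide (e.1 < z.1) && decide (z.1 < ⊤)) =
        decide (e.1 < z.1) := by
      intro z
      have : z.1 < (⊤ : P) := lt_top_iff_ne_top.2 fun h' => by
        have := z.2; rw [h', h.top] at this; omega
      simp [this]
    have h3 : e.1 < (⊤ : P) := lt_top_iff_ne_top.2 fun h' => by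
      have := e.2; rw [h', h.top] at this; omega
    simp only [h2, h3, decide_true, Bool.toNat_true] at h1
    exact h1
  xh x y := mid2 h he (r := 1) (m := 2) (k := 3) rfl rfl x.2 y.2
  ey x y := mid2 h he (r := 2) (m := 3) (k := 4) rfl rfl x.2 y.2
  wu x y := by
    simp only [decide_eq_true_eq]
    constructor
    · intro hxy
      obtain ⟨z, h1, h2, h3⟩ := h.exists_between hxy (r := 3) (by rw [x.2]; omega)
        (by rw [y.2]; omega)
      exact ⟨⟨z, h3⟩, h1, h2⟩
    · rintro ⟨z, h1, h2⟩
      exact h1.trans h2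
  xc x := by
    have h3 : x.1 < (⊤ : P) := lt_top_iff_ne_top.2 fun h' => by
      have := x.2; rw [h', h.top] at this; omega
    have h1 := mid4 h he h3 (r := 1) x.2 h.top
    have h2 : ∀ (r : ℕ) (z : {z : P // ρ z = r}), r < 5 →
        (decide (x.1 < z.1 ∧ z.1 < ⊤)) = decide (x.1 < z.1) := by
      intro r z hr
      have : z.1 < (⊤ : P) := lt_top_iff_ne_top.2 fun h' => by
        have := z.2; rw [h', h.top] at this; omega
      simp [this]
    simp only [fun (z : {z : P // ρ z = 2}) => h2 2 z (by omega),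
      fun (z : {z : P // ρ z = 3}) => h2 3 z (by omega),
      fun (z : {z : P // ρ z = 4}) => h2 4 z (by omega)] at h1
    exact h1
  yc y := by
    have h3 : (⊥ : P) < y.1 := bot_lt_iff_ne_bot.2 fun h' => by
      have := y.2; rw [h', h.bot] at this; omega
    have h1 := mid4 h he h3 (r := 0) h.bot y.2
    have h2 : ∀ (r : ℕ) (z : {z : P // ρ z = r}), 0 < r →
        (decide (⊥ < z.1 ∧ z.1 < y.1)) = decide (z.1 < y.1) := by
      intro r z hr
      have : (⊥ : P) < z.1 := bot_lt_iff_ne_bot.2 fun h' => by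
        have := z.2; rw [h', h.bot] at this; omega
      simp [this]
    simp only [fun (z : {z : P // ρ z = 0 + 2}) => h2 2 z (by omega),
      fun (z : {z : P // ρ z = 0 + 3}) => h2 3 z (by omega),
      fun (z : {z : P // ρ z = 0 + 1}) => h2 1 z (by omega)] at h1
    exact h1
  eh e := by
    have h3 : e.1 < (⊤ : P) := lt_top_iff_ne_top.2 fun h' => by
      have := e.2; rw [h', h.top] at this; omega
    obtain ⟨z, h1, h2, h4⟩ := h.exists_between h3 (r := 3) (by rw [e.2]; omega)
      (by rw [h.top]; omega)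
    exact ⟨⟨z, h4⟩, by simpa using h1⟩
  he e := by
    have h3 : (⊥ : P) < e.1 := bot_lt_iff_ne_bot.2 fun h' => by
      have := e.2; rw [h', h.bot] at this; omega
    obtain ⟨z, h1, h2, h4⟩ := h.exists_between h3 (r := 2) (by rw [h.bot]; omega)
      (by rw [e.2]; omega)
    exact ⟨⟨z, h4⟩, by simpa using h2⟩

end Pool.Agent.Helper738F4
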