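import Pool.Agent.helper738_F4.EData

/-!
# Operations on rank five data: disjoint unions, subdivisions
-/

open Finset

namespace Pool.Agent.Helper738F4

namespace EData

/-! ### disjoint union -/

/-- A relation between two disjoint unions without cross pairs. -/
def both {α β α' β' : Type} (f : α → β → Bool) (g : α' → β' → Bool) : α ⊕ α' → β ⊕ β' → Bool
  | Sum.inl a, Sum.inl b => f a b
  | Sum.inr a, Sum.inr b => g a b
  | _, _ => false

/-- The disjoint union of two rank five data. -/
def sum (D D' : EData) : EData where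
  X := D.X ⊕ D'.X
  E := D.E ⊕ D'.E
  H := D.H ⊕ D'.H
  Y := D.Y ⊕ D'.Y
  i := both D.i D'.i
  r := both D.r D'.r
  j := both D.j D'.j
  u := both D.u D'.u
  v := both D.v D'.v
  w := both D.w D'.w
  i2 e := by
    rcases e with e | e <;> simp [both, Fintype.sum_sum_type, D.i2, D'.i2]
  j2 h := by
    rcases h with h | h <;> simp [both, Fintype.sum_sum_type, D.j2, D'.j2]
  xh x h := by
    rcases h with h | h <;> rcases x with x | x <;>
      simp [both, Fintype.sum_sum_type, D.xh, D'.xh]
  ey e y := by
    rcases e with h | h <;> rcases y with x | x <;>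
      simp [both, Fintype.sum_sum_type, D.ey, D'.ey]
  wu x y := by
    rcases x with x | x <;> rcases y with y | y <;> simp [both, D.wu, D'.wu]
  xc x := by
    rcases x with x | x
    · simpa [both, Fintype.sum_sum_type] using D.xc x
    · simpa [both, Fintype.sum_sum_type] using D'.xc x
  yc x := by
    rcases x with x | x
    · simpa [both, Fintype.sum_sum_type] using D.yc x
    · simpa [both, Fintype.sum_sum_type] using D'.yc x
  eh e := by
    rcases e with e | e
    · obtain ⟨h, hh⟩ := D.eh e
      exact ⟨Sum.inl h, hh⟩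
    · obtain ⟨h, hh⟩ := D'.eh e
      exact ⟨Sum.inr h, hh⟩
  he e := by
    rcases e with e | e
    · obtain ⟨h, hh⟩ := D.he e
      exact ⟨Sum.inl h, hh⟩
    · obtain ⟨h, hh⟩ := D'.he e
      exact ⟨Sum.inr h, hh⟩

lemma sum_g (D D' : EData) : (D.sum D').g = D.g + D'.g := by
  change ∑ x : D.X ⊕ D'.X, ∑ y : D.Y ⊕ D'.Y, (both D.w D'.w x y).toNat = _
  simp [both, Fintype.sum_sum_type, g]

end EData

lemma Real.add {a b B g a' b' B' g' : ℕ} (h : Real a b B g) (h' : Real a' b' B' g') :
    Real (a + a') (b + b') (B + B') (g + g') := by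
  obtain ⟨D, h1, h2, h3, h4⟩ := h
  obtain ⟨D', h1', h2', h3', h4'⟩ := h'
  refine ⟨D.sum D', ?_, ?_, ?_, ?_⟩
  · change Fintype.card (D.X ⊕ D'.X) = _
    rw [Fintype.card_sum, h1, h1']
  · change Fintype.card (D.Y ⊕ D'.Y) = _
    rw [Fintype.card_sum, h2, h2']
  · change Fintype.card (D.E ⊕ D'.E) = _
    rw [Fintype.card_sum, h3, h3']; ring
  · rw [D.sum_g, h4, h4']

namespace EData

/-! ### subdividing an element of rank three -/

open Classical in
lemma sum_single {α : Type} [Fintype α] (a : α) : ∑ x, (decide (x = a)).toNat = 1 := by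
  rw [Finset.sum_eq_single a]
  · simp
  · intro b _ hb; simp [hb]
  · simp

open Classical in
/-- Subdivide `h0`, where `y2` is one of the two coatoms above `h0`. -/
noncomputable def splitH (D : EData) (h0 : D.H) (y2 : D.Y) (hy : D.j h0 y2 = true) : EData where
  X := D.X
  E := D.E
  H := Option D.H
  Y := Option D.Y
  i := D.i
  r e
    | some h => D.r e h
    | none => D.r e h0
  j
    | some h, some y => D.j h y && !(decide (h = h0) && decide (y = y2))
    | some h, none => decide (h = h0)
    | none, some y => decide (y = y2)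
    | none, none => true
  u x
    | some h => D.u x h
    | none => D.u x h0
  v e
    | some y => D.v e y
    | none => D.r e h0
  w x
    | some y => D.w x y
    | none => D.u x h0
  i2 := D.i2
  j2 h := by
    rcases h with _ | h
    · simp [Fintype.sum_option, sum_single]
    · rw [Fintype.sum_option]
      have h1 : ∀ y, (D.j h y && !(decide (h = h0) && decide (y = y2))).toNat +
          (decide (h = h0) && decide (y = y2)).toNat = (D.j h y).toNat := by
        intro y
        by_cases e1 : h = h0
        · by_cases e2 : y = y2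
          · subst e1; subst e2; simp [hy]
          · simp [e2]
        · simp [e1]
      have h2 := D.j2 h
      rw [← Finset.sum_congr rfl fun y _ => h1 y, Finset.sum_add_distrib] at h2
      by_cases e1 : h = h0
      · subst e1
        simp only [decide_true, Bool.true_and, sum_single] at h2 ⊢
        simp only [Bool.toNat_true]
        omega
      · simp only [e1, decide_false, Bool.false_and, Bool.toNat_false, Finset.sum_const_zero,
          add_zero, zero_add] at h2 ⊢
        exact h2
  xh x h := by
    rcases h with _ | h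
    · exact D.xh x h0
    · exact D.xh x h
  ey e y := by
    rcases y with _ | y
    · rw [Fintype.sum_option]
      have : ∀ h, (D.r e h && decide (h = h0)).toNat =
          (D.r e h0).toNat * (decide (h = h0)).toNat := by
        intro h
        by_cases e1 : h = h0
        · subst e1; simp
        · simp [e1]
      simp only [Finset.sum_congr rfl fun h _ => this h, ← Finset.mul_sum, sum_single]
      simp only [Bool.and_true]
      ring
    · rw [Fintype.sum_option]
      have h1 : ∀ h, (D.r e h && (D.j h y && !(decide (h = h0) && decide (y = y2)))).toNat +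
          (D.r e h0 && decide (y = y2)).toNat * (decide (h = h0)).toNat =
            (D.r e h && D.j h y).toNat := by
        intro h
        by_cases e1 : h = h0
        · by_cases e2 : y = y2
          · subst e1; subst e2; simp [hy]
          · simp [e2]
        · simp [e1]
      have h2 := D.ey e y
      rw [← Finset.sum_congr rfl fun h _ => h1 h, Finset.sum_add_distrib, ← Finset.mul_sum,
        sum_single, mul_one] at h2
      simp only
      omega
  wu x y := by
    rcases y with _ | y
    · constructor
      · intro h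
        exact ⟨none, h, rfl⟩
      · rintro ⟨h, h1, h2⟩
        rcases h with _ | h
        · exact h1
        · simp only [decide_eq_true_eq] at h2
          subst h2
          exact h1
    · simp only
      rw [D.wu]
      constructor
      · rintro ⟨h, h1, h2⟩
        by_cases e1 : h = h0 ∧ y = y2
        · refine ⟨none, ?_, ?_⟩
          · simp only; rw [← e1.1]; exact h1
          · simp only; rw [e1.2]; simp
        · refine ⟨some h, h1, ?_⟩
          simp only [h2, Bool.true_and]
          rcases not_and_or.1 e1 with h' | h' <;> simp [h']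
      · rintro ⟨h, h1, h2⟩
        rcases h with _ | h
        · simp only [decide_eq_true_eq] at h2
          subst h2
          exact ⟨h0, h1, hy⟩
        · simp only [Bool.and_eq_true] at h2
          exact ⟨h, h1, h2.1⟩
  xc x := by
    rw [Fintype.sum_option, Fintype.sum_option]
    have := D.xc x
    simp only
    omega
  yc y := by
    rcases y with _ | y
    · rw [Fintype.sum_option]
      simp only [sum_single, D.sum_u h0]
      simp only [Bool.toNat_true]
    · rw [Fintype.sum_option]
      have h1 : ∀ h, (D.j h y && !(decide (h = h0) && decide (y = y2))).toNat +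
          (decide (y = y2)).toNat * (decide (h = h0)).toNat = (D.j h y).toNat := by
        intro h
        by_cases e1 : h = h0
        · by_cases e2 : y = y2
          · subst e1; subst e2; simp [hy]
          · simp [e2]
        · simp [e1]
      have h2 := D.yc y
      rw [← Finset.sum_congr rfl fun h _ => h1 h, Finset.sum_add_distrib, ← Finset.mul_sum,
        sum_single, mul_one] at h2
      simp only
      omega
  eh e := by
    obtain ⟨h, hh⟩ := D.eh e
    exact ⟨some h, hh⟩
  he h := by
    rcases h with _ | h
    · exact D.he h0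
    · exact D.he h

/-- The number of atoms below an element of rank three. -/
def wx (D : EData) (h : D.H) : ℕ := ∑ x, (D.u x h).toNat

/-- The number of coatoms above an element of rank two. -/
def wy (D : EData) (e : D.E) : ℕ := ∑ y, (D.v e y).toNat

lemma splitH_g (D : EData) (h0 : D.H) (y2 : D.Y) (hy : D.j h0 y2 = true) :
    (D.splitH h0 y2 hy).g = D.g + D.wx h0 := by
  unfold g wx
  change ∑ x : D.X, ∑ y : Option D.Y, _ = _
  rw [← Finset.sum_add_distrib]
  refine Finset.sum_congr rfl fun x _ => ?_
  rw [Fintype.sum_option, add_comm]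
  rfl

/-- `D'` contains the levels `E`, `H` of `D` (with its incidences) and the numbers of atoms below
and coatoms above have changed as given. -/
def Tracks (D0 D : EData) (φ : D0.E → D.E) (ψ : D0.H → D.H) (α : D0.H → ℕ) (β : D0.E → ℕ) :
    Prop :=
  (∀ e h, D.r (φ e) (ψ h) = D0.r e h) ∧ (∀ h, D.wx (ψ h) = α h) ∧ ∀ e, D.wy (φ e) = β e

/-- `D0` has a subdivision with the given numbers. -/
def SubReal (D0 : EData) (α : D0.H → ℕ) (β : D0.E → ℕ) (a b B g : ℕ) : Prop :=
  ∃ (D : EData) (φ : D0.E → D.E) (ψ : D0.H → D.H), Tracks D0 D φ ψ α β ∧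
    Fintype.card D.X = a ∧ Fintype.card D.Y = b ∧ Fintype.card D.E = a + B ∧ D.g = g

lemma SubReal.start (D0 : EData) {a b B g : ℕ} (h1 : Fintype.card D0.X = a)
    (h2 : Fintype.card D0.Y = b) (h3 : Fintype.card D0.E = a + B) (h4 : D0.g = g) :
    SubReal D0 D0.wx D0.wy a b B g :=
  ⟨D0, id, id, ⟨fun _ _ => rfl, fun _ => rfl, fun _ => rfl⟩, h1, h2, h3, h4⟩

lemma SubReal.real {D0 : EData} {α : D0.H → ℕ} {β : D0.E → ℕ} {a b B g : ℕ}
    (h : SubReal D0 α β a b B g) : Real a b B g := by
  obtain ⟨D, _, _, _, h1, h2, h3, h4⟩ := h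
  exact ⟨D, h1, h2, h3, h4⟩

lemma SubReal.cast {D0 : EData} {α : D0.H → ℕ} {β : D0.E → ℕ} {a b B g : ℕ}
    {α' : D0.H → ℕ} {β' : D0.E → ℕ} {a' b' B' g' : ℕ}
    (h : SubReal D0 α β a b B g) (e1 : α = α') (e2 : β = β') (e3 : a = a') (e4 : b = b')
    (e5 : B = B') (e6 : g = g') : SubReal D0 α' β' a' b' B' g' := by
  subst e1 e2 e3 e4 e5 e6; exact h

lemma exists_j (D : EData) (h : D.H) : ∃ y, D.j h y = true := by
  apply exists_of_sum_pos
  rw [D.j2 h]; decide

lemma SubReal.splitH_one {D0 : EData} {α : D0.H → ℕ} {β : D0.E → ℕ} {a b B g : ℕ}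
    (h : SubReal D0 α β a b B g) (h0 : D0.H) :
    SubReal D0 α (fun e => β e + (D0.r e h0).toNat) a (b + 1) B (g + α h0) := by
  obtain ⟨D, φ, ψ, ⟨t1, t2, t3⟩, h1, h2, h3, h4⟩ := h
  obtain ⟨y2, hy⟩ := D.exists_j (ψ h0)
  refine ⟨D.splitH (ψ h0) y2 hy, φ, fun h => some (ψ h), ⟨?_, ?_, ?_⟩, h1, ?_, h3, ?_⟩
  · exact t1
  · exact t2
  · intro e
    change ∑ y : Option D.Y, _ = β e + (D0.r e h0).toNat
    rw [Fintype.sum_option, ← t3 e, ← t1 e h0, add_comm]
    rfl
  · change Fintype.card (Option D.Y) = _
    rw [Fintype.card_option, h2]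
  · rw [splitH_g, h4, t2]

lemma SubReal.splitH {D0 : EData} {α : D0.H → ℕ} {β : D0.E → ℕ} {a b B g : ℕ}
    (h : SubReal D0 α β a b B g) (h0 : D0.H) (k : ℕ) :
    SubReal D0 α (fun e => β e + k * (D0.r e h0).toNat) a (b + k) B (g + k * α h0) := by
  induction k with
  | zero => simpa using h
  | succ k ih =>
    refine (ih.splitH_one h0).cast rfl ?_ rfl ?_ rfl ?_
    · funext e; ring
    · ring
    · ring

lemma SubReal.dual {D0 : EData} {α : D0.H → ℕ} {β : D0.E → ℕ} {a b B g : ℕ}
    (h : SubReal D0 α β a b B g) : SubReal D0.dual β α b a B g := by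
  obtain ⟨D, φ, ψ, ⟨t1, t2, t3⟩, h1, h2, h3, h4⟩ := h
  refine ⟨D.dual, ψ, φ, ⟨?_, ?_, ?_⟩, h2, h1, ?_, by rw [D.dual_g, h4]⟩
  · intro e h; exact t1 h e
  · exact t3
  · exact t2
  · have := D.gc
    change Fintype.card D.H = _
    omega

/-- Subdividing an element of rank two `k` times. -/
lemma SubReal.splitE {D0 : EData} {α : D0.H → ℕ} {β : D0.E → ℕ} {a b B g : ℕ}
    (h : SubReal D0 α β a b B g) (e0 : D0.E) (k : ℕ) :
    SubReal D0 (fun h => α h + k * (D0.r e0 h).toNat) β (a + k) b B (g + k * β e0) :=
  (h.dual.splitH (D0 := D0.dual) e0 k).dual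

/-! ### raising `B` -/

open Classical in
/-- Raise `B` by one at a flag `e0 < h0`. -/
noncomputable def up (D : EData) (e0 : D.E) (h0 : D.H) (hr : D.r e0 h0 = true) : EData where
  X := D.X
  E := Option D.E
  H := Option D.H
  Y := D.Y
  i x
    | some e => D.i x e
    | none => D.i x e0
  r
    | some e, some h => D.r e h && !(decide (h = h0) && decide (e = e0))
    | some e, none => decide (e = e0)
    | none, some h => decide (h = h0)
    | none, none => true
  j
    | some h, y => D.j h y
    | none, y => D.j h0 y
  u x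
    | some h => D.u x h
    | none => D.i x e0
  v
    | some e, y => D.v e y
    | none, y => D.j h0 y
  w := D.w
  i2 e := by
    rcases e with _ | e
    · exact D.i2 e0
    · exact D.i2 e
  j2 h := by
    rcases h with _ | h
    · exact D.j2 h0
    · exact D.j2 h
  xh x h := by
    rcases h with _ | h
    · rw [Fintype.sum_option]
      have : ∀ e, (D.i x e && decide (e = e0)).toNat =
          (D.i x e0).toNat * (decide (e = e0)).toNat := by
        intro h
        by_cases e1 : h = e0
        · subst e1; simp
        · simp [e1]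
      simp only [Finset.sum_congr rfl fun h _ => this h, ← Finset.mul_sum, sum_single]
      simp only [Bool.and_true]
      ring
    · rw [Fintype.sum_option]
      have h1 : ∀ e, (D.i x e && (D.r e h && !(decide (h = h0) && decide (e = e0)))).toNat +
          (D.i x e0 && decide (h = h0)).toNat * (decide (e = e0)).toNat =
            (D.i x e && D.r e h).toNat := by
        intro e
        by_cases e1 : h = h0
        · by_cases e2 : e = e0
          · subst e1; subst e2; simp [hr]
          · simp [e2]
        · simp [e1]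
      have h2 := D.xh x h
      rw [← Finset.sum_congr rfl fun h _ => h1 h, Finset.sum_add_distrib, ← Finset.mul_sum,
        sum_single, mul_one] at h2
      simp only
      omega
  ey e y := by
    rcases e with _ | e
    · rw [Fintype.sum_option]
      have : ∀ h, (decide (h = h0) && D.j h y).toNat =
          (D.j h0 y).toNat * (decide (h = h0)).toNat := by
        intro h
        by_cases e1 : h = h0
        · subst e1; simp
        · simp [e1]
      simp only [Finset.sum_congr rfl fun h _ => this h, ← Finset.mul_sum, sum_single]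
      simp only [Bool.true_and]
      ring
    · rw [Fintype.sum_option]
      have h1 : ∀ h, ((D.r e h && !(decide (h = h0) && decide (e = e0))) && D.j h y).toNat +
          (decide (e = e0) && D.j h0 y).toNat * (decide (h = h0)).toNat =
            (D.r e h && D.j h y).toNat := by
        intro h
        by_cases e1 : h = h0
        · by_cases e2 : e = e0
          · subst e1; subst e2; simp [hr]
          · simp [e2]
        · simp [e1]
      have h2 := D.ey e y
      rw [← Finset.sum_congr rfl fun h _ => h1 h, Finset.sum_add_distrib, ← Finset.mul_sum,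
        sum_single, mul_one] at h2
      simp only
      omega
  wu x y := by
    rw [D.wu]
    constructor
    · rintro ⟨h, h1, h2⟩
      exact ⟨some h, h1, h2⟩
    · rintro ⟨h, h1, h2⟩
      rcases h with _ | h
      · exact ⟨h0, (D.xh_iff x h0).2 ⟨e0, h1, hr⟩, h2⟩
      · exact ⟨h, h1, h2⟩
  xc x := by
    rw [Fintype.sum_option, Fintype.sum_option]
    have := D.xc x
    simp only
    omega
  yc y := by
    rw [Fintype.sum_option, Fintype.sum_option]
    have := D.yc y
    simp only
    omega
  eh e := by
    rcases e with _ | e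
    · exact ⟨none, rfl⟩
    · by_cases e1 : e = e0
      · exact ⟨none, by simp [e1]⟩
      · obtain ⟨h, hh⟩ := D.eh e
        exact ⟨some h, by simp [hh, e1]⟩
  he h := by
    rcases h with _ | h
    · exact ⟨none, rfl⟩
    · by_cases e1 : h = h0
      · exact ⟨none, by simp [e1]⟩
      · obtain ⟨e, hh⟩ := D.he h
        exact ⟨some e, by simp [hh, e1]⟩

end EData

/-- Realizability with an element of rank three which has exactly two atoms below it. -/
def RealT (a b B g : ℕ) : Prop :=
  ∃ D : EData, Fintype.card D.X = a ∧ Fintype.card D.Y = b ∧ Fintype.card D.E = a + B ∧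
    D.g = g ∧ ∃ h, D.wx h = 2

lemma RealT.real {a b B g : ℕ} (h : RealT a b B g) : Real a b B g := by
  obtain ⟨D, h1, h2, h3, h4, _⟩ := h
  exact ⟨D, h1, h2, h3, h4⟩

lemma RealT.add {a b B g a' b' B' g' : ℕ} (h : RealT a b B g) (h' : Real a' b' B' g') :
    RealT (a + a') (b + b') (B + B') (g + g') := by
  obtain ⟨D, h1, h2, h3, h4, h0, hh0⟩ := h
  obtain ⟨D', h1', h2', h3', h4'⟩ := h'
  refine ⟨D.sum D', ?_, ?_, ?_, ?_, ?_⟩
  · change Fintype.card (D.X ⊕ D'.X) = _
    rw [Fintype.card_sum, h1, h1']
  · change Fintype.card (D.Y ⊕ D'.Y) = _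
    rw [Fintype.card_sum, h2, h2']
  · change Fintype.card (D.E ⊕ D'.E) = _
    rw [Fintype.card_sum, h3, h3']; ring
  · rw [D.sum_g, h4, h4']
  · refine ⟨Sum.inl h0, ?_⟩
    change ∑ x : D.X ⊕ D'.X, (EData.both D.u D'.u x (Sum.inl h0)).toNat = 2
    rw [Fintype.sum_sum_type]
    simpa [EData.both, EData.wx] using hh0

lemma RealT.split {a b B g : ℕ} (h : RealT a b B g) : RealT a (b + 1) B (g + 2) := by
  obtain ⟨D, h1, h2, h3, h4, h0, hh0⟩ := h
  obtain ⟨y2, hy⟩ := D.exists_j h0
  refine ⟨D.splitH h0 y2 hy, h1, ?_, h3, ?_, some h0, hh0⟩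
  · change Fintype.card (Option D.Y) = _
    rw [Fintype.card_option, h2]
  · rw [D.splitH_g, h4, hh0]

lemma RealT.splits {a b B g : ℕ} (h : RealT a b B g) (k : ℕ) :
    RealT a (b + k) B (g + 2 * k) := by
  induction k with
  | zero => exact h
  | succ k ih => exact ih.split

lemma Real.up {a b B g : ℕ} (h : Real a b B g) (ha : 0 < a) : RealT a b (B + 1) g := by
  obtain ⟨D, h1, h2, h3, h4⟩ := h
  have hE : Nonempty D.E := by
    rw [← Fintype.card_pos_iff]; omega
  obtain ⟨e0⟩ := hE
  obtain ⟨h0, hr⟩ := D.eh e0
  refine ⟨D.up e0 h0 hr, h1, h2, ?_, h4, none, ?_⟩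
  · change Fintype.card (Option D.E) = _
    rw [Fintype.card_option, h3]; ring
  · exact D.i2 e0

lemma Real.ups {a b B g : ℕ} (h : Real a b B g) (ha : 0 < a) (k : ℕ) : Real a b (B + k) g := by
  induction k with
  | zero => exact h
  | succ k ih => exact (ih.up ha).real

lemma RealT.ups {a b B g : ℕ} (h : RealT a b B g) (ha : 0 < a) (k : ℕ) :
    RealT a b (B + k) g := by
  induction k with
  | zero => exact h
  | succ k ih => exact ih.real.up ha

end Pool.Agent.Helper738F4
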