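import Pool.Agent.helper738_F4.ZRed
import Pool.Agent.helper738_F4.Params

/-!
# Necessary conditions for doubled matrices
-/

open Finset

namespace Pool.Agent.Helper738F4

theorem zeroOK_of_matrix {a b g : ℕ} (h : DoubleMatrix a b g) : ZeroOK a b g := by
  obtain ⟨k2, k3, l2, l3, n22, n23, n32, n33, ha, hb, hg, c1, c2, c3, c4, d1, d2, d3, d4⟩ :=
    reduced h
  refine ⟨?_, ?_, ?_, ?_, ?_, ?_, ?_, ?_⟩
  · have e : a * b = 4 * (k2 * l2) + 6 * (k2 * l3) + 6 * (k3 * l2) + 9 * (k3 * l3) := by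
      rw [← ha, ← hb]; ring
    rw [e]
    clear e
    generalize k2 * l2 = x1 at *
    generalize k2 * l3 = x2 at *
    generalize k3 * l2 = x3 at *
    generalize k3 * l3 = x4 at *
    omega
  · rintro rfl
    have h1 : k2 = 0 := by omega
    have h2 : k3 = 1 := by omega
    subst h1 h2
    simp only [zero_mul, one_mul] at *
    omega
  · rintro rfl
    have h1 : k3 = 0 := by omega
    subst h1
    simp only [zero_mul] at *
    exact ⟨2 * n22 + 3 * n23, by omega⟩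
  · rintro rfl h7
    have h1 : k2 = 1 := by omega
    have h2 : k3 = 1 := by omega
    subst h1 h2
    simp only [one_mul] at *
    omega
  · rintro rfl hodd
    have h1 : k3 = 0 ∨ k3 = 2 := by omega
    rcases h1 with rfl | rfl
    · simp only [zero_mul] at *
      obtain ⟨c, hc⟩ := hodd
      omega
    · have h2 : k2 = 0 := by omega
      subst h2
      simp only [zero_mul] at *
      obtain ⟨c, hc⟩ := hodd
      refine ⟨⟨2 * n32 + 3 * n33, by omega⟩, by omega, by omega, by omega⟩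
  · rintro rfl h6
    rw [h6] at hb
    have h1 : (k2 = 3 ∧ k3 = 0) ∨ (k2 = 0 ∧ k3 = 2) := by omega
    have h1' : (l2 = 3 ∧ l3 = 0) ∨ (l2 = 0 ∧ l3 = 2) := by omega
    rcases h1 with ⟨rfl, rfl⟩ | ⟨rfl, rfl⟩ <;> rcases h1' with ⟨rfl, rfl⟩ | ⟨rfl, rfl⟩ <;> omega
  · rintro ⟨c, hc⟩ hab h7
    clear d1 d2 d3 d4
    have s1 : 2 * n32 + 3 * n33 = 2 * k3 + 1 := by omega
    have s2 : 2 * n22 + 3 * n32 = 2 * l2 + 2 := by omega
    have s3 : n33 = 1 := by omega
    omega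
  · rintro rfl h8
    rw [h8] at hb
    have h1 : (k2 = 4 ∧ k3 = 0) ∨ (k2 = 1 ∧ k3 = 2) := by omega
    have h1' : (l2 = 4 ∧ l3 = 0) ∨ (l2 = 1 ∧ l3 = 2) := by omega
    rcases h1 with ⟨rfl, rfl⟩ | ⟨rfl, rfl⟩ <;> rcases h1' with ⟨rfl, rfl⟩ | ⟨rfl, rfl⟩ <;> omega

end Pool.Agent.Helper738F4
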