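import Pool.Agent.helper738_F4.Double

/-!
# Constructions of doubled matrices
-/

open Finset

namespace Pool.Agent.Helper738F4

lemma dm_of_types {X Y : Type} [Fintype X] [Fintype Y] (M : X → Y → Bool)
    (h1 : ∀ i, ∃ j, M i j = true) (h2 : ∀ j, ∃ i, M i j = true)
    (h3 : ∀ i, ∃ i', i' ≠ i ∧ ∀ j, M i' j = M i j) (h4 : ∀ j, ∃ j', j' ≠ j ∧ ∀ i, M i j' = M i j) :
    DoubleMatrix (Fintype.card X) (Fintype.card Y) (∑ i, ∑ j, (M i j).toNat) := by
  classical
  set e := Fintype.equivFin X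
  set f := Fintype.equivFin Y
  refine ⟨fun i j => M (e.symm i) (f.symm j), ?_, ?_, ?_, ?_, ?_⟩
  · rw [Equiv.sum_comp e.symm (fun i => ∑ j, (M i (f.symm j)).toNat)]
    exact Finset.sum_congr rfl fun i _ => Equiv.sum_comp f.symm (fun j => (M i j).toNat)
  · intro i
    obtain ⟨j, hj⟩ := h1 (e.symm i)
    exact ⟨f j, by simpa using hj⟩
  · intro j
    obtain ⟨i, hi⟩ := h2 (f.symm j)
    exact ⟨e i, by simpa using hi⟩
  · intro i
    obtain ⟨i', hi, hj⟩ := h3 (e.symm i)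
    refine ⟨e i', fun h => hi ?_, fun j => by simpa using hj (f.symm j)⟩
    rw [← h]; simp
  · intro j
    obtain ⟨i', hi, hj⟩ := h4 (f.symm j)
    refine ⟨f i', fun h => hi ?_, fun j => by simpa using hj (e.symm j)⟩
    rw [← h]; simp

lemma DoubleMatrix.diag {a b g a' b' g' : ℕ} (h : DoubleMatrix a b g)
    (h' : DoubleMatrix a' b' g') : DoubleMatrix (a + a') (b + b') (g + g') := by
  obtain ⟨M, hg, h1, h2, h3, h4⟩ := h
  obtain ⟨M', hg', h1', h2', h3', h4'⟩ := h'
  have := dm_of_types (X := Fin a ⊕ Fin a') (Y := Fin b ⊕ Fin b')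
    (fun i j => Sum.elim (fun i => Sum.elim (fun j => M i j) (fun _ => false) j)
      (fun i => Sum.elim (fun _ => false) (fun j => M' i j) j) i)
    (by
      rintro (i | i)
      · obtain ⟨j, hj⟩ := h1 i; exact ⟨Sum.inl j, hj⟩
      · obtain ⟨j, hj⟩ := h1' i; exact ⟨Sum.inr j, hj⟩)
    (by
      rintro (i | i)
      · obtain ⟨j, hj⟩ := h2 i; exact ⟨Sum.inl j, hj⟩
      · obtain ⟨j, hj⟩ := h2' i; exact ⟨Sum.inr j, hj⟩)
    (by
      rintro (i | i)
      · obtain ⟨i', hi, hj⟩ := h3 i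
        refine ⟨Sum.inl i', fun h => hi (Sum.inl.inj h), ?_⟩
        rintro (j | j)
        · exact hj j
        · rfl
      · obtain ⟨i', hi, hj⟩ := h3' i
        refine ⟨Sum.inr i', fun h => hi (Sum.inr.inj h), ?_⟩
        rintro (j | j)
        · rfl
        · exact hj j)
    (by
      rintro (i | i)
      · obtain ⟨i', hi, hj⟩ := h4 i
        refine ⟨Sum.inl i', fun h => hi (Sum.inl.inj h), ?_⟩
        rintro (j | j)
        · exact hj j
        · rfl
      · obtain ⟨i', hi, hj⟩ := h4' i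
        refine ⟨Sum.inr i', fun h => hi (Sum.inr.inj h), ?_⟩
        rintro (j | j)
        · rfl
        · exact hj j)
  simp only [Fintype.card_sum, Fintype.card_fin, Fintype.sum_sum_type, Sum.elim_inl,
    Sum.elim_inr, Bool.toNat_false, Finset.sum_const_zero, add_zero, zero_add] at this
  rwa [hg, hg'] at this

lemma DoubleMatrix.rows {a b g : ℕ} (h : DoubleMatrix a b g) {p : ℕ} (hp : 2 ≤ p)
    (ha : 0 < a) : DoubleMatrix (a + p) b (g + p * b) := by
  obtain ⟨M, hg, h1, h2, h3, h4⟩ := h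
  obtain ⟨j0, -⟩ := h1 ⟨0, ha⟩
  have := dm_of_types (X := Fin a ⊕ Fin p) (Y := Fin b)
    (fun i j => Sum.elim (fun i => M i j) (fun _ => true) i)
    (by
      rintro (i | i)
      · exact h1 i
      · exact ⟨j0, rfl⟩)
    (by
      intro j
      obtain ⟨i, hi⟩ := h2 j
      exact ⟨Sum.inl i, hi⟩)
    (by
      rintro (i | i)
      · obtain ⟨i', hi, hj⟩ := h3 i
        exact ⟨Sum.inl i', fun h => hi (Sum.inl.inj h), hj⟩
      · have : Nontrivial (Fin p) := Fin.nontrivial_iff_two_le.2 hp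
        obtain ⟨i', hi⟩ := exists_ne i
        exact ⟨Sum.inr i', fun h => hi (Sum.inr.inj h), fun _ => rfl⟩)
    (by
      intro j
      obtain ⟨j', hj, hi⟩ := h4 j
      refine ⟨j', hj, ?_⟩
      rintro (i | i)
      · exact hi i
      · rfl)
  simp only [Fintype.card_sum, Fintype.card_fin, Fintype.sum_sum_type, Sum.elim_inl,
    Sum.elim_inr, Bool.toNat_true, Finset.sum_const, Finset.card_univ, smul_eq_mul,
    mul_one] at this
  rwa [hg] at this

lemma DoubleMatrix.symm {a b g : ℕ} (h : DoubleMatrix a b g) : DoubleMatrix b a g := by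
  obtain ⟨M, hg, h1, h2, h3, h4⟩ := h
  exact ⟨fun i j => M j i, by rw [Finset.sum_comm]; exact hg, h2, h1, h4, h3⟩

lemma DoubleMatrix.cols {a b g : ℕ} (h : DoubleMatrix a b g) {q : ℕ} (hq : 2 ≤ q)
    (hb : 0 < b) : DoubleMatrix a (b + q) (g + q * a) :=
  (h.symm.rows hq hb).symm

/-- The universal construction. -/
lemma dm_of_weights {k l : ℕ} (p : Fin k → ℕ) (q : Fin l → ℕ) (N : Fin k → Fin l → Bool)
    (hp : ∀ i, p i ≠ 1) (hq : ∀ j, q j ≠ 1)
    (hr : ∀ i, p i ≠ 0 → ∃ j, q j ≠ 0 ∧ N i j = true)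
    (hc : ∀ j, q j ≠ 0 → ∃ i, p i ≠ 0 ∧ N i j = true) {a b g : ℕ} (ha : ∑ i, p i = a)
    (hb : ∑ j, q j = b) (hg : ∑ i, p i * ∑ j, q j * (N i j).toNat = g) : DoubleMatrix a b g := by
  have := dm_of_types (X := Σ i : Fin k, Fin (p i)) (Y := Σ j : Fin l, Fin (q j))
    (fun i j => N i.1 j.1)
    (by
      rintro ⟨i, s⟩
      obtain ⟨j, hj, hN⟩ := hr i (by have := s.2; omega)
      exact ⟨⟨j, ⟨0, by omega⟩⟩, hN⟩)
    (by
      rintro ⟨i, s⟩
      obtain ⟨j, hj, hN⟩ := hc i (by have := s.2; omega)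
      exact ⟨⟨j, ⟨0, by omega⟩⟩, hN⟩)
    (by
      rintro ⟨i, s⟩
      have : Nontrivial (Fin (p i)) := Fin.nontrivial_iff_two_le.2 (by
        have := s.2; have := hp i; omega)
      obtain ⟨s', hs⟩ := exists_ne s
      refine ⟨⟨i, s'⟩, fun h => hs ?_, fun _ => rfl⟩
      simpa using h)
    (by
      rintro ⟨i, s⟩
      have : Nontrivial (Fin (q i)) := Fin.nontrivial_iff_two_le.2 (by
        have := s.2; have := hq i; omega)
      obtain ⟨s', hs⟩ := exists_ne s
      refine ⟨⟨i, s'⟩, fun h => hs ?_, fun _ => rfl⟩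
      simpa using h)
  simp only [Fintype.card_sigma, Fintype.card_fin, Fintype.sum_sigma, Finset.sum_const,
    Finset.card_univ, smul_eq_mul] at this
  rwa [ha, hb, hg] at this

end Pool.Agent.Helper738F4
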