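import Pool.Agent.helper738_F4.Double

/-!
# Reduction of doubled matrices to row and column classes of size two or three
-/

open Finset

namespace Pool.Agent.Helper738F4

/-- Splitting into parts with two or three elements on which `f` is constant. -/
lemma exists_parts {X C : Type} [DecidableEq X] [DecidableEq C] (f : X → C) :
    ∀ (n : ℕ) (s : Finset X), #s = n → (∀ x ∈ s, ∃ x' ∈ s, x' ≠ x ∧ f x' = f x) →
      ∃ P : Finpartition s, ∀ A ∈ P.parts, (#A = 2 ∨ #A = 3) ∧ ∀ x ∈ A, ∀ y ∈ A, f x = f y := by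
  intro n
  induction n using Nat.strong_induction_on with
  | _ n ih =>
    intro s hs h
    rcases s.eq_empty_or_nonempty with rfl | ⟨x, hx⟩
    · exact ⟨Finpartition.empty _, by simp⟩
    · set F := s.filter (fun y => f y = f x) with hF
      have hxF : x ∈ F := by simp [hF, hx]
      obtain ⟨x', hx', hne, hfx⟩ := h x hx
      have hxF' : x' ∈ F := by simp [hF, hx', hfx]
      have h2 : 2 ≤ #F := by
        have : ({x, x'} : Finset X) ⊆ F := by
          intro a ha
          simp only [mem_insert, mem_singleton] at ha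
          rcases ha with rfl | rfl <;> assumption
        have h3 := card_le_card this
        rwa [card_pair hne.symm] at h3
      obtain ⟨A, hAF, hA, hrest⟩ : ∃ A ⊆ F, (#A = 2 ∨ #A = 3) ∧
          (#(F \ A) = 0 ∨ 2 ≤ #(F \ A)) := by
        by_cases h3 : #F = 3
        · exact ⟨F, Subset.refl _, Or.inr h3, Or.inl (by simp)⟩
        · obtain ⟨A, hAF, hA⟩ := Finset.exists_subset_card_eq h2
          refine ⟨A, hAF, Or.inl hA, ?_⟩
          rw [card_sdiff_of_subset hAF]
          omega
      have hAs : A ⊆ s := hAF.trans (Finset.filter_subset _ _)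
      have hfA : ∀ y ∈ A, f y = f x := fun y hy => by
        have := hAF hy
        simp only [hF, mem_filter] at this
        exact this.2
      have hlt : #(s \ A) < n := by
        rw [card_sdiff_of_subset hAs]
        have := card_le_card hAs
        omega
      obtain ⟨P, hP⟩ := ih _ hlt (s \ A) rfl (by
        intro y hy
        rw [mem_sdiff] at hy
        by_cases hfy : f y = f x
        · have hyFA : y ∈ F \ A := by simp [hF, hy, hfy]
          have h4 : 1 < #(F \ A) := by
            have := card_pos.2 ⟨y, hyFA⟩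
            omega
          obtain ⟨z, hz, hzy⟩ := Finset.exists_mem_ne h4 y
          simp only [hF, mem_sdiff, mem_filter] at hz
          exact ⟨z, mem_sdiff.2 ⟨hz.1.1, hz.2⟩, hzy, by rw [hz.1.2, hfy]⟩
        · obtain ⟨z, hz, hzy, hfz⟩ := h y hy.1
          refine ⟨z, mem_sdiff.2 ⟨hz, fun hzA => hfy ?_⟩, hzy, hfz⟩
          rw [← hfz, hfA z hzA])
      have hne' : A ≠ ⊥ := by
        rintro rfl
        simp at hA
      refine ⟨P.extend hne' (Finset.sdiff_disjoint) (by
        rw [Finset.sup_eq_union, Finset.sdiff_union_of_subset hAs]), ?_⟩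
      intro B hB
      rw [Finpartition.extend_parts, mem_insert] at hB
      rcases hB with rfl | hB
      · exact ⟨hA, fun x hx y hy => by rw [hfA x hx, hfA y hy]⟩
      · exact hP B hB

lemma sum_parts {X : Type} [DecidableEq X] {s : Finset X} (P : Finpartition s) (φ : X → ℕ) :
    ∑ x ∈ s, φ x = ∑ A ∈ P.parts, ∑ x ∈ A, φ x := by
  conv_lhs => rw [← P.biUnion_parts]
  rw [Finset.sum_biUnion P.disjoint]
  rfl

/-- The sum over parts with two or three elements. -/
lemma sum_two_three {X : Type} {P : Finset (Finset X)} (hP : ∀ A ∈ P, #A = 2 ∨ #A = 3)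
    (φ : Finset X → ℕ) : ∑ A ∈ P, #A * φ A =
      2 * ∑ A ∈ P with #A = 2, φ A + 3 * ∑ A ∈ P with #A = 3, φ A := by
  rw [Finset.mul_sum, Finset.mul_sum, Finset.sum_filter, Finset.sum_filter,
    ← Finset.sum_add_distrib]
  refine Finset.sum_congr rfl fun A hA => ?_
  rcases hP A hA with h | h <;> simp [h]

lemma sum_two_three' {X : Type} {P : Finset (Finset X)} (hP : ∀ A ∈ P, #A = 2 ∨ #A = 3)
    (φ : Finset X → ℕ) : ∑ A ∈ P, φ A =
      ∑ A ∈ P with #A = 2, φ A + ∑ A ∈ P with #A = 3, φ A := by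
  rw [Finset.sum_filter, Finset.sum_filter, ← Finset.sum_add_distrib]
  refine Finset.sum_congr rfl fun A hA => ?_
  rcases hP A hA with h | h <;> simp [h]

open Classical in
/-- The numbers of ones between classes of the two sizes. -/
lemma reduced {a b g : ℕ} (h : DoubleMatrix a b g) :
    ∃ k2 k3 l2 l3 n22 n23 n32 n33 : ℕ, 2 * k2 + 3 * k3 = a ∧ 2 * l2 + 3 * l3 = b ∧
      g = 4 * n22 + 6 * n23 + 6 * n32 + 9 * n33 ∧ k2 ≤ n22 + n23 ∧ k3 ≤ n32 + n33 ∧
      l2 ≤ n22 + n32 ∧ l3 ≤ n23 + n33 ∧ n22 ≤ k2 * l2 ∧ n23 ≤ k2 * l3 ∧ n32 ≤ k3 * l2 ∧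
      n33 ≤ k3 * l3 := by
  obtain ⟨M, hg, hr, hc, hdr, hdc⟩ := h
  obtain ⟨P, hP⟩ := exists_parts (fun i => M i) _ (univ : Finset (Fin a)) rfl (by
    intro i _
    obtain ⟨i', hi, hj⟩ := hdr i
    exact ⟨i', mem_univ _, hi, funext hj⟩)
  obtain ⟨Q, hQ⟩ := exists_parts (fun j => fun i => M i j) _ (univ : Finset (Fin b)) rfl (by
    intro i _
    obtain ⟨i', hi, hj⟩ := hdc i
    exact ⟨i', mem_univ _, hi, funext hj⟩)
  have hPc : ∀ A ∈ P.parts, #A = 2 ∨ #A = 3 := fun A hA => (hP A hA).1
  have hQc : ∀ A ∈ Q.parts, #A = 2 ∨ #A = 3 := fun A hA => (hQ A hA).1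
  set ν : Finset (Fin a) → Finset (Fin b) → ℕ := fun A B =>
    if ∃ i ∈ A, ∃ j ∈ B, M i j = true then 1 else 0 with hν
  have hν1 : ∀ A B, ν A B ≤ 1 := by
    intro A B
    simp only [hν]
    split_ifs <;> omega
  have hM : ∀ A ∈ P.parts, ∀ B ∈ Q.parts, ∀ i ∈ A, ∀ j ∈ B, (M i j).toNat = ν A B := by
    intro A hA B hB i hi j hj
    simp only [hν]
    split_ifs with h1
    · obtain ⟨i', hi', j', hj', h2⟩ := h1
      have h3 : M i j = M i' j := congrFun ((hP A hA).2 i hi i' hi') j
      have h4 : M i' j = M i' j' := congrFun ((hQ B hB).2 j hj j' hj') i'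
      rw [h3, h4, h2]; rfl
    · have : M i j = false := by
        by_contra h2
        exact h1 ⟨i, hi, j, hj, by simpa using h2⟩
      rw [this]; rfl
  set u : Finset (Fin a) → ℕ := fun A => ∑ B ∈ Q.parts with #B = 2, ν A B with hu
  set v : Finset (Fin a) → ℕ := fun A => ∑ B ∈ Q.parts with #B = 3, ν A B with hv
  refine ⟨#{A ∈ P.parts | #A = 2}, #{A ∈ P.parts | #A = 3}, #{A ∈ Q.parts | #A = 2},
    #{A ∈ Q.parts | #A = 3}, ∑ A ∈ P.parts with #A = 2, u A, ∑ A ∈ P.parts with #A = 2, v A,
    ∑ A ∈ P.parts with #A = 3, u A, ∑ A ∈ P.parts with #A = 3, v A,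
    ?_, ?_, ?_, ?_, ?_, ?_, ?_, ?_, ?_, ?_, ?_⟩
  · have h1 := sum_two_three hPc (fun _ => 1)
    simp only [mul_one, Finset.sum_const, smul_eq_mul] at h1
    rw [P.sum_card_parts, Finset.card_univ, Fintype.card_fin] at h1
    exact h1.symm
  · have h1 := sum_two_three hQc (fun _ => 1)
    simp only [mul_one, Finset.sum_const, smul_eq_mul] at h1
    rw [Q.sum_card_parts, Finset.card_univ, Fintype.card_fin] at h1
    exact h1.symm
  · rw [← hg, sum_parts P]
    have h1 : ∀ A ∈ P.parts, ∑ i ∈ A, ∑ j, (M i j).toNat = #A * (2 * u A + 3 * v A) := by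
      intro A hA
      have h2 : ∀ i ∈ A, ∑ j, (M i j).toNat = 2 * u A + 3 * v A := by
        intro i hi
        rw [sum_parts Q, hu, hv, ← sum_two_three hQc (fun B => ν A B)]
        refine Finset.sum_congr rfl fun B hB => ?_
        rw [Finset.sum_congr rfl fun j hj => hM A hA B hB i hi j hj]
        simp
      rw [Finset.sum_congr rfl h2]
      simp
    rw [Finset.sum_congr rfl h1, sum_two_three hPc]
    simp only [Finset.sum_add_distrib, ← Finset.mul_sum]
    ring
  · rw [← Finset.sum_add_distrib, Finset.card_eq_sum_ones]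
    refine Finset.sum_le_sum fun A hA => ?_
    rw [mem_filter] at hA
    obtain ⟨i, hi⟩ := card_pos.1 (show 0 < #A by omega)
    obtain ⟨j, hj⟩ := hr i
    obtain ⟨B, hB, hjB⟩ := Q.exists_mem (mem_univ j)
    have h1 := hM A hA.1 B hB i hi j hjB
    rw [hj] at h1
    simp only [hu, hv]
    rw [← sum_two_three' hQc]
    have h2 := Finset.single_le_sum (f := fun B => ν A B) (fun _ _ => Nat.zero_le _) hB
    simp only [← h1] at h2
    exact h2
  · rw [← Finset.sum_add_distrib, Finset.card_eq_sum_ones]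
    refine Finset.sum_le_sum fun A hA => ?_
    rw [mem_filter] at hA
    obtain ⟨i, hi⟩ := card_pos.1 (show 0 < #A by omega)
    obtain ⟨j, hj⟩ := hr i
    obtain ⟨B, hB, hjB⟩ := Q.exists_mem (mem_univ j)
    have h1 := hM A hA.1 B hB i hi j hjB
    rw [hj] at h1
    simp only [hu, hv]
    rw [← sum_two_three' hQc]
    have h2 := Finset.single_le_sum (f := fun B => ν A B) (fun _ _ => Nat.zero_le _) hB
    simp only [← h1] at h2
    exact h2
  · simp only [hu]
    rw [Finset.sum_comm, Finset.sum_comm (s := P.parts.filter fun A => #A = 3),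
      ← Finset.sum_add_distrib, Finset.card_eq_sum_ones]
    refine Finset.sum_le_sum fun B hB => ?_
    rw [mem_filter] at hB
    obtain ⟨j, hj⟩ := card_pos.1 (show 0 < #B by omega)
    obtain ⟨i, hi⟩ := hc j
    obtain ⟨A, hA, hiA⟩ := P.exists_mem (mem_univ i)
    have h1 := hM A hA B hB.1 i hiA j hj
    rw [hi] at h1
    rw [← sum_two_three' hPc]
    have h2 := Finset.single_le_sum (f := fun A => ν A B) (fun _ _ => Nat.zero_le _) hA
    simp only [← h1] at h2
    exact h2
  · simp only [hv]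
    rw [Finset.sum_comm, Finset.sum_comm (s := P.parts.filter fun A => #A = 3),
      ← Finset.sum_add_distrib, Finset.card_eq_sum_ones]
    refine Finset.sum_le_sum fun B hB => ?_
    rw [mem_filter] at hB
    obtain ⟨j, hj⟩ := card_pos.1 (show 0 < #B by omega)
    obtain ⟨i, hi⟩ := hc j
    obtain ⟨A, hA, hiA⟩ := P.exists_mem (mem_univ i)
    have h1 := hM A hA B hB.1 i hiA j hj
    rw [hi] at h1
    rw [← sum_two_three' hPc]
    have h2 := Finset.single_le_sum (f := fun A => ν A B) (fun _ _ => Nat.zero_le _) hA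
    simp only [← h1] at h2
    exact h2
  all_goals
    simp only [hu, hv]
    calc _ ≤ _ := Finset.sum_le_sum fun A _ => Finset.sum_le_sum fun B _ => hν1 A B
      _ = _ := by simp

end Pool.Agent.Helper738F4
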