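import Pool.Agent.helper738_F4.ZOps
import Pool.Agent.helper738_F4.ZNec

/-!
# Concrete doubled matrices and small numbers of rows
-/

open Finset

namespace Pool.Agent.Helper738F4

lemma dm_7_7_22 : DoubleMatrix 7 7 22 :=
  dm_of_weights ![2, 2, 3] ![2, 2, 3]
    (fun i j => (![1, 4, 3] i : ℕ).testBit j)
    (by decide) (by decide) (by decide) (by decide) (by decide) (by decide) (by decide)

lemma dm_7_7_24 : DoubleMatrix 7 7 24 :=
  dm_of_weights ![2, 2, 3] ![2, 2, 3]
    (fun i j => (![1, 7, 1] i : ℕ).testBit j)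
    (by decide) (by decide) (by decide) (by decide) (by decide) (by decide) (by decide)

lemma dm_7_7_26 : DoubleMatrix 7 7 26 :=
  dm_of_weights ![2, 2, 3] ![2, 2, 3]
    (fun i j => (![1, 5, 3] i : ℕ).testBit j)
    (by decide) (by decide) (by decide) (by decide) (by decide) (by decide) (by decide)

lemma dm_7_7_27 : DoubleMatrix 7 7 27 :=
  dm_of_weights ![2, 2, 3] ![2, 2, 3]
    (fun i j => (![1, 3, 5] i : ℕ).testBit j)
    (by decide) (by decide) (by decide) (by decide) (by decide) (by decide) (by decide)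

lemma dm_7_7_28 : DoubleMatrix 7 7 28 :=
  dm_of_weights ![2, 2, 3] ![2, 2, 3]
    (fun i j => (![3, 7, 1] i : ℕ).testBit j)
    (by decide) (by decide) (by decide) (by decide) (by decide) (by decide) (by decide)

lemma dm_7_7_35 : DoubleMatrix 7 7 35 :=
  dm_of_weights ![2, 2, 3] ![2, 2, 3]
    (fun i j => (![1, 5, 7] i : ℕ).testBit j)
    (by decide) (by decide) (by decide) (by decide) (by decide) (by decide) (by decide)

lemma dm_7_8_27 : DoubleMatrix 7 8 27 :=
  dm_of_weights ![2, 2, 3] ![2, 3, 3]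
    (fun i j => (![2, 2, 5] i : ℕ).testBit j)
    (by decide) (by decide) (by decide) (by decide) (by decide) (by decide) (by decide)

lemma dm_7_8_31 : DoubleMatrix 7 8 31 :=
  dm_of_weights ![2, 2, 3] ![2, 3, 3]
    (fun i j => (![1, 6, 3] i : ℕ).testBit j)
    (by decide) (by decide) (by decide) (by decide) (by decide) (by decide) (by decide)

lemma dm_7_8_32 : DoubleMatrix 7 8 32 :=
  dm_of_weights ![2, 2, 3] ![2, 3, 3]
    (fun i j => (![1, 1, 7] i : ℕ).testBit j)
    (by decide) (by decide) (by decide) (by decide) (by decide) (by decide) (by decide)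

lemma dm_7_8_33 : DoubleMatrix 7 8 33 :=
  dm_of_weights ![2, 2, 3] ![2, 3, 3]
    (fun i j => (![2, 6, 3] i : ℕ).testBit j)
    (by decide) (by decide) (by decide) (by decide) (by decide) (by decide) (by decide)

lemma dm_7_8_39 : DoubleMatrix 7 8 39 :=
  dm_of_weights ![2, 2, 3] ![2, 3, 3]
    (fun i j => (![6, 6, 3] i : ℕ).testBit j)
    (by decide) (by decide) (by decide) (by decide) (by decide) (by decide) (by decide)

lemma dm_7_9_28 : DoubleMatrix 7 9 28 :=
  dm_of_weights ![2, 2, 3] ![2, 2, 2, 3]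
    (fun i j => (![1, 8, 7] i : ℕ).testBit j)
    (by decide) (by decide) (by decide) (by decide) (by decide) (by decide) (by decide)

lemma dm_7_9_32 : DoubleMatrix 7 9 32 :=
  dm_of_weights ![2, 2, 3] ![2, 2, 2, 3]
    (fun i j => (![1, 9, 7] i : ℕ).testBit j)
    (by decide) (by decide) (by decide) (by decide) (by decide) (by decide) (by decide)

lemma dm_8_8_26 : DoubleMatrix 8 8 26 :=
  dm_of_weights ![2, 3, 3] ![2, 2, 2, 2]
    (fun i j => (![3, 1, 12] i : ℕ).testBit j)
    (by decide) (by decide) (by decide) (by decide) (by decide) (by decide) (by decide)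

lemma dm_8_8_27 : DoubleMatrix 8 8 27 :=
  dm_of_weights ![2, 3, 3] ![2, 3, 3]
    (fun i j => (![2, 1, 5] i : ℕ).testBit j)
    (by decide) (by decide) (by decide) (by decide) (by decide) (by decide) (by decide)

lemma dm_8_8_33 : DoubleMatrix 8 8 33 :=
  dm_of_weights ![2, 3, 3] ![2, 3, 3]
    (fun i j => (![6, 1, 3] i : ℕ).testBit j)
    (by decide) (by decide) (by decide) (by decide) (by decide) (by decide) (by decide)

lemma dm_8_8_37 : DoubleMatrix 8 8 37 :=
  dm_of_weights ![2, 3, 3] ![2, 3, 3]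
    (fun i j => (![1, 2, 7] i : ℕ).testBit j)
    (by decide) (by decide) (by decide) (by decide) (by decide) (by decide) (by decide)

lemma dm_8_8_39 : DoubleMatrix 8 8 39 :=
  dm_of_weights ![2, 3, 3] ![2, 3, 3]
    (fun i j => (![2, 2, 7] i : ℕ).testBit j)
    (by decide) (by decide) (by decide) (by decide) (by decide) (by decide) (by decide)

lemma dm_8_9_41 : DoubleMatrix 8 9 41 :=
  dm_of_weights ![2, 3, 3] ![2, 2, 2, 3]
    (fun i j => (![3, 1, 15] i : ℕ).testBit j)
    (by decide) (by decide) (by decide) (by decide) (by decide) (by decide) (by decide)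

lemma dm_8_9_43 : DoubleMatrix 8 9 43 :=
  dm_of_weights ![2, 3, 3] ![2, 2, 2, 3]
    (fun i j => (![1, 3, 15] i : ℕ).testBit j)
    (by decide) (by decide) (by decide) (by decide) (by decide) (by decide) (by decide)

lemma dm_8_10_33 : DoubleMatrix 8 10 33 :=
  dm_of_weights ![2, 3, 3] ![2, 2, 3, 3]
    (fun i j => (![4, 1, 11] i : ℕ).testBit j)
    (by decide) (by decide) (by decide) (by decide) (by decide) (by decide) (by decide)

lemma dm_8_10_39 : DoubleMatrix 8 10 39 :=
  dm_of_weights ![2, 3, 3] ![2, 2, 3, 3]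
    (fun i j => (![4, 3, 11] i : ℕ).testBit j)
    (by decide) (by decide) (by decide) (by decide) (by decide) (by decide) (by decide)

lemma dm_8_10_45 : DoubleMatrix 8 10 45 :=
  dm_of_weights ![2, 3, 3] ![2, 2, 3, 3]
    (fun i j => (![4, 4, 15] i : ℕ).testBit j)
    (by decide) (by decide) (by decide) (by decide) (by decide) (by decide) (by decide)

lemma dm_8_10_51 : DoubleMatrix 8 10 51 :=
  dm_of_weights ![2, 3, 3] ![2, 2, 3, 3]
    (fun i j => (![4, 5, 15] i : ℕ).testBit j)
    (by decide) (by decide) (by decide) (by decide) (by decide) (by decide) (by decide)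


lemma dm_two {b : ℕ} (hb : 2 ≤ b) : DoubleMatrix 2 b (2 * b) := by
  refine dm_of_weights ![2] ![b] (fun _ _ => true) ?_ ?_ ?_ ?_ ?_ ?_ ?_
  · simp
  · intro j; fin_cases j; simp; omega
  · intro i _; exact ⟨0, by simp; omega, rfl⟩
  · intro i _; exact ⟨0, by simp, rfl⟩
  · simp
  · simp
  · simp

lemma dm_three {b : ℕ} (hb : 2 ≤ b) : DoubleMatrix 3 b (3 * b) := by
  refine dm_of_weights ![3] ![b] (fun _ _ => true) ?_ ?_ ?_ ?_ ?_ ?_ ?_
  · simp
  · intro j; fin_cases j; simp; omega
  · intro i _; exact ⟨0, by simp; omega, rfl⟩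
  · intro i _; exact ⟨0, by simp, rfl⟩
  · simp
  · simp
  · simp

/-- Two classes of rows. -/
lemma dm_two_classes (p p' m1 m2 m3 : ℕ) (hp : 2 ≤ p) (hp' : 2 ≤ p') (h1 : m1 ≠ 1)
    (h2 : m2 ≠ 1) (h3 : m3 ≠ 1) (h13 : m1 ≠ 0 ∨ m3 ≠ 0) (h23 : m2 ≠ 0 ∨ m3 ≠ 0) {a b g : ℕ}
    (ha : p + p' = a) (hb : m1 + m2 + m3 = b) (hg : p * (m1 + m3) + p' * (m2 + m3) = g) :
    DoubleMatrix a b g := by
  refine dm_of_weights ![p, p'] ![m1, m2, m3]
    (fun i j => (![5, 6] i : ℕ).testBit j) ?_ ?_ ?_ ?_ ?_ ?_ ?_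
  · intro i; fin_cases i <;> simp <;> omega
  · intro j; fin_cases j <;> simp <;> omega
  · intro i _
    fin_cases i
    · rcases h13 with h | h
      · exact ⟨0, by simpa using h, by decide⟩
      · exact ⟨2, by simpa using h, by decide⟩
    · rcases h23 with h | h
      · exact ⟨1, by simpa using h, by decide⟩
      · exact ⟨2, by simpa using h, by decide⟩
  · intro j _
    fin_cases j
    · exact ⟨0, by simp; omega, by decide⟩
    · exact ⟨1, by simp; omega, by decide⟩
    · exact ⟨0, by simp; omega, by decide⟩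
  · simp [Fin.sum_univ_succ]; omega
  · simp [Fin.sum_univ_succ]; omega
  · have e1 : (Nat.testBit 5 0).toNat = 1 := by decide
    have e2 : (Nat.testBit 5 1).toNat = 0 := by decide
    have e3 : (Nat.testBit 5 2).toNat = 1 := by decide
    have e4 : (Nat.testBit 6 0).toNat = 0 := by decide
    have e5 : (Nat.testBit 6 1).toNat = 1 := by decide
    have e6 : (Nat.testBit 6 2).toNat = 1 := by decide
    simp only [Fin.sum_univ_succ, Fin.sum_univ_zero]
    simp only [Matrix.cons_val_zero, Matrix.cons_val_succ, Fin.val_zero, Fin.val_succ,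
      zero_add, e1, e2, e3, e4, e5, e6, Nat.reduceAdd]
    rw [← hg]
    ring

/-- Three classes of two rows. -/
lemma dm_three_classes (m1 m2 m3 m4 m5 : ℕ) (h1 : m1 ≠ 1)
    (h2 : m2 ≠ 1) (h3 : m3 ≠ 1) (h4 : m4 ≠ 1) (h5 : m5 ≠ 1) (r1 : m1 ≠ 0 ∨ m4 ≠ 0 ∨ m5 ≠ 0)
    (r2 : m2 ≠ 0 ∨ m4 ≠ 0 ∨ m5 ≠ 0) (r3 : m3 ≠ 0 ∨ m5 ≠ 0) {b g : ℕ}
    (hb : m1 + m2 + m3 + m4 + m5 = b)
    (hg : 2 * (m1 + m4 + m5) + 2 * (m2 + m4 + m5) + 2 * (m3 + m5) = g) :
    DoubleMatrix 6 b g := by
  refine dm_of_weights ![2, 2, 2] ![m1, m2, m3, m4, m5]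
    (fun i j => (![25, 26, 20] i : ℕ).testBit j) ?_ ?_ ?_ ?_ ?_ ?_ ?_
  · intro i; fin_cases i <;> simp
  · intro j; fin_cases j <;> simp <;> omega
  · intro i _
    fin_cases i
    · rcases r1 with h | h | h
      · exact ⟨0, by simpa using h, by decide⟩
      · exact ⟨3, by simpa using h, by decide⟩
      · exact ⟨4, by simpa using h, by decide⟩
    · rcases r2 with h | h | h
      · exact ⟨1, by simpa using h, by decide⟩
      · exact ⟨3, by simpa using h, by decide⟩
      · exact ⟨4, by simpa using h, by decide⟩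
    · rcases r3 with h | h
      · exact ⟨2, by simpa using h, by decide⟩
      · exact ⟨4, by simpa using h, by decide⟩
  · intro j _
    fin_cases j
    · exact ⟨0, by simp, by decide⟩
    · exact ⟨1, by simp, by decide⟩
    · exact ⟨2, by simp, by decide⟩
    · exact ⟨0, by simp, by decide⟩
    · exact ⟨0, by simp, by decide⟩
  · simp [Fin.sum_univ_succ]
  · simp [Fin.sum_univ_succ]; omega
  · have e0 : (Nat.testBit 25 0).toNat = 1 := by decide
    have e1 : (Nat.testBit 25 1).toNat = 0 := by decide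
    have e2 : (Nat.testBit 25 2).toNat = 0 := by decide
    have e3 : (Nat.testBit 25 3).toNat = 1 := by decide
    have e4 : (Nat.testBit 25 4).toNat = 1 := by decide
    have f0 : (Nat.testBit 26 0).toNat = 0 := by decide
    have f1 : (Nat.testBit 26 1).toNat = 1 := by decide
    have f2 : (Nat.testBit 26 2).toNat = 0 := by decide
    have f3 : (Nat.testBit 26 3).toNat = 1 := by decide
    have f4 : (Nat.testBit 26 4).toNat = 1 := by decide
    have g0 : (Nat.testBit 20 0).toNat = 0 := by decide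
    have g1 : (Nat.testBit 20 1).toNat = 0 := by decide
    have g2 : (Nat.testBit 20 2).toNat = 1 := by decide
    have g3 : (Nat.testBit 20 3).toNat = 0 := by decide
    have g4 : (Nat.testBit 20 4).toNat = 1 := by decide
    simp only [Fin.sum_univ_succ, Fin.sum_univ_zero]
    simp only [Matrix.cons_val_zero, Matrix.cons_val_succ, Fin.val_zero, Fin.val_succ,
      zero_add, e0, e1, e2, e3, e4, f0, f1, f2, f3, f4, g0, g1, g2, g3, g4, Nat.reduceAdd]
    rw [← hg]
    ring

end Pool.Agent.Helper738F4
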