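import Pool.Agent.helper738_F4.ZSmall

/-!
# All doubled matrices
-/

open Finset

namespace Pool.Agent.Helper738F4

/-- The conditions on large values. -/
def TopOK (g p : ℕ) : Prop :=
  g + 1 ≠ p ∧ g + 2 ≠ p ∧ g + 3 ≠ p ∧ g + 5 ≠ p ∧ g + 7 ≠ p ∧ g + 11 ≠ p

lemma TopOK.shift {g p c : ℕ} (h : TopOK (g + c) (p + c)) : TopOK g p := by
  obtain ⟨h1, h2, h3, h4, h5, h6⟩ := h
  exact ⟨fun h => h1 (by rw [← h]; ring), fun h => h2 (by rw [← h]; ring),
    fun h => h3 (by rw [← h]; ring), fun h => h4 (by rw [← h]; ring),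
    fun h => h5 (by rw [← h]; ring), fun h => h6 (by rw [← h]; ring)⟩

lemma TopOK.far {g p : ℕ} (h : g + 12 ≤ p) : TopOK g p :=
  ⟨by omega, by omega, by omega, by omega, by omega, by omega⟩

/-- The conditions of the case `B = 0` in a form for induction; `p` stands for `a * b`. -/
def ZC (a b g p : ℕ) : Prop :=
  2 ≤ a ∧ a ≤ b ∧ 2 * b ≤ g ∧ g ≤ p ∧ g ≠ 2 * b + 1 ∧ (a % 2 = 1 → g ≠ 2 * b) ∧
    (a % 2 = 0 → g ≠ 2 * b + 2 ∧ g ≠ 2 * b + 3) ∧ (a % 2 = 1 → a = b → g ≠ 2 * b + 4) ∧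
    (a % 2 = 1 → b ≤ a + 1 → g ≠ 2 * b + 5) ∧ (a % 2 = 0 → a = b → g ≠ 2 * b + 7) ∧
    TopOK g p ∧ (a = 3 → g = 3 * b) ∧ (a = 4 → g % 2 = 0) ∧ (a = 5 → g = 2 * b + 7 → 9 ≤ b) ∧
    (a = 6 → g % 2 = 1 → g % 3 = 0 ∧ 3 * b ≤ g ∧ g ≠ 3 * b + 3 ∧ g + 3 ≠ 6 * b) ∧
    (a = 6 → b = 6 → g ≠ 22 ∧ g ≠ 26) ∧
    (a = 8 → b = 8 → g ≠ 29 ∧ g ≠ 35 ∧ g ≠ 41 ∧ g ≠ 47)

lemma zc_four {b g : ℕ} (h : ZC 4 b g (4 * b)) : DoubleMatrix 4 b g := by
  obtain ⟨-, hab, hl, hu, -, -, he, -, -, -, ⟨-, t2, -⟩, -, h4, -⟩ := h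
  have he' := (he (by norm_num)).1
  have h4' := h4 rfl
  clear he h4
  obtain ⟨m, rfl⟩ : ∃ m, g = 2 * b + 2 * m := ⟨(g - 2 * b) / 2, by clear t2 he'; omega⟩
  clear h4'
  have hm : m ≠ 1 := by rintro rfl; exact he' rfl
  have hb : m ≤ b := by clear t2 he'; omega
  have hb' : m + 1 ≠ b := by intro h; apply t2; clear t2 he'; omega
  clear t2 he' hu hl
  rcases Nat.eq_zero_or_pos m with h0 | h0
  · exact dm_two_classes 2 2 2 (b - 2) 0 (by norm_num) (by norm_num) (by omega) (by omega)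
      (by omega) (by omega) (by omega) (by omega) (by omega) (by omega)
  · exact dm_two_classes 2 2 (b - m) 0 m (by norm_num) (by norm_num) (by omega) (by omega)
      (by omega) (by omega) (by omega) (by omega) (by omega) (by omega)

lemma dm5 (m1 m2 m3 : ℕ) (h1 : m1 ≠ 1) (h2 : m2 ≠ 1) (h3 : m3 ≠ 1) (h13 : m1 ≠ 0 ∨ m3 ≠ 0)
    (h23 : m2 ≠ 0 ∨ m3 ≠ 0) {b g : ℕ} (hb : b = m1 + m2 + m3)
    (hg : g = 2 * m1 + 3 * m2 + 5 * m3) : DoubleMatrix 5 b g :=
  dm_two_classes 2 3 m1 m2 m3 (by norm_num) (by norm_num) h1 h2 h3 h13 h23 rfl hb.symm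
    (by rw [hg]; ring)

lemma zc_five {b g : ℕ} (h : ZC 5 b g (5 * b)) : DoubleMatrix 5 b g := by
  obtain ⟨-, hab, hl, hu, n1, n0, -, n4, n5, -, ⟨t1, t2, t3, t5, t7, t11⟩, -, -, n7, -⟩ := h
  have n0' := n0 (by norm_num)
  have n4' := n4 (by norm_num)
  have n5' := n5 (by norm_num)
  have n7' := n7 rfl
  clear n0 n4 n5 n7
  obtain ⟨s, hs⟩ : ∃ s, g = 2 * b + 3 * s ∨ g = 2 * b + 3 * s + 1 ∨ g = 2 * b + 3 * s + 2 :=
    ⟨(g - 2 * b) / 3, by clear n0' n4' n5' n7' n1 t1 t2 t3 t5 t7 t11 hu; omega⟩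
  rcases hs with rfl | rfl | rfl
  · clear n4' n5' n7' t1 t2 t5 t7 t11 n1 hl
    have e0 : s ≠ 0 := by rintro rfl; exact n0' rfl
    have e1 : s ≤ b := by clear n0' t3; omega
    have e2 : s + 1 ≠ b := by rintro rfl; apply t3; ring
    clear n0' t3 hu
    by_cases h1 : s = 1
    · subst h1
      exact dm5 (b - 3) 3 0 (by omega) (by omega) (by omega) (by omega) (by omega) (by omega)
        (by omega)
    · obtain ⟨m, rfl⟩ := Nat.exists_eq_add_of_le e1
      exact dm5 m 0 s (by omega) (by omega) (by omega) (by omega) (by omega) (by omega)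
        (by omega)
  · clear n0' n5' t1 t3 t7 hl
    have e0 : s ≠ 0 := by rintro rfl; exact n1 rfl
    have e1 : s + 1 ≤ b := by clear n1 n4' n7' t2 t5 t11; omega
    have e2 : s + 1 ≠ b := by rintro rfl; apply t2; ring
    have e3 : s + 2 ≠ b := by rintro rfl; apply t5; ring
    have e4 : s + 4 ≠ b := by rintro rfl; apply t11; ring
    have e5 : s = 1 → b ≠ 5 := by rintro rfl rfl; exact n4' rfl rfl
    have e6 : s = 2 → 9 ≤ b := by rintro rfl; exact n7' (by ring)
    clear n1 n4' n7' t2 t5 t11 hu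
    rcases (show s = 1 ∨ s = 2 ∨ 3 ≤ s by omega) with h1 | h1 | h1
    · subst h1
      exact dm5 (b - 4) 4 0 (by omega) (by omega) (by omega) (by omega) (by omega) (by omega)
        (by omega)
    · subst h1
      exact dm5 (b - 7) 7 0 (by omega) (by omega) (by omega) (by omega) (by omega) (by omega)
        (by omega)
    · obtain ⟨m, rfl⟩ := Nat.exists_eq_add_of_le (show s + 3 ≤ b by omega)
      obtain ⟨r, rfl⟩ := Nat.exists_eq_add_of_le h1
      exact dm5 m 4 (2 + r) (by omega) (by omega) (by omega) (by omega) (by omega) (by omega)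
        (by omega)
  · clear n0' n4' n1 t2 t3 t5 t11 hl n7'
    have e1 : s + 1 ≤ b := by clear n5' t1 t7; omega
    have e2 : s + 1 ≠ b := by rintro rfl; apply t1; ring
    have e3 : s + 3 ≠ b := by rintro rfl; apply t7; ring
    have e4 : s = 1 → 7 ≤ b := by
      rintro rfl
      by_contra hb
      exact n5' (by clear t1 t7 e2 e3; omega) (by ring)
    clear t1 t7 hu n5'
    by_cases h1 : s = 1
    · subst h1
      exact dm5 (b - 5) 5 0 (by omega) (by omega) (by omega) (by omega) (by omega) (by omega)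
        (by omega)
    · obtain ⟨m, rfl⟩ := Nat.exists_eq_add_of_le (show s + 2 ≤ b by omega)
      exact dm5 m 2 s (by omega) (by omega) (by omega) (by omega) (by omega) (by omega)
        (by omega)

lemma dm6 (m1 m2 m3 m4 m5 : ℕ) (h1 : m1 ≠ 1)
    (h2 : m2 ≠ 1) (h3 : m3 ≠ 1) (h4 : m4 ≠ 1) (h5 : m5 ≠ 1) (r1 : m1 ≠ 0 ∨ m4 ≠ 0 ∨ m5 ≠ 0)
    (r2 : m2 ≠ 0 ∨ m4 ≠ 0 ∨ m5 ≠ 0) (r3 : m3 ≠ 0 ∨ m5 ≠ 0) {b g : ℕ}
    (hb : b = m1 + m2 + m3 + m4 + m5)
    (hg : g = 2 * m1 + 2 * m2 + 2 * m3 + 4 * m4 + 6 * m5) :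
    DoubleMatrix 6 b g :=
  dm_three_classes m1 m2 m3 m4 m5 h1 h2 h3 h4 h5 r1 r2 r3 hb.symm (by rw [hg]; ring)

lemma zc_six {b g : ℕ} (h : ZC 6 b g (6 * b)) : DoubleMatrix 6 b g := by
  obtain ⟨-, hab, hl, hu, -, -, ne, -, -, -, ⟨-, t2, -, -, -, -⟩, -, -, -, hodd, h66, -⟩ := h
  have ne' := (ne (by norm_num)).1
  have hodd' := hodd rfl
  have h66' := h66 rfl
  clear ne hodd h66
  rcases Nat.mod_two_eq_zero_or_one g with h2 | h2
  · clear hodd'
    obtain ⟨e, rfl⟩ : ∃ e, g = 2 * b + 2 * e := ⟨(g - 2 * b) / 2, by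
      clear t2 ne' h66'; omega⟩
    clear h2 hl
    have e1 : e ≠ 1 := by rintro rfl; exact ne' rfl
    have e2 : e ≤ 2 * b := by clear t2 ne' h66'; omega
    have e3 : e + 1 ≠ 2 * b := by intro h; apply t2; clear t2 ne' h66'; omega
    have e4 : b = 6 → e ≠ 5 ∧ e ≠ 7 := by
      intro hb
      constructor
      · rintro rfl; exact (h66' hb).1 (by rw [hb])
      · rintro rfl; exact (h66' hb).2 (by rw [hb])
    clear ne' t2 h66' hu
    rcases Nat.even_or_odd' e with ⟨c, rfl | rfl⟩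
    · rcases (show c = 0 ∨ c = 1 ∨ 2 ≤ c by omega) with h1 | h1 | h1
      · subst h1
        exact dm6 2 2 (b - 4) 0 0 (by omega) (by omega) (by omega) (by omega)
          (by omega) (by omega) (by omega) (by omega) (by omega) (by omega)
      · subst h1
        exact dm6 0 0 (b - 2) 2 0 (by omega) (by omega) (by omega) (by omega)
          (by omega) (by omega) (by omega) (by omega) (by omega) (by omega)
      · by_cases h3 : c + 1 = b
        · exact dm6 0 0 0 2 (b - 2) (by omega) (by omega) (by omega) (by omega)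
            (by omega) (by omega) (by omega) (by omega) (by omega) (by omega)
        · exact dm6 (b - c) 0 0 0 c (by omega) (by omega) (by omega)
            (by omega) (by omega) (by omega) (by omega) (by omega) (by omega) (by omega)
    · rcases (show c = 1 ∨ c = 2 ∨ 3 ≤ c by omega) with h1 | h1 | h1
      · subst h1
        exact dm6 0 0 (b - 3) 3 0 (by omega) (by omega) (by omega) (by omega)
          (by omega) (by omega) (by omega) (by omega) (by omega) (by omega)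
      · subst h1
        exact dm6 0 0 (b - 5) 5 0 (by omega) (by omega) (by omega) (by omega)
          (by omega) (by omega) (by omega) (by omega) (by omega) (by omega)
      · by_cases h3 : c + 3 = b
        · exact dm6 0 0 0 5 (b - 5) (by omega) (by omega) (by omega) (by omega)
            (by omega) (by omega) (by omega) (by omega) (by omega) (by omega)
        · exact dm6 (b - 2 - c) 0 0 3 (c - 1) (by omega) (by omega)
            (by omega) (by omega) (by omega) (by omega) (by omega) (by omega) (by omega)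
            (by omega)
  · obtain ⟨h3, h4, h5, h6⟩ := hodd' h2
    clear hodd' h66' ne' t2
    obtain ⟨c, rfl⟩ : ∃ c, g = 3 * (b + c) := ⟨g / 3 - b, by clear h5 h6; omega⟩
    have e1 : c ≠ 1 := by rintro rfl; apply h5; ring
    have e2 : c ≤ b := by clear h5 h6; omega
    have e3 : c + 1 ≠ b := by rintro rfl; apply h6; ring
    clear h5 h6 hu h4 h3 hl h2
    rcases Nat.eq_zero_or_pos c with h0 | h0
    · exact dm_two_classes 3 3 2 (b - 2) 0 (by norm_num) (by norm_num) (by omega) (by omega)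
        (by omega) (by omega) (by omega) (by omega) (by omega) (by omega)
    · exact dm_two_classes 3 3 (b - c) 0 c (by norm_num) (by norm_num) (by omega) (by omega)
        (by omega) (by omega) (by omega) (by omega) (by omega) (by omega)

end Pool.Agent.Helper738F4
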